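import Pool.Agent.SplNest.Defs

set_option autoImplicit false

namespace Pool.Agent.SplNest

open BinaryTree Pool.Agent.MP_c42954_lc.Scan Pool.Agent.SplPat Pool.Agent.SplAll

private theorem Bas_res_sub {lo hi v : ℕ} {t : BinaryTree ℕ} (h : v ∈ inorder (res lo hi t)) :
    v ∈ inorder t := by
  induction t with
  | nil => exact h
  | node a l r ihl ihr =>
    simp only [res] at h
    simp only [inorder, List.mem_append, List.mem_cons]
    split_ifs at h
    · exact Or.inr (Or.inr (ihr h))
    · exact Or.inl (ihl h)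
    · simp only [inorder, List.mem_append, List.mem_cons] at h
      rcases h with h | h | h
      · exact Or.inl (ihl h)
      · exact Or.inr (Or.inl h)
      · exact Or.inr (Or.inr (ihr h))

/-- BAS: elementary facts (all by induction on the tree, with `bst_node`). -/
theorem res_bst {lo hi : ℕ} {t : BinaryTree ℕ} (hb : IsBST t) : IsBST (res lo hi t) := by
  induction t with
  | nil => exact hb
  | node a l r ihl ihr =>
    obtain ⟨hl, hr, h1, h2⟩ := bst_node.1 hb
    simp only [res]
    split_ifs with h3 h4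
    · exact ihr hr
    · exact ihl hl
    · refine bst_node.2 ⟨ihl hl, ihr hr, fun v hv => h1 v ?_, fun v hv => h2 v ?_⟩
      · exact Bas_res_sub hv
      · exact Bas_res_sub hv

theorem res_mem {lo hi v : ℕ} {t : BinaryTree ℕ} (hb : IsBST t) :
    v ∈ inorder (res lo hi t) ↔ v ∈ inorder t ∧ lo ≤ v ∧ v < hi := by
  induction t with
  | nil => simp [res, inorder]
  | node a l r ihl ihr =>
    obtain ⟨hl, hr, h1, h2⟩ := bst_node.1 hb
    have ihl := ihl hl
    have ihr := ihr hr
    simp only [res, inorder, List.mem_append, List.mem_cons]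
    split_ifs with h3 h4
    · rw [ihr]
      constructor
      · rintro ⟨k1, k2, k3⟩
        exact ⟨Or.inr (Or.inr k1), k2, k3⟩
      · rintro ⟨k1 | k1 | k1, k2, k3⟩
        · have := h1 v k1
          omega
        · omega
        · exact ⟨k1, k2, k3⟩
    · rw [ihl]
      constructor
      · rintro ⟨k1, k2, k3⟩
        exact ⟨Or.inl k1, k2, k3⟩
      · rintro ⟨k1 | k1 | k1, k2, k3⟩
        · exact ⟨k1, k2, k3⟩
        · omega
        · have := h2 v k1
          omega
    · simp only [inorder, List.mem_append, List.mem_cons]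
      rw [ihl, ihr]
      constructor
      · rintro (⟨k1, k2, k3⟩ | k1 | ⟨k1, k2, k3⟩)
        · exact ⟨Or.inl k1, k2, k3⟩
        · exact ⟨Or.inr (Or.inl k1), by omega, by omega⟩
        · exact ⟨Or.inr (Or.inr k1), k2, k3⟩
      · rintro ⟨k1 | k1 | k1, k2, k3⟩
        · exact Or.inl ⟨k1, k2, k3⟩
        · exact Or.inr (Or.inl k1)
        · exact Or.inr (Or.inr ⟨k1, k2, k3⟩)

/-- The decomposition of `EE` at the root (unfold everything; `XL (node b l r) = XH b l`). -/
theorem EE_node {f F : ℕ → ℕ} {b : ℕ} {l r : BinaryTree ℕ} :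
    EE f F (.node b l r) = EL f F b l ∪ ER f F b r := by
  ext q
  simp only [EE, EL, ER, E0, XL, XR, Finset.mem_union]
  tauto

theorem SL_mem {v : ℕ} {t : BinaryTree ℕ} (h : v ∈ SL t) : v ∈ inorder t := by
  induction t with
  | nil => simp [SL] at h
  | node a l r ihl ihr =>
    simp only [SL, Finset.mem_insert] at h
    simp only [inorder, List.mem_append, List.mem_cons]
    rcases h with h | h
    · exact Or.inr (Or.inl h)
    · exact Or.inl (ihl h)

theorem SR_mem {v : ℕ} {t : BinaryTree ℕ} (h : v ∈ SR t) : v ∈ inorder t := by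
  induction t with
  | nil => simp [SR] at h
  | node a l r ihl ihr =>
    simp only [SR, Finset.mem_insert] at h
    simp only [inorder, List.mem_append, List.mem_cons]
    rcases h with h | h
    · exact Or.inr (Or.inl h)
    · exact Or.inr (Or.inr (ihr h))

/-- The members of `E0`, `XH`, `XG`, ... come from keys of the tree. -/
theorem pr_mem {f F : ℕ → ℕ} {a b : ℕ} {q : ℕ × ℕ} (h : q ∈ pr f F a b) :
    F a ≠ F b ∧ q = (min (f a) (f b), max (f a) (f b)) := by
  unfold pr at h
  split_ifs at h with h1
  · simp at h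
  · exact ⟨h1, by simpa using h⟩

theorem pr_comm {f F : ℕ → ℕ} {a b : ℕ} : pr f F a b = pr f F b a := by
  unfold pr
  by_cases h : F a = F b
  · rw [if_pos h, if_pos h.symm]
  · rw [if_neg h, if_neg (Ne.symm h), min_comm, max_comm]

theorem prT_mem {f F : ℕ → ℕ} {a : ℕ} {t : BinaryTree ℕ} {q : ℕ × ℕ} (h : q ∈ prT f F a t) :
    ∃ v ∈ inorder t, q ∈ pr f F a v := by
  cases t with
  | nil => simp [prT] at h
  | node c l r =>
    exact ⟨c, by simp [inorder], h⟩

theorem E0_mem {f F : ℕ → ℕ} {t : BinaryTree ℕ} {q : ℕ × ℕ} (h : q ∈ E0 f F t) :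
    ∃ u ∈ inorder t, ∃ v ∈ inorder t, q ∈ pr f F u v := by
  induction t with
  | nil => simp [E0] at h
  | node a l r ihl ihr =>
    simp only [E0, Finset.mem_union] at h
    have hl : ∀ v ∈ inorder l, v ∈ inorder (BinaryTree.node a l r) := fun v hv => by
      simp [inorder, hv]
    have hr : ∀ v ∈ inorder r, v ∈ inorder (BinaryTree.node a l r) := fun v hv => by
      simp [inorder, hv]
    have ha : a ∈ inorder (BinaryTree.node a l r) := by simp [inorder]
    rcases h with ((h | h) | h) | h
    · obtain ⟨v, hv, h1⟩ := prT_mem h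
      exact ⟨a, ha, v, hl v hv, h1⟩
    · obtain ⟨v, hv, h1⟩ := prT_mem h
      exact ⟨a, ha, v, hr v hv, h1⟩
    · obtain ⟨u, hu, v, hv, h1⟩ := ihl h
      exact ⟨u, hl u hu, v, hl v hv, h1⟩
    · obtain ⟨u, hu, v, hv, h1⟩ := ihr h
      exact ⟨u, hr u hu, v, hr v hv, h1⟩

theorem XH_mem {f F : ℕ → ℕ} {b : ℕ} {t : BinaryTree ℕ} {q : ℕ × ℕ} (h : q ∈ XH f F b t) :
    ∃ u ∈ insert b (inorder t).toFinset, ∃ v ∈ inorder t, q ∈ pr f F u v := by
  induction t generalizing b with
  | nil => simp [XH] at h
  | node a l r ihl ihr =>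
    simp only [XH, Finset.mem_union] at h
    simp only [Finset.mem_insert, List.mem_toFinset]
    rcases h with h | h
    · obtain ⟨v, hv, h1⟩ := prT_mem h
      exact ⟨b, Or.inl rfl, v, by simp [inorder, hv], h1⟩
    · obtain ⟨u, hu, v, hv, h1⟩ := ihl h
      simp only [Finset.mem_insert, List.mem_toFinset] at hu
      refine ⟨u, Or.inr ?_, v, by simp [inorder, hv], h1⟩
      rcases hu with hu | hu
      · simp [inorder, hu]
      · simp [inorder, hu]

theorem XG_mem {f F : ℕ → ℕ} {b : ℕ} {t : BinaryTree ℕ} {q : ℕ × ℕ} (h : q ∈ XG f F b t) :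
    ∃ u ∈ insert b (inorder t).toFinset, ∃ v ∈ inorder t, q ∈ pr f F u v := by
  induction t generalizing b with
  | nil => simp [XG] at h
  | node a l r ihl ihr =>
    simp only [XG, Finset.mem_union] at h
    simp only [Finset.mem_insert, List.mem_toFinset]
    rcases h with h | h
    · obtain ⟨v, hv, h1⟩ := prT_mem h
      exact ⟨b, Or.inl rfl, v, by simp [inorder, hv], h1⟩
    · obtain ⟨u, hu, v, hv, h1⟩ := ihr h
      simp only [Finset.mem_insert, List.mem_toFinset] at hu
      refine ⟨u, Or.inr ?_, v, by simp [inorder, hv], h1⟩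
      rcases hu with hu | hu
      · simp [inorder, hu]
      · simp [inorder, hu]

theorem pr_card {f F : ℕ → ℕ} {a b : ℕ} : (pr f F a b).card ≤ 1 := by
  unfold pr
  split_ifs
  · simp
  · simp

theorem prT_card {f F : ℕ → ℕ} {a : ℕ} {t : BinaryTree ℕ} : (prT f F a t).card ≤ 1 := by
  cases t with
  | nil => simp [prT]
  | node c l r => exact pr_card

/-- `x` is a key of `t` if `GS x t A B`; the new tree has the same keys and is a search tree. -/
theorem GS_mem {x : ℕ} {t A B : BinaryTree ℕ} (hg : GS x t A B) : x ∈ inorder t := by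
  induction hg with
  | base A B => simp [inorder]
  | zl _ _ ih => simp [inorder, ih]
  | zr _ _ ih => simp [inorder, ih]
  | ll _ _ _ ih => simp [inorder, ih]
  | rr _ _ _ ih => simp [inorder, ih]

theorem GS_inorder {x : ℕ} {t A B : BinaryTree ℕ} (hg : GS x t A B) :
    inorder (.node x A B) = inorder t := by
  induction hg with
  | base A B => rfl
  | zl _ _ ih =>
    simp only [inorder] at ih ⊢
    rw [← ih]
    simp
  | zr _ _ ih =>
    simp only [inorder] at ih ⊢
    rw [← ih]
    simp
  | ll _ _ _ ih =>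
    simp only [inorder] at ih ⊢
    rw [← ih]
    simp
  | rr _ _ _ ih =>
    simp only [inorder] at ih ⊢
    rw [← ih]
    simp

theorem GS_bst {x : ℕ} {t A B : BinaryTree ℕ} (hg : GS x t A B) (hb : IsBST t) :
    IsBST (.node x A B) := by
  unfold IsBST at hb ⊢
  rw [GS_inorder hg]
  exact hb

theorem LS_inorder {t t' : BinaryTree ℕ} (hs : LS t t') : inorder t' = inorder t := by
  induction hs with
  | refl A => rfl
  | left _ ih => simp [inorder, ih]
  | rot _ ih => simp [inorder, ih]

theorem RS_inorder {t t' : BinaryTree ℕ} (hs : RS t t') : inorder t' = inorder t := by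
  induction hs with
  | refl A => rfl
  | right _ ih => simp [inorder, ih]
  | rot _ ih => simp [inorder, ih]

end Pool.Agent.SplNest
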