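import Pool.Agent.SplNest.Defs
import Pool.Agent.SplNest.Bas
import Pool.Agent.SplPat.Mir

set_option autoImplicit false

namespace Pool.Agent.SplNest

open BinaryTree Pool.Agent.MP_c42954_lc.Scan Pool.Agent.SplPat Pool.Agent.SplAll

private theorem AltL_pr {f F : ℕ → ℕ} (h : Fac f F) {lo hi u v C X : ℕ}
    (hu : lo ≤ u ∧ u ≤ hi) (hv : lo ≤ v ∧ v ≤ hi) (hq : (C, X) ∈ pr f F u v) :
    f lo ≤ C ∧ X ≤ f hi := by
  obtain ⟨-, h2⟩ := pr_mem hq
  rw [Prod.mk.injEq] at h2
  obtain ⟨h3, h4⟩ := h2
  have := h.mf lo u hu.1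
  have := h.mf u hi hu.2
  have := h.mf lo v hv.1
  have := h.mf v hi hv.2
  omega

private theorem AltL_E0 {f F : ℕ → ℕ} (h : Fac f F) {lo hi C X : ℕ} {t : BinaryTree ℕ}
    (hk : ∀ v ∈ inorder t, lo ≤ v ∧ v ≤ hi) (hq : (C, X) ∈ E0 f F t) :
    f lo ≤ C ∧ X ≤ f hi := by
  obtain ⟨u, hu, v, hv, h1⟩ := E0_mem hq
  exact AltL_pr h (hk u hu) (hk v hv) h1

private theorem AltL_prT {f F : ℕ → ℕ} (h : Fac f F) {a lo hi C X : ℕ} {t : BinaryTree ℕ}
    (ha : lo ≤ a ∧ a ≤ hi) (hk : ∀ v ∈ inorder t, lo ≤ v ∧ v ≤ hi) (hq : (C, X) ∈ prT f F a t) :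
    f lo ≤ C ∧ X ≤ f hi := by
  obtain ⟨v, hv, h1⟩ := prT_mem hq
  exact AltL_pr h ha (hk v hv) h1

private theorem AltL_XH {f F : ℕ → ℕ} (h : Fac f F) {a lo hi C X : ℕ} {t : BinaryTree ℕ}
    (ha : lo ≤ a ∧ a ≤ hi) (hk : ∀ v ∈ inorder t, lo ≤ v ∧ v ≤ hi) (hq : (C, X) ∈ XH f F a t) :
    f lo ≤ C ∧ X ≤ f hi := by
  obtain ⟨u, hu, v, hv, h1⟩ := XH_mem hq
  refine AltL_pr h ?_ (hk v hv) h1
  rw [Finset.mem_insert, List.mem_toFinset] at hu
  rcases hu with rfl | hu
  · exact ha
  · exact hk u hu

private theorem AltL_S1 {x g : ℕ} {L D : BinaryTree ℕ} (hx : x < g) (v : ℕ) :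
    v ∈ (ancs x (.node g L D)).toFinset ↔ v = g ∨ v ∈ (ancs x L).toFinset := by
  have h1 : x ≠ g := by omega
  simp only [ancs, if_neg h1, if_pos hx, List.mem_toFinset, List.mem_append, List.mem_singleton]
  exact or_comm

private theorem AltL_S2 {x g : ℕ} {R D : BinaryTree ℕ} (hx : g < x) (v : ℕ) :
    v ∈ (ancs x (.node g D R)).toFinset ↔ v = g ∨ v ∈ (ancs x R).toFinset := by
  have h1 : x ≠ g := by omega
  have h2 : ¬ x < g := by omega
  simp only [ancs, if_neg h1, if_neg h2, List.mem_toFinset, List.mem_append, List.mem_singleton]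
  exact or_comm

private theorem AltL_zero {S : Finset ℕ} {p : ℕ → Prop} [DecidablePred p]
    (h : ∀ v ∈ S, ¬ p v) : (S.filter p).card ≤ 1 := by
  have h1 : S.filter p = ∅ := Finset.filter_eq_empty_iff.2 h
  rw [h1]
  simp

private theorem AltL_key {x : ℕ} {t A B : BinaryTree ℕ} (hg : GS x t A B) (hb : IsBST t)
    {u : ℕ} (hu : u ∈ inorder A) : u ∈ inorder t ∧ u < x := by
  constructor
  · rw [← GS_inorder hg]
    simp only [inorder, List.mem_append, List.mem_cons]
    exact Or.inl hu
  · exact (bst_node.1 (GS_bst hg hb)).2.2.1 u hu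

private theorem AltL_main {f F : ℕ → ℕ} (h : Fac f F) {x : ℕ} {t A B : BinaryTree ℕ}
    (hg : GS x t A B) : IsBST t → (∀ C, C ≠ f x → (C, f x) ∈ E0 f F A ∪ XL f F A →
      ((ancs x t).toFinset.filter (fun v => C < f v ∧ f v < f x)).card ≤ 1) ∧
      (∀ a l r, A = .node a l r → ((ancs x t).toFinset.filter (fun v => v < a)).card ≤ 1) := by
  induction hg with
  | base A B =>
    intro _
    simp [ancs]
  | @zl g L D A B hx hs ih =>
    intro hb
    obtain ⟨hbL, hbD, hkL, hkD⟩ := bst_node.1 hb
    obtain ⟨ih1, ih2⟩ := ih hbL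
    refine ⟨fun C hC hq => ?_, fun a l r hA => ?_⟩
    · refine le_trans (Finset.card_le_card fun v hv => ?_) (ih1 C hC hq)
      rw [Finset.mem_filter, AltL_S1 hx] at hv
      rw [Finset.mem_filter]
      refine ⟨?_, hv.2⟩
      rcases hv.1 with rfl | h1
      · have := h.mf x v (by omega)
        omega
      · exact h1
    · refine le_trans (Finset.card_le_card fun v hv => ?_) (ih2 a l r hA)
      rw [Finset.mem_filter, AltL_S1 hx] at hv
      rw [Finset.mem_filter]
      refine ⟨?_, hv.2⟩
      rcases hv.1 with rfl | h1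
      · have h2 : a ∈ inorder A := by
          rw [hA]
          simp [inorder]
        have := (AltL_key hs hbL h2).2
        omega
      · exact h1
  | @zr g R D A B hx hs ih =>
    intro hb
    obtain ⟨hbD, hbR, hkD, hkR⟩ := bst_node.1 hb
    obtain ⟨ih1, ih2⟩ := ih hbR
    have hAk : ∀ u ∈ inorder A, g + 1 ≤ u ∧ u ≤ x := fun u hu => by
      have h1 := AltL_key hs hbR hu
      have h2 := hkR u h1.1
      omega
    have hSk : ∀ v ∈ (ancs x R).toFinset, g < v := fun v hv =>
      hkR v (MIR_ancs_mem (List.mem_toFinset.1 hv))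
    have hDk : ∀ v ∈ inorder D, 0 ≤ v ∧ v ≤ g := fun v hv => by
      have := hkD v hv
      omega
    refine ⟨fun C hC hq => ?_, fun a l r hA => ?_⟩
    · -- keys `≤ g`
      have hlow : f x ≤ f g → ((ancs x (.node g D R)).toFinset.filter
          (fun v => C < f v ∧ f v < f x)).card ≤ 1 := by
        intro h1
        refine AltL_zero fun v hv h2 => ?_
        rw [AltL_S2 hx] at hv
        rcases hv with rfl | hv
        · omega
        · have := h.mf g v (hSk v hv).le
          omega
      simp only [E0, XL, Finset.mem_union] at hq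
      rcases hq with (((hq | hq) | hq) | hq) | hq
      · exact hlow (AltL_prT h ⟨zero_le, le_rfl⟩ hDk hq).2
      · cases A with
        | nil => simp [prT] at hq
        | node a l r =>
          have ha : a ∈ inorder (.node a l r) := by simp [inorder]
          have h1 := hAk a ha
          obtain ⟨-, h2⟩ := pr_mem (show (C, f x) ∈ pr f F g a from hq)
          rw [Prod.mk.injEq] at h2
          have h3 := h.mf g a (by omega)
          refine le_trans (Finset.card_le_card fun v hv => ?_) (ih2 a l r rfl)
          rw [Finset.mem_filter, AltL_S2 hx] at hv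
          rw [Finset.mem_filter]
          obtain ⟨hv1, hv2, hv3⟩ := hv
          rcases hv1 with rfl | hv1
          · omega
          · refine ⟨hv1, ?_⟩
            by_contra hc
            have := h.mf a v (by omega)
            omega
      · exact hlow (AltL_E0 h hDk hq).2
      · have h1 := (AltL_E0 h hAk hq).1
        refine le_trans (Finset.card_le_card fun v hv => ?_)
          (ih1 C hC (Finset.mem_union_left _ hq))
        rw [Finset.mem_filter, AltL_S2 hx] at hv
        rw [Finset.mem_filter]
        refine ⟨?_, hv.2⟩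
        rcases hv.1 with rfl | h2
        · have := h.mf v (v + 1) (by omega)
          omega
        · exact h2
      · exact hlow (AltL_XH h ⟨zero_le, le_rfl⟩ hDk hq).2
    · obtain ⟨rfl, -, -⟩ := (BinaryTree.node.injEq .. ▸ hA : g = a ∧ D = l ∧ A = r)
      refine AltL_zero fun v hv h2 => ?_
      rw [AltL_S2 hx] at hv
      rcases hv with rfl | hv
      · omega
      · have := hSk v hv
        omega
  | @ll p g L C' D A B hxp hpg hs ih =>
    intro hb
    obtain ⟨hbL', hbD, hkL', hkD⟩ := bst_node.1 hb
    obtain ⟨hbL, hbC, hkL, hkC⟩ := bst_node.1 hbL'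
    obtain ⟨ih1, ih2⟩ := ih hbL
    have hxg : x < g := by omega
    refine ⟨fun C hC hq => ?_, fun a l r hA => ?_⟩
    · refine le_trans (Finset.card_le_card fun v hv => ?_) (ih1 C hC hq)
      rw [Finset.mem_filter, AltL_S1 hxg, AltL_S1 hxp] at hv
      rw [Finset.mem_filter]
      refine ⟨?_, hv.2⟩
      rcases hv.1 with rfl | rfl | h1
      · have := h.mf x v (by omega)
        omega
      · have := h.mf x v (by omega)
        omega
      · exact h1
    · refine le_trans (Finset.card_le_card fun v hv => ?_) (ih2 a l r hA)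
      rw [Finset.mem_filter, AltL_S1 hxg, AltL_S1 hxp] at hv
      rw [Finset.mem_filter]
      refine ⟨?_, hv.2⟩
      have h2 : a ∈ inorder A := by
        rw [hA]
        simp [inorder]
      have h3 := (AltL_key hs hbL h2).2
      rcases hv.1 with rfl | rfl | h1
      · omega
      · omega
      · exact h1
  | @rr p g R C' D A B hpx hgp hs ih =>
    intro hb
    obtain ⟨hbD, hbR', hkD, hkR'⟩ := bst_node.1 hb
    obtain ⟨hbC, hbR, hkC, hkR⟩ := bst_node.1 hbR'
    obtain ⟨ih1, ih2⟩ := ih hbR
    have hgx : g < x := by omega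
    have hAk : ∀ u ∈ inorder A, p + 1 ≤ u ∧ u ≤ x := fun u hu => by
      have h1 := AltL_key hs hbR hu
      have h2 := hkR u h1.1
      omega
    have hSk : ∀ v ∈ (ancs x R).toFinset, p < v := fun v hv =>
      hkR v (MIR_ancs_mem (List.mem_toFinset.1 hv))
    have hDk : ∀ v ∈ inorder D, 0 ≤ v ∧ v ≤ g := fun v hv => by
      have := hkD v hv
      omega
    have hCk : ∀ v ∈ inorder C', g ≤ v ∧ v ≤ p := fun v hv => by
      have h1 := hkC v hv
      have h2 := hkR' v (by
        simp only [inorder, List.mem_append, List.mem_cons]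
        exact Or.inl hv)
      omega
    refine ⟨fun C hC hq => ?_, fun a l r hA => ?_⟩
    · -- one key in the cell of `x` is `≤ p`, the other one in a cell `≥ f g`
      have hmid : f g ≤ C → f x ≤ f p → ((ancs x (.node g D (.node p C' R))).toFinset.filter
          (fun v => C < f v ∧ f v < f x)).card ≤ 1 := by
        intro h0 h1
        refine AltL_zero fun v hv h2 => ?_
        rw [AltL_S2 hgx, AltL_S2 hpx] at hv
        rcases hv with rfl | rfl | hv
        · omega
        · omega
        · have := h.mf p v (hSk v hv).le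
          omega
      have hlow : f x ≤ f g → ((ancs x (.node g D (.node p C' R))).toFinset.filter
          (fun v => C < f v ∧ f v < f x)).card ≤ 1 := by
        intro h1
        have h3 := h.mf g p hgp.le
        refine AltL_zero fun v hv h2 => ?_
        rw [AltL_S2 hgx, AltL_S2 hpx] at hv
        rcases hv with rfl | rfl | hv
        · omega
        · omega
        · have := h.mf p v (hSk v hv).le
          omega
      simp only [E0, XL, XH, Finset.mem_union] at hq
      rcases hq with (((hq | hq) | (((hq | hq) | hq) | hq)) | hq) | (hq | hq)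
      · have h1 := AltL_pr h (lo := g) (hi := p) ⟨hgp.le, le_rfl⟩ ⟨le_rfl, hgp.le⟩
          (show (C, f x) ∈ pr f F p g from hq)
        exact hmid h1.1 h1.2
      · cases A with
        | nil => simp [prT] at hq
        | node a l r =>
          have ha : a ∈ inorder (.node a l r) := by simp [inorder]
          have h1 := hAk a ha
          obtain ⟨-, h2⟩ := pr_mem (show (C, f x) ∈ pr f F p a from hq)
          rw [Prod.mk.injEq] at h2
          have h3 := h.mf p a (by omega)
          have h4 := h.mf g p hgp.le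
          refine le_trans (Finset.card_le_card fun v hv => ?_) (ih2 a l r rfl)
          rw [Finset.mem_filter, AltL_S2 hgx, AltL_S2 hpx] at hv
          rw [Finset.mem_filter]
          obtain ⟨hv1, hv2, hv3⟩ := hv
          rcases hv1 with rfl | rfl | hv1
          · omega
          · omega
          · refine ⟨hv1, ?_⟩
            by_contra hc
            have := h.mf a v (by omega)
            omega
      · exact hlow (AltL_prT h ⟨zero_le, le_rfl⟩ hDk hq).2
      · have h1 := AltL_prT h (lo := g) (hi := p) ⟨le_rfl, hgp.le⟩ hCk hq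
        exact hmid h1.1 h1.2
      · exact hlow (AltL_E0 h hDk hq).2
      · have h1 := AltL_E0 h (lo := g) (hi := p) hCk hq
        exact hmid h1.1 h1.2
      · have h1 := (AltL_E0 h hAk hq).1
        refine le_trans (Finset.card_le_card fun v hv => ?_)
          (ih1 C hC (Finset.mem_union_left _ hq))
        rw [Finset.mem_filter, AltL_S2 hgx, AltL_S2 hpx] at hv
        rw [Finset.mem_filter]
        refine ⟨?_, hv.2⟩
        rcases hv.1 with rfl | rfl | h2
        · have := h.mf v (p + 1) (by omega)
          omega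
        · have := h.mf v (v + 1) (by omega)
          omega
        · exact h2
      · have h1 := AltL_prT h (lo := g) (hi := p) ⟨hgp.le, le_rfl⟩ hCk hq
        exact hmid h1.1 h1.2
      · exact hlow (AltL_XH h ⟨zero_le, le_rfl⟩ hDk hq).2
    · obtain ⟨rfl, -, -⟩ := (BinaryTree.node.injEq .. ▸ hA :
        p = a ∧ BinaryTree.node g D C' = l ∧ A = r)
      refine le_trans (Finset.card_le_card (t := {g}) fun v hv => ?_) (by simp)
      rw [Finset.mem_filter, AltL_S2 hgx, AltL_S2 hpx] at hv
      rw [Finset.mem_singleton]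
      obtain ⟨hv1, hv2⟩ := hv
      rcases hv1 with rfl | rfl | hv1
      · rfl
      · omega
      · have := hSk v hv1
        omega

/-- ALTL.  An edge of `A` between the cell of `x` and a cell `C` on the left of it: at most one left
ancestor of `x` lies in a cell strictly between.  PROOF.  Induction on `GS`, together with
(J): if `A = node a _ _` then at most one `v ∈ ancs x t` is `< a`.
Write `nb C` for the number in the claim; pairs are ordered (min, max), the keys of `A` are `< x`,
all new ancestors at the top are smaller (zr, rr) than all keys of `A` or `> x` (zl, ll).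
base: `nb C = 0`, (J): no ancestors.  zl, ll: new ancestors `> x` (their cells are `≥ f x`).
In zr, rr, a pair `(C, f x)` of the old `E0 A ∪ XL A` has `C = f u` for a key `u` of `A`, and the
new ancestors `g < p` are `< u`, so `nb C` does not change.
zr (`A' = node g D A`).  Pairs of `prT g D`, `E0 D`, `XL A' = XH g D`: they join keys `u, v ≤ g`
with `f v = f x` for one of them, so `f g = f x`, all left ancestors lie in the cell of `x` and
`nb C = 0`.  Pair of `prT g A`, `A = node a _ _`: `C = f g`, `f a = f x`: a left ancestor `v` with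
`f g < f v < f x` is `≠ g` and `< a`: at most one by (J).  (J) for `A'`: no ancestor `< g`.
rr (`t = node g D (node p C' R)`, `A' = node p (node g D C') A`).  `{p–g}`: `C = f g`, `f p = f x`:
`nb C = 0`.  `prT p A`: `C = f p`, `f a = f x`: as in zr by (J) (`g`, `p` are not counted since
`f g ≤ f p = C`).  `prT g D`, `E0 D`, `XH g D`: as in zr.  `prT g C'`, `E0 C'`, `prT p C'`: they join
keys in `[g, p]`, one of them in the cell of `x`, so `f p = f x`; a counted ancestor would be `≤ g`,
but `f g ≤ C`: `nb C = 0`.  (J) for `A'`: only `g` is `< p`. -/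
theorem ALTL {f F : ℕ → ℕ} (h : Fac f F) {x : ℕ} {t A B : BinaryTree ℕ} (hg : GS x t A B)
    (hb : IsBST t) : ∀ C, C ≠ f x → (C, f x) ∈ E0 f F A ∪ XL f F A →
      ((ancs x t).toFinset.filter (fun v => C < f v ∧ f v < f x)).card ≤ 1 :=
  (AltL_main h hg hb).1

end Pool.Agent.SplNest
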