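import Pool.Agent.SplNest.Defs
import Pool.Agent.SplNest.Bas
import Pool.Agent.SplPat.Mir

set_option autoImplicit false

namespace Pool.Agent.SplNest

open BinaryTree Pool.Agent.MP_c42954_lc.Scan Pool.Agent.SplPat Pool.Agent.SplAll

private theorem AltR_lo {f F : ℕ → ℕ} (h : Fac f F) {lo u v C X : ℕ}
    (hu : lo ≤ u) (hv : lo ≤ v) (hq : (X, C) ∈ pr f F u v) : f lo ≤ X := by
  obtain ⟨-, h2⟩ := pr_mem hq
  rw [Prod.mk.injEq] at h2
  obtain ⟨h3, h4⟩ := h2
  have := h.mf lo u hu
  have := h.mf lo v hv
  omega

private theorem AltR_hi {f F : ℕ → ℕ} (h : Fac f F) {hi u v C X : ℕ}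
    (hu : u ≤ hi) (hv : v ≤ hi) (hq : (X, C) ∈ pr f F u v) : C ≤ f hi := by
  obtain ⟨-, h2⟩ := pr_mem hq
  rw [Prod.mk.injEq] at h2
  obtain ⟨h3, h4⟩ := h2
  have := h.mf u hi hu
  have := h.mf v hi hv
  omega

private theorem AltR_S1 {x g : ℕ} {L D : BinaryTree ℕ} (hx : x < g) (v : ℕ) :
    v ∈ (ancs x (.node g L D)).toFinset ↔ v = g ∨ v ∈ (ancs x L).toFinset := by
  have h1 : x ≠ g := by omega
  simp only [ancs, if_neg h1, if_pos hx, List.mem_toFinset, List.mem_append, List.mem_singleton]
  exact or_comm

private theorem AltR_S2 {x g : ℕ} {R D : BinaryTree ℕ} (hx : g < x) (v : ℕ) :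
    v ∈ (ancs x (.node g D R)).toFinset ↔ v = g ∨ v ∈ (ancs x R).toFinset := by
  have h1 : x ≠ g := by omega
  have h2 : ¬ x < g := by omega
  simp only [ancs, if_neg h1, if_neg h2, List.mem_toFinset, List.mem_append, List.mem_singleton]
  exact or_comm

private theorem AltR_zero {S : Finset ℕ} {p : ℕ → Prop} [DecidablePred p]
    (h : ∀ v ∈ S, ¬ p v) : (S.filter p).card ≤ 1 := by
  have h1 : S.filter p = ∅ := Finset.filter_eq_empty_iff.2 h
  rw [h1]
  simp

private theorem AltR_key {x : ℕ} {t A B : BinaryTree ℕ} (hg : GS x t A B) (hb : IsBST t)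
    {u : ℕ} (hu : u ∈ inorder B) : u ∈ inorder t ∧ x < u := by
  constructor
  · rw [← GS_inorder hg]
    simp only [inorder, List.mem_append, List.mem_cons]
    exact Or.inr (Or.inr hu)
  · exact (bst_node.1 (GS_bst hg hb)).2.2.2 u hu

private theorem AltR_main {f F : ℕ → ℕ} (h : Fac f F) {x : ℕ} {t A B : BinaryTree ℕ}
    (hg : GS x t A B) : IsBST t → (∀ C, C ≠ f x → (f x, C) ∈ E0 f F B ∪ XR f F B →
      ((ancs x t).toFinset.filter (fun v => f x < f v ∧ f v < C)).card ≤ 1) ∧
      (∀ b l r, B = .node b l r → ((ancs x t).toFinset.filter (fun v => b < v)).card ≤ 1) := by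
  induction hg with
  | base A B =>
    intro _
    simp [ancs]
  | @zr g R D A B hx hs ih =>
    intro hb
    obtain ⟨hbD, hbR, hkD, hkR⟩ := bst_node.1 hb
    obtain ⟨ih1, ih2⟩ := ih hbR
    refine ⟨fun C hC hq => ?_, fun a l r hA => ?_⟩
    · refine le_trans (Finset.card_le_card fun v hv => ?_) (ih1 C hC hq)
      rw [Finset.mem_filter, AltR_S2 hx] at hv
      rw [Finset.mem_filter]
      refine ⟨?_, hv.2⟩
      rcases hv.1 with rfl | h1
      · have := h.mf v x (by omega)
        omega
      · exact h1
    · refine le_trans (Finset.card_le_card fun v hv => ?_) (ih2 a l r hA)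
      rw [Finset.mem_filter, AltR_S2 hx] at hv
      rw [Finset.mem_filter]
      refine ⟨?_, hv.2⟩
      rcases hv.1 with rfl | h1
      · have h2 : a ∈ inorder B := by
          rw [hA]
          simp [inorder]
        have := (AltR_key hs hbR h2).2
        omega
      · exact h1
  | @zl g L D A B hx hs ih =>
    intro hb
    obtain ⟨hbL, hbD, hkL, hkD⟩ := bst_node.1 hb
    obtain ⟨ih1, ih2⟩ := ih hbL
    have hBk : ∀ u ∈ inorder B, x < u ∧ u < g := fun u hu => by
      have h1 := AltR_key hs hbL hu
      have h2 := hkL u h1.1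
      omega
    have hSk : ∀ v ∈ (ancs x L).toFinset, v < g := fun v hv =>
      hkL v (MIR_ancs_mem (List.mem_toFinset.1 hv))
    refine ⟨fun C hC hq => ?_, fun b l r hB => ?_⟩
    · -- keys `≥ g`
      have hhigh : f g ≤ f x → ((ancs x (.node g L D)).toFinset.filter
          (fun v => f x < f v ∧ f v < C)).card ≤ 1 := by
        intro h1
        refine AltR_zero fun v hv h2 => ?_
        rw [AltR_S1 hx] at hv
        rcases hv with rfl | hv
        · omega
        · have := h.mf v g (hSk v hv).le
          omega
      simp only [E0, XR, Finset.mem_union] at hq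
      rcases hq with (((hq | hq) | hq) | hq) | hq
      · cases B with
        | nil => simp [prT] at hq
        | node b l r =>
          have hb' : b ∈ inorder (.node b l r) := by simp [inorder]
          have h1 := hBk b hb'
          obtain ⟨-, h2⟩ := pr_mem (show (f x, C) ∈ pr f F g b from hq)
          rw [Prod.mk.injEq] at h2
          have h3 := h.mf b g (by omega)
          refine le_trans (Finset.card_le_card fun v hv => ?_) (ih2 b l r rfl)
          rw [Finset.mem_filter, AltR_S1 hx] at hv
          rw [Finset.mem_filter]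
          obtain ⟨hv1, hv2, hv3⟩ := hv
          rcases hv1 with rfl | hv1
          · omega
          · refine ⟨hv1, ?_⟩
            by_contra hc
            have := h.mf v b (by omega)
            omega
      · obtain ⟨v, hv, h1⟩ := prT_mem hq
        exact hhigh (AltR_lo h le_rfl (hkD v hv).le h1)
      · obtain ⟨u, hu, v, hv, h1⟩ := E0_mem hq
        have h2 := AltR_hi h (hi := g) (hBk u hu).2.le (hBk v hv).2.le h1
        refine le_trans (Finset.card_le_card fun v hv => ?_)
          (ih1 C hC (Finset.mem_union_left _ hq))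
        rw [Finset.mem_filter, AltR_S1 hx] at hv
        rw [Finset.mem_filter]
        refine ⟨?_, hv.2⟩
        rcases hv.1 with rfl | h3
        · omega
        · exact h3
      · obtain ⟨u, hu, v, hv, h1⟩ := E0_mem hq
        exact hhigh (AltR_lo h (hkD u hu).le (hkD v hv).le h1)
      · obtain ⟨u, hu, v, hv, h1⟩ := XG_mem hq
        refine hhigh (AltR_lo h ?_ (hkD v hv).le h1)
        rw [Finset.mem_insert, List.mem_toFinset] at hu
        rcases hu with rfl | hu
        · exact le_rfl
        · exact (hkD u hu).le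
    · obtain ⟨rfl, -, -⟩ := (BinaryTree.node.injEq .. ▸ hB : g = b ∧ B = l ∧ D = r)
      refine AltR_zero fun v hv h2 => ?_
      rw [AltR_S1 hx] at hv
      rcases hv with rfl | hv
      · omega
      · have := hSk v hv
        omega
  | @rr p g R C' D A B hpx hgp hs ih =>
    intro hb
    obtain ⟨hbD, hbR', hkD, hkR'⟩ := bst_node.1 hb
    obtain ⟨hbC, hbR, hkC, hkR⟩ := bst_node.1 hbR'
    obtain ⟨ih1, ih2⟩ := ih hbR
    have hgx : g < x := by omega
    refine ⟨fun C hC hq => ?_, fun a l r hA => ?_⟩
    · refine le_trans (Finset.card_le_card fun v hv => ?_) (ih1 C hC hq)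
      rw [Finset.mem_filter, AltR_S2 hgx, AltR_S2 hpx] at hv
      rw [Finset.mem_filter]
      refine ⟨?_, hv.2⟩
      rcases hv.1 with rfl | rfl | h1
      · have := h.mf v x (by omega)
        omega
      · have := h.mf v x (by omega)
        omega
      · exact h1
    · refine le_trans (Finset.card_le_card fun v hv => ?_) (ih2 a l r hA)
      rw [Finset.mem_filter, AltR_S2 hgx, AltR_S2 hpx] at hv
      rw [Finset.mem_filter]
      refine ⟨?_, hv.2⟩
      have h2 : a ∈ inorder B := by
        rw [hA]
        simp [inorder]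
      have h3 := (AltR_key hs hbR h2).2
      rcases hv.1 with rfl | rfl | h1
      · omega
      · omega
      · exact h1
  | @ll p g L C' D A B hxp hpg hs ih =>
    intro hb
    obtain ⟨hbL', hbD, hkL', hkD⟩ := bst_node.1 hb
    obtain ⟨hbL, hbC, hkL, hkC⟩ := bst_node.1 hbL'
    obtain ⟨ih1, ih2⟩ := ih hbL
    have hxg : x < g := by omega
    have hBk : ∀ u ∈ inorder B, x < u ∧ u < p := fun u hu => by
      have h1 := AltR_key hs hbL hu
      have h2 := hkL u h1.1
      omega
    have hSk : ∀ v ∈ (ancs x L).toFinset, v < p := fun v hv =>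
      hkL v (MIR_ancs_mem (List.mem_toFinset.1 hv))
    have hCk : ∀ v ∈ inorder C', p ≤ v ∧ v ≤ g := fun v hv => by
      have h1 := hkC v hv
      have h2 := hkL' v (by
        simp only [inorder, List.mem_append, List.mem_cons]
        exact Or.inr (Or.inr hv))
      omega
    refine ⟨fun C hC hq => ?_, fun b l r hB => ?_⟩
    · -- one key in the cell of `x` is `≥ p`, the other one in a cell `≤ f g`
      have hmid : f p ≤ f x → C ≤ f g → ((ancs x (.node g (.node p L C') D)).toFinset.filter
          (fun v => f x < f v ∧ f v < C)).card ≤ 1 := by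
        intro h0 h1
        refine AltR_zero fun v hv h2 => ?_
        rw [AltR_S1 hxg, AltR_S1 hxp] at hv
        rcases hv with rfl | rfl | hv
        · omega
        · omega
        · have := h.mf v p (hSk v hv).le
          omega
      have hhigh : f g ≤ f x → ((ancs x (.node g (.node p L C') D)).toFinset.filter
          (fun v => f x < f v ∧ f v < C)).card ≤ 1 := by
        intro h1
        have h3 := h.mf p g hpg.le
        refine AltR_zero fun v hv h2 => ?_
        rw [AltR_S1 hxg, AltR_S1 hxp] at hv
        rcases hv with rfl | rfl | hv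
        · omega
        · omega
        · have := h.mf v p (hSk v hv).le
          omega
      simp only [E0, XR, XG, Finset.mem_union] at hq
      rcases hq with (((hq | hq) | hq) | (((hq | hq) | hq) | hq)) | (hq | hq)
      · cases B with
        | nil => simp [prT] at hq
        | node b l r =>
          have hb' : b ∈ inorder (.node b l r) := by simp [inorder]
          have h1 := hBk b hb'
          obtain ⟨-, h2⟩ := pr_mem (show (f x, C) ∈ pr f F p b from hq)
          rw [Prod.mk.injEq] at h2
          have h3 := h.mf b p (by omega)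
          have h4 := h.mf p g hpg.le
          refine le_trans (Finset.card_le_card fun v hv => ?_) (ih2 b l r rfl)
          rw [Finset.mem_filter, AltR_S1 hxg, AltR_S1 hxp] at hv
          rw [Finset.mem_filter]
          obtain ⟨hv1, hv2, hv3⟩ := hv
          rcases hv1 with rfl | rfl | hv1
          · omega
          · omega
          · refine ⟨hv1, ?_⟩
            by_contra hc
            have := h.mf v b (by omega)
            omega
      · have hq' : (f x, C) ∈ pr f F p g := hq
        exact hmid (AltR_lo h le_rfl hpg.le hq') (AltR_hi h hpg.le le_rfl hq')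
      · obtain ⟨u, hu, v, hv, h1⟩ := E0_mem hq
        have h2 := AltR_hi h (hi := p) (hBk u hu).2.le (hBk v hv).2.le h1
        have h4 := h.mf p g hpg.le
        refine le_trans (Finset.card_le_card fun v hv => ?_)
          (ih1 C hC (Finset.mem_union_left _ hq))
        rw [Finset.mem_filter, AltR_S1 hxg, AltR_S1 hxp] at hv
        rw [Finset.mem_filter]
        refine ⟨?_, hv.2⟩
        rcases hv.1 with rfl | rfl | h3
        · omega
        · omega
        · exact h3
      · obtain ⟨v, hv, h1⟩ := prT_mem hq
        exact hmid (AltR_lo h hpg.le (hCk v hv).1 h1) (AltR_hi h le_rfl (hCk v hv).2 h1)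
      · obtain ⟨v, hv, h1⟩ := prT_mem hq
        exact hhigh (AltR_lo h le_rfl (hkD v hv).le h1)
      · obtain ⟨u, hu, v, hv, h1⟩ := E0_mem hq
        exact hmid (AltR_lo h (hCk u hu).1 (hCk v hv).1 h1) (AltR_hi h (hCk u hu).2 (hCk v hv).2 h1)
      · obtain ⟨u, hu, v, hv, h1⟩ := E0_mem hq
        exact hhigh (AltR_lo h (hkD u hu).le (hkD v hv).le h1)
      · obtain ⟨v, hv, h1⟩ := prT_mem hq
        exact hmid (AltR_lo h le_rfl (hCk v hv).1 h1) (AltR_hi h hpg.le (hCk v hv).2 h1)
      · obtain ⟨u, hu, v, hv, h1⟩ := XG_mem hq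
        refine hhigh (AltR_lo h ?_ (hkD v hv).le h1)
        rw [Finset.mem_insert, List.mem_toFinset] at hu
        rcases hu with rfl | hu
        · exact le_rfl
        · exact (hkD u hu).le
    · obtain ⟨rfl, -, -⟩ := (BinaryTree.node.injEq .. ▸ hB :
        p = b ∧ B = l ∧ BinaryTree.node g C' D = r)
      refine le_trans (Finset.card_le_card (t := {g}) fun v hv => ?_) (by simp)
      rw [Finset.mem_filter, AltR_S1 hxg, AltR_S1 hxp] at hv
      rw [Finset.mem_singleton]
      obtain ⟨hv1, hv2⟩ := hv
      rcases hv1 with rfl | rfl | hv1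
      · rfl
      · omega
      · have := hSk v hv1
        omega

/-- ALTR: the mirror image of ALTL, see AltL.lean for the proof. -/
theorem ALTR {f F : ℕ → ℕ} (h : Fac f F) {x : ℕ} {t A B : BinaryTree ℕ} (hg : GS x t A B)
    (hb : IsBST t) : ∀ C, C ≠ f x → (f x, C) ∈ E0 f F B ∪ XR f F B →
      ((ancs x t).toFinset.filter (fun v => f x < f v ∧ f v < C)).card ≤ 1 :=
  (AltR_main h hg hb).1

end Pool.Agent.SplNest
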