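import Pool.Agent.SplNest.Defs
import Pool.Agent.SplNest.Bas

set_option autoImplicit false

namespace Pool.Agent.SplNest

open BinaryTree Pool.Agent.MP_c42954_lc.Scan Pool.Agent.SplPat Pool.Agent.SplAll

private theorem NewL_XL_XH {f F : ℕ → ℕ} {b : ℕ} {t : BinaryTree ℕ} : XL f F t ⊆ XH f F b t := by
  cases t with
  | nil => simp [XL]
  | node a l r => simp only [XL, XH]; exact Finset.subset_union_right

private theorem NewL_anc_lt {x g : ℕ} {L D : BinaryTree ℕ} (h : x < g) :
    ancs x (.node g L D) = ancs x L ++ [g] := by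
  simp [ancs, h.ne, h]

private theorem NewL_anc_gt {x g : ℕ} {R D : BinaryTree ℕ} (h : g < x) :
    ancs x (.node g D R) = ancs x R ++ [g] := by
  simp [ancs, h.ne', h.not_gt]

private theorem NewL_anc_mem {x v : ℕ} {t : BinaryTree ℕ} (h : v ∈ ancs x t) : v ∈ inorder t := by
  induction t with
  | nil => simp [ancs] at h
  | node a l r ihl ihr =>
    simp only [ancs] at h
    simp only [inorder, List.mem_append, List.mem_cons]
    split_ifs at h with h1 h2
    · simp at h
    · simp only [List.mem_append, List.mem_cons, List.not_mem_nil, or_false] at h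
      rcases h with h | h
      · exact Or.inl (ihl h)
      · exact Or.inr (Or.inl h)
    · simp only [List.mem_append, List.mem_cons, List.not_mem_nil, or_false] at h
      rcases h with h | h
      · exact Or.inr (Or.inr (ihr h))
      · exact Or.inr (Or.inl h)

private theorem NewL_memQ {F : ℕ → ℕ} {x k : ℕ} {t : BinaryTree ℕ} :
    k ∈ ((ancs x t).toFinset.filter (fun v => v < x ∧ F v ≠ F x)).image F ↔
      ∃ v ∈ ancs x t, v < x ∧ F v ≠ F x ∧ F v = k := by
  simp only [Finset.mem_image, Finset.mem_filter, List.mem_toFinset]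
  constructor
  · rintro ⟨v, ⟨h1, h2, h3⟩, h4⟩
    exact ⟨v, h1, h2, h3, h4⟩
  · rintro ⟨v, h1, h2, h3, h4⟩
    exact ⟨v, ⟨h1, h2, h3⟩, h4⟩

/-- one more edge from `g` to the root of `A` -/
private theorem NewL_add {f F : ℕ → ℕ} (h : Fac f F) {g x : ℕ} {A : BinaryTree ℕ}
    {N : Finset (ℕ × ℕ)} {K Q : Finset ℕ} (hA : ∀ v ∈ inorder A, g < v ∧ v < x)
    (hN : N.card ≤ K.card) (hK : K ⊆ Q) (hg : F g ≠ F x → F g ∈ Q)
    (hr : ∀ a l r, A = .node a l r → ∀ k ∈ K, F a ≤ k) :
    ∃ N' : Finset (ℕ × ℕ), ∃ K' : Finset ℕ, prT f F g A ⊆ N' ∧ N ⊆ N' ∧ N'.card ≤ K'.card ∧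
      K' ⊆ Q ∧ ∀ k ∈ K', k ∈ K ∨ k = F g := by
  cases A with
  | nil =>
    exact ⟨N, K, by simp [prT], fun _ h => h, hN, hK, fun k hk => Or.inl hk⟩
  | node a l r =>
    by_cases hF : F g = F a
    · exact ⟨N, K, by simp [prT, pr, hF], fun _ h => h, hN, hK, fun k hk => Or.inl hk⟩
    · have ha := hA a (by simp [inorder])
      have h1 : F g ≤ F a := h.mF _ _ ha.1.le
      have h2 : F a ≤ F x := h.mF _ _ ha.2.le
      have h3 : F g ≠ F x := by omega
      have h4 : F g ∉ K := fun hk => by
        have := hr a l r rfl _ hk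
        omega
      refine ⟨N ∪ prT f F g (.node a l r), insert (F g) K, Finset.subset_union_right,
        Finset.subset_union_left, ?_, ?_, ?_⟩
      · rw [Finset.card_insert_of_notMem h4]
        have h5 := Finset.card_union_le N (prT f F g (.node a l r))
        have h6 : (prT f F g (.node a l r)).card ≤ 1 := prT_card
        omega
      · intro k hk
        rcases Finset.mem_insert.1 hk with rfl | hk
        · exact hg h3
        · exact hK hk
      · intro k hk
        rcases Finset.mem_insert.1 hk with rfl | hk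
        · exact Or.inr rfl
        · exact Or.inl hk

private theorem NewL_claim {f F : ℕ → ℕ} (h : Fac f F) {x : ℕ} {t A B : BinaryTree ℕ}
    (hg : GS x t A B) (hb : IsBST t) : ∃ N1 N2 : Finset (ℕ × ℕ), ∃ K1 K2 : Finset ℕ,
      E0 f F A ⊆ E0 f F t ∪ (N1 ∪ N2) ∧ N1.card ≤ K1.card ∧ N2.card ≤ K2.card ∧
      K1 ⊆ ((ancs x t).toFinset.filter (fun v => v < x ∧ F v ≠ F x)).image F ∧
      K2 ⊆ ((ancs x t).toFinset.filter (fun v => v < x ∧ F v ≠ F x)).image F ∧
      ∀ a l r, A = .node a l r → ∀ k ∈ K1, F a ≤ k := by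
  induction hg with
  | base A B =>
    refine ⟨∅, ∅, ∅, ∅, ?_, le_refl _, le_refl _, Finset.empty_subset _, Finset.empty_subset _, ?_⟩
    · intro q hq
      simp only [E0, Finset.mem_union]
      tauto
    · intro a l r _ k hk
      simp at hk
  | @zl g L D A B hxg _ ih =>
    obtain ⟨hbL, -, -, -⟩ := bst_node.1 hb
    obtain ⟨N1, N2, K1, K2, h1, h2, h3, h4, h5, h6⟩ := ih hbL
    refine ⟨N1, N2, K1, K2, ?_, h2, h3, ?_, ?_, h6⟩
    · intro q hq
      have := h1 hq
      simp only [E0, Finset.mem_union] at this ⊢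
      tauto
    · intro k hk
      obtain ⟨v, hv, k1, k2, k3⟩ := NewL_memQ.1 (h4 hk)
      exact NewL_memQ.2 ⟨v, by rw [NewL_anc_lt hxg]; simp [hv], k1, k2, k3⟩
    · intro k hk
      obtain ⟨v, hv, k1, k2, k3⟩ := NewL_memQ.1 (h5 hk)
      exact NewL_memQ.2 ⟨v, by rw [NewL_anc_lt hxg]; simp [hv], k1, k2, k3⟩
  | @ll p g L C D A B hxp hpg _ ih =>
    obtain ⟨hbP, -, -, -⟩ := bst_node.1 hb
    obtain ⟨hbL, -, -, -⟩ := bst_node.1 hbP
    obtain ⟨N1, N2, K1, K2, h1, h2, h3, h4, h5, h6⟩ := ih hbL
    refine ⟨N1, N2, K1, K2, ?_, h2, h3, ?_, ?_, h6⟩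
    · intro q hq
      have := h1 hq
      simp only [E0, Finset.mem_union] at this ⊢
      tauto
    · intro k hk
      obtain ⟨v, hv, k1, k2, k3⟩ := NewL_memQ.1 (h4 hk)
      exact NewL_memQ.2 ⟨v, by rw [NewL_anc_lt (hxp.trans hpg), NewL_anc_lt hxp]; simp [hv],
        k1, k2, k3⟩
    · intro k hk
      obtain ⟨v, hv, k1, k2, k3⟩ := NewL_memQ.1 (h5 hk)
      exact NewL_memQ.2 ⟨v, by rw [NewL_anc_lt (hxp.trans hpg), NewL_anc_lt hxp]; simp [hv],
        k1, k2, k3⟩
  | @zr g R D A B hgx hR ih =>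
    obtain ⟨-, hbR, -, hgR⟩ := bst_node.1 hb
    obtain ⟨N1, N2, K1, K2, h1, h2, h3, h4, h5, h6⟩ := ih hbR
    have hbn := GS_bst hR hbR
    have hin := GS_inorder hR
    have hAx : ∀ v ∈ inorder A, g < v ∧ v < x := fun v hv =>
      ⟨hgR v (by rw [← hin]; simp [inorder, hv]), (bst_node.1 hbn).2.2.1 v hv⟩
    have hQ : ∀ k ∈ ((ancs x R).toFinset.filter (fun v => v < x ∧ F v ≠ F x)).image F,
        k ∈ ((ancs x (.node g D R)).toFinset.filter (fun v => v < x ∧ F v ≠ F x)).image F := by
      intro k hk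
      obtain ⟨v, hv, k1, k2, k3⟩ := NewL_memQ.1 hk
      exact NewL_memQ.2 ⟨v, by rw [NewL_anc_gt hgx]; simp [hv], k1, k2, k3⟩
    have hQg : ∀ k ∈ ((ancs x R).toFinset.filter (fun v => v < x ∧ F v ≠ F x)).image F,
        F g ≤ k := by
      intro k hk
      obtain ⟨v, hv, k1, k2, rfl⟩ := NewL_memQ.1 hk
      exact h.mF _ _ (hgR v (NewL_anc_mem hv)).le
    obtain ⟨N', K', e1, e2, e3, e4, e5⟩ := NewL_add (f := f) h hAx h2 (fun k hk => hQ k (h4 hk))
      (fun hne => NewL_memQ.2 ⟨g, by rw [NewL_anc_gt hgx]; simp, hgx, hne, rfl⟩) h6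
    refine ⟨N', N2, K', K2, ?_, e3, h3, e4, fun k hk => hQ k (h5 hk), ?_⟩
    · intro q hq
      simp only [E0, Finset.mem_union] at hq ⊢
      rcases hq with ((hq | hq) | hq) | hq
      · tauto
      · have := e1 hq
        tauto
      · tauto
      · have := h1 hq
        simp only [Finset.mem_union] at this
        rcases this with this | this | this
        · tauto
        · have := e2 this
          tauto
        · tauto
    · rintro a l r h7 k hk
      simp only [BinaryTree.node.injEq] at h7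
      rw [← h7.1]
      rcases e5 k hk with h8 | h8
      · exact hQg k (h4 h8)
      · rw [h8]
  | @rr p g R C D A B hpx hgp hR ih =>
    obtain ⟨-, hbP, -, hgP⟩ := bst_node.1 hb
    obtain ⟨-, hbR, hCp, hpR⟩ := bst_node.1 hbP
    obtain ⟨N1, N2, K1, K2, h1, h2, h3, h4, h5, h6⟩ := ih hbR
    have hbn := GS_bst hR hbR
    have hin := GS_inorder hR
    have hgx : g < x := hgp.trans hpx
    have hAx : ∀ v ∈ inorder A, p < v ∧ v < x := fun v hv =>
      ⟨hpR v (by rw [← hin]; simp [inorder, hv]), (bst_node.1 hbn).2.2.1 v hv⟩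
    have hCx : ∀ v ∈ inorder C, g < v ∧ v < x := fun v hv =>
      ⟨hgP v (by simp [inorder, hv]), (hCp v hv).trans hpx⟩
    have hanc : ancs x (.node g D (.node p C R)) = ancs x R ++ [p] ++ [g] := by
      rw [NewL_anc_gt hgx, NewL_anc_gt hpx]
    have hQ : ∀ k ∈ ((ancs x R).toFinset.filter (fun v => v < x ∧ F v ≠ F x)).image F,
        k ∈ ((ancs x (.node g D (.node p C R))).toFinset.filter
          (fun v => v < x ∧ F v ≠ F x)).image F := by
      intro k hk
      obtain ⟨v, hv, k1, k2, k3⟩ := NewL_memQ.1 hk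
      exact NewL_memQ.2 ⟨v, by rw [hanc]; simp [hv], k1, k2, k3⟩
    have hQp : ∀ k ∈ ((ancs x R).toFinset.filter (fun v => v < x ∧ F v ≠ F x)).image F,
        F p ≤ k := by
      intro k hk
      obtain ⟨v, hv, k1, k2, rfl⟩ := NewL_memQ.1 hk
      exact h.mF _ _ (hpR v (NewL_anc_mem hv)).le
    obtain ⟨N', K', e1, e2, e3, e4, e5⟩ := NewL_add (f := f) h hAx h2 (fun k hk => hQ k (h4 hk))
      (fun hne => NewL_memQ.2 ⟨p, by rw [hanc]; simp, hpx, hne, rfl⟩) h6
    obtain ⟨N'', K'', d1, d2, d3, d4, -⟩ := NewL_add (f := f) h hCx h3 (fun k hk => hQ k (h5 hk))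
      (fun hne => NewL_memQ.2 ⟨g, by rw [hanc]; simp, hgx, hne, rfl⟩)
      (fun c l r hC k hk => (h.mF _ _ (hCp c (by rw [hC]; simp [inorder])).le).trans
        (hQp k (h5 hk)))
    refine ⟨N', N'', K', K'', ?_, e3, d3, e4, d4, ?_⟩
    · intro q hq
      simp only [E0, Finset.mem_union] at hq ⊢
      rcases hq with ((hq | hq) | hq) | hq
      · -- the edge p - g
        have hq' : q ∈ prT f F g (.node p C R) := by
          simp only [prT] at hq ⊢
          rwa [pr_comm]
        tauto
      · have := e1 hq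
        tauto
      · rcases hq with ((hq | hq) | hq) | hq
        · tauto
        · have := d1 hq
          tauto
        · tauto
        · tauto
      · have := h1 hq
        simp only [Finset.mem_union] at this
        rcases this with this | this | this
        · tauto
        · have := e2 this
          tauto
        · have := d2 this
          tauto
    · rintro a l r h7 k hk
      simp only [BinaryTree.node.injEq] at h7
      rw [← h7.1]
      rcases e5 k hk with h8 | h8
      · exact hQp k (h4 h8)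
      · rw [h8]

private theorem NewL_0 {f F : ℕ → ℕ} {x : ℕ} {t A B : BinaryTree ℕ} (hg : GS x t A B)
    (h0 : ∀ v ∈ ancs x t, v < x → F v = F x) :
    prT f F x A ⊆ E0 f F t ∧ XH f F x A ⊆ E0 f F t ∪ XL f F t := by
  induction hg with
  | base A B =>
    refine ⟨fun q hq => ?_, fun q hq => ?_⟩
    · simp only [E0, Finset.mem_union]
      tauto
    · simp only [XL, Finset.mem_union]
      tauto
  | @zl g L D A B hxg _ ih =>
    obtain ⟨h1, h2⟩ := ih fun v hv => h0 v (by rw [NewL_anc_lt hxg]; simp [hv])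
    refine ⟨fun q hq => ?_, fun q hq => ?_⟩
    · have := h1 hq
      simp only [E0, Finset.mem_union]
      tauto
    · have := h2 hq
      simp only [Finset.mem_union] at this
      rcases this with h3 | h3
      · simp only [E0, Finset.mem_union]
        tauto
      · have h4 : q ∈ XH f F g L := NewL_XL_XH h3
        simp only [XL, Finset.mem_union]
        tauto
  | @ll p g L C D A B hxp hpg _ ih =>
    obtain ⟨h1, h2⟩ := ih fun v hv => h0 v (by
      rw [NewL_anc_lt (hxp.trans hpg), NewL_anc_lt hxp]; simp [hv])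
    refine ⟨fun q hq => ?_, fun q hq => ?_⟩
    · have := h1 hq
      simp only [E0, Finset.mem_union]
      tauto
    · have := h2 hq
      simp only [Finset.mem_union] at this
      rcases this with h3 | h3
      · simp only [E0, Finset.mem_union]
        tauto
      · have h4 : q ∈ XH f F p L := NewL_XL_XH h3
        simp only [XL, XH, Finset.mem_union]
        tauto
  | @zr g R D A B hgx _ ih =>
    obtain ⟨h1, h2⟩ := ih fun v hv => h0 v (by rw [NewL_anc_gt hgx]; simp [hv])
    have h3 := h0 g (by rw [NewL_anc_gt hgx]; simp) hgx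
    refine ⟨?_, fun q hq => ?_⟩
    · simp [prT, pr, h3]
    · simp only [XH, Finset.mem_union] at hq
      rcases hq with hq | hq
      · have := h1 hq
        simp only [E0, Finset.mem_union]
        tauto
      · simp only [XL, Finset.mem_union]
        tauto
  | @rr p g R C D A B hpx hgp _ ih =>
    have hanc : ancs x (.node g D (.node p C R)) = ancs x R ++ [p] ++ [g] := by
      rw [NewL_anc_gt (hgp.trans hpx), NewL_anc_gt hpx]
    obtain ⟨h1, h2⟩ := ih fun v hv => h0 v (by rw [hanc]; simp [hv])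
    have h3 := h0 p (by rw [hanc]; simp) hpx
    refine ⟨?_, fun q hq => ?_⟩
    · simp [prT, pr, h3]
    · simp only [XH, Finset.mem_union] at hq
      rcases hq with hq | hq | hq
      · have := h1 hq
        simp only [E0, Finset.mem_union]
        tauto
      · simp only [E0, Finset.mem_union]
        tauto
      · simp only [XL, Finset.mem_union]
        tauto

/-- NEWL.  The left part `A` of the new tree: `XL A ⊆ E0 t ∪ XL t`.  PROOF.  Induction on `GS`.
base: `XL A ⊆ XH x A = XL t`.  zl (`t = node g L D`): `XL t = XH g L ⊇ XL L`, `E0 L ⊆ E0 t`.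
ll (`t = node g (node p L C) D`): `XL t = prT g C ∪ XH p L ⊇ XL L`.  zr (`A' = node g D A`):
`XL A' = XH g D = XL t`.  rr (`t = node g D (node p C R)`, `A' = node p (node g D C) A`):
`XL A' = XH p (node g D C) = prT p C ∪ XH g D`, `prT p C ⊆ E0 t`, `XH g D = XL t`. -/
theorem NEWL_X {f F : ℕ → ℕ} {x : ℕ} {t A B : BinaryTree ℕ} (hg : GS x t A B) :
    XL f F A ⊆ E0 f F t ∪ XL f F t := by
  induction hg with
  | base A B =>
    intro q hq
    have : q ∈ XH f F x A := NewL_XL_XH hq
    simp only [XL, Finset.mem_union]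
    tauto
  | @zl g L D A B hxg _ ih =>
    intro q hq
    have := ih hq
    simp only [Finset.mem_union] at this
    rcases this with h3 | h3
    · simp only [E0, Finset.mem_union]
      tauto
    · have h4 : q ∈ XH f F g L := NewL_XL_XH h3
      simp only [XL, Finset.mem_union]
      tauto
  | @ll p g L C D A B hxp hpg _ ih =>
    intro q hq
    have := ih hq
    simp only [Finset.mem_union] at this
    rcases this with h3 | h3
    · simp only [E0, Finset.mem_union]
      tauto
    · have h4 : q ∈ XH f F p L := NewL_XL_XH h3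
      simp only [XL, XH, Finset.mem_union]
      tauto
  | @zr g R D A B hgx _ ih =>
    intro q hq
    simp only [XL, Finset.mem_union] at hq ⊢
    tauto
  | @rr p g R C D A B hpx hgp _ ih =>
    intro q hq
    simp only [XL, XH, E0, Finset.mem_union] at hq ⊢
    tauto

/-- NEWL.  The edges of `A`: at most two new pairs for every coarse cell touched left of the coarse
cell of `x`.  PROOF.  Let `Q t` be the set of the `F v`, `v ∈ ancs x t`, `v < x`, `F v ≠ F x` (so
`F v < F x`).  Induction on `GS` with the claim: there are `N1 N2 K1 K2 : Finset` with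
`E0 A ⊆ E0 t ∪ (N1 ∪ N2)`, `N1.card ≤ K1.card`, `N2.card ≤ K2.card`, `K1 ⊆ Q t`, `K2 ⊆ Q t`, and
(i) if `A = node a _ _` then every element of `K1` is `≥ F a`.  A new ancestor `g < x` at the top is
smaller than all keys of `A` and than all other ancestors, so every element of the old `Q` is
`≥ F g`.
base, zl, ll: `A` and the left ancestors do not change (`E0` grows).
zr (`A' = node g D A`): `E0 A' = prT g D ∪ prT g A ∪ E0 D ∪ E0 A`; only `prT g A` may be new.  If it
is not empty then `A = node a _ _` with `F g ≠ F a`, `g < a < x`, so `F g < F a ≤ F x`: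
`N1' = N1 ∪ prT g A`, `K1' = insert (F g) K1`, `F g ∉ K1` by (i), `F g ∈ Q t'`.  (i) holds for the new
root `g` as all elements are `≥ F g`.
rr (`t = node g D (node p C R)`, `g < p < x`, `A' = node p (node g D C) A`): `E0 A' = {p–g} ∪
prT p A ∪ prT g D ∪ prT g C ∪ E0 D ∪ E0 C ∪ E0 A`.  `prT p A` is treated as in zr (`K1' =
insert (F p) K1`; (i) for the new root `p`).  `prT g C` may be new; if it is not empty and `c` is the
root of `C` then `g < c < p`, `F g ≠ F c`, so `F g < F c ≤ F p` and `F p ≤` every element of the old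
`Q`, so `F g ∉ K2`: `N2' = N2 ∪ prT g C`, `K2' = insert (F g) K2`.  Result: `N = N1 ∪ N2`. -/
theorem NEWL_E {f F : ℕ → ℕ} (h : Fac f F) {x : ℕ} {t A B : BinaryTree ℕ} (hg : GS x t A B)
    (hb : IsBST t) : ∃ N : Finset (ℕ × ℕ), E0 f F A ⊆ E0 f F t ∪ N ∧
      N.card ≤ 2 * (((ancs x t).toFinset.filter (fun v => v < x ∧ F v ≠ F x)).image F).card := by
  obtain ⟨N1, N2, K1, K2, h1, h2, h3, h4, h5, -⟩ := NewL_claim h hg hb
  refine ⟨N1 ∪ N2, h1, ?_⟩
  have h6 := Finset.card_union_le N1 N2
  have h7 := Finset.card_le_card h4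
  have h8 := Finset.card_le_card h5
  omega

/-- NEWL.  If all left ancestors lie in the coarse cell of `x`.  PROOF.  Induction on `GS`.
base: `prT x A ⊆ E0 t`, `XH x A = XL t`.  zl, ll: `E0 L ⊆ E0 t`, `XL L ⊆ XL t`.  zr
(`A' = node g D A`): `prT x A' = ∅`, `XH x A' = prT x A ∪ XH g D`, `XH g D = XL t`.  rr
(`A' = node p (node g D C) A`): `prT x A' = ∅`, `XH x A' = prT x A ∪ prT p C ∪ XH g D`. -/
theorem NEWL_0 {f F : ℕ → ℕ} (h : Fac f F) {x : ℕ} {t A B : BinaryTree ℕ} (hg : GS x t A B)
    (h0 : ∀ v ∈ ancs x t, v < x → F v = F x) :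
    prT f F x A ∪ XH f F x A ⊆ E0 f F t ∪ XL f F t := by
  exact Finset.union_subset ((NewL_0 hg h0).1.trans Finset.subset_union_left) (NewL_0 hg h0).2

end Pool.Agent.SplNest
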