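import Pool.Agent.SplNest.Defs
import Pool.Agent.SplNest.Bas

set_option autoImplicit false

namespace Pool.Agent.SplNest

open BinaryTree Pool.Agent.MP_c42954_lc.Scan Pool.Agent.SplPat Pool.Agent.SplAll

private theorem NewR_XR_XG {f F : ℕ → ℕ} {b : ℕ} {t : BinaryTree ℕ} : XR f F t ⊆ XG f F b t := by
  cases t with
  | nil => simp [XR]
  | node a l r => simp only [XR, XG]; exact Finset.subset_union_right

private theorem NewR_anc_lt {x g : ℕ} {L D : BinaryTree ℕ} (h : x < g) :
    ancs x (.node g L D) = ancs x L ++ [g] := by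
  simp [ancs, h.ne, h]

private theorem NewR_anc_gt {x g : ℕ} {R D : BinaryTree ℕ} (h : g < x) :
    ancs x (.node g D R) = ancs x R ++ [g] := by
  simp [ancs, h.ne', h.not_gt]

private theorem NewR_anc_mem {x v : ℕ} {t : BinaryTree ℕ} (h : v ∈ ancs x t) : v ∈ inorder t := by
  induction t with
  | nil => simp [ancs] at h
  | node a l r ihl ihr =>
    simp only [ancs] at h
    simp only [inorder, List.mem_append, List.mem_cons]
    split_ifs at h with h1 h2
    · simp at h
    · simp only [List.mem_append, List.mem_cons, List.not_mem_nil, or_false] at h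
      rcases h with h | h
      · exact Or.inl (ihl h)
      · exact Or.inr (Or.inl h)
    · simp only [List.mem_append, List.mem_cons, List.not_mem_nil, or_false] at h
      rcases h with h | h
      · exact Or.inr (Or.inr (ihr h))
      · exact Or.inr (Or.inl h)

private theorem NewR_memQ {F : ℕ → ℕ} {x k : ℕ} {t : BinaryTree ℕ} :
    k ∈ ((ancs x t).toFinset.filter (fun v => x < v ∧ F v ≠ F x)).image F ↔
      ∃ v ∈ ancs x t, x < v ∧ F v ≠ F x ∧ F v = k := by
  simp only [Finset.mem_image, Finset.mem_filter, List.mem_toFinset]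
  constructor
  · rintro ⟨v, ⟨h1, h2, h3⟩, h4⟩
    exact ⟨v, h1, h2, h3, h4⟩
  · rintro ⟨v, h1, h2, h3, h4⟩
    exact ⟨v, ⟨h1, h2, h3⟩, h4⟩

/-- one more edge from `g` to the root of `B` -/
private theorem NewR_add {f F : ℕ → ℕ} (h : Fac f F) {g x : ℕ} {B : BinaryTree ℕ}
    {N : Finset (ℕ × ℕ)} {K Q : Finset ℕ} (hB : ∀ v ∈ inorder B, x < v ∧ v < g)
    (hN : N.card ≤ K.card) (hK : K ⊆ Q) (hg : F g ≠ F x → F g ∈ Q)
    (hr : ∀ a l r, B = .node a l r → ∀ k ∈ K, k ≤ F a) :
    ∃ N' : Finset (ℕ × ℕ), ∃ K' : Finset ℕ, prT f F g B ⊆ N' ∧ N ⊆ N' ∧ N'.card ≤ K'.card ∧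
      K' ⊆ Q ∧ ∀ k ∈ K', k ∈ K ∨ k = F g := by
  cases B with
  | nil =>
    exact ⟨N, K, by simp [prT], fun _ h => h, hN, hK, fun k hk => Or.inl hk⟩
  | node a l r =>
    by_cases hF : F g = F a
    · exact ⟨N, K, by simp [prT, pr, hF], fun _ h => h, hN, hK, fun k hk => Or.inl hk⟩
    · have ha := hB a (by simp [inorder])
      have h1 : F a ≤ F g := h.mF _ _ ha.2.le
      have h2 : F x ≤ F a := h.mF _ _ ha.1.le
      have h3 : F g ≠ F x := by omega
      have h4 : F g ∉ K := fun hk => by
        have := hr a l r rfl _ hk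
        omega
      refine ⟨N ∪ prT f F g (.node a l r), insert (F g) K, Finset.subset_union_right,
        Finset.subset_union_left, ?_, ?_, ?_⟩
      · rw [Finset.card_insert_of_notMem h4]
        have h5 := Finset.card_union_le N (prT f F g (.node a l r))
        have h6 : (prT f F g (.node a l r)).card ≤ 1 := prT_card
        omega
      · intro k hk
        rcases Finset.mem_insert.1 hk with rfl | hk
        · exact hg h3
        · exact hK hk
      · intro k hk
        rcases Finset.mem_insert.1 hk with rfl | hk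
        · exact Or.inr rfl
        · exact Or.inl hk

private theorem NewR_claim {f F : ℕ → ℕ} (h : Fac f F) {x : ℕ} {t A B : BinaryTree ℕ}
    (hg : GS x t A B) (hb : IsBST t) : ∃ N1 N2 : Finset (ℕ × ℕ), ∃ K1 K2 : Finset ℕ,
      E0 f F B ⊆ E0 f F t ∪ (N1 ∪ N2) ∧ N1.card ≤ K1.card ∧ N2.card ≤ K2.card ∧
      K1 ⊆ ((ancs x t).toFinset.filter (fun v => x < v ∧ F v ≠ F x)).image F ∧
      K2 ⊆ ((ancs x t).toFinset.filter (fun v => x < v ∧ F v ≠ F x)).image F ∧
      ∀ a l r, B = .node a l r → ∀ k ∈ K1, k ≤ F a := by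
  induction hg with
  | base A B =>
    refine ⟨∅, ∅, ∅, ∅, ?_, le_refl _, le_refl _, Finset.empty_subset _, Finset.empty_subset _, ?_⟩
    · intro q hq
      simp only [E0, Finset.mem_union]
      tauto
    · intro a l r _ k hk
      simp at hk
  | @zr g R D A B hgx _ ih =>
    obtain ⟨-, hbR, -, -⟩ := bst_node.1 hb
    obtain ⟨N1, N2, K1, K2, h1, h2, h3, h4, h5, h6⟩ := ih hbR
    refine ⟨N1, N2, K1, K2, ?_, h2, h3, ?_, ?_, h6⟩
    · intro q hq
      have := h1 hq
      simp only [E0, Finset.mem_union] at this ⊢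
      tauto
    · intro k hk
      obtain ⟨v, hv, k1, k2, k3⟩ := NewR_memQ.1 (h4 hk)
      exact NewR_memQ.2 ⟨v, by rw [NewR_anc_gt hgx]; simp [hv], k1, k2, k3⟩
    · intro k hk
      obtain ⟨v, hv, k1, k2, k3⟩ := NewR_memQ.1 (h5 hk)
      exact NewR_memQ.2 ⟨v, by rw [NewR_anc_gt hgx]; simp [hv], k1, k2, k3⟩
  | @rr p g R C D A B hpx hgp _ ih =>
    obtain ⟨-, hbP, -, -⟩ := bst_node.1 hb
    obtain ⟨-, hbR, -, -⟩ := bst_node.1 hbP
    obtain ⟨N1, N2, K1, K2, h1, h2, h3, h4, h5, h6⟩ := ih hbR
    refine ⟨N1, N2, K1, K2, ?_, h2, h3, ?_, ?_, h6⟩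
    · intro q hq
      have := h1 hq
      simp only [E0, Finset.mem_union] at this ⊢
      tauto
    · intro k hk
      obtain ⟨v, hv, k1, k2, k3⟩ := NewR_memQ.1 (h4 hk)
      exact NewR_memQ.2 ⟨v, by rw [NewR_anc_gt (hgp.trans hpx), NewR_anc_gt hpx]; simp [hv],
        k1, k2, k3⟩
    · intro k hk
      obtain ⟨v, hv, k1, k2, k3⟩ := NewR_memQ.1 (h5 hk)
      exact NewR_memQ.2 ⟨v, by rw [NewR_anc_gt (hgp.trans hpx), NewR_anc_gt hpx]; simp [hv],
        k1, k2, k3⟩
  | @zl g L D A B hxg hL ih =>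
    obtain ⟨hbL, -, hLg, -⟩ := bst_node.1 hb
    obtain ⟨N1, N2, K1, K2, h1, h2, h3, h4, h5, h6⟩ := ih hbL
    have hbn := GS_bst hL hbL
    have hin := GS_inorder hL
    have hBx : ∀ v ∈ inorder B, x < v ∧ v < g := fun v hv =>
      ⟨(bst_node.1 hbn).2.2.2 v hv, hLg v (by rw [← hin]; simp [inorder, hv])⟩
    have hQ : ∀ k ∈ ((ancs x L).toFinset.filter (fun v => x < v ∧ F v ≠ F x)).image F,
        k ∈ ((ancs x (.node g L D)).toFinset.filter (fun v => x < v ∧ F v ≠ F x)).image F := by
      intro k hk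
      obtain ⟨v, hv, k1, k2, k3⟩ := NewR_memQ.1 hk
      exact NewR_memQ.2 ⟨v, by rw [NewR_anc_lt hxg]; simp [hv], k1, k2, k3⟩
    have hQg : ∀ k ∈ ((ancs x L).toFinset.filter (fun v => x < v ∧ F v ≠ F x)).image F,
        k ≤ F g := by
      intro k hk
      obtain ⟨v, hv, k1, k2, rfl⟩ := NewR_memQ.1 hk
      exact h.mF _ _ (hLg v (NewR_anc_mem hv)).le
    obtain ⟨N', K', e1, e2, e3, e4, e5⟩ := NewR_add (f := f) h hBx h2 (fun k hk => hQ k (h4 hk))
      (fun hne => NewR_memQ.2 ⟨g, by rw [NewR_anc_lt hxg]; simp, hxg, hne, rfl⟩) h6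
    refine ⟨N', N2, K', K2, ?_, e3, h3, e4, fun k hk => hQ k (h5 hk), ?_⟩
    · intro q hq
      simp only [E0, Finset.mem_union] at hq ⊢
      rcases hq with ((hq | hq) | hq) | hq
      · have := e1 hq
        tauto
      · tauto
      · have := h1 hq
        simp only [Finset.mem_union] at this
        rcases this with this | this | this
        · tauto
        · have := e2 this
          tauto
        · tauto
      · tauto
    · rintro a l r h7 k hk
      simp only [BinaryTree.node.injEq] at h7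
      rw [← h7.1]
      rcases e5 k hk with h8 | h8
      · exact hQg k (h4 h8)
      · rw [h8]
  | @ll p g L C D A B hxp hpg hL ih =>
    obtain ⟨hbP, -, hPg, -⟩ := bst_node.1 hb
    obtain ⟨hbL, -, hLp, hpC⟩ := bst_node.1 hbP
    obtain ⟨N1, N2, K1, K2, h1, h2, h3, h4, h5, h6⟩ := ih hbL
    have hbn := GS_bst hL hbL
    have hin := GS_inorder hL
    have hxg : x < g := hxp.trans hpg
    have hBx : ∀ v ∈ inorder B, x < v ∧ v < p := fun v hv =>
      ⟨(bst_node.1 hbn).2.2.2 v hv, hLp v (by rw [← hin]; simp [inorder, hv])⟩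
    have hCx : ∀ v ∈ inorder C, x < v ∧ v < g := fun v hv =>
      ⟨hxp.trans (hpC v hv), hPg v (by simp [inorder, hv])⟩
    have hanc : ancs x (.node g (.node p L C) D) = ancs x L ++ [p] ++ [g] := by
      rw [NewR_anc_lt hxg, NewR_anc_lt hxp]
    have hQ : ∀ k ∈ ((ancs x L).toFinset.filter (fun v => x < v ∧ F v ≠ F x)).image F,
        k ∈ ((ancs x (.node g (.node p L C) D)).toFinset.filter
          (fun v => x < v ∧ F v ≠ F x)).image F := by
      intro k hk
      obtain ⟨v, hv, k1, k2, k3⟩ := NewR_memQ.1 hk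
      exact NewR_memQ.2 ⟨v, by rw [hanc]; simp [hv], k1, k2, k3⟩
    have hQp : ∀ k ∈ ((ancs x L).toFinset.filter (fun v => x < v ∧ F v ≠ F x)).image F,
        k ≤ F p := by
      intro k hk
      obtain ⟨v, hv, k1, k2, rfl⟩ := NewR_memQ.1 hk
      exact h.mF _ _ (hLp v (NewR_anc_mem hv)).le
    obtain ⟨N', K', e1, e2, e3, e4, e5⟩ := NewR_add (f := f) h hBx h2 (fun k hk => hQ k (h4 hk))
      (fun hne => NewR_memQ.2 ⟨p, by rw [hanc]; simp, hxp, hne, rfl⟩) h6
    obtain ⟨N'', K'', d1, d2, d3, d4, -⟩ := NewR_add (f := f) h hCx h3 (fun k hk => hQ k (h5 hk))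
      (fun hne => NewR_memQ.2 ⟨g, by rw [hanc]; simp, hxg, hne, rfl⟩)
      (fun c l r hC k hk => (hQp k (h5 hk)).trans
        (h.mF _ _ (hpC c (by rw [hC]; simp [inorder])).le))
    refine ⟨N', N'', K', K'', ?_, e3, d3, e4, d4, ?_⟩
    · intro q hq
      simp only [E0, Finset.mem_union] at hq ⊢
      rcases hq with ((hq | hq) | hq) | hq
      · have := e1 hq
        tauto
      · -- the edge p - g
        have hq' : q ∈ prT f F g (.node p L C) := by
          simp only [prT] at hq ⊢
          rwa [pr_comm]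
        tauto
      · have := h1 hq
        simp only [Finset.mem_union] at this
        rcases this with this | this | this
        · tauto
        · have := e2 this
          tauto
        · have := d2 this
          tauto
      · rcases hq with ((hq | hq) | hq) | hq
        · have := d1 hq
          tauto
        · tauto
        · tauto
        · tauto
    · rintro a l r h7 k hk
      simp only [BinaryTree.node.injEq] at h7
      rw [← h7.1]
      rcases e5 k hk with h8 | h8
      · exact hQp k (h4 h8)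
      · rw [h8]

private theorem NewR_0 {f F : ℕ → ℕ} {x : ℕ} {t A B : BinaryTree ℕ} (hg : GS x t A B)
    (h0 : ∀ v ∈ ancs x t, x < v → F v = F x) :
    prT f F x B ⊆ E0 f F t ∧ XG f F x B ⊆ E0 f F t ∪ XR f F t := by
  induction hg with
  | base A B =>
    refine ⟨fun q hq => ?_, fun q hq => ?_⟩
    · simp only [E0, Finset.mem_union]
      tauto
    · simp only [XR, Finset.mem_union]
      tauto
  | @zr g R D A B hgx _ ih =>
    obtain ⟨h1, h2⟩ := ih fun v hv => h0 v (by rw [NewR_anc_gt hgx]; simp [hv])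
    refine ⟨fun q hq => ?_, fun q hq => ?_⟩
    · have := h1 hq
      simp only [E0, Finset.mem_union]
      tauto
    · have := h2 hq
      simp only [Finset.mem_union] at this
      rcases this with h3 | h3
      · simp only [E0, Finset.mem_union]
        tauto
      · have h4 : q ∈ XG f F g R := NewR_XR_XG h3
        simp only [XR, Finset.mem_union]
        tauto
  | @rr p g R C D A B hpx hgp _ ih =>
    obtain ⟨h1, h2⟩ := ih fun v hv => h0 v (by
      rw [NewR_anc_gt (hgp.trans hpx), NewR_anc_gt hpx]; simp [hv])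
    refine ⟨fun q hq => ?_, fun q hq => ?_⟩
    · have := h1 hq
      simp only [E0, Finset.mem_union]
      tauto
    · have := h2 hq
      simp only [Finset.mem_union] at this
      rcases this with h3 | h3
      · simp only [E0, Finset.mem_union]
        tauto
      · have h4 : q ∈ XG f F p R := NewR_XR_XG h3
        simp only [XR, XG, Finset.mem_union]
        tauto
  | @zl g L D A B hxg _ ih =>
    obtain ⟨h1, h2⟩ := ih fun v hv => h0 v (by rw [NewR_anc_lt hxg]; simp [hv])
    have h3 := h0 g (by rw [NewR_anc_lt hxg]; simp) hxg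
    refine ⟨?_, fun q hq => ?_⟩
    · simp [prT, pr, h3]
    · simp only [XG, Finset.mem_union] at hq
      rcases hq with hq | hq
      · have := h1 hq
        simp only [E0, Finset.mem_union]
        tauto
      · simp only [XR, Finset.mem_union]
        tauto
  | @ll p g L C D A B hxp hpg _ ih =>
    have hanc : ancs x (.node g (.node p L C) D) = ancs x L ++ [p] ++ [g] := by
      rw [NewR_anc_lt (hxp.trans hpg), NewR_anc_lt hxp]
    obtain ⟨h1, h2⟩ := ih fun v hv => h0 v (by rw [hanc]; simp [hv])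
    have h3 := h0 p (by rw [hanc]; simp) hxp
    refine ⟨?_, fun q hq => ?_⟩
    · simp [prT, pr, h3]
    · simp only [XG, Finset.mem_union] at hq
      rcases hq with hq | hq | hq
      · have := h1 hq
        simp only [E0, Finset.mem_union]
        tauto
      · simp only [E0, Finset.mem_union]
        tauto
      · simp only [XR, Finset.mem_union]
        tauto

/-- NEWR: the mirror image of NEWL, see NewL.lean for the proofs (`B`, zl, ll instead of `A`, zr,
rr). -/
theorem NEWR_X {f F : ℕ → ℕ} {x : ℕ} {t A B : BinaryTree ℕ} (hg : GS x t A B) :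
    XR f F B ⊆ E0 f F t ∪ XR f F t := by
  induction hg with
  | base A B =>
    intro q hq
    have : q ∈ XG f F x B := NewR_XR_XG hq
    simp only [XR, Finset.mem_union]
    tauto
  | @zr g R D A B hgx _ ih =>
    intro q hq
    have := ih hq
    simp only [Finset.mem_union] at this
    rcases this with h3 | h3
    · simp only [E0, Finset.mem_union]
      tauto
    · have h4 : q ∈ XG f F g R := NewR_XR_XG h3
      simp only [XR, Finset.mem_union]
      tauto
  | @rr p g R C D A B hpx hgp _ ih =>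
    intro q hq
    have := ih hq
    simp only [Finset.mem_union] at this
    rcases this with h3 | h3
    · simp only [E0, Finset.mem_union]
      tauto
    · have h4 : q ∈ XG f F p R := NewR_XR_XG h3
      simp only [XR, XG, Finset.mem_union]
      tauto
  | @zl g L D A B hxg _ ih =>
    intro q hq
    simp only [XR, Finset.mem_union] at hq ⊢
    tauto
  | @ll p g L C D A B hxp hpg _ ih =>
    intro q hq
    simp only [XR, XG, E0, Finset.mem_union] at hq ⊢
    tauto

theorem NEWR_E {f F : ℕ → ℕ} (h : Fac f F) {x : ℕ} {t A B : BinaryTree ℕ} (hg : GS x t A B)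
    (hb : IsBST t) : ∃ N : Finset (ℕ × ℕ), E0 f F B ⊆ E0 f F t ∪ N ∧
      N.card ≤ 2 * (((ancs x t).toFinset.filter (fun v => x < v ∧ F v ≠ F x)).image F).card := by
  obtain ⟨N1, N2, K1, K2, h1, h2, h3, h4, h5, -⟩ := NewR_claim h hg hb
  refine ⟨N1 ∪ N2, h1, ?_⟩
  have h6 := Finset.card_union_le N1 N2
  have h7 := Finset.card_le_card h4
  have h8 := Finset.card_le_card h5
  omega

theorem NEWR_0 {f F : ℕ → ℕ} (h : Fac f F) {x : ℕ} {t A B : BinaryTree ℕ} (hg : GS x t A B)
    (h0 : ∀ v ∈ ancs x t, x < v → F v = F x) :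
    prT f F x B ∪ XG f F x B ⊆ E0 f F t ∪ XR f F t := by
  exact Finset.union_subset ((NewR_0 hg h0).1.trans Finset.subset_union_left) (NewR_0 hg h0).2

end Pool.Agent.SplNest
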