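import Pool.Agent.SplNest.Defs
import Pool.Agent.SplNest.Bas
import Pool.Agent.SplNest.NewL
import Pool.Agent.SplNest.NewR

set_option autoImplicit false

namespace Pool.Agent.SplNest

open BinaryTree Pool.Agent.MP_c42954_lc.Scan Pool.Agent.SplPat Pool.Agent.SplAll

private theorem New_XH {f F : ℕ → ℕ} {x : ℕ} {A : BinaryTree ℕ} : ∃ P : Finset (ℕ × ℕ),
    P.card ≤ 1 ∧ XH f F x A ⊆ P ∪ XL f F A := by
  cases A with
  | nil => exact ⟨∅, by simp, by simp [XH]⟩
  | node a l s => exact ⟨prT f F x s, prT_card, by simp only [XH, XL]; exact fun q h => h⟩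

private theorem New_XG {f F : ℕ → ℕ} {x : ℕ} {A : BinaryTree ℕ} : ∃ P : Finset (ℕ × ℕ),
    P.card ≤ 1 ∧ XG f F x A ⊆ P ∪ XR f F A := by
  cases A with
  | nil => exact ⟨∅, by simp, by simp [XG]⟩
  | node a s r => exact ⟨prT f F x s, prT_card, by simp only [XG, XR]; exact fun q h => h⟩

/-- GE1.  PROOF.  `EE (node x A B) = prT x A ∪ prT x B ∪ E0 A ∪ E0 B ∪ XH x A ∪ XG x B`, and
`XH x A ⊆ prT x s ∪ XL A` if `A = node a l s` (empty for `A = nil`), `XG x B ⊆ prT x s' ∪ XR B`.
By NEWL, NEWR everything lies in `EE t` except `N_L ∪ N_R` and four sets `prT x _` with at most one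
element.  The coarse cells touched on the left are `< F x`, those on the right `> F x`, so the two
images are disjoint and their union is the image in the claim.  If the image is empty: `N_L = N_R =
∅`, and the four sets are in `EE t` by `NEWL_0`, `NEWR_0`. -/
theorem GE1 {f F : ℕ → ℕ} (h : Fac f F) {x : ℕ} {t A B : BinaryTree ℕ} (hg : GS x t A B)
    (hb : IsBST t) :
    (EE f F (.node x A B) \ EE f F t).card ≤
      2 * (((ancs x t).toFinset.filter (fun v => F v ≠ F x)).image F).card + 4 ∧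
    ((((ancs x t).toFinset.filter (fun v => F v ≠ F x)).image F).card = 0 →
      EE f F (.node x A B) ⊆ EE f F t) := by
  set QL := ((ancs x t).toFinset.filter (fun v => v < x ∧ F v ≠ F x)).image F with hQL
  set QR := ((ancs x t).toFinset.filter (fun v => x < v ∧ F v ≠ F x)).image F with hQR
  set Q := ((ancs x t).toFinset.filter (fun v => F v ≠ F x)).image F with hQ
  have hdis : Disjoint QL QR := by
    rw [Finset.disjoint_left]
    intro k h1 h2
    simp only [hQL, hQR, Finset.mem_image, Finset.mem_filter] at h1 h2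
    obtain ⟨v, ⟨-, h3, h4⟩, rfl⟩ := h1
    obtain ⟨w, ⟨-, h5, h6⟩, h7⟩ := h2
    have h8 := h.mF _ _ h3.le
    have h9 := h.mF _ _ h5.le
    omega
  have hun : QL ∪ QR = Q := by
    ext k
    simp only [hQL, hQR, hQ, Finset.mem_union, Finset.mem_image, Finset.mem_filter]
    constructor
    · rintro (⟨v, ⟨h1, h2, h3⟩, h4⟩ | ⟨v, ⟨h1, h2, h3⟩, h4⟩)
      · exact ⟨v, ⟨h1, h3⟩, h4⟩
      · exact ⟨v, ⟨h1, h3⟩, h4⟩
    · rintro ⟨v, ⟨h1, h3⟩, h4⟩
      rcases lt_trichotomy v x with h5 | h5 | h5
      · exact Or.inl ⟨v, ⟨h1, h5, h3⟩, h4⟩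
      · exact absurd (congrArg F h5) h3
      · exact Or.inr ⟨v, ⟨h1, h5, h3⟩, h4⟩
  have hcard : Q.card = QL.card + QR.card := by
    rw [← hun, Finset.card_union_of_disjoint hdis]
  obtain ⟨NL, hL1, hL2⟩ := NEWL_E (f := f) h hg hb
  obtain ⟨NR, hR1, hR2⟩ := NEWR_E (f := f) h hg hb
  rw [← hQL] at hL2
  rw [← hQR] at hR2
  have hXL := NEWL_X (f := f) (F := F) hg
  have hXR := NEWR_X (f := f) (F := F) hg
  obtain ⟨P1, hP1, hP1'⟩ := New_XH (f := f) (F := F) (x := x) (A := A)
  obtain ⟨P2, hP2, hP2'⟩ := New_XG (f := f) (F := F) (x := x) (A := B)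
  have hA1 : (prT f F x A).card ≤ 1 := prT_card
  have hB1 : (prT f F x B).card ≤ 1 := prT_card
  constructor
  · have hsub : EE f F (.node x A B) \ EE f F t ⊆
        (NL ∪ NR) ∪ ((prT f F x A ∪ prT f F x B) ∪ (P1 ∪ P2)) := by
      intro q hq
      rw [Finset.mem_sdiff] at hq
      obtain ⟨hq1, hq2⟩ := hq
      have k0 : q ∉ E0 f F t := fun h => hq2 (by simp only [EE, Finset.mem_union]; tauto)
      have k1 : q ∉ XL f F t := fun h => hq2 (by simp only [EE, Finset.mem_union]; tauto)
      have k2 : q ∉ XR f F t := fun h => hq2 (by simp only [EE, Finset.mem_union]; tauto)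
      have a1 : q ∈ E0 f F A → q ∈ E0 f F t ∨ q ∈ NL := fun h => Finset.mem_union.1 (hL1 h)
      have a2 : q ∈ E0 f F B → q ∈ E0 f F t ∨ q ∈ NR := fun h => Finset.mem_union.1 (hR1 h)
      have a3 : q ∈ XH f F x A → q ∈ P1 ∨ q ∈ XL f F A := fun h => Finset.mem_union.1 (hP1' h)
      have a4 : q ∈ XG f F x B → q ∈ P2 ∨ q ∈ XR f F B := fun h => Finset.mem_union.1 (hP2' h)
      have a5 : q ∈ XL f F A → q ∈ E0 f F t ∨ q ∈ XL f F t := fun h => Finset.mem_union.1 (hXL h)
      have a6 : q ∈ XR f F B → q ∈ E0 f F t ∨ q ∈ XR f F t := fun h => Finset.mem_union.1 (hXR h)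
      have a8 : q ∈ EE f F (.node x A B) → ((((q ∈ prT f F x A ∨ q ∈ prT f F x B) ∨
          q ∈ E0 f F A) ∨ q ∈ E0 f F B) ∨ q ∈ XH f F x A) ∨ q ∈ XG f F x B := fun h => by
        simpa only [EE, E0, XL, XR, Finset.mem_union] using h
      clear hq2
      rcases a8 hq1 with ((((h1 | h1) | h1) | h1) | h1) | h1
      · exact Finset.mem_union_right _ (Finset.mem_union_left _ (Finset.mem_union_left _ h1))
      · exact Finset.mem_union_right _ (Finset.mem_union_left _ (Finset.mem_union_right _ h1))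
      · rcases a1 h1 with h2 | h2
        · exact absurd h2 k0
        · exact Finset.mem_union_left _ (Finset.mem_union_left _ h2)
      · rcases a2 h1 with h2 | h2
        · exact absurd h2 k0
        · exact Finset.mem_union_left _ (Finset.mem_union_right _ h2)
      · rcases a3 h1 with h2 | h2
        · exact Finset.mem_union_right _ (Finset.mem_union_right _ (Finset.mem_union_left _ h2))
        · rcases a5 h2 with h3 | h3
          · exact absurd h3 k0
          · exact absurd h3 k1
      · rcases a4 h1 with h2 | h2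
        · exact Finset.mem_union_right _ (Finset.mem_union_right _ (Finset.mem_union_right _ h2))
        · rcases a6 h2 with h3 | h3
          · exact absurd h3 k0
          · exact absurd h3 k2
    have c1 := Finset.card_le_card hsub
    have c2 := Finset.card_union_le (NL ∪ NR) ((prT f F x A ∪ prT f F x B) ∪ (P1 ∪ P2))
    have c3 := Finset.card_union_le NL NR
    have c4 := Finset.card_union_le (prT f F x A ∪ prT f F x B) (P1 ∪ P2)
    have c5 := Finset.card_union_le (prT f F x A) (prT f F x B)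
    have c6 := Finset.card_union_le P1 P2
    rw [hcard]
    omega
  · intro h0
    have hQL0 : QL.card = 0 := by omega
    have hQR0 : QR.card = 0 := by omega
    have hNL : NL = ∅ := Finset.card_eq_zero.1 (by omega)
    have hNR : NR = ∅ := Finset.card_eq_zero.1 (by omega)
    have hanc : ∀ v ∈ ancs x t, F v = F x := by
      intro v hv
      by_contra hne
      have h1 : F v ∈ Q := by
        rw [hQ]
        exact Finset.mem_image_of_mem F (Finset.mem_filter.2 ⟨List.mem_toFinset.2 hv, hne⟩)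
      rw [Finset.card_eq_zero] at h0
      rw [h0] at h1
      exact Finset.notMem_empty _ h1
    have hL0 := NEWL_0 (f := f) h hg fun v hv _ => hanc v hv
    have hR0 := NEWR_0 (f := f) h hg fun v hv _ => hanc v hv
    intro q hq
    have a1 : q ∈ E0 f F A → q ∈ E0 f F t := fun h => by
      have := Finset.mem_union.1 (hL1 h)
      rw [hNL] at this
      simpa using this
    have a2 : q ∈ E0 f F B → q ∈ E0 f F t := fun h => by
      have := Finset.mem_union.1 (hR1 h)
      rw [hNR] at this
      simpa using this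
    have a3 : q ∈ prT f F x A ∨ q ∈ XH f F x A → q ∈ E0 f F t ∨ q ∈ XL f F t := fun h =>
      Finset.mem_union.1 (hL0 (Finset.mem_union.2 h))
    have a4 : q ∈ prT f F x B ∨ q ∈ XG f F x B → q ∈ E0 f F t ∨ q ∈ XR f F t := fun h =>
      Finset.mem_union.1 (hR0 (Finset.mem_union.2 h))
    have a7 : q ∈ EE f F t ↔ (q ∈ E0 f F t ∨ q ∈ XL f F t) ∨ q ∈ XR f F t := by
      simp only [EE, Finset.mem_union]
    rw [a7]
    have a8 : q ∈ EE f F (.node x A B) → ((((q ∈ prT f F x A ∨ q ∈ prT f F x B) ∨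
        q ∈ E0 f F A) ∨ q ∈ E0 f F B) ∨ q ∈ XH f F x A) ∨ q ∈ XG f F x B := fun h => by
      simpa only [EE, E0, XL, XR, Finset.mem_union] using h
    rcases a8 hq with ((((h1 | h1) | h1) | h1) | h1) | h1
    · exact Or.inl (a3 (Or.inl h1))
    · exact (a4 (Or.inl h1)).elim (fun h => Or.inl (Or.inl h)) Or.inr
    · exact Or.inl (Or.inl (a1 h1))
    · exact Or.inl (Or.inl (a2 h1))
    · exact Or.inl (a3 (Or.inr h1))
    · exact (a4 (Or.inr h1)).elim (fun h => Or.inl (Or.inl h)) Or.inr

end Pool.Agent.SplNest
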