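import Pool.Agent.SplNest.Defs
import Pool.Agent.SplNest.Bas
import Pool.Agent.SplNest.AltL
import Pool.Agent.SplNest.AltR
import Pool.Agent.SplNest.New

set_option autoImplicit false

namespace Pool.Agent.SplNest

open BinaryTree Pool.Agent.MP_c42954_lc.Scan Pool.Agent.SplPat Pool.Agent.SplAll

private theorem Alt_zip {q : ℕ × ℕ} {a : ℕ} : ∀ {L : List ℕ},
    q ∈ (L ++ [a]).zip (L ++ [a]).tail → q ∈ L.zip L.tail ∨ ∃ z, L.getLast? = some z ∧ q = (z, a)
  | [], h => by simp at h
  | [b], h => by
      right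
      refine ⟨b, rfl, ?_⟩
      simpa using h
  | b :: c :: L, h => by
      have h1 : q = (b, c) ∨ q ∈ ((c :: L) ++ [a]).zip ((c :: L) ++ [a]).tail := by
        simpa using h
      rcases h1 with h1 | h1
      · left
        rw [h1]
        simp
      · rcases Alt_zip (L := c :: L) h1 with h2 | ⟨z, h2, h3⟩
        · left
          have h4 : q ∈ (c :: L).zip L := h2
          simp only [List.tail_cons, List.zip_cons_cons, List.mem_cons]
          exact Or.inr h4
        · right
          exact ⟨z, by rw [List.getLast?_cons_cons]; exact h2, h3⟩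

private theorem Alt_last {x z : ℕ} : ∀ {t : BinaryTree ℕ}, (ancs x t).getLast? = some z →
    ∃ l r, t = .node z l r
  | .nil, h => by simp [ancs] at h
  | .node a l r, h => by
      simp only [ancs] at h
      split_ifs at h with h1 h2
      · simp at h
      · rw [List.getLast?_append, List.getLast?_singleton] at h
        simp only [Option.some_or, Option.some.injEq] at h
        exact ⟨l, r, by rw [h]⟩
      · rw [List.getLast?_append, List.getLast?_singleton] at h
        simp only [Option.some_or, Option.some.injEq] at h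
        exact ⟨l, r, by rw [h]⟩

private theorem Alt_edge {f F : ℕ → ℕ} {x : ℕ} {q : ℕ × ℕ} : ∀ {t : BinaryTree ℕ},
    q ∈ (ancs x t).zip (ancs x t).tail → pr f F q.1 q.2 ⊆ E0 f F t
  | .nil, h => by simp [ancs] at h
  | .node a l r, h => by
      simp only [ancs] at h
      split_ifs at h with h1 h2
      · simp at h
      · rcases Alt_zip h with h3 | ⟨z, h3, h4⟩
        · intro c hc
          have h5 := Alt_edge h3 hc
          simp only [E0, Finset.mem_union]
          tauto
        · obtain ⟨l', r', rfl⟩ := Alt_last h3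
          intro c hc
          rw [h4, pr_comm] at hc
          simp only [E0, prT, Finset.mem_union]
          tauto
      · rcases Alt_zip h with h3 | ⟨z, h3, h4⟩
        · intro c hc
          have h5 := Alt_edge h3 hc
          simp only [E0, Finset.mem_union]
          tauto
        · obtain ⟨l', r', rfl⟩ := Alt_last h3
          intro c hc
          rw [h4, pr_comm] at hc
          simp only [E0, prT, Finset.mem_union]
          tauto

/-- ALTE: adjacent ancestors are joined by an edge.  PROOF.  Induction on `t` for a general key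
`x ∈ t`: `ancs x (node a l r) = ancs x l ++ [a]` for `x < a`; the last element of `ancs x l` (if
there is one) is the root of `l`. -/
theorem ALTE {f F : ℕ → ℕ} {x : ℕ} {t : BinaryTree ℕ} (hb : IsBST t) (hm : x ∈ inorder t) :
    altp f F x t ⊆ E0 f F t := by
  have _ := hb
  have _ := hm
  intro c hc
  rw [altp, Finset.mem_biUnion] at hc
  obtain ⟨q, hq, hc⟩ := hc
  rw [Finset.mem_filter, List.mem_toFinset] at hq
  exact Alt_edge hq.1 hc

/-- the members of `altp` -/
private theorem Alt_mem {f F : ℕ → ℕ} (h : Fac f F) {x : ℕ} {t : BinaryTree ℕ} {c : ℕ × ℕ}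
    (hc : c ∈ altp f F x t) : ∃ u ∈ ancs x t, ∃ v ∈ ancs x t, u < x ∧ x < v ∧ F u ≠ F v ∧
      c = (f u, f v) := by
  rw [altp, Finset.mem_biUnion] at hc
  obtain ⟨q, hq, hc⟩ := hc
  rw [Finset.mem_filter, List.mem_toFinset] at hq
  obtain ⟨hq1, hq2⟩ := hq
  have h1 : q.1 ∈ ancs x t := (List.of_mem_zip hq1).1
  have h2 : q.2 ∈ ancs x t := List.mem_of_mem_tail (List.of_mem_zip hq1).2
  obtain ⟨h3, h4⟩ := pr_mem hc
  rcases hq2 with ⟨h5, h6⟩ | ⟨h5, h6⟩
  · refine ⟨q.1, h1, q.2, h2, h5, h6, h3, ?_⟩
    have h7 := h.mf q.1 q.2 (by omega)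
    rw [h4, min_eq_left h7, max_eq_right h7]
  · refine ⟨q.2, h2, q.1, h1, h5, h6, h3.symm, ?_⟩
    have h7 := h.mf q.2 q.1 (by omega)
    rw [h4, min_eq_right h7, max_eq_left h7]

private theorem Alt_L {f F : ℕ → ℕ} (h : Fac f F) {x : ℕ} {t A B : BinaryTree ℕ} (hg : GS x t A B)
    (hb : IsBST t) :
    (altp f F x t ∩ (prT f F x A ∪ XH f F x A ∪ E0 f F A)).card ≤ 4 := by
  classical
  have hA : ∀ u ∈ inorder A, u < x := (bst_node.1 (GS_bst hg hb)).2.2.1
  -- the touched cells with a pair
  obtain ⟨T, hT⟩ : ∃ T, T = ((ancs x t).toFinset.image f).filter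
    (fun C => C < f x ∧ (C, f x) ∈ E0 f F A ∪ XL f F A) := ⟨_, rfl⟩
  have hT2 : T.card ≤ 2 := by
    rcases T.eq_empty_or_nonempty with h0 | h0
    · rw [h0]; simp
    · have hm := T.min'_mem h0
      obtain ⟨m, hm'⟩ : ∃ m, m = T.min' h0 := ⟨_, rfl⟩
      rw [← hm'] at hm
      have hm2 := hm
      rw [hT, Finset.mem_filter] at hm2
      have h1 := ALTL h hg hb m (by omega) hm2.2.2
      have h2 : T.erase m ⊆ ((ancs x t).toFinset.filter
          (fun v => m < f v ∧ f v < f x)).image f := by
        intro c hc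
        rw [Finset.mem_erase] at hc
        have h3 := T.min'_le c hc.2
        rw [← hm'] at h3
        have h4 := hc.2
        rw [hT, Finset.mem_filter, Finset.mem_image] at h4
        obtain ⟨⟨v, hv, hvc⟩, h5, -⟩ := h4
        rw [Finset.mem_image]
        refine ⟨v, ?_, hvc⟩
        rw [Finset.mem_filter]
        refine ⟨hv, ?_, ?_⟩
        · have := hc.1
          omega
        · omega
      have h3 := (Finset.card_le_card h2).trans Finset.card_image_le
      have h4 := Finset.card_erase_of_mem hm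
      omega
  obtain ⟨P, hP, hPX⟩ : ∃ P : Finset (ℕ × ℕ), P.card ≤ 1 ∧ XH f F x A ⊆ P ∪ XL f F A := by
    cases A with
    | nil => exact ⟨∅, by simp, by simp [XH]⟩
    | node a l s =>
      refine ⟨prT f F x s, prT_card, ?_⟩
      simp only [XH, XL]
      exact Finset.Subset.refl _
  have hsub : altp f F x t ∩ (prT f F x A ∪ XH f F x A ∪ E0 f F A) ⊆
      (prT f F x A ∪ P) ∪ T.image (fun C => (C, f x)) := by
    intro c hc
    rw [Finset.mem_inter] at hc
    obtain ⟨hc1, hc2⟩ := hc
    obtain ⟨u, hu, v, hv, hux, hxv, hF, hcuv⟩ := Alt_mem h hc1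
    -- the second member is `f x`
    have h2 : f v ≤ f x := by
      have h3 : ∃ w1 w2, w1 ≤ x ∧ w2 ≤ x ∧ c ∈ pr f F w1 w2 := by
        rw [Finset.mem_union, Finset.mem_union] at hc2
        rcases hc2 with (h4 | h4) | h4
        · obtain ⟨w, hw, h5⟩ := prT_mem h4
          exact ⟨x, w, le_refl _, (hA w hw).le, h5⟩
        · obtain ⟨w1, hw1, w2, hw2, h5⟩ := XH_mem h4
          rw [Finset.mem_insert, List.mem_toFinset] at hw1
          refine ⟨w1, w2, ?_, (hA w2 hw2).le, h5⟩
          rcases hw1 with hw1 | hw1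
          · exact hw1.le
          · exact (hA w1 hw1).le
        · obtain ⟨w1, hw1, w2, hw2, h5⟩ := E0_mem h4
          exact ⟨w1, w2, (hA w1 hw1).le, (hA w2 hw2).le, h5⟩
      obtain ⟨w1, w2, h4, h5, h6⟩ := h3
      have h7 := (pr_mem h6).2
      rw [hcuv, Prod.mk.injEq] at h7
      have h8 := h.mf w1 x h4
      have h9 := h.mf w2 x h5
      omega
    have h3 : f v = f x := le_antisymm h2 (h.mf x v hxv.le)
    have h4 : f u ≠ f x := fun h5 => hF (by rw [h.fac u x h5, h.fac v x h3])
    have h5 := h.mf u x hux.le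
    rw [Finset.mem_union, Finset.mem_union, Finset.mem_image]
    rw [Finset.mem_union, Finset.mem_union] at hc2
    have key : c ∈ E0 f F A ∪ XL f F A → ∃ a ∈ T, (a, f x) = c := by
      intro h6
      refine ⟨f u, ?_, by rw [hcuv, h3]⟩
      rw [hT, Finset.mem_filter]
      refine ⟨Finset.mem_image_of_mem f (List.mem_toFinset.2 hu), by omega, ?_⟩
      rw [← h3, ← hcuv]
      exact h6
    rcases hc2 with (h6 | h6) | h6
    · exact Or.inl (Or.inl h6)
    · rcases Finset.mem_union.1 (hPX h6) with h7 | h7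
      · exact Or.inl (Or.inr h7)
      · exact Or.inr (key (Finset.mem_union_right _ h7))
    · exact Or.inr (key (Finset.mem_union_left _ h6))
  have h1 := Finset.card_le_card hsub
  have h2 := Finset.card_union_le (prT f F x A ∪ P) (T.image (fun C => (C, f x)))
  have h3 := Finset.card_union_le (prT f F x A) P
  have h4 : (T.image (fun C => (C, f x))).card ≤ T.card := Finset.card_image_le
  have h5 := @prT_card f F x A
  omega

private theorem Alt_R {f F : ℕ → ℕ} (h : Fac f F) {x : ℕ} {t A B : BinaryTree ℕ} (hg : GS x t A B)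
    (hb : IsBST t) :
    (altp f F x t ∩ (prT f F x B ∪ XG f F x B ∪ E0 f F B)).card ≤ 4 := by
  classical
  have hB : ∀ u ∈ inorder B, x < u := (bst_node.1 (GS_bst hg hb)).2.2.2
  obtain ⟨T, hT⟩ : ∃ T, T = ((ancs x t).toFinset.image f).filter
    (fun C => f x < C ∧ (f x, C) ∈ E0 f F B ∪ XR f F B) := ⟨_, rfl⟩
  have hT2 : T.card ≤ 2 := by
    rcases T.eq_empty_or_nonempty with h0 | h0
    · rw [h0]; simp
    · have hm := T.max'_mem h0
      obtain ⟨m, hm'⟩ : ∃ m, m = T.max' h0 := ⟨_, rfl⟩
      rw [← hm'] at hm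
      have hm2 := hm
      rw [hT, Finset.mem_filter] at hm2
      have h1 := ALTR h hg hb m (by omega) hm2.2.2
      have h2 : T.erase m ⊆ ((ancs x t).toFinset.filter
          (fun v => f x < f v ∧ f v < m)).image f := by
        intro c hc
        rw [Finset.mem_erase] at hc
        have h3 := T.le_max' c hc.2
        rw [← hm'] at h3
        have h4 := hc.2
        rw [hT, Finset.mem_filter, Finset.mem_image] at h4
        obtain ⟨⟨v, hv, hvc⟩, h5, -⟩ := h4
        rw [Finset.mem_image]
        refine ⟨v, ?_, hvc⟩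
        rw [Finset.mem_filter]
        refine ⟨hv, ?_, ?_⟩
        · omega
        · have := hc.1
          omega
      have h3 := (Finset.card_le_card h2).trans Finset.card_image_le
      have h4 := Finset.card_erase_of_mem hm
      omega
  obtain ⟨P, hP, hPX⟩ : ∃ P : Finset (ℕ × ℕ), P.card ≤ 1 ∧ XG f F x B ⊆ P ∪ XR f F B := by
    cases B with
    | nil => exact ⟨∅, by simp, by simp [XG]⟩
    | node a s r =>
      refine ⟨prT f F x s, prT_card, ?_⟩
      simp only [XG, XR]
      exact Finset.Subset.refl _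
  have hsub : altp f F x t ∩ (prT f F x B ∪ XG f F x B ∪ E0 f F B) ⊆
      (prT f F x B ∪ P) ∪ T.image (fun C => (f x, C)) := by
    intro c hc
    rw [Finset.mem_inter] at hc
    obtain ⟨hc1, hc2⟩ := hc
    obtain ⟨u, hu, v, hv, hux, hxv, hF, hcuv⟩ := Alt_mem h hc1
    have h2 : f x ≤ f u := by
      have h3 : ∃ w1 w2, x ≤ w1 ∧ x ≤ w2 ∧ c ∈ pr f F w1 w2 := by
        rw [Finset.mem_union, Finset.mem_union] at hc2
        rcases hc2 with (h4 | h4) | h4
        · obtain ⟨w, hw, h5⟩ := prT_mem h4
          exact ⟨x, w, le_refl _, (hB w hw).le, h5⟩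
        · obtain ⟨w1, hw1, w2, hw2, h5⟩ := XG_mem h4
          rw [Finset.mem_insert, List.mem_toFinset] at hw1
          refine ⟨w1, w2, ?_, (hB w2 hw2).le, h5⟩
          rcases hw1 with hw1 | hw1
          · exact hw1.ge
          · exact (hB w1 hw1).le
        · obtain ⟨w1, hw1, w2, hw2, h5⟩ := E0_mem h4
          exact ⟨w1, w2, (hB w1 hw1).le, (hB w2 hw2).le, h5⟩
      obtain ⟨w1, w2, h4, h5, h6⟩ := h3
      have h7 := (pr_mem h6).2
      rw [hcuv, Prod.mk.injEq] at h7
      have h8 := h.mf x w1 h4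
      have h9 := h.mf x w2 h5
      omega
    have h3 : f u = f x := le_antisymm (h.mf u x hux.le) h2
    have h4 : f v ≠ f x := fun h5 => hF (by rw [h.fac u x h3, h.fac v x h5])
    have h5 := h.mf x v hxv.le
    rw [Finset.mem_union, Finset.mem_union, Finset.mem_image]
    rw [Finset.mem_union, Finset.mem_union] at hc2
    have key : c ∈ E0 f F B ∪ XR f F B → ∃ a ∈ T, (f x, a) = c := by
      intro h6
      refine ⟨f v, ?_, by rw [hcuv, h3]⟩
      rw [hT, Finset.mem_filter]
      refine ⟨Finset.mem_image_of_mem f (List.mem_toFinset.2 hv), by omega, ?_⟩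
      rw [← h3, ← hcuv]
      exact h6
    rcases hc2 with (h6 | h6) | h6
    · exact Or.inl (Or.inl h6)
    · rcases Finset.mem_union.1 (hPX h6) with h7 | h7
      · exact Or.inl (Or.inr h7)
      · exact Or.inr (key (Finset.mem_union_right _ h7))
    · exact Or.inr (key (Finset.mem_union_left _ h6))
  have h1 := Finset.card_le_card hsub
  have h2 := Finset.card_union_le (prT f F x B ∪ P) (T.image (fun C => (f x, C)))
  have h3 := Finset.card_union_le (prT f F x B) P
  have h4 : (T.image (fun C => (f x, C))).card ≤ T.card := Finset.card_image_le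
  have h5 := @prT_card f F x B
  omega

/-- GE2.  PROOF.  Let `(C1, C2) ∈ altp ∩ EE (node x A B)`: `C1 = f u`, `C2 = f v` with ancestors
`u < x < v`, `F u ≠ F v`.  The pairs of `EE (node x A B)` join two keys `≤ x` or two keys `≥ x`
(`E0_mem`, `XH_mem`, ..; `node x A B` is a search tree by `GS_bst`).  In the first case
`C2 = f w` with `w ≤ x < v`, so `C2 = f x`, and `F u ≠ F v = F x`, so `C1 ≠ f x`; in the second
case `C1 = f x ≠ C2`.  So it is enough to bound the number of touched cells `C ≠ f x`
with `(C, f x) ∈ prT x A ∪ E0 A ∪ XH x A` by 4 (and the mirror image), where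
`XH x A ⊆ prT x s ∪ XL A`; note `(C, f x)` with `C = f u < f x` cannot come from `B`.  Those of `prT x A`,
`prT x s`: at most one each.  Those of `E0 A ∪ XL A`: at most two, because three touched cells
`C1 < C2 < C3 < f x` of this kind contradict ALTL for `C1`. -/
theorem GE2 {f F : ℕ → ℕ} (h : Fac f F) {x : ℕ} {t A B : BinaryTree ℕ} (hg : GS x t A B)
    (hb : IsBST t) : (altp f F x t ∩ EE f F (.node x A B)).card ≤ 8 := by
  have h1 := Alt_L h hg hb
  have h2 := Alt_R h hg hb
  have h3 : altp f F x t ∩ EE f F (.node x A B) =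
      (altp f F x t ∩ (prT f F x A ∪ XH f F x A ∪ E0 f F A)) ∪
      (altp f F x t ∩ (prT f F x B ∪ XG f F x B ∪ E0 f F B)) := by
    rw [← Finset.inter_union_distrib_left, EE_node]
    rfl
  rw [h3]
  exact (Finset.card_union_le _ _).trans (by omega)

/-- GE: from `GE1`, `GE2`, `ALTE`: `|EE'| ≤ |EE' \ EE| + |EE ∩ EE'|` and `altp \ EE' ⊆ EE \ EE'`. -/
theorem GE {f F : ℕ → ℕ} (h : Fac f F) {x : ℕ} {t A B : BinaryTree ℕ} (hg : GS x t A B)
    (hb : IsBST t) :
    (altp f F x t).card + (EE f F (.node x A B)).card ≤ (EE f F t).card +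
      2 * (((ancs x t).toFinset.filter (fun v => F v ≠ F x)).image F).card + 12 := by
  have h1 := (GE1 h hg hb).1
  have h2 := GE2 h hg hb
  have h3 : altp f F x t ⊆ EE f F t := by
    refine (ALTE hb (GS_mem hg)).trans ?_
    intro c hc
    rw [EE, Finset.mem_union, Finset.mem_union]
    exact Or.inl (Or.inl hc)
  have h4 : altp f F x t \ EE f F (.node x A B) ⊆ EE f F t \ EE f F (.node x A B) :=
    Finset.sdiff_subset_sdiff h3 (Finset.Subset.refl _)
  have h5 := Finset.card_le_card h4
  have h6 := Finset.card_sdiff_add_card_inter (altp f F x t) (EE f F (.node x A B))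
  have h7 := Finset.card_sdiff_add_card_inter (EE f F t) (EE f F (.node x A B))
  have h8 := Finset.card_sdiff_add_card_inter (EE f F (.node x A B)) (EE f F t)
  rw [Finset.inter_comm (EE f F (.node x A B))] at h8
  omega

end Pool.Agent.SplNest
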