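import Pool.Agent.SplNest.Defs

set_option autoImplicit false

/-!
ANL.  Elementary facts about the sets `an α β x t` (ancestors `v` of `x` with `v / 2^β = x / 2^β`, `v / 2^α ≠ x / 2^α`).
`an_mono`: `v / 2^β = x / 2^β` implies `v / 2^β' = x / 2^β'` for `β ≤ β'` (`pow_add`, `Nat.div_div_eq_div_mul`).
`an_sum`: the sets `an (l L) ((l+1) L) x t`, `l < Q`, are pairwise disjoint subsets of `(ancs x t).toFinset` (if `l < l'` and `v` is in both then `v`, `x` have
the same block of height `(l+1) L ≤ l' L`, hence the same block of height `l' L`), whose cardinality is at most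
`(ancs x t).length = depth x t` (`ancs_length`).  `Finset.card_biUnion`.
`Qn_top`: `v / 2^0 = v`, `v ≠ x` (`mem_ancs`), `v / 2^H = 0 = x / 2^H` (`ancs` ⊆ keys: `QNR`-type fact `mem_ancs`, `onP_mem`), so `an 0 H x t = (ancs x t).toFinset`, and
`ancs x t` has no duplicates (`ancs_nodup`).
`Qn_one`: all `v` in `an h (h+1) x t` have the same `v / 2^h`: it is `≠ x / 2^h` and `v / 2^h / 2 = x / 2^h / 2`; so the image has at most one element; if it is not
empty then some `v ≠ x` is in `an`, `v < x` or `x < v`.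
`Qn_split`: if `v ∈ an α (α + ρ L) x t` let `i < ρ` be least with `v / 2^(α + (i+1) L) = x / 2^(α + (i+1) L)` (induction on `ρ` is easier: either
`v / 2^(α + ρ L) = x / 2^(α + ρ L)` already, or `v ∈ an (α + ρ L) (α + (ρ+1) L)`); `Finset.card_union_le`.
`LN_le`: the two filters `v < x`, `x < v` are disjoint subsets of `an`.  `LQ_le`: the fibres of the cells counted are disjoint subsets of `an` with at least `τ + 1`
elements each (`Finset.card_eq_sum_card_fiberwise` or `Finset.card_biUnion`).
-/

namespace Pool.Agent.SplNest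

open BinaryTree Pool.Agent.MP_c42954_lc.Scan Pool.Agent.SplPat Pool.Agent.SplAll

theorem blk_mono {β β' v x : ℕ} (h : β ≤ β') (h1 : v / 2 ^ β = x / 2 ^ β) :
    v / 2 ^ β' = x / 2 ^ β' := by
  obtain ⟨d, rfl⟩ := Nat.exists_eq_add_of_le h
  rw [pow_add, ← Nat.div_div_eq_div_mul, ← Nat.div_div_eq_div_mul, h1]

theorem AnL_mem {α β x v : ℕ} {t : BinaryTree ℕ} : v ∈ an α β x t ↔
    v ∈ ancs x t ∧ v / 2 ^ β = x / 2 ^ β ∧ v / 2 ^ α ≠ x / 2 ^ α := by
  unfold an
  rw [Finset.mem_filter, List.mem_toFinset]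

theorem an_mono {α β β' x : ℕ} {t : BinaryTree ℕ} (h : β ≤ β') : an α β x t ⊆ an α β' x t := by
  intro v hv
  rw [AnL_mem] at hv ⊢
  exact ⟨hv.1, blk_mono h hv.2.1, hv.2.2⟩

theorem an_sum {L Q x : ℕ} {t : BinaryTree ℕ} :
    ∑ l ∈ Finset.range Q, (an (l * L) ((l + 1) * L) x t).card ≤ depth x t := by
  have h1 : ∑ l ∈ Finset.range Q, (an (l * L) ((l + 1) * L) x t).card =
      ((Finset.range Q).biUnion (fun l => an (l * L) ((l + 1) * L) x t)).card := by
    rw [Finset.card_biUnion]
    intro l _ l' _ hne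
    rw [Function.onFun, Finset.disjoint_left]
    intro v hv hv'
    rw [AnL_mem] at hv hv'
    rcases Nat.lt_or_gt_of_ne hne with h | h
    · exact hv'.2.2 (blk_mono (Nat.mul_le_mul_right L h) hv.2.1)
    · exact hv.2.2 (blk_mono (Nat.mul_le_mul_right L h) hv'.2.1)
  rw [h1, ← ancs_length]
  refine (Finset.card_le_card (t := (ancs x t).toFinset) ?_).trans (List.toFinset_card_le _)
  intro v hv
  rw [Finset.mem_biUnion] at hv
  obtain ⟨l, _, hv⟩ := hv
  rw [List.mem_toFinset]
  exact (AnL_mem.1 hv).1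

theorem Qn_top {H x : ℕ} {t : BinaryTree ℕ} (hb : IsBST t) (hm : x ∈ inorder t)
    (hM : ∀ v ∈ inorder t, v < 2 ^ H) : Qn 0 0 H x t = depth x t := by
  have h1 : an 0 H x t = (ancs x t).toFinset := by
    ext v
    rw [AnL_mem, List.mem_toFinset]
    constructor
    · exact fun h => h.1
    · intro h
      have h2 := (mem_ancs hb hm).1 h
      refine ⟨h, ?_, ?_⟩
      · rw [Nat.div_eq_of_lt (hM v (onP_mem h2.1)), Nat.div_eq_of_lt (hM x hm)]
      · simpa using h2.2
  unfold Qn
  rw [h1]
  simp only [pow_zero, Nat.div_one, Finset.image_id']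
  rw [List.toFinset_card_of_nodup (ancs_nodup hb hm), ancs_length]

theorem Nn_le_two {α β x : ℕ} {t : BinaryTree ℕ} : Nn α β x t ≤ 2 := by
  unfold Nn
  split_ifs <;> omega

theorem Nn_mono {α β β' x : ℕ} {t : BinaryTree ℕ} (h : β ≤ β') : Nn α β x t ≤ Nn α β' x t := by
  have h1 := an_mono (α := α) (x := x) (t := t) h
  unfold Nn
  apply Nat.add_le_add
  · by_cases h2 : ((an α β x t).filter (fun v => v < x)).Nonempty
    · have h3 : ((an α β' x t).filter (fun v => v < x)).Nonempty :=
        h2.mono (Finset.filter_subset_filter _ h1)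
      simp [h2, h3]
    · simp [h2]
  · by_cases h2 : ((an α β x t).filter (fun v => x < v)).Nonempty
    · have h3 : ((an α β' x t).filter (fun v => x < v)).Nonempty :=
        h2.mono (Finset.filter_subset_filter _ h1)
      simp [h2, h3]
    · simp [h2]

theorem Qn_one {h x : ℕ} {t : BinaryTree ℕ} : Qn h h (h + 1) x t ≤ Nn h (h + 1) x t := by
  unfold Qn
  rcases (an h (h + 1) x t).eq_empty_or_nonempty with h0 | ⟨v, hv⟩
  · rw [h0]
    simp
  · have h1 : ((an h (h + 1) x t).image (fun v => v / 2 ^ h)).card ≤ 1 := by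
      rw [Finset.card_le_one]
      have key : ∀ w ∈ an h (h + 1) x t, w / 2 ^ h ≠ x / 2 ^ h ∧
          w / 2 ^ h / 2 = x / 2 ^ h / 2 := by
        intro w hw
        rw [AnL_mem] at hw
        refine ⟨hw.2.2, ?_⟩
        have := hw.2.1
        rw [pow_succ, ← Nat.div_div_eq_div_mul, ← Nat.div_div_eq_div_mul] at this
        exact this
      intro a ha b hb'
      rw [Finset.mem_image] at ha hb'
      obtain ⟨w, hw, rfl⟩ := ha
      obtain ⟨w', hw', rfl⟩ := hb'
      have k1 := key w hw
      have k2 := key w' hw'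
      omega
    have h2 : v ≠ x := by
      rintro rfl
      exact (AnL_mem.1 hv).2.2 rfl
    unfold Nn
    rcases Nat.lt_or_gt_of_ne h2 with h3 | h3
    · have : ((an h (h + 1) x t).filter (fun v => v < x)).Nonempty :=
        ⟨v, Finset.mem_filter.2 ⟨hv, h3⟩⟩
      rw [if_pos this]
      omega
    · have : ((an h (h + 1) x t).filter (fun v => x < v)).Nonempty :=
        ⟨v, Finset.mem_filter.2 ⟨hv, h3⟩⟩
      rw [if_pos this]
      omega

theorem Qn_split {α L x : ℕ} {t : BinaryTree ℕ} (ρ : ℕ) : Qn α α (α + ρ * L) x t ≤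
    ∑ i ∈ Finset.range ρ, Qn α (α + i * L) (α + (i + 1) * L) x t := by
  induction ρ with
  | zero =>
    have h1 : an α (α + 0 * L) x t = ∅ := by
      rw [Finset.eq_empty_iff_forall_notMem]
      intro v hv
      rw [AnL_mem, Nat.zero_mul, Nat.add_zero] at hv
      exact hv.2.2 hv.2.1
    unfold Qn
    rw [h1]
    simp
  | succ ρ ih =>
    rw [Finset.sum_range_succ]
    refine le_trans ?_ (Nat.add_le_add_right ih _)
    unfold Qn
    refine le_trans (Finset.card_le_card ?_) (Finset.card_union_le _ _)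
    rw [← Finset.image_union]
    apply Finset.image_subset_image
    intro v hv
    rw [AnL_mem] at hv
    rw [Finset.mem_union, AnL_mem, AnL_mem]
    by_cases h : v / 2 ^ (α + ρ * L) = x / 2 ^ (α + ρ * L)
    · exact Or.inl ⟨hv.1, h, hv.2.2⟩
    · exact Or.inr ⟨hv.1, hv.2.1, h⟩

theorem LN_le {τ α β x : ℕ} {t : BinaryTree ℕ} : (τ + 1) * LN τ α β x t ≤ (an α β x t).card := by
  have h1 : ((an α β x t).filter (fun v => v < x)).card +
      ((an α β x t).filter (fun v => x < v)).card ≤ (an α β x t).card := by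
    rw [← Finset.card_union_of_disjoint]
    · apply Finset.card_le_card
      intro v hv
      rw [Finset.mem_union, Finset.mem_filter, Finset.mem_filter] at hv
      rcases hv with hv | hv <;> exact hv.1
    · rw [Finset.disjoint_left]
      intro v hv hv'
      rw [Finset.mem_filter] at hv hv'
      omega
  unfold LN
  rw [Nat.mul_add]
  refine le_trans (Nat.add_le_add ?_ ?_) h1
  · split_ifs with h
    · omega
    · simp
  · split_ifs with h
    · omega
    · simp

theorem LQ_le {τ α γ γ' x : ℕ} {t : BinaryTree ℕ} :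
    (τ + 1) * LQ τ α γ γ' x t ≤ (an γ γ' x t).card := by
  unfold LQ
  set S := an γ γ' x t with hS
  set I := (S.image (fun v => v / 2 ^ α)).filter
    (fun A => τ < (S.filter (fun v => v / 2 ^ α = A)).card) with hI
  have h1 : ∑ A ∈ I, (τ + 1) ≤ ∑ A ∈ I, (S.filter (fun v => v / 2 ^ α = A)).card := by
    refine Finset.sum_le_sum fun A hA => ?_
    exact (Finset.mem_filter.1 hA).2
  have h2 : ∑ A ∈ I, (S.filter (fun v => v / 2 ^ α = A)).card =
      (I.biUnion (fun A => S.filter (fun v => v / 2 ^ α = A))).card := by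
    rw [Finset.card_biUnion]
    intro A _ B _ hne
    rw [Function.onFun, Finset.disjoint_left]
    intro v hv hv'
    rw [Finset.mem_filter] at hv hv'
    exact hne (hv.2.symm.trans hv'.2)
  have h3 : (I.biUnion (fun A => S.filter (fun v => v / 2 ^ α = A))).card ≤ S.card := by
    apply Finset.card_le_card
    intro v hv
    rw [Finset.mem_biUnion] at hv
    obtain ⟨A, _, hv⟩ := hv
    exact (Finset.mem_filter.1 hv).1
  rw [Finset.sum_const, smul_eq_mul] at h1
  calc (τ + 1) * I.card = I.card * (τ + 1) := Nat.mul_comm _ _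
    _ ≤ _ := h1
    _ = _ := h2
    _ ≤ _ := h3

end Pool.Agent.SplNest
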