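import Pool.Agent.SplNest.Defs
import Pool.Agent.SplNest.Bas
import Pool.Agent.SplPat.SpRel

set_option autoImplicit false

namespace Pool.Agent.SplNest

open BinaryTree Pool.Agent.MP_c42954_lc.Scan Pool.Agent.SplPat Pool.Agent.SplAll

private theorem RotIn_ev {lo hi x : ℕ} (k1 : lo ≤ x) (k2 : x < hi) {t A B : BinaryTree ℕ}
    (h : Ev x t A B) (hb : IsBST t) : GS x (res lo hi t) (res lo hi A) (res lo hi B) := by
  induction h with
  | base A B =>
    simp only [res, if_neg (show ¬ x < lo by omega), if_neg (show ¬ hi ≤ x by omega)]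
    exact .base _ _
  | @ll p g L C D A B h1 h2 h3 ih =>
    obtain ⟨hb1, hb2, hb3, hb4⟩ := bst_node.1 hb
    have hpg : p < g := hb3 p (by simp [inorder])
    have ih := ih (bst_node.1 hb1).1
    have hp : ¬ p < lo := by omega
    have hg : ¬ g < lo := by omega
    by_cases hp2 : hi ≤ p
    · have hg2 : hi ≤ g := by omega
      simp only [res, if_neg hp, if_neg hg, if_pos hp2, if_pos hg2]
      exact ih
    · by_cases hg2 : hi ≤ g
      · simp only [res, if_neg hp, if_neg hg, if_neg hp2, if_pos hg2]
        exact .zl h1 ih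
      · simp only [res, if_neg hp, if_neg hg, if_neg hp2, if_neg hg2]
        exact .ll h1 hpg ih
  | @lr p g R C D A B h1 h2 h3 ih =>
    obtain ⟨hb1, hb2, hb3, hb4⟩ := bst_node.1 hb
    have ih := ih (bst_node.1 hb1).2.1
    have hg : ¬ g < lo := by omega
    have hp2 : ¬ hi ≤ p := by omega
    by_cases hp : p < lo
    · by_cases hg2 : hi ≤ g
      · simp only [res, if_pos hp, if_neg hg, if_pos hg2]
        exact ih
      · simp only [res, if_pos hp, if_neg hg, if_neg hg2]
        exact .zl h2 ih
    · by_cases hg2 : hi ≤ g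
      · simp only [res, if_neg hp, if_neg hg, if_neg hp2, if_pos hg2]
        exact .zr h1 ih
      · simp only [res, if_neg hp, if_neg hg, if_neg hp2, if_neg hg2]
        exact .zl h2 (.zr h1 ih)
  | @rr p g R C D A B h1 h2 h3 ih =>
    obtain ⟨hb1, hb2, hb3, hb4⟩ := bst_node.1 hb
    have hpg : g < p := hb4 p (by simp [inorder])
    have ih := ih (bst_node.1 hb2).2.1
    have hp2 : ¬ hi ≤ p := by omega
    have hg2 : ¬ hi ≤ g := by omega
    by_cases hp : p < lo
    · have hg : g < lo := by omega
      simp only [res, if_pos hp, if_pos hg]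
      exact ih
    · by_cases hg : g < lo
      · simp only [res, if_neg hp, if_pos hg, if_neg hp2]
        exact .zr h1 ih
      · simp only [res, if_neg hp, if_neg hg, if_neg hp2, if_neg hg2]
        exact .rr h1 hpg ih
  | @rl p g L C D A B h1 h2 h3 ih =>
    obtain ⟨hb1, hb2, hb3, hb4⟩ := bst_node.1 hb
    have ih := ih (bst_node.1 hb2).1
    have hp : ¬ p < lo := by omega
    have hg2 : ¬ hi ≤ g := by omega
    by_cases hp2 : hi ≤ p
    · by_cases hg : g < lo
      · simp only [res, if_neg hp, if_pos hg, if_pos hp2]
        exact ih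
      · simp only [res, if_neg hp, if_neg hg, if_pos hp2, if_neg hg2]
        exact .zr h2 ih
    · by_cases hg : g < lo
      · simp only [res, if_neg hp, if_pos hg, if_neg hp2]
        exact .zl h1 ih
      · simp only [res, if_neg hp, if_neg hg, if_neg hp2, if_neg hg2]
        exact .zr h2 (.zl h1 ih)

/-- RSI: a splay of `x ∈ [lo, hi)` acts on the induced tree by single rotations and zig-zig steps.
PROOF.  `spl_exists` gives `Spl x t A' B'` with `splay x t = node x A' B'`, and
`res lo hi (node x A' B') = node x (res A') (res B')`.  Show `GS x (res t) (res A') (res B')` by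
induction on `Ev`, then `Spl`.  base: clear.  ll (`x < p < g`): both in: `GS.ll`; `p` in, `g ≥ hi`:
`res t = node p (res L) (res C)` and `res (node p B (node g C D)) = node p (res B) (res C)`:
`GS.zl`; `p ≥ hi`: `res t = res L`, `res (node p B _) = res B`.  lr (`p < x < g`): with `p`, `g` both
in: `GS.zl` after `GS.zr`; only `g` in: `GS.zl` (`res (node p C R) = res R`); only `p` in: `GS.zr`;
none: induction hypothesis.  rr, rl: mirror images.  zl, zr: clear. -/
theorem RSI {lo hi x : ℕ} {t : BinaryTree ℕ} (hb : IsBST t) (hm : x ∈ inorder t) (h1 : lo ≤ x)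
    (h2 : x < hi) :
    ∃ A B, GS x (res lo hi t) A B ∧ res lo hi (splay x t) = .node x A B := by
  obtain ⟨A, B, hS, hs⟩ := spl_exists hb hm
  refine ⟨res lo hi A, res lo hi B, ?_, ?_⟩
  · cases hS with
    | ev h => exact RotIn_ev h1 h2 h hb
    | @zl g L D A B h3 h =>
      have k := RotIn_ev h1 h2 h (bst_node.1 hb).1
      have hg : ¬ g < lo := by omega
      by_cases hg2 : hi ≤ g
      · simp only [res, if_neg hg, if_pos hg2]
        exact k
      · simp only [res, if_neg hg, if_neg hg2]
        exact .zl h3 k
    | @zr g R D A B h3 h =>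
      have k := RotIn_ev h1 h2 h (bst_node.1 hb).2.1
      have hg2 : ¬ hi ≤ g := by omega
      by_cases hg : g < lo
      · simp only [res, if_pos hg]
        exact k
      · simp only [res, if_neg hg, if_neg hg2]
        exact .zr h3 k
  · rw [hs]
    simp only [res, if_neg (show ¬ x < lo by omega), if_neg (show ¬ hi ≤ x by omega)]

/-- ANR: the ancestors of `x` in the induced tree.  Induction on `t`. -/
theorem ANR {lo hi x : ℕ} {t : BinaryTree ℕ} (h1 : lo ≤ x) (h2 : x < hi) :
    ancs x (res lo hi t) = ancJ lo hi x t := by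
  induction t with
  | nil => rfl
  | node a l r ihl ihr =>
    unfold ancJ at *
    by_cases k1 : a < lo
    · have k2 : x ≠ a := by omega
      have k3 : ¬ x < a := by omega
      have k4 : ¬ (lo ≤ a ∧ a < hi) := by omega
      simp only [res, ancs, if_pos k1, if_neg k2, if_neg k3, List.filter_append, ihr]
      simp [k4]
    · by_cases k2 : hi ≤ a
      · have k3 : x ≠ a := by omega
        have k4 : x < a := by omega
        have k5 : ¬ (lo ≤ a ∧ a < hi) := by omega
        simp only [res, ancs, if_neg k1, if_pos k2, if_neg k3, if_pos k4, List.filter_append, ihl]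
        simp [k5]
      · have k5 : (lo ≤ a ∧ a < hi) := by omega
        simp only [res, ancs, if_neg k1, if_neg k2]
        by_cases k3 : x = a
        · simp [k3]
        · by_cases k4 : x < a
          · simp only [if_neg k3, if_pos k4, List.filter_append, ihl]
            simp [k5]
          · simp only [if_neg k3, if_neg k4, List.filter_append, ihr]
            simp [k5]

theorem ANR_tc {lo hi x : ℕ} {t : BinaryTree ℕ} (h1 : lo ≤ x) (h2 : x < hi) :
    (ancs x (res lo hi t)).toFinset = tc lo hi x t := by
  rw [ANR h1 h2]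
  ext v
  simp only [ancJ, tc, List.mem_toFinset, List.mem_filter, Finset.mem_filter, decide_eq_true_eq]

end Pool.Agent.SplNest
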