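import Pool.Agent.SplNest.Defs
import Pool.Agent.SplNest.Bas
import Pool.Agent.SplNest.RotIn

set_option autoImplicit false

namespace Pool.Agent.SplNest

open BinaryTree Pool.Agent.MP_c42954_lc.Scan Pool.Agent.SplPat Pool.Agent.SplAll

private theorem Brk_zip {w v : ℕ} (l1 l2 : List ℕ) :
    (w, v) ∈ (l1 ++ w :: v :: l2).zip (l1 ++ w :: v :: l2).tail := by
  induction l1 with
  | nil => simp
  | cons a l ih =>
    cases l with
    | nil => simp
    | cons b l =>
      simp only [List.cons_append, List.tail_cons, List.zip_cons_cons, List.mem_cons] at ih ⊢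
      exact Or.inr ih

private theorem Brk_pw {R : ℕ → ℕ → Prop} {w v z : ℕ} {l1 l2 : List ℕ}
    (h : (l1 ++ w :: v :: l2).Pairwise R) (hz : z ∈ l2) : R w v ∧ R w z ∧ R v z := by
  rw [List.pairwise_append] at h
  obtain ⟨-, h, -⟩ := h
  rw [List.pairwise_cons, List.pairwise_cons] at h
  exact ⟨h.1 v (by simp), h.1 z (by simp [hz]), h.2.1 z hz⟩

/-- BRK.  PROOF.  The sets `bro f (a c) (b c) x t`, `c ∈ K`, are disjoint, since `F` factors through
`f` (`bro` consists of cells of nodes `w` with `F w = c`).  Let `w` be counted in one of them: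
`ancs x t = l1 ++ w :: v :: l2`, `v ∉ [a c, b c)`, `z ∈ l2`, `z ∈ [a c, b c)`.  Say `w < x`
(`F w = c ≠ F x`; then all of `[a c, b c)` is `< x`, so `z < x`); by `ancs_order` `z < w`, and if
`v < x` then `z < v < w` (`v` is an ancestor above `w` and below `z`), so `v ∈ [a c, b c)`, a
contradiction.  So `v > x` (`v ≠ x`).  If `v ∉ [lo, hi)`: `f w ∈ hc`.  If `v ∈ [lo, hi)`:
`F v ≥ F x > c = F w`, and `w`, `v` are adjacent in `ancs x (res lo hi t) = ancJ lo hi x t` (`ANR`; a
filter keeps adjacent elements adjacent), so `(f w, f v) ∈ altp f F x (res lo hi t)`.  So every cell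
of the union is in `hc` or is a component of a pair in `altp`: `≤ |hc| + 2 |altp|`. -/
theorem BRK {f F : ℕ → ℕ} (h : Fac f F) {lo hi x : ℕ} {t : BinaryTree ℕ} (hb : IsBST t)
    (hm : x ∈ inorder t) (hx : lo ≤ x ∧ x < hi) (a b : ℕ → ℕ) (K : Finset ℕ) (hxK : F x ∉ K)
    (hK : ∀ c ∈ K, ∀ v, (a c ≤ v ∧ v < b c) ↔ (lo ≤ v ∧ v < hi ∧ F v = c)) :
    ∑ c ∈ K, (bro f (a c) (b c) x t).card ≤
      (hc f F lo hi x t).card + 2 * (altp f F x (res lo hi t)).card := by
  classical
  have hdis : ∀ c ∈ K, ∀ c' ∈ K, c ≠ c' →
      Disjoint (bro f (a c) (b c) x t) (bro f (a c') (b c') x t) := by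
    intro c hc c' hc' hne
    rw [Finset.disjoint_left]
    intro A hA hA'
    unfold bro at hA hA'
    rw [Finset.mem_image] at hA hA'
    obtain ⟨w, hw, rfl⟩ := hA
    obtain ⟨w', hw', he⟩ := hA'
    rw [Finset.mem_filter] at hw hw'
    have h1 := (Finset.mem_filter.1 hw.1).2
    have h2 := (Finset.mem_filter.1 hw'.1).2
    have h3 := ((hK c hc w).1 h1).2.2
    have h4 := ((hK c' hc' w').1 h2).2.2
    exact hne (by rw [← h3, ← h4]; exact (h.fac _ _ he).symm)
  rw [← Finset.card_biUnion hdis]
  have hsub : K.biUnion (fun c => bro f (a c) (b c) x t) ⊆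
      hc f F lo hi x t ∪ ((altp f F x (res lo hi t)).image Prod.fst ∪
        (altp f F x (res lo hi t)).image Prod.snd) := by
    intro A hA
    rw [Finset.mem_biUnion] at hA
    obtain ⟨c, hc, hA⟩ := hA
    unfold bro at hA
    rw [Finset.mem_image] at hA
    obtain ⟨w, hw, rfl⟩ := hA
    rw [Finset.mem_filter] at hw
    obtain ⟨hwt, l1, l2, v, he, hv, z, hz, hz'⟩ := hw
    obtain ⟨hwa, hwI⟩ := Finset.mem_filter.1 hwt
    rw [List.mem_toFinset] at hwa
    obtain ⟨hw1, hw2, hwc⟩ := (hK c hc w).1 hwI
    obtain ⟨hz1, hz2, hzc⟩ := (hK c hc z).1 hz'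
    have hFx : F x ≠ c := fun h' => hxK (h' ▸ hc)
    have hva : v ∈ ancs x t := by rw [he]; simp
    have hvx : v ≠ x := ((mem_ancs hb hm).1 hva).2
    have hord := ancs_order hb hm
    rw [he] at hord
    obtain ⟨o1, o2, o3⟩ := Brk_pw hord hz
    -- the node w is touched outside the coarse cell of x
    have hwF : w ∈ tcF F lo hi x t := by
      unfold tcF tc
      rw [Finset.mem_filter, Finset.mem_filter, List.mem_toFinset]
      exact ⟨⟨hwa, hw1, hw2⟩, by rw [hwc]; exact fun h' => hFx h'.symm⟩
    have hvnot : ¬ (lo ≤ v ∧ v < hi ∧ F v = c) := fun h' => hv ((hK c hc v).2 h')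
    -- w and v are on different sides of x
    have hside : (w < x ∧ x < v) ∨ (v < x ∧ x < w) := by
      rcases lt_or_gt_of_ne (show w ≠ x by rintro rfl; exact hFx hwc) with hwx | hwx
      · left
        refine ⟨hwx, ?_⟩
        by_contra hvx'
        have hvlt : v < x := by omega
        have hzx : z < x := by
          by_contra hzx
          have e1 := h.mF x z (by omega)
          have e2 := h.mF w x (by omega)
          exact hFx (by omega)
        have h1 := o1.2 hwx hvlt
        have h3 := o3.2 hvlt hzx
        have e1 := h.mF z v (by omega)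
        have e2 := h.mF v w (by omega)
        exact hvnot ⟨by omega, by omega, by omega⟩
      · right
        refine ⟨?_, hwx⟩
        by_contra hvx'
        have hvlt : x < v := by omega
        have hzx : x < z := by
          by_contra hzx
          have e1 := h.mF z x (by omega)
          have e2 := h.mF x w (by omega)
          exact hFx (by omega)
        have h1 := o1.1 hwx hvlt
        have h3 := o3.1 hvlt hzx
        have e1 := h.mF v z (by omega)
        have e2 := h.mF w v (by omega)
        exact hvnot ⟨by omega, by omega, by omega⟩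
    by_cases hin : lo ≤ v ∧ v < hi
    · -- v in the interval
      have hFne : F w ≠ F v := by
        rcases hside with ⟨s1, s2⟩ | ⟨s1, s2⟩
        · have e1 := h.mF w x (by omega)
          have e2 := h.mF x v (by omega)
          intro e3
          exact hFx (by omega)
        · have e1 := h.mF v x (by omega)
          have e2 := h.mF x w (by omega)
          intro e3
          exact hFx (by omega)
      have hfil : ancs x (res lo hi t) = l1.filter (fun v => lo ≤ v ∧ v < hi) ++
          w :: v :: l2.filter (fun v => lo ≤ v ∧ v < hi) := by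
        rw [ANR hx.1 hx.2]
        unfold ancJ
        rw [he, List.filter_append, List.filter_cons_of_pos (by simp [hw1, hw2]),
          List.filter_cons_of_pos (by simp [hin.1, hin.2])]
      have hpair : (min (f w) (f v), max (f w) (f v)) ∈ altp f F x (res lo hi t) := by
        unfold altp
        rw [Finset.mem_biUnion]
        refine ⟨(w, v), ?_, ?_⟩
        · rw [Finset.mem_filter, List.mem_toFinset]
          refine ⟨?_, hside⟩
          rw [hfil]
          exact Brk_zip _ _
        · unfold pr
          simp only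
          rw [if_neg hFne]
          simp
      rw [Finset.mem_union, Finset.mem_union]
      right
      rcases hside with ⟨s1, s2⟩ | ⟨s1, s2⟩
      · left
        rw [Finset.mem_image]
        exact ⟨_, hpair, min_eq_left (h.mf w v (by omega))⟩
      · right
        rw [Finset.mem_image]
        exact ⟨_, hpair, max_eq_left (h.mf v w (by omega))⟩
    · rw [Finset.mem_union]
      left
      unfold Pool.Agent.SplNest.hc
      rw [Finset.mem_image]
      refine ⟨w, ?_, rfl⟩
      rw [Finset.mem_filter]
      exact ⟨hwF, l1, l2, v, he, hin, hside⟩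
  have h1 := Finset.card_le_card hsub
  have h2 := Finset.card_union_le (hc f F lo hi x t) ((altp f F x (res lo hi t)).image Prod.fst ∪
        (altp f F x (res lo hi t)).image Prod.snd)
  have h3 := Finset.card_union_le ((altp f F x (res lo hi t)).image Prod.fst)
        ((altp f F x (res lo hi t)).image Prod.snd)
  have h4 : ((altp f F x (res lo hi t)).image Prod.fst).card ≤ (altp f F x (res lo hi t)).card :=
    Finset.card_image_le
  have h5 : ((altp f F x (res lo hi t)).image Prod.snd).card ≤ (altp f F x (res lo hi t)).card :=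
    Finset.card_image_le
  omega

end Pool.Agent.SplNest
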