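import Pool.Agent.SplNest.Defs

set_option autoImplicit false

namespace Pool.Agent.SplNest

open BinaryTree Pool.Agent.MP_c42954_lc.Scan Pool.Agent.SplPat Pool.Agent.SplAll

/-- The cells of the upper nodes of the pairs with both nodes in `P`. -/
def ly (P : ℕ → Prop) [DecidablePred P] (f : ℕ → ℕ) (L : List ℕ) : Finset ℕ :=
  (((pairUp L).filter (fun q => decide (P q.1 ∧ P q.2))).map (fun q => f q.2)).toFinset

/-- The cells of the nodes of `P` followed by a node outside `P` and a later node in `P`. -/
def br (P : ℕ → Prop) [DecidablePred P] (f : ℕ → ℕ) : List ℕ → Finset ℕ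
  | [] => ∅
  | [_] => ∅
  | w :: v :: l => (if P w ∧ ¬ P v ∧ ∃ z ∈ l, P z then {f w} else ∅) ∪ br P f (v :: l)

theorem br_iff {P : ℕ → Prop} [DecidablePred P] {f : ℕ → ℕ} {L : List ℕ} {A : ℕ} :
    A ∈ br P f L ↔ ∃ (l1 l2 : List ℕ) (w v : ℕ), L = l1 ++ w :: v :: l2 ∧ P w ∧ ¬ P v ∧
      (∃ z ∈ l2, P z) ∧ f w = A := by
  induction L with
  | nil =>
    simp only [br, Finset.notMem_empty, false_iff]
    rintro ⟨l1, l2, w, v, h, -⟩
    simp at h
  | cons a L ih =>
    cases L with
    | nil =>
      simp only [br, Finset.notMem_empty, false_iff]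
      rintro ⟨l1, l2, w, v, h, -⟩
      have := congrArg List.length h
      simp only [List.length_append, List.length_cons, List.length_nil] at this
      omega
    | cons b l =>
      rw [br, Finset.mem_union, ih]
      constructor
      · rintro (h | ⟨l1, l2, w, v, h1, h2⟩)
        · by_cases hc : P a ∧ ¬ P b ∧ ∃ z ∈ l, P z
          · rw [if_pos hc, Finset.mem_singleton] at h
            exact ⟨[], l, a, b, rfl, hc.1, hc.2.1, hc.2.2, h.symm⟩
          · rw [if_neg hc] at h
            exact absurd h (Finset.notMem_empty _)
        · exact ⟨a :: l1, l2, w, v, by rw [h1]; rfl, h2⟩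
      · rintro ⟨l1, l2, w, v, h1, hw, hv, hz, hA⟩
        cases l1 with
        | nil =>
          simp only [List.nil_append, List.cons.injEq] at h1
          obtain ⟨rfl, rfl, rfl⟩ := h1
          left
          rw [if_pos ⟨hw, hv, hz⟩, Finset.mem_singleton]
          exact hA.symm
        | cons c l1 =>
          rw [List.cons_append, List.cons.injEq] at h1
          exact Or.inr ⟨l1, l2, w, v, h1.2, hw, hv, hz, hA⟩

/-! ### the same for lists of cells and gaps -/

private def yP : Option ℕ → Option ℕ → Finset ℕ
  | some _, some y => {y}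
  | _, _ => ∅

private theorem yP_left (b : Option ℕ) : yP none b = ∅ := by cases b <;> rfl

private theorem yP_right (a : Option ℕ) : yP a none = ∅ := by cases a <;> rfl

private def yO : List (Option ℕ) → Finset ℕ
  | a :: b :: l => yP a b ∪ yO l
  | [_] => ∅
  | [] => ∅

private theorem yO_left (b : Option ℕ) (L : List (Option ℕ)) : yO (none :: b :: L) = yO L := by
  rw [yO, yP_left, Finset.empty_union]

private theorem yO_right (a : Option ℕ) (L : List (Option ℕ)) : yO (a :: none :: L) = yO L := by
  rw [yO, yP_right, Finset.empty_union]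

private theorem yO_some (x y : ℕ) (L : List (Option ℕ)) :
    yO (some x :: some y :: L) = insert y (yO L) := by
  rw [yO]
  rfl

private def bP : Option ℕ → Finset ℕ
  | some x => {x}
  | none => ∅

private def bO : List (Option ℕ) → Finset ℕ
  | [] => ∅
  | w :: l => (if l.head? = some none ∧ l.filterMap id ≠ [] then bP w else ∅) ∪ bO l

private def cO (L : List (Option ℕ)) : Finset ℕ := (L.filterMap id).toFinset

private theorem cO_some (x : ℕ) (L : List (Option ℕ)) : cO (some x :: L) = insert x (cO L) := by
  simp [cO]

private theorem cO_none (L : List (Option ℕ)) : cO (none :: L) = cO L := by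
  simp [cO]

private theorem bO_none (L : List (Option ℕ)) : bO (none :: L) = bO L := by
  rw [bO, bP]
  split_ifs <;> simp

private theorem bO_pos {x : ℕ} {L : List (Option ℕ)} (h : L.head? = some none)
    (h' : L.filterMap id ≠ []) : bO (some x :: L) = insert x (bO L) := by
  rw [bO, if_pos ⟨h, h'⟩, bP]
  rfl

private theorem bO_neg {x : ℕ} {L : List (Option ℕ)} (h : ¬ (L.head? = some none ∧
    L.filterMap id ≠ [])) : bO (some x :: L) = bO L := by
  rw [bO, if_neg h, Finset.empty_union]

private theorem bO_sub : ∀ L : List (Option ℕ), bO L ⊆ cO L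
  | [] => by simp [bO]
  | none :: L => by
    rw [bO_none, cO_none]
    exact bO_sub L
  | some x :: L => by
    rw [cO_some]
    by_cases h : L.head? = some none ∧ L.filterMap id ≠ []
    · rw [bO_pos h.1 h.2]
      exact Finset.insert_subset_insert _ (bO_sub L)
    · rw [bO_neg h]
      exact (bO_sub L).trans (Finset.subset_insert _ _)

private theorem bO_le (x : ℕ) (L : List (Option ℕ)) : bO L ⊆ bO (some x :: L) := by
  rw [bO]
  exact Finset.subset_union_right

private theorem yO_sub : ∀ L : List (Option ℕ), yO L ⊆ cO L
  | [] => by simp [yO]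
  | [a] => by simp [yO]
  | none :: none :: L => by
    rw [yO_left, cO_none, cO_none]
    exact yO_sub L
  | none :: some y :: L => by
    rw [yO_left, cO_none, cO_some]
    exact (yO_sub L).trans (Finset.subset_insert _ _)
  | some x :: none :: L => by
    rw [yO_right, cO_some, cO_none]
    exact (yO_sub L).trans (Finset.subset_insert _ _)
  | some x :: some y :: L => by
    rw [yO_some, cO_some, cO_some]
    exact (Finset.insert_subset_insert _ (yO_sub L)).trans (Finset.subset_insert _ _)

private theorem subl {a b : ℕ} {M : List ℕ} (h : a ∈ M) : [a, b, a].Sublist (a :: b :: M) :=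
  List.Sublist.cons_cons _ (List.Sublist.cons_cons _ (List.singleton_sublist.2 h))

/-- the members of the rest which are equal to `a` -/
private theorem head_eq {a c : ℕ} {M : List ℕ}
    (h : ∀ b, [a, b, a].Sublist (a :: c :: M) → a = b) (ha : a ∈ c :: M) : a = c := by
  rcases List.mem_cons.1 ha with h1 | h1
  · exact h1
  · exact h c (subl h1)

private theorem LCnt_main : ∀ L : List (Option ℕ),
    (∀ a b, [a, b, a].Sublist (L.filterMap id) → a = b) → ∀ c, (L.filterMap id).head? = some c →
    (cO L).card + (if c ∈ yO L then 1 else 0) ≤ 1 + 2 * (yO L).card + 2 * (bO L).card +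
      (if L.head? = some none ∧ c ∉ bO L then 1 else 0)
  | [], _, c, hc => by simp at hc
  | [none], _, c, hc => by simp at hc
  | [some x], _, c, hc => by
    have h1 : yO [some x] = ∅ := rfl
    rw [h1]
    simp [cO]
  | none :: none :: R, hL, c, hc => by
    have ih := LCnt_main R (by simpa using hL) c (by simpa using hc)
    rw [cO_none, cO_none, yO_left, bO_none, bO_none]
    have h1 : (if R.head? = some none ∧ c ∉ bO R then 1 else 0) ≤
        (if (none :: none :: R : List (Option ℕ)).head? = some none ∧ c ∉ bO R then 1 else 0) := by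
      by_cases h : c ∈ bO R
      · rw [if_neg (fun h' => h'.2 h)]
        exact Nat.zero_le _
      · rw [if_pos (c := (none :: none :: R : List (Option ℕ)).head? = some none ∧ c ∉ bO R)
          ⟨rfl, h⟩]
        split_ifs <;> omega
    omega
  | some x :: some y :: R, hL, c, hc => by
    have hcx : x = c := by simpa using hc
    subst hcx
    have hL' : ∀ a b, [a, b, a].Sublist (x :: y :: R.filterMap id) → a = b := by
      simpa using hL
    have hB1 : bO (some x :: some y :: R) = bO (some y :: R) := bO_neg (by simp)
    rw [cO_some, cO_some, yO_some, hB1]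
    have hbr : (if (some x :: some y :: R : List (Option ℕ)).head? = some none ∧
        x ∉ bO (some y :: R) then 1 else 0) = 0 := if_neg (by simp)
    rw [hbr]
    rcases hM : R.filterMap id with _ | ⟨c0, M⟩
    · have hC : cO R = ∅ := by rw [cO, hM]; rfl
      have hY : yO R = ∅ := Finset.subset_empty.1 (hC ▸ yO_sub R)
      rw [hC, hY]
      by_cases hxy : x = y
      · subst hxy
        simp
        omega
      · have h1 : (insert x (insert y (∅ : Finset ℕ))).card = 2 := by
          rw [Finset.card_insert_of_notMem (by simpa using hxy)]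
          simp
        have h2 : x ∉ insert y (∅ : Finset ℕ) := by simpa using hxy
        rw [h1, if_neg h2]
        simp
        omega
    · have ih := LCnt_main R (fun a b h => hL' a b (by
        exact (h.trans (List.sublist_cons_self _ _)).trans (List.sublist_cons_self _ _))) c0
        (by rw [hM]; rfl)
      rw [hM] at hL'
      have hC : cO R = (c0 :: M).toFinset := by rw [cO, hM]
      have hmem : ∀ z, z ∈ cO R → z ∈ c0 :: M := by
        intro z hz
        rw [hC] at hz
        exact List.mem_toFinset.1 hz
      have hy : y ∈ cO R → y = c0 := fun h => head_eq (fun b h' =>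
        hL' y b (h'.trans (List.sublist_cons_self _ _))) (hmem y h)
      have hx : x ∈ cO R → x = y := fun h => hL' x y (subl (hmem x h))
      -- the last bracket is paid by `bO`
      have hB : 2 * (bO R).card + (if R.head? = some none ∧ c0 ∉ bO R then 1 else 0) ≤
          2 * (bO (some y :: R)).card := by
        by_cases h : R.head? = some none ∧ c0 ∉ bO R
        · have hyR : y ∉ bO R := by
            intro h'
            have := hy (bO_sub R h')
            rw [this] at h'
            exact h.2 h'
          rw [if_pos h, bO_pos h.1 (by rw [hM]; simp), Finset.card_insert_of_notMem hyR]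
          omega
        · rw [if_neg h]
          have := Finset.card_le_card (bO_le y R)
          omega
      by_cases hyC : y ∈ cO R
      · have hy0 := hy hyC
        subst hy0
        rw [Finset.insert_eq_of_mem hyC]
        by_cases hxy : x = y
        · subst hxy
          rw [Finset.insert_eq_of_mem hyC, if_pos (Finset.mem_insert_self _ _)]
          by_cases h : x ∈ yO R
          · rw [if_pos h] at ih
            rw [Finset.insert_eq_of_mem h]
            omega
          · rw [if_neg h] at ih
            rw [Finset.card_insert_of_notMem h]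
            omega
        · have hxC : x ∉ cO R := fun h => hxy (hx h)
          have hxY : x ∉ insert y (yO R) := by
            rw [Finset.mem_insert]
            rintro (h | h)
            · exact hxy h
            · exact hxC (yO_sub R h)
          rw [Finset.card_insert_of_notMem hxC, if_neg hxY]
          by_cases h : y ∈ yO R
          · rw [if_pos h] at ih
            rw [Finset.insert_eq_of_mem h]
            omega
          · rw [if_neg h] at ih
            rw [Finset.card_insert_of_notMem h]
            omega
      · have hyY : y ∉ yO R := fun h => hyC (yO_sub R h)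
        rw [Finset.card_insert_of_notMem hyY]
        by_cases hxy : x = y
        · subst hxy
          rw [Finset.insert_eq_of_mem (Finset.mem_insert_self _ _),
            Finset.card_insert_of_notMem hyC, if_pos (Finset.mem_insert_self _ _)]
          omega
        · have hxC : x ∉ insert y (cO R) := by
            rw [Finset.mem_insert]
            rintro (h | h)
            · exact hxy h
            · exact hxy (hx h)
          have hxY : x ∉ insert y (yO R) := fun h =>
            hxC (Finset.insert_subset_insert _ (yO_sub R) h)
          rw [Finset.card_insert_of_notMem hxC, Finset.card_insert_of_notMem hyC, if_neg hxY]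
          omega
  | none :: some y :: R, hL, c, hc => by
    have hcx : y = c := by simpa using hc
    subst hcx
    have hL' : ∀ a b, [a, b, a].Sublist (y :: R.filterMap id) → a = b := by
      simpa using hL
    rw [cO_none, cO_some, yO_left, bO_none]
    have hbr : (if (none :: some y :: R : List (Option ℕ)).head? = some none ∧
        y ∉ bO (some y :: R) then 1 else 0) = (if y ∉ bO (some y :: R) then 1 else 0) := by
      by_cases h : y ∉ bO (some y :: R)
      · rw [if_pos h, if_pos ⟨rfl, h⟩]
      · rw [if_neg h, if_neg (fun h' => h h'.2)]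
    rw [hbr]
    rcases hM : R.filterMap id with _ | ⟨c0, M⟩
    · have hC : cO R = ∅ := by rw [cO, hM]; rfl
      have hY : yO R = ∅ := Finset.subset_empty.1 (hC ▸ yO_sub R)
      rw [hC, hY]
      simp
      omega
    · have ih := LCnt_main R (fun a b h => hL' a b (by
        exact (h.trans (List.sublist_cons_self _ _)))) c0 (by rw [hM]; rfl)
      rw [hM] at hL'
      have hC : cO R = (c0 :: M).toFinset := by rw [cO, hM]
      have hmem : ∀ z, z ∈ cO R → z ∈ c0 :: M := by
        intro z hz
        rw [hC] at hz
        exact List.mem_toFinset.1 hz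
      have hy : y ∈ cO R → y = c0 := fun h => head_eq (hL' y) (hmem y h)
      by_cases hyC : y ∈ cO R
      · have hy0 := hy hyC
        subst hy0
        rw [Finset.insert_eq_of_mem hyC]
        have hB : 2 * (bO R).card + (if R.head? = some none ∧ y ∉ bO R then 1 else 0) ≤
            2 * (bO (some y :: R)).card := by
          by_cases h : R.head? = some none ∧ y ∉ bO R
          · rw [if_pos h, bO_pos h.1 (by rw [hM]; simp), Finset.card_insert_of_notMem h.2]
            omega
          · rw [if_neg h]
            have := Finset.card_le_card (bO_le y R)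
            omega
        omega
      · have hyY : y ∉ yO R := fun h => hyC (yO_sub R h)
        have hyB : y ∉ bO R := fun h => hyC (bO_sub R h)
        rw [Finset.card_insert_of_notMem hyC, if_neg hyY]
        by_cases h : R.head? = some none
        · rw [bO_pos h (by rw [hM]; simp), Finset.card_insert_of_notMem hyB]
          have h1 : (if R.head? = some none ∧ c0 ∉ bO R then 1 else 0) ≤ 1 := by
            split_ifs <;> omega
          omega
        · rw [bO_neg (fun h' => h h'.1), if_pos hyB]
          rw [if_neg (c := R.head? = some none ∧ c0 ∉ bO R) (fun h' => h h'.1)] at ih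
          omega
  | some x :: none :: R, hL, c, hc => by
    have hcx : x = c := by simpa using hc
    subst hcx
    have hL' : ∀ a b, [a, b, a].Sublist (x :: R.filterMap id) → a = b := by
      simpa using hL
    rw [cO_some, cO_none, yO_right]
    rcases hM : R.filterMap id with _ | ⟨c0, M⟩
    · have hC : cO R = ∅ := by rw [cO, hM]; rfl
      have hY : yO R = ∅ := Finset.subset_empty.1 (hC ▸ yO_sub R)
      rw [hC, hY]
      simp
    · have ih := LCnt_main R (fun a b h => hL' a b (by
        exact (h.trans (List.sublist_cons_self _ _)))) c0 (by rw [hM]; rfl)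
      rw [hM] at hL'
      have hC : cO R = (c0 :: M).toFinset := by rw [cO, hM]
      have hmem : ∀ z, z ∈ cO R → z ∈ c0 :: M := by
        intro z hz
        rw [hC] at hz
        exact List.mem_toFinset.1 hz
      have hx : x ∈ cO R → x = c0 := fun h => head_eq (hL' x) (hmem x h)
      have hB : bO (some x :: none :: R) = insert x (bO R) := by
        rw [bO_pos rfl (by
          rw [List.filterMap_cons_none rfl, hM]
          simp), bO_none]
      rw [hB]
      have h1 : (if R.head? = some none ∧ c0 ∉ bO R then 1 else 0) ≤ 1 := by
        split_ifs <;> omega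
      by_cases hxC : x ∈ cO R
      · have hx0 := hx hxC
        subst hx0
        rw [Finset.insert_eq_of_mem hxC]
        by_cases h : x ∈ bO R
        · rw [if_neg (c := R.head? = some none ∧ x ∉ bO R) (fun h' => h'.2 h)] at ih
          rw [Finset.insert_eq_of_mem h]
          omega
        · rw [Finset.card_insert_of_notMem h]
          omega
      · have hxY : x ∉ yO R := fun h => hxC (yO_sub R h)
        have hxB : x ∉ bO R := fun h => hxC (bO_sub R h)
        rw [Finset.card_insert_of_notMem hxC, Finset.card_insert_of_notMem hxB, if_neg hxY]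
        omega

/-! ### translation -/

private def oo (P : ℕ → Prop) [DecidablePred P] (f : ℕ → ℕ) (v : ℕ) : Option ℕ :=
  if P v then some (f v) else none

private theorem oo_filterMap (P : ℕ → Prop) [DecidablePred P] (f : ℕ → ℕ) (L : List ℕ) :
    (L.map (oo P f)).filterMap id = (L.filter (fun v => decide (P v))).map f := by
  induction L with
  | nil => rfl
  | cons a L ih =>
    by_cases h : P a
    · have h1 : oo P f a = some (f a) := if_pos h
      rw [List.map_cons, h1, List.filter_cons_of_pos (by simpa using h), List.map_cons, ← ih]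
      rfl
    · have h1 : oo P f a = none := if_neg h
      rw [List.map_cons, h1, List.filter_cons_of_neg (by simpa using h), ← ih]
      rfl

private theorem oo_y (P : ℕ → Prop) [DecidablePred P] (f : ℕ → ℕ) : ∀ L : List ℕ,
    yO (L.map (oo P f)) = ly P f L
  | [] => rfl
  | [a] => rfl
  | a :: b :: L => by
    have ih := oo_y P f L
    rw [List.map_cons, List.map_cons]
    by_cases ha : P a
    · by_cases hb : P b
      · have h1 : oo P f a = some (f a) := if_pos ha
        have h2 : oo P f b = some (f b) := if_pos hb
        rw [h1, h2, yO_some, ih]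
        simp [ly, pairUp, ha, hb]
      · have h2 : oo P f b = none := if_neg hb
        rw [h2, yO_right, ih]
        simp [ly, pairUp, hb]
    · have h1 : oo P f a = none := if_neg ha
      rw [h1, yO_left, ih]
      simp [ly, pairUp, ha]

private theorem oo_ne (P : ℕ → Prop) [DecidablePred P] (f : ℕ → ℕ) (L : List ℕ) :
    (L.map (oo P f)).filterMap id ≠ [] ↔ ∃ z ∈ L, P z := by
  rw [oo_filterMap, ne_eq, List.map_eq_nil_iff, List.filter_eq_nil_iff]
  simp

private theorem oo_b (P : ℕ → Prop) [DecidablePred P] (f : ℕ → ℕ) : ∀ L : List ℕ,
    bO (L.map (oo P f)) = br P f L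
  | [] => rfl
  | [a] => by
    by_cases ha : P a
    · have h1 : oo P f a = some (f a) := if_pos ha
      rw [List.map_cons, h1, bO_neg (by simp)]
      rfl
    · have h1 : oo P f a = none := if_neg ha
      rw [List.map_cons, h1, bO_none]
      rfl
  | a :: b :: L => by
    have ih := oo_b P f (b :: L)
    rw [List.map_cons, br, ← ih]
    by_cases ha : P a
    · have h1 : oo P f a = some (f a) := if_pos ha
      rw [h1]
      by_cases hb : P b
      · have h2 : oo P f b = some (f b) := if_pos hb
        rw [if_neg (fun h => h.2.1 hb), Finset.empty_union, bO_neg]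
        rw [List.map_cons, h2]
        simp
      · have h2 : oo P f b = none := if_neg hb
        by_cases hz : ∃ z ∈ L, P z
        · rw [if_pos ⟨ha, hb, hz⟩, bO_pos]
          · rfl
          · rw [List.map_cons, h2]
            rfl
          · rw [oo_ne]
            obtain ⟨z, hz1, hz2⟩ := hz
            exact ⟨z, List.mem_cons_of_mem _ hz1, hz2⟩
        · rw [if_neg (fun h => hz h.2.2), Finset.empty_union, bO_neg]
          rintro ⟨-, h⟩
          rw [oo_ne] at h
          obtain ⟨z, hz1, hz2⟩ := h
          rcases List.mem_cons.1 hz1 with h3 | h3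
          · rw [h3] at hz2
            exact hb hz2
          · exact hz ⟨z, h3, hz2⟩
    · have h1 : oo P f a = none := if_neg ha
      rw [h1, bO_none, if_neg (fun h => ha h.1), Finset.empty_union]

/-- LCNT.  The hypothesis says that the nodes of `P` of a cell are consecutive among the nodes of
`P`.  PROOF.  Write `C L` for the set of the cells of `L.filter P`.  Stronger claim, by induction on
`L` in steps of two (`[]`, `[p]`, `p :: g :: R`): if `C L ≠ ∅` and `c1` is the cell of the first
element of `L.filter P` then

  `|C L| + [c1 ∈ ly L] ≤ 1 + 2 |ly L| + 2 |br L| + [L.head ∉ P ∧ c1 ∉ br L]`      (*)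

(checked by computer for all lists of length ≤ 10).  `[p]`: clear.  `L = p :: g :: R`:
`ly L = ly R ∪ {f g | p, g ∈ P}`, `br L` = `br R` and the cell of `g` if `g ∈ P`, `R.head ∉ P`,
`C R ≠ ∅`, and the cell of `p` if `p ∈ P`, `g ∉ P`, `C R ≠ ∅`.  Write `c = c1(R)` if `C R ≠ ∅`; by
the hypothesis `f g ∈ C R → f g = c`, and the same for `f p` (also `f p ∈ C R → f p = f g` if
`g ∈ P`).
(a) `p, g ∉ P`: `C, ly, br, c1` do not change, the last bracket does not decrease.
(b) `p, g ∈ P`, `C R = ∅`: `|C L| ≤ 2`, with `= 1` if `f p = f g`; `ly L = {f g}`.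
(b') `p, g ∈ P`, `C R ≠ ∅`: if the last bracket of `R` is 1 then `f g ∈ br L \ br R` (as `c ∉ br R`
and `br R ⊆ C R`), which pays for it; so forget it.  If `f g ∉ C R`: `|ly|` rises by 1; if
`f p ≠ f g`: `|C|` rises by 2, `c1 = f p ∉ ly L`; if `f p = f g`: `|C|` rises by 1, the bracket
`[c1 ∈ ly]` by at most 1.  If `f g = c`, `f p ≠ c`: `|C|` rises by 1, `c1 = f p ∉ ly L`; either
`c ∉ ly R` and `|ly|` rises, or `c ∈ ly R` and the bracket `[c1 ∈ ly]` drops.  If `f p = f g = c`:
`|C|` does not rise; either `c ∈ ly R`, nothing changes, or `|ly|` rises.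
(c) `p ∉ P`, `g ∈ P`: `ly` does not change.  `C R = ∅`: `1 + 0 ≤ 1`.  `f g = c`: `|C|`, `[c1 ∈ ly]`
do not change; if `R.head ∉ P` then `c ∈ br L`, and if the last bracket of `R` was 1 then `|br|`
rises; if `R.head ∈ P` the last bracket of `R` is 0.  `f g ∉ C R`: `|C|` rises by 1, `[c1 ∈ ly L]`
`= 0`; if `R.head ∉ P`: `f g ∈ br L \ br R`, `2 - 1 ≥ 1`; if `R.head ∈ P`: the last bracket was 0 and
is 1 now.
(d) `p ∈ P`, `g ∉ P`: `ly` does not change.  `C R = ∅`: `1 + 0 ≤ 1`.  `C R ≠ ∅`: `f p ∈ br L`.
`f p = c`: `|C|` does not rise; if the last bracket of `R` was 1 then `c ∉ br R` and `|br|` rises.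
`f p ∉ C R`: `|C|` rises by 1, `|br|` rises by 1, and `2 ≥ 1 + 1`. -/
theorem LCNT {P : ℕ → Prop} [DecidablePred P] {f : ℕ → ℕ} {L : List ℕ}
    (hL : ∀ u v w, [u, v, w].Sublist (L.filter (fun v => decide (P v))) → f u = f w → f u = f v) :
    ((L.filter (fun v => decide (P v))).toFinset.image f).card ≤
      2 + 2 * (ly P f L).card + 2 * (br P f L).card := by
  have hC : (L.filter (fun v => decide (P v))).toFinset.image f = cO (L.map (oo P f)) := by
    rw [cO, oo_filterMap]
    ext x
    simp
  rw [hC, ← oo_y, ← oo_b]
  rcases hM : (L.map (oo P f)).filterMap id with _ | ⟨c, M⟩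
  · have h1 : cO (L.map (oo P f)) = ∅ := by rw [cO, hM]; rfl
    rw [h1, Finset.card_empty]
    exact Nat.zero_le _
  · have h1 := LCnt_main (L.map (oo P f)) (fun a b h => by
      rw [oo_filterMap, List.sublist_map_iff] at h
      obtain ⟨l, hl, he⟩ := h
      obtain ⟨u, v, w, rfl, h2, h3, h4⟩ : ∃ u v w, l = [u, v, w] ∧ a = f u ∧ b = f v ∧ a = f w := by
        rcases l with _ | ⟨u, _ | ⟨v, _ | ⟨w, _ | ⟨z, l⟩⟩⟩⟩
        · simp at he
        · simp at he
        · simp at he
        · simp only [List.map_cons, List.map_nil, List.cons.injEq, and_true] at he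
          exact ⟨u, v, w, rfl, he.1, he.2.1, he.2.2⟩
        · simp at he
      rw [h2, h3]
      exact hL u v w hl (h2 ▸ h4)) c (by rw [hM]; rfl)
    have h2 : (if (L.map (oo P f)).head? = some none ∧ c ∉ bO (L.map (oo P f)) then 1 else 0) ≤ 1 := by
      split_ifs <;> omega
    omega

end Pool.Agent.SplNest
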