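import Pool.Agent.SplNest.Defs
import Pool.Agent.SplNest.Bas

set_option autoImplicit false

namespace Pool.Agent.SplNest

open BinaryTree Pool.Agent.MP_c42954_lc.Scan Pool.Agent.SplPat Pool.Agent.SplAll

/-- SPK: the left spine of the induced tree consists of the nodes of `[a, b)` on the search path of
the gap `a`.  PROOF.  Induction on `t`.  `t = node c l r`.  `c < a`: both sides are those of `r`
(`gp a t = gp a r ++ [c]`, `c` is filtered out).  `b ≤ c`: `c ≥ a`, the path of the gap `a` goes to
`l`, `c` is filtered out.  `a ≤ c < b`: `SL = insert c (SL (res a b l))`, `gp a t = gp a l ++ [c]`. -/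
theorem SPK_L {a b : ℕ} {t : BinaryTree ℕ} (hb : IsBST t) (hab : a ≤ b) :
    SL (res a b t) = (Rg a t).filter (fun v => v < b) := by
  induction t with
  | nil => rfl
  | node c l r ihl ihr =>
    obtain ⟨hl, hr, -, -⟩ := bst_node.1 hb
    have ihl := ihl hl
    have ihr := ihr hr
    ext v
    have el := Finset.ext_iff.1 ihl v
    have er := Finset.ext_iff.1 ihr v
    simp only [Rg, gp, Finset.mem_filter, List.mem_toFinset] at el er ⊢
    by_cases k1 : c < a
    · simp only [res, if_pos k1, List.mem_append, List.mem_singleton]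
      rw [er]
      constructor
      · rintro ⟨⟨h1, h2⟩, h3⟩
        exact ⟨⟨Or.inl h1, h2⟩, h3⟩
      · rintro ⟨⟨h1 | h1, h2⟩, h3⟩
        · exact ⟨⟨h1, h2⟩, h3⟩
        · omega
    · by_cases k2 : b ≤ c
      · simp only [res, if_neg k1, if_pos k2, List.mem_append, List.mem_singleton]
        rw [el]
        constructor
        · rintro ⟨⟨h1, h2⟩, h3⟩
          exact ⟨⟨Or.inl h1, h2⟩, h3⟩
        · rintro ⟨⟨h1 | h1, h2⟩, h3⟩
          · exact ⟨⟨h1, h2⟩, h3⟩
          · omega
      · simp only [res, if_neg k1, if_neg k2, SL, Finset.mem_insert, List.mem_append,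
          List.mem_singleton]
        rw [el]
        constructor
        · rintro (h1 | ⟨⟨h1, h2⟩, h3⟩)
          · exact ⟨⟨Or.inr h1, by omega⟩, by omega⟩
          · exact ⟨⟨Or.inl h1, h2⟩, h3⟩
        · rintro ⟨⟨h1 | h1, h2⟩, h3⟩
          · exact Or.inr ⟨⟨h1, h2⟩, h3⟩
          · exact Or.inl h1

theorem SPK_R {a b : ℕ} {t : BinaryTree ℕ} (hb : IsBST t) (hab : a ≤ b) :
    SR (res a b t) = (Lg b t).filter (fun v => a ≤ v) := by
  induction t with
  | nil => rfl
  | node c l r ihl ihr =>
    obtain ⟨hl, hr, -, -⟩ := bst_node.1 hb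
    have ihl := ihl hl
    have ihr := ihr hr
    ext v
    have el := Finset.ext_iff.1 ihl v
    have er := Finset.ext_iff.1 ihr v
    simp only [Lg, gp, Finset.mem_filter, List.mem_toFinset] at el er ⊢
    by_cases k1 : c < a
    · have k3 : c < b := by omega
      simp only [res, if_pos k1, if_pos k3, List.mem_append, List.mem_singleton]
      rw [er]
      constructor
      · rintro ⟨⟨h1, h2⟩, h3⟩
        exact ⟨⟨Or.inl h1, h2⟩, h3⟩
      · rintro ⟨⟨h1 | h1, h2⟩, h3⟩
        · exact ⟨⟨h1, h2⟩, h3⟩
        · omega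
    · by_cases k2 : b ≤ c
      · have k3 : ¬ c < b := by omega
        simp only [res, if_neg k1, if_pos k2, if_neg k3, List.mem_append, List.mem_singleton]
        rw [el]
        constructor
        · rintro ⟨⟨h1, h2⟩, h3⟩
          exact ⟨⟨Or.inl h1, h2⟩, h3⟩
        · rintro ⟨⟨h1 | h1, h2⟩, h3⟩
          · exact ⟨⟨h1, h2⟩, h3⟩
          · omega
      · have k3 : c < b := by omega
        simp only [res, if_neg k1, if_neg k2, if_pos k3, SR, Finset.mem_insert, List.mem_append,
          List.mem_singleton]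
        rw [er]
        constructor
        · rintro (h1 | ⟨⟨h1, h2⟩, h3⟩)
          · exact ⟨⟨Or.inr h1, by omega⟩, by omega⟩
          · exact ⟨⟨Or.inl h1, h2⟩, h3⟩
        · rintro ⟨⟨h1 | h1, h2⟩, h3⟩
          · exact Or.inr ⟨⟨h1, h2⟩, h3⟩
          · exact Or.inl h1

theorem SPK {a b : ℕ} {t : BinaryTree ℕ} (hb : IsBST t) (hab : a ≤ b) :
    SL (res a b t) ∪ SR (res a b t) = spn a b t := by
  rw [SPK_L hb hab, SPK_R hb hab]
  rfl

/-- The root separates the two spines.  (Induction; the left spine below the root is in the left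
subtree.) -/
theorem SL_le {a : ℕ} {l r : BinaryTree ℕ} (hb : IsBST (.node a l r)) :
    (∀ v ∈ SL (.node a l r), v ≤ a) ∧ (∀ v ∈ SR (.node a l r), a ≤ v) := by
  obtain ⟨-, -, h1, h2⟩ := bst_node.1 hb
  constructor
  · intro v hv
    simp only [SL, Finset.mem_insert] at hv
    rcases hv with hv | hv
    · omega
    · exact (h1 v (SL_mem hv)).le
  · intro v hv
    simp only [SR, Finset.mem_insert] at hv
    rcases hv with hv | hv
    · omega
    · exact (h2 v (SR_mem hv)).le

end Pool.Agent.SplNest
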