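import Pool.Agent.SplNest.Defs
import Pool.Agent.SplAll.SpnOut

set_option autoImplicit false

namespace Pool.Agent.SplNest

open BinaryTree Pool.Agent.MP_c42954_lc.Scan Pool.Agent.SplPat Pool.Agent.SplAll

/-- The terms of `Th`. -/
theorem TH_le {τ : ℕ} {f : ℕ → ℕ} {Ex : Finset ℕ} {a b : ℕ} {t : BinaryTree ℕ} :
    Th τ f Ex a b t ≤ τ * ((spn a b t).image f).card := by
  unfold Th
  refine (Finset.sum_le_card_nsmul _ _ τ (fun A _ => min_le_right _ _)).trans ?_
  rw [smul_eq_mul, mul_comm]
  exact Nat.mul_le_mul_left _ (Finset.card_le_card Finset.sdiff_subset)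

/-- The sum may be extended to a larger set of cells. -/
private theorem TH_ext {τ : ℕ} {f : ℕ → ℕ} {S : Finset ℕ} {V : Finset ℕ} {Ex : Finset ℕ}
    (hV : S.image f ⊆ V) :
    ∑ A ∈ S.image f \ Ex, min (S.filter (fun v => f v = A)).card τ =
      ∑ A ∈ V \ Ex, min (S.filter (fun v => f v = A)).card τ := by
  apply Finset.sum_subset (Finset.sdiff_subset_sdiff hV (le_refl _))
  intro A hA hA'
  rw [Finset.mem_sdiff] at hA hA'
  have h1 : A ∉ S.image f := fun h => hA' ⟨h, hA.2⟩
  have h2 : S.filter (fun v => f v = A) = ∅ := by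
    rw [Finset.filter_eq_empty_iff]
    intro v hv h3
    exact h1 (Finset.mem_image.2 ⟨v, hv, h3⟩)
  rw [h2]
  simp

/-- The spine nodes of a subset: `Th` is monotone in the set of spine nodes, even if cells of `D`
are paid for the larger one.  PROOF.  For the cells of `S' = spn t'` the term for `t'` is at most the
term for `t`, by 1 smaller for the cells of `D` not in `Ex`; for the cells of `D` without a node of
`S'` the term for `t` is at least 1.  (Extend both sums to all cells of `S = spn t` outside `Ex`: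
the terms of the cells outside `S'` are 0.) -/
theorem TH_sub {τ : ℕ} {f : ℕ → ℕ} {Ex D : Finset ℕ} {a b : ℕ} {t t' : BinaryTree ℕ}
    (hs : spn a b t' ⊆ spn a b t)
    (hD : ∀ A ∈ D, A ∉ Ex ∧ min ((spn a b t').filter (fun v => f v = A)).card τ + 1 ≤
      min ((spn a b t).filter (fun v => f v = A)).card τ) :
    Th τ f Ex a b t' + D.card ≤ Th τ f Ex a b t := by
  unfold Th
  rw [TH_ext (V := (spn a b t).image f) (Finset.image_subset_image hs)]
  have h1 : D ⊆ (spn a b t).image f \ Ex := by
    intro A hA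
    obtain ⟨h2, h3⟩ := hD A hA
    rw [Finset.mem_sdiff]
    refine ⟨?_, h2⟩
    have h4 : 0 < ((spn a b t).filter (fun v => f v = A)).card := by
      have := min_le_left ((spn a b t).filter (fun v => f v = A)).card τ
      omega
    obtain ⟨v, hv⟩ := Finset.card_pos.1 h4
    rw [Finset.mem_filter] at hv
    exact Finset.mem_image.2 ⟨v, hv.1, hv.2⟩
  have h2 : D.card = ∑ A ∈ (spn a b t).image f \ Ex, (if A ∈ D then 1 else 0) := by
    rw [← Finset.card_filter]
    congr 1
    ext A
    rw [Finset.mem_filter]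
    exact ⟨fun h => ⟨h1 h, h⟩, fun h => h.2⟩
  rw [h2, ← Finset.sum_add_distrib]
  apply Finset.sum_le_sum
  intro A hA
  split_ifs with h3
  · exact (hD A h3).2
  · rw [add_zero]
    exact min_le_min_right _ (Finset.card_le_card (Finset.filter_subset_filter _ hs))

/-- `spn_out` (SplAll.SpnOut) and `TH_sub` with `D = ∅`. -/
theorem TH_out {τ : ℕ} {f : ℕ → ℕ} {Ex : Finset ℕ} {a b x : ℕ} {t : BinaryTree ℕ} (hb : IsBST t)
    (hm : x ∈ inorder t) (hab : a ≤ b) (hx : x < a ∨ b ≤ x) :
    Th τ f Ex a b (splay x t) ≤ Th τ f Ex a b t := by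
  have := TH_sub (τ := τ) (f := f) (Ex := Ex) (D := ∅) (spn_out hb hm hab hx) (by simp)
  simpa using this

/-- Another set of excluded cells. -/
theorem TH_ex {τ : ℕ} {f : ℕ → ℕ} {Ex Ex' : Finset ℕ} {a b : ℕ} {t : BinaryTree ℕ} :
    Th τ f Ex a b t ≤ Th τ f Ex' a b t + τ * (Ex' \ Ex).card := by
  unfold Th
  have h1 : (spn a b t).image f \ Ex ⊆ ((spn a b t).image f \ Ex') ∪ (Ex' \ Ex) := by
    intro A hA
    rw [Finset.mem_sdiff] at hA
    rw [Finset.mem_union, Finset.mem_sdiff, Finset.mem_sdiff]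
    by_cases h : A ∈ Ex'
    · exact Or.inr ⟨h, hA.2⟩
    · exact Or.inl ⟨hA.1, h⟩
  refine (Finset.sum_le_sum_of_subset h1).trans ?_
  have h2 : Disjoint ((spn a b t).image f \ Ex') (Ex' \ Ex) := by
    rw [Finset.disjoint_left]
    intro A hA hB
    exact (Finset.mem_sdiff.1 hA).2 (Finset.mem_sdiff.1 hB).1
  rw [Finset.sum_union h2]
  apply Nat.add_le_add_left
  refine (Finset.sum_le_card_nsmul _ _ τ (fun A _ => min_le_right _ _)).trans ?_
  rw [smul_eq_mul, mul_comm]

/-- New spine nodes `P`: each costs at most 1, and 0 if its cell is excluded. -/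
theorem TH_new {τ : ℕ} {f : ℕ → ℕ} {Ex : Finset ℕ} {a b : ℕ} {t t' : BinaryTree ℕ} {P : Finset ℕ}
    (hs : spn a b t' ⊆ spn a b t ∪ P) :
    Th τ f Ex a b t' ≤ Th τ f Ex a b t + (P.filter (fun v => f v ∉ Ex)).card := by
  unfold Th
  set V := (spn a b t).image f ∪ P.image f with hV
  have h1 : (spn a b t').image f ⊆ V := by
    rw [hV, ← Finset.image_union]
    exact Finset.image_subset_image hs
  rw [TH_ext h1, TH_ext (S := spn a b t) (V := V) Finset.subset_union_left]
  have h2 : (P.filter (fun v => f v ∉ Ex)).card =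
      ∑ A ∈ V \ Ex, (P.filter (fun v => f v = A)).card := by
    rw [← Finset.card_biUnion]
    · congr 1
      ext v
      simp only [Finset.mem_filter, Finset.mem_biUnion, Finset.mem_sdiff]
      constructor
      · rintro ⟨h3, h4⟩
        refine ⟨f v, ⟨?_, h4⟩, h3, rfl⟩
        rw [hV, Finset.mem_union]
        exact Or.inr (Finset.mem_image_of_mem f h3)
      · rintro ⟨A, ⟨_, h4⟩, h5, rfl⟩
        exact ⟨h5, h4⟩
    · intro A _ B _ hAB
      simp only [Function.onFun]
      rw [Finset.disjoint_left]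
      intro v h3 h4
      rw [Finset.mem_filter] at h3 h4
      exact hAB (h3.2.symm.trans h4.2)
  rw [h2, ← Finset.sum_add_distrib]
  apply Finset.sum_le_sum
  intro A _
  have h3 : ((spn a b t').filter (fun v => f v = A)).card ≤
      ((spn a b t).filter (fun v => f v = A)).card + (P.filter (fun v => f v = A)).card := by
    refine le_trans (Finset.card_le_card ?_) (Finset.card_union_le _ _)
    intro v hv
    rw [Finset.mem_filter] at hv
    rw [Finset.mem_union, Finset.mem_filter, Finset.mem_filter]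
    rcases Finset.mem_union.1 (hs hv.1) with h4 | h4
    · exact Or.inl ⟨h4, hv.2⟩
    · exact Or.inr ⟨h4, hv.2⟩
  omega

end Pool.Agent.SplNest
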