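import Pool.Agent.SplNest.Defs
import Pool.Agent.SplNest.Bas
import Pool.Agent.SplNest.Spk
import Pool.Agent.SplNest.LCnt
import Pool.Agent.SplNest.ThB

set_option autoImplicit false

namespace Pool.Agent.SplNest

open BinaryTree Pool.Agent.MP_c42954_lc.Scan Pool.Agent.SplPat Pool.Agent.SplAll

private theorem CNT_pu {p v g : ℕ} : ∀ l : List ℕ, l.Nodup → (p, v) ∈ pairUp l →
    (v, g) ∈ pairUp l → False
  | [], _, h, _ => by simp [pairUp] at h
  | [a], _, h, _ => by simp [pairUp] at h
  | a :: b :: l, hn, h1, h2 => by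
      rw [List.nodup_cons, List.nodup_cons] at hn
      obtain ⟨h3, h4, h5⟩ := hn
      simp only [pairUp, List.mem_cons, Prod.mk.injEq] at h1 h2
      rcases h1 with ⟨rfl, rfl⟩ | h1
      · rcases h2 with ⟨rfl, rfl⟩ | h2
        · simp at h3
        · exact h4 (mem_pairUp h2).1
      · rcases h2 with ⟨rfl, rfl⟩ | h2
        · exact h3 (List.mem_cons_of_mem _ (mem_pairUp h1).2)
        · exact CNT_pu l h5 h1 h2

private theorem CNT_core {τ : ℕ} {f : ℕ → ℕ} {a b x c1 c2 : ℕ} {t : BinaryTree ℕ}
    {Ex : Finset ℕ} (hE : Ex.card ≤ 1)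
    (hS : spn a b (splay x t) ⊆ spn a b t)
    (hL : ∀ u v w, [u, v, w].Sublist ((ancs x t).filter (fun v => decide (a ≤ v ∧ v < b))) →
      f u = f w → f u = f v)
    (hfull : ∀ v ∈ tc a b x t, f v ≠ c1 → f v ≠ c2 → ∀ u ∈ spn a b t, f u = f v →
      u ∈ tc a b x t)
    (hloss : ∀ p v, (p, v) ∈ pairUp (ancs x t) → a ≤ p ∧ p < b → a ≤ v ∧ v < b → f v ≠ c1 →
      f v ≠ c2 → v ∈ spn a b t ∧ v ∉ spn a b (splay x t)) :
    ((tc a b x t).image f).card + 2 * Th τ f Ex a b (splay x t) ≤
      2 * Th τ f Ex a b t + 2 * lg τ f a b x t + 3 * (bro f a b x t).card + 8 := by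
  classical
  set L := ancs x t with hLdef
  have h1 := LCNT (P := fun v => a ≤ v ∧ v < b) (f := f) (L := L) hL
  have htc : (L.filter (fun v => decide (a ≤ v ∧ v < b))).toFinset = tc a b x t := by
    unfold tc
    rw [List.toFinset_filter, ← hLdef]
    ext v
    simp
  rw [htc] at h1
  have hmem : ∀ A ∈ ly (fun v => a ≤ v ∧ v < b) f L, ∃ p v, (p, v) ∈ pairUp L ∧
      (a ≤ p ∧ p < b) ∧ (a ≤ v ∧ v < b) ∧ f v = A := by
    intro A hA
    unfold ly at hA
    simp only [List.mem_toFinset, List.mem_map, List.mem_filter, decide_eq_true_eq] at hA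
    obtain ⟨⟨p, v⟩, ⟨h2, h3, h4⟩, h5⟩ := hA
    exact ⟨p, v, h2, h3, h4, h5⟩
  -- the exits
  have h2 : (br (fun v => a ≤ v ∧ v < b) f L).card ≤ (bro f a b x t).card := by
    apply Finset.card_le_card
    intro A hA
    obtain ⟨l1, l2, w, v, h3, h4, h5, h6, h7⟩ := br_iff.1 hA
    unfold bro
    rw [Finset.mem_image]
    refine ⟨w, ?_, h7⟩
    rw [Finset.mem_filter]
    refine ⟨?_, l1, l2, v, h3, h5, h6⟩
    unfold tc
    rw [Finset.mem_filter, List.mem_toFinset, ← hLdef, h3]
    exact ⟨by simp, h4⟩
  -- the losses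
  set D := (ly (fun v => a ≤ v ∧ v < b) f L).filter (fun A => A ∉ Ex ∧ A ≠ c1 ∧ A ≠ c2 ∧
    ((tc a b x t).filter (fun v => f v = A)).card ≤ τ) with hD
  have h3 : (ly (fun v => a ≤ v ∧ v < b) f L).card ≤ D.card + Ex.card + 2 + lg τ f a b x t := by
    have h4 : ly (fun v => a ≤ v ∧ v < b) f L ⊆ ((D ∪ Ex) ∪ {c1, c2}) ∪
        (((tc a b x t).image f).filter
          (fun A => τ < ((tc a b x t).filter (fun v => f v = A)).card)) := by
      intro A hA
      simp only [Finset.mem_union, Finset.mem_insert, Finset.mem_singleton]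
      by_cases h5 : A ∈ Ex
      · exact Or.inl (Or.inl (Or.inr h5))
      by_cases h6 : A = c1
      · exact Or.inl (Or.inr (Or.inl h6))
      by_cases h7 : A = c2
      · exact Or.inl (Or.inr (Or.inr h7))
      by_cases h8 : ((tc a b x t).filter (fun v => f v = A)).card ≤ τ
      · refine Or.inl (Or.inl (Or.inl ?_))
        rw [hD, Finset.mem_filter]
        exact ⟨hA, h5, h6, h7, h8⟩
      · refine Or.inr ?_
        rw [Finset.mem_filter]
        refine ⟨?_, by omega⟩
        obtain ⟨p, v, h9, h10, h11, h12⟩ := hmem A hA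
        rw [Finset.mem_image]
        refine ⟨v, ?_, h12⟩
        unfold tc
        rw [Finset.mem_filter, List.mem_toFinset]
        exact ⟨(mem_pairUp h9).2, h11⟩
    have h5 := Finset.card_le_card h4
    have h6 : ({c1, c2} : Finset ℕ).card ≤ 2 := Finset.card_le_two
    have h7 := Finset.card_union_le ((D ∪ Ex) ∪ {c1, c2}) (((tc a b x t).image f).filter
          (fun A => τ < ((tc a b x t).filter (fun v => f v = A)).card))
    have h8 := Finset.card_union_le (D ∪ Ex) {c1, c2}
    have h9 := Finset.card_union_le D Ex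
    unfold lg
    omega
  have h4 : Th τ f Ex a b (splay x t) + D.card ≤ Th τ f Ex a b t := by
    apply TH_sub hS
    intro A hA
    rw [hD, Finset.mem_filter] at hA
    obtain ⟨h5, h6, h7, h8, h9⟩ := hA
    refine ⟨h6, ?_⟩
    obtain ⟨p, v, h10, h11, h12, rfl⟩ := hmem A h5
    obtain ⟨h13, h14⟩ := hloss p v h10 h11 h12 h7 h8
    have h15 : v ∈ tc a b x t := by
      unfold tc
      rw [Finset.mem_filter, List.mem_toFinset]
      exact ⟨(mem_pairUp h10).2, h12⟩
    have h16 : ((spn a b t).filter (fun u => f u = f v)).card ≤ τ := by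
      refine le_trans (Finset.card_le_card ?_) h9
      intro u hu
      rw [Finset.mem_filter] at hu ⊢
      exact ⟨hfull v h15 h7 h8 u hu.1 hu.2, hu.2⟩
    have h17 : ((spn a b (splay x t)).filter (fun u => f u = f v)).card + 1 ≤
        ((spn a b t).filter (fun u => f u = f v)).card := by
      rw [Nat.add_one_le_iff]
      apply Finset.card_lt_card
      rw [Finset.ssubset_iff_of_subset (Finset.filter_subset_filter _ hS)]
      exact ⟨v, Finset.mem_filter.2 ⟨h13, rfl⟩, fun h => h14 (Finset.mem_filter.1 h).1⟩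
    omega
  omega

/-- CNT.  PROOF for `x < a` (the case `b ≤ x` is the mirror image, with `F1L`, `Lg_above`).  All
touched nodes of `I = [a, b)` are `> x`.  Let `L = ancs x t`, `P v = (a ≤ v ∧ v < b)`.  By
`ancs_order` the elements of `L.filter P` increase, so the hypothesis of `LCNT` holds
(`f` monotone), `(L.filter P).toFinset = tc a b x t`, `br P f L ⊆ bro f a b x t` (`br_iff`), and
`|C| ≤ 2 + 2 |ly| + 2 |bro|` for `C = (tc a b x t).image f`.  If `tc = ∅` the claim is `TH_out`.
Otherwise `res a b t = node ρ _ _`, and every touched node is `≤ ρ`: it is in `Rg a t` (`anc_Rg`),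
so in `SL (res a b t)` (`SPK_L`), and `SL_le`.  Let `v1` be the least touched node and
`D` = the cells of `ly`, not in `Ex`, not `f v1`, not `f ρ`, with at most `τ` touched nodes.  Then
`|ly| ≤ |D| + |Ex| + 2 + lg`.  Let `A ∈ D`, `A = f v`, `(p, v) ∈ pairUp L`, `a ≤ p`, `a ≤ v < b`.
(1) Every `u ∈ S = spn a b t` with `f u = A` is touched: if `u ∈ Rg a t`, `u < b` is not touched then
`u < v1` (`Rg_below` with all touched nodes), so `A = f u ≤ f v1 ≤ f v = A`, a contradiction; if
`u ∈ Lg b t`, `u ≥ a` then `u ∈ SR (res a b t)`, `u ≥ ρ` and `A = f u ≥ f ρ ≥ f v = A`, a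
contradiction.  So the cell has at most `τ` nodes of `S`.
(2) `v ∈ S`, and `v ∉ S' = spn a b (splay x t)`: not in `Rg a (splay x t)` by `F1R`; not in
`Lg b (splay x t)`: otherwise (`spn_out`'s proof, or `F2L`) `v ∈ Lg b t` (excluded by (1):
`f v ≥ f ρ`), or `v` is the lower node of a pair, impossible for the upper node of a pair (nodes of
`ancs x t` are distinct).
So `|S' ∩ A| + 1 ≤ |S ∩ A| ≤ τ` (`S' ⊆ S` by `spn_out`), and `TH_sub` gives `Th' + |D| ≤ Th`.
Total: `|C| ≤ 2 + 2 (|D| + 1 + 2 + lg) + 2 |bro|`. -/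
theorem CNT {τ : ℕ} {f : ℕ → ℕ} (h : ∀ v w, v ≤ w → f v ≤ f w) {a b x : ℕ} {t : BinaryTree ℕ}
    {Ex : Finset ℕ} (hE : Ex.card ≤ 1) (hb : IsBST t) (hm : x ∈ inorder t) (hab : a ≤ b)
    (hx : x < a ∨ b ≤ x) :
    ((tc a b x t).image f).card + 2 * Th τ f Ex a b (splay x t) ≤
      2 * Th τ f Ex a b t + 2 * lg τ f a b x t + 3 * (bro f a b x t).card + 8 := by
  have hnd : (ancs x t).Nodup := ancs_nodup hb hm
  have hmem : ∀ v, v ∈ tc a b x t ↔ v ∈ ancs x t ∧ a ≤ v ∧ v < b := by
    intro v
    simp only [tc, Finset.mem_filter, List.mem_toFinset]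
  rcases (tc a b x t).eq_empty_or_nonempty with he | hne
  · have h1 := TH_out (τ := τ) (f := f) (Ex := Ex) hb hm hab hx
    rw [he]
    simp only [Finset.image_empty, Finset.card_empty]
    omega
  have hord := ancs_order hb hm
  rcases hx with hx | hx
  · have hRg : ∀ v ∈ tc a b x t, v ∈ SL (res a b t) := by
      intro v hv
      rw [hmem] at hv
      rw [SPK_L hb hab, Finset.mem_filter]
      exact ⟨anc_Rg hb hm hx hv.1 hv.2.1, hv.2.2⟩
    obtain ⟨v1, hv1, hmin⟩ := Finset.exists_min_image (tc a b x t) (fun v => v) hne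
    have hrb : IsBST (res a b t) := res_bst hb
    rcases hr : res a b t with _ | ⟨ρ, l, r⟩
    · exfalso
      have := hRg v1 hv1
      rw [hr] at this
      simp [SL] at this
    have hle := SL_le (by rw [← hr]; exact hrb : IsBST (.node ρ l r))
    rw [← hr] at hle
    refine CNT_core (c1 := f v1) (c2 := f ρ) hE (spn_out hb hm hab (Or.inl hx)) ?_ ?_ ?_
    · intro u v w hs huw
      have h1 : [u, v, w].Sublist (ancs x t) := hs.trans List.filter_sublist
      have h2 := hord.sublist h1
      simp only [List.pairwise_cons, List.mem_cons, List.not_mem_nil, or_false] at h2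
      have h3 : ∀ z ∈ [u, v, w], a ≤ z := by
        intro z hz
        have := hs.subset hz
        simp only [List.mem_filter, decide_eq_true_eq] at this
        exact this.2.1
      have hu := h3 u (by simp)
      have hv := h3 v (by simp)
      have hw := h3 w (by simp)
      have h4 := (h2.1 v (Or.inl rfl)).1 (by omega) (by omega)
      have h5 := (h2.2.1 w rfl).1 (by omega) (by omega)
      have h6 := h u v h4.le
      have h7 := h v w h5.le
      omega
    · intro v hv h1 h2 u hu huv
      unfold spn at hu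
      rw [Finset.mem_union, Finset.mem_filter, Finset.mem_filter] at hu
      rcases hu with ⟨hu, hub⟩ | ⟨hu, hua⟩
      · by_contra hnt
        have h3 : u ∉ ancs x t := fun h3 => hnt ((hmem u).2 ⟨h3, (mem_Rg.1 hu).2, hub⟩)
        have h4 := Rg_below hb hm hx hu h3 ((hmem v1).1 hv1).1 ((hmem v1).1 hv1).2.1
        have h5 := h u v1 h4.le
        have h6 := h v1 v (hmin v hv)
        exact h1 (by omega)
      · exfalso
        have h3 : u ∈ SR (res a b t) := by
          rw [SPK_R hb hab, Finset.mem_filter]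
          exact ⟨hu, hua⟩
        have h4 := h ρ u (hle.2 u h3)
        have h5 := h v ρ (hle.1 v (hRg v hv))
        exact h2 (by omega)
    · intro p v hpv hp hv h1 h2
      have hva : v ∈ tc a b x t := (hmem v).2 ⟨(mem_pairUp hpv).2, hv⟩
      have hvR := anc_Rg hb hm hx (mem_pairUp hpv).2 hv.1
      constructor
      · unfold spn
        rw [Finset.mem_union, Finset.mem_filter]
        exact Or.inl ⟨hvR, hv.2⟩
      · unfold spn
        rw [Finset.mem_union, Finset.mem_filter, Finset.mem_filter]
        rintro (⟨h3, _⟩ | ⟨h3, _⟩)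
        · exact ((F1R hb hm hx).1 h3).2 ⟨p, hpv, hp.1⟩
        · rcases (F2L hb hm (lt_of_lt_of_le hx hab)).1 h3 with h4 | ⟨h4, h5 | ⟨g, h5, _⟩⟩
          · omega
          · have h6 : v ∈ SR (res a b t) := by
              rw [SPK_R hb hab, Finset.mem_filter]
              exact ⟨h5, hv.1⟩
            have h7 := hle.2 v h6
            have h8 := hle.1 v (hRg v hva)
            exact h2 (by rw [le_antisymm h8 h7])
          · exact CNT_pu _ hnd hpv h5
  · have hLg : ∀ v ∈ tc a b x t, v ∈ SR (res a b t) := by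
      intro v hv
      rw [hmem] at hv
      rw [SPK_R hb hab, Finset.mem_filter]
      exact ⟨anc_Lg hb hm hx hv.1 hv.2.2, hv.2.1⟩
    obtain ⟨v1, hv1, hmax⟩ := Finset.exists_max_image (tc a b x t) (fun v => v) hne
    have hrb : IsBST (res a b t) := res_bst hb
    rcases hr : res a b t with _ | ⟨ρ, l, r⟩
    · exfalso
      have := hLg v1 hv1
      rw [hr] at this
      simp [SR] at this
    have hle := SL_le (by rw [← hr]; exact hrb : IsBST (.node ρ l r))
    rw [← hr] at hle
    refine CNT_core (c1 := f v1) (c2 := f ρ) hE (spn_out hb hm hab (Or.inr hx)) ?_ ?_ ?_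
    · intro u v w hs huw
      have h1 : [u, v, w].Sublist (ancs x t) := hs.trans List.filter_sublist
      have h2 := hord.sublist h1
      simp only [List.pairwise_cons, List.mem_cons, List.not_mem_nil, or_false] at h2
      have h3 : ∀ z ∈ [u, v, w], z < b := by
        intro z hz
        have := hs.subset hz
        simp only [List.mem_filter, decide_eq_true_eq] at this
        exact this.2.2
      have hu := h3 u (by simp)
      have hv := h3 v (by simp)
      have hw := h3 w (by simp)
      have h4 := (h2.1 v (Or.inl rfl)).2 (by omega) (by omega)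
      have h5 := (h2.2.1 w rfl).2 (by omega) (by omega)
      have h6 := h v u h4.le
      have h7 := h w v h5.le
      omega
    · intro v hv h1 h2 u hu huv
      unfold spn at hu
      rw [Finset.mem_union, Finset.mem_filter, Finset.mem_filter] at hu
      rcases hu with ⟨hu, hub⟩ | ⟨hu, hua⟩
      · exfalso
        have h3 : u ∈ SL (res a b t) := by
          rw [SPK_L hb hab, Finset.mem_filter]
          exact ⟨hu, hub⟩
        have h4 := h u ρ (hle.1 u h3)
        have h5 := h ρ v (hle.2 v (hLg v hv))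
        exact h2 (by omega)
      · by_contra hnt
        have h3 : u ∉ ancs x t := fun h3 => hnt ((hmem u).2 ⟨h3, hua, (mem_Lg.1 hu).2⟩)
        have h4 := Lg_above hb hm hx hu h3 ((hmem v1).1 hv1).1 ((hmem v1).1 hv1).2.2
        have h5 := h v1 u h4.le
        have h6 := h v v1 (hmax v hv)
        exact h1 (by omega)
    · intro p v hpv hp hv h1 h2
      have hva : v ∈ tc a b x t := (hmem v).2 ⟨(mem_pairUp hpv).2, hv⟩
      have hvL := anc_Lg hb hm hx (mem_pairUp hpv).2 hv.2
      constructor
      · unfold spn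
        rw [Finset.mem_union, Finset.mem_filter, Finset.mem_filter]
        exact Or.inr ⟨hvL, hv.1⟩
      · unfold spn
        rw [Finset.mem_union, Finset.mem_filter, Finset.mem_filter]
        rintro (⟨h3, _⟩ | ⟨h3, _⟩)
        · rcases (F2R hb hm (hab.trans hx)).1 h3 with h4 | ⟨h4, h5 | ⟨g, h5, _⟩⟩
          · omega
          · have h6 : v ∈ SL (res a b t) := by
              rw [SPK_L hb hab, Finset.mem_filter]
              exact ⟨h5, hv.2⟩
            have h7 := hle.1 v h6
            have h8 := hle.2 v (hLg v hva)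
            exact h2 (by rw [le_antisymm h7 h8])
          · exact CNT_pu _ hnd hpv h5
        · exact ((F1L hb hm hx).1 h3).2 ⟨p, hpv, hp.2⟩

end Pool.Agent.SplNest
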