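import Pool.Agent.SplNest.NFac

set_option autoImplicit false

namespace Pool.Agent.SplNest

open BinaryTree Pool.Agent.MP_c42954_lc.Scan Pool.Agent.SplPat Pool.Agent.SplAll

theorem blk_iff (h i v : ℕ) : (i * 2 ^ h ≤ v ∧ v < (i + 1) * 2 ^ h) ↔ v / 2 ^ h = i := by
  have h0 : 0 < 2 ^ h := by positivity
  rw [Nat.div_eq_iff h0]
  have e : (i + 1) * 2 ^ h = i * 2 ^ h + 2 ^ h := by ring
  rw [e]
  omega

theorem blk_le (h i : ℕ) : i * 2 ^ h ≤ (i + 1) * 2 ^ h := Nat.mul_le_mul_right _ (Nat.le_succ i)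

theorem blk_out {h i x : ℕ} (hx : x / 2 ^ h ≠ i) : x < i * 2 ^ h ∨ (i + 1) * 2 ^ h ≤ x := by
  by_contra h1
  push Not at h1
  exact hx ((blk_iff h i x).1 h1)

theorem div_split {a b : ℕ} (h : a ≤ b) (v : ℕ) : v / 2 ^ b = v / 2 ^ a / 2 ^ (b - a) := by
  rw [Nat.div_div_eq_div_mul, ← pow_add]
  congr 2
  omega

theorem Fac_pow {α γ : ℕ} (h : α ≤ γ) : Fac (fun v => v / 2 ^ α) (fun v => v / 2 ^ γ) where
  mf := fun _ _ h1 => Nat.div_le_div_right h1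
  mF := fun _ _ h1 => Nat.div_le_div_right h1
  fac := fun _ _ h1 => div_pow_up h h1

/-- An ancestor is a key. -/
theorem anc_key {x v : ℕ} {t : BinaryTree ℕ} (hb : IsBST t) (hm : x ∈ inorder t)
    (h : v ∈ ancs x t) : v ∈ inorder t := onP_mem ((mem_ancs hb hm).1 h).1

theorem lastIn_succ_eq {B : ℕ} {X : ℕ → ℕ} {s : ℕ} : lastIn B (X s / B) X (s + 1) = some (X s) := by
  rw [lastIn, if_pos rfl]

theorem lastIn_succ_ne {B k : ℕ} {X : ℕ → ℕ} {s : ℕ} (h : X s / B ≠ k) :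
    lastIn B k X (s + 1) = lastIn B k X s := by
  rw [lastIn, if_neg h]

theorem exl_self {α γ : ℕ} {X : ℕ → ℕ} {s : ℕ} :
    exl α γ X (s + 1) (X s / 2 ^ γ) = {X s / 2 ^ α} := by
  unfold exl
  rw [lastIn_succ_eq]

theorem exl_ne {α γ i : ℕ} {X : ℕ → ℕ} {s : ℕ} (h : X s / 2 ^ γ ≠ i) :
    exl α γ X (s + 1) i = exl α γ X s i := by
  unfold exl
  rw [lastIn_succ_ne h]

theorem exl_card {α γ i : ℕ} {X : ℕ → ℕ} {s : ℕ} : (exl α γ X s i).card ≤ 1 := by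
  unfold exl
  split <;> simp

theorem exl_sdiff {α γ : ℕ} {X : ℕ → ℕ} {s : ℕ} :
    (exl α γ X s (X s / 2 ^ γ) \ {X s / 2 ^ α}).card ≤ sw (2 ^ α) (2 ^ γ) X s := by
  unfold exl sw
  rcases h : lastIn (2 ^ γ) (X s / 2 ^ γ) X s with _ | y
  · simp
  · simp only
    by_cases h1 : y / 2 ^ α = X s / 2 ^ α
    · rw [if_pos h1, h1]
      simp
    · rw [if_neg h1]
      exact (Finset.card_le_card Finset.sdiff_subset).trans (by simp)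

theorem tcF_eq {γ γ' x : ℕ} {t : BinaryTree ℕ} :
    tcF (fun v => v / 2 ^ γ) (x / 2 ^ γ' * 2 ^ γ') ((x / 2 ^ γ' + 1) * 2 ^ γ') x t =
      an γ γ' x t := by
  unfold tcF tc an
  rw [Finset.filter_filter]
  apply Finset.filter_congr
  intro v _
  rw [blk_iff]

theorem qn_eq {α γ γ' x : ℕ} {t : BinaryTree ℕ} :
    qn (fun v => v / 2 ^ α) (fun v => v / 2 ^ γ) (x / 2 ^ γ' * 2 ^ γ') ((x / 2 ^ γ' + 1) * 2 ^ γ')
      x t = Qn α γ γ' x t := by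
  unfold qn Qn
  rw [tcF_eq]

theorem lgn_eq {τ α γ γ' x : ℕ} {t : BinaryTree ℕ} :
    lgn τ (fun v => v / 2 ^ α) (fun v => v / 2 ^ γ) (x / 2 ^ γ' * 2 ^ γ')
      ((x / 2 ^ γ' + 1) * 2 ^ γ') x t = LQ τ α γ γ' x t := by
  unfold lgn LQ
  rw [tcF_eq]

theorem Nn_pos {α β x v : ℕ} {t : BinaryTree ℕ} (hv : v ∈ ancs x t)
    (h1 : v / 2 ^ β = x / 2 ^ β) (h2 : v / 2 ^ α ≠ x / 2 ^ α) : 1 ≤ Nn α β x t := by
  have h3 : v ∈ an α β x t := by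
    unfold an
    rw [Finset.mem_filter, List.mem_toFinset]
    exact ⟨hv, h1, h2⟩
  have h4 : v ≠ x := fun h => h2 (by rw [h])
  unfold Nn
  rcases Nat.lt_or_gt_of_ne h4 with h5 | h5
  · rw [if_pos ⟨v, Finset.mem_filter.2 ⟨h3, h5⟩⟩]
    omega
  · have h6 : ((an α β x t).filter (fun v => x < v)).Nonempty :=
      ⟨v, Finset.mem_filter.2 ⟨h3, h5⟩⟩
    rw [if_pos h6]
    omega

theorem ite_le {lo hi x n : ℕ} {f : ℕ → ℕ} {t : BinaryTree ℕ}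
    (h : ∀ v ∈ tc lo hi x t, f v ≠ f x → 1 ≤ n) :
    (if ∃ v ∈ tc lo hi x t, f v ≠ f x then 1 else 0) ≤ n := by
  split_ifs with h1
  · obtain ⟨v, hv, h2⟩ := h1
    exact h v hv h2
  · exact Nat.zero_le _

theorem ite_le_Nn {α γ β x : ℕ} {t : BinaryTree ℕ} (hγ : γ ≤ β) :
    ∀ v ∈ tc (x / 2 ^ γ * 2 ^ γ) ((x / 2 ^ γ + 1) * 2 ^ γ) x t,
      (fun v => v / 2 ^ α) v ≠ (fun v => v / 2 ^ α) x → 1 ≤ Nn α β x t := by
  intro v hv h1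
  unfold tc at hv
  rw [Finset.mem_filter, List.mem_toFinset, blk_iff] at hv
  exact Nn_pos hv.1 (div_pow_up hγ hv.2) h1

end Pool.Agent.SplNest
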