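import Pool.Agent.MP_c42954_lc.Scan.Tree

set_option autoImplicit false

/-!
# The interleave lower bound for executions

Keys are natural numbers.  The blocks of height `i` are the intervals `[k 2^i, (k+1) 2^i)`.  For
every execution, the number of alternations between the two halves of the blocks of all heights is
at most twice the cost of the execution plus twice the number of keys.
-/

namespace Pool.Agent.SplNest

open BinaryTree Pool.Agent.MP_c42954_lc.Scan

/-! ## The top of an interval -/

/-- The number of edges from the root to the top key in `[a, c)`. -/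
def td (a c : ℕ) : BinaryTree ℕ → ℕ
  | .nil => 0
  | .node v l r => if v < a then td a c r + 1 else if c ≤ v then td a c l + 1 else 0

/-- Is the top key in `[a, c)` at least `b`? (`none` if there is no key in `[a, c)`.) -/
def sd (a b c : ℕ) : BinaryTree ℕ → Option Bool
  | .nil => none
  | .node v l r => if v < a then sd a b c r else if c ≤ v then sd a b c l else some (decide (b ≤ v))

theorem td_le_depth {a c x : ℕ} (h1 : a ≤ x) (h2 : x < c) : ∀ {t : BinaryTree ℕ},
    IsBST t → x ∈ inorder t → td a c t ≤ depth x t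
  | .nil, _, h => by simp [inorder] at h
  | .node v l r, hb, hm => by
      obtain ⟨hl, hr, hla, hra⟩ := bst_node.1 hb
      simp only [inorder, List.mem_append, List.mem_cons] at hm
      simp only [td, depth]
      rcases hm with h | h | h
      · have h3 := hla x h
        have h4 := td_le_depth h1 h2 hl h
        have h5 : x ≠ v := by omega
        have h6 : ¬ v < a := by omega
        simp only [h5, h3, h6, if_true, if_false]
        split_ifs <;> omega
      · subst h
        have h6 : ¬ x < a := by omega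
        have h7 : ¬ c ≤ x := by omega
        simp [h6, h7]
      · have h3 := hra x h
        have h4 := td_le_depth h1 h2 hr h
        have h5 : x ≠ v := by omega
        have h6 : ¬ x < v := by omega
        have h7 : ¬ c ≤ v := by omega
        simp only [h5, h6, h7, if_false]
        split_ifs <;> omega

/-- Passing from a block to the block containing it, the top rises, strictly if the top of the
larger block lies in its other half. -/
theorem td_step {a a' c c' x : ℕ} (ha : a' ≤ a) (hc : c ≤ c') (h1 : a ≤ x) (h2 : x < c) :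
    ∀ {t : BinaryTree ℕ}, IsBST t → x ∈ inorder t → td a' c' t ≤ td a c t
  | .nil, _, h => by simp [inorder] at h
  | .node v l r, hb, hm => by
      obtain ⟨hl, hr, hla, hra⟩ := bst_node.1 hb
      simp only [inorder, List.mem_append, List.mem_cons] at hm
      simp only [td]
      rcases hm with h | h | h
      · have h3 := hla x h
        have h4 := td_step ha hc h1 h2 hl h
        have h6 : ¬ v < a := by omega
        have h7 : ¬ v < a' := by omega
        simp only [h6, h7, if_false]
        split_ifs <;> omega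
      · subst h
        have h6 : ¬ x < a := by omega
        have h7 : ¬ c ≤ x := by omega
        have h8 : ¬ x < a' := by omega
        have h9 : ¬ c' ≤ x := by omega
        simp [h6, h7, h8, h9]
      · have h3 := hra x h
        have h4 := td_step ha hc h1 h2 hr h
        have h7 : ¬ c ≤ v := by omega
        have h8 : ¬ c' ≤ v := by omega
        simp only [h7, h8, if_false]
        split_ifs <;> omega

theorem td_step_right {a b c x : ℕ} (hab : a ≤ b) (h1 : b ≤ x) (h2 : x < c) :
    ∀ {t : BinaryTree ℕ}, IsBST t → x ∈ inorder t → sd a b c t ≠ some true →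
      td a c t + 1 ≤ td b c t
  | .nil, _, h, _ => by simp [inorder] at h
  | .node v l r, hb, hm, hs => by
      obtain ⟨hl, hr, hla, hra⟩ := bst_node.1 hb
      simp only [inorder, List.mem_append, List.mem_cons] at hm
      simp only [td]
      simp only [sd] at hs
      rcases hm with h | h | h
      · have h3 := hla x h
        have h6 : ¬ v < a := by omega
        have h7 : ¬ v < b := by omega
        simp only [h6, h7, if_false] at hs ⊢
        by_cases h8 : c ≤ v
        · simp only [h8, if_true] at hs ⊢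
          have h4 := td_step_right hab h1 h2 hl h hs
          omega
        · simp [h8] at hs
          omega
      · subst h
        have h6 : ¬ x < a := by omega
        have h7 : ¬ c ≤ x := by omega
        simp [h6, h7] at hs
        omega
      · have h3 := hra x h
        have h7 : ¬ c ≤ v := by omega
        simp only [h7, if_false] at hs ⊢
        by_cases h8 : v < a
        · have h9 : v < b := by omega
          simp only [h8, h9, if_true] at hs ⊢
          have h4 := td_step_right hab h1 h2 hr h hs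
          omega
        · simp [h8] at hs
          simp [h8, hs]

theorem td_step_left {a b c x : ℕ} (hbc : b ≤ c) (h1 : a ≤ x) (h2 : x < b) :
    ∀ {t : BinaryTree ℕ}, IsBST t → x ∈ inorder t → sd a b c t ≠ some false →
      td a c t + 1 ≤ td a b t
  | .nil, _, h, _ => by simp [inorder] at h
  | .node v l r, hb, hm, hs => by
      obtain ⟨hl, hr, hla, hra⟩ := bst_node.1 hb
      simp only [inorder, List.mem_append, List.mem_cons] at hm
      simp only [td]
      simp only [sd] at hs
      rcases hm with h | h | h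
      · have h3 := hla x h
        have h6 : ¬ v < a := by omega
        simp only [h6, if_false] at hs ⊢
        by_cases h8 : c ≤ v
        · have h9 : b ≤ v := by omega
          simp only [h8, h9, if_true] at hs ⊢
          have h4 := td_step_left hbc h1 h2 hl h hs
          omega
        · simp [h8] at hs
          simp [h8, hs]
      · subst h
        have h6 : ¬ x < a := by omega
        have h7 : ¬ c ≤ x := by omega
        simp [h6, h7] at hs
        omega
      · have h3 := hra x h
        have h7 : ¬ c ≤ v := by omega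
        have h9 : ¬ b ≤ v := by omega
        simp only [h7, h9, if_false] at hs ⊢
        by_cases h8 : v < a
        · simp only [h8, if_true] at hs ⊢
          have h4 := td_step_left hbc h1 h2 hr h hs
          omega
        · simp [h8] at hs

/-! ## Rotations -/

/-- A rotation exchanges the sides of the top only in the intervals whose halves contain the two
keys of the rotation. -/
theorem rot_sd {t t' : BinaryTree ℕ} (h : Rot t t') (hb : IsBST t) :
    ∃ u v : ℕ, ∀ a b c : ℕ, sd a b c t ≠ sd a b c t' →
      (a ≤ u ∧ u < b ∧ b ≤ v ∧ v < c) ∨ (a ≤ v ∧ v < b ∧ b ≤ u ∧ u < c) := by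
  induction h with
  | atLeftChild p q A B C =>
    refine ⟨p, q, fun a b c h => ?_⟩
    have h1 : q < p := (bst_node.1 hb).2.2.1 q (by simp [inorder])
    simp only [sd] at h
    split_ifs at h <;> first | omega | simp at h
    all_goals
      by_cases h5 : b ≤ p <;> by_cases h6 : b ≤ q <;> simp_all
      try omega
  | atRightChild p q A B C =>
    refine ⟨p, q, fun a b c h => ?_⟩
    have h1 : p < q := (bst_node.1 hb).2.2.2 q (by simp [inorder])
    simp only [sd] at h
    split_ifs at h <;> first | omega | simp at h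
    all_goals
      by_cases h5 : b ≤ p <;> by_cases h6 : b ≤ q <;> simp_all
      try omega
  | inLeft c r h ih =>
    obtain ⟨u, v, h1⟩ := ih (bst_node.1 hb).1
    refine ⟨u, v, fun a b c h => h1 a b c ?_⟩
    intro h2
    apply h
    simp only [sd, h2]
  | inRight c l h ih =>
    obtain ⟨u, v, h1⟩ := ih (bst_node.1 hb).2.1
    refine ⟨u, v, fun a b c h => h1 a b c ?_⟩
    intro h2
    apply h
    simp only [sd, h2]

theorem rot_inorder {t t' : BinaryTree ℕ} (h : Rot t t') : inorder t' = inorder t := by
  induction h with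
  | atLeftChild p q A B C => simp [inorder]
  | atRightChild p q A B C => simp [inorder]
  | inLeft c r h ih => simp [inorder, ih]
  | inRight c l h ih => simp [inorder, ih]

theorem rot_bst {t t' : BinaryTree ℕ} (h : Rot t t') (hb : IsBST t) : IsBST t' := by
  rw [IsBST, rot_inorder h]
  exact hb

theorem rotSeq_inorder {e : ℕ} {t t' : BinaryTree ℕ} (h : RotSeq e t t') :
    inorder t' = inorder t := by
  induction h with
  | refl t => rfl
  | step h1 h2 ih => rw [ih, rot_inorder h1]

/-! ## Alternations and the potential -/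

/-- The alternation at height `i` for the request `x` after the requests `hist` (latest first):
`1` if the last request in the block of `x` of height `i + 1` lies in the other half. -/
def al (i : ℕ) (hist : List ℕ) (x : ℕ) : ℕ :=
  match hist.find? (fun y => decide (y / 2 ^ (i + 1) = x / 2 ^ (i + 1))) with
  | none => 0
  | some y => if y / 2 ^ i = x / 2 ^ i then 0 else 1

/-- `sd` for the block number `k` of height `i + 1`. -/
def sb (i k : ℕ) (t : BinaryTree ℕ) : Option Bool :=
  sd (2 ^ (i + 1) * k) (2 ^ (i + 1) * k + 2 ^ i) (2 ^ (i + 1) * k + 2 ^ (i + 1)) t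

/-- The potential of the block number `k` of height `i + 1`. -/
def ph (i k : ℕ) (hist : List ℕ) (t : BinaryTree ℕ) : ℕ :=
  match hist.find? (fun y => decide (y / 2 ^ (i + 1) = k)) with
  | none => 1
  | some y => if sb i k t = some (decide (2 ^ (i + 1) * k + 2 ^ i ≤ y)) then 0 else 1

/-- The blocks considered. -/
def J (n H : ℕ) : Finset (Sigma fun _ : ℕ => ℕ) :=
  (Finset.range H).sigma fun i => Finset.range (n / 2 ^ (i + 1) + 1)

/-- The total potential. -/
def Ph (n H : ℕ) (hist : List ℕ) (t : BinaryTree ℕ) : ℕ := ∑ p ∈ J n H, ph p.1 p.2 hist t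

/-- The total number of alternations of heights `< H`. -/
def altL (H : ℕ) : List ℕ → List ℕ → ℕ
  | _, [] => 0
  | h, x :: X => ∑ i ∈ Finset.range H, al i h x + altL H (x :: h) X

theorem blk (i x : ℕ) : 2 ^ (i + 1) * (x / 2 ^ (i + 1)) ≤ x ∧
    x < 2 ^ (i + 1) * (x / 2 ^ (i + 1)) + 2 ^ (i + 1) := by
  have h1 := Nat.div_add_mod x (2 ^ (i + 1))
  have h2 := Nat.mod_lt x (show 0 < 2 ^ (i + 1) by positivity)
  omega

theorem blk_right {i x k : ℕ} (h1 : 2 ^ (i + 1) * k + 2 ^ i ≤ x)
    (h2 : x < 2 ^ (i + 1) * k + 2 ^ (i + 1)) : x / 2 ^ i = 2 * k + 1 := by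
  have h3 : 2 ^ (i + 1) = 2 * 2 ^ i := by ring
  rw [h3] at h1 h2
  apply Nat.div_eq_of_lt_le
  · nlinarith
  · nlinarith

theorem blk_left {i x k : ℕ} (h1 : 2 ^ (i + 1) * k ≤ x)
    (h2 : x < 2 ^ (i + 1) * k + 2 ^ i) : x / 2 ^ i = 2 * k := by
  have h3 : 2 ^ (i + 1) = 2 * 2 ^ i := by ring
  rw [h3] at h1 h2
  apply Nat.div_eq_of_lt_le
  · nlinarith
  · nlinarith

/-- One if the top of the block of height `i + 1` lies in the other half than `x`. -/
def ot (i x : ℕ) (t : BinaryTree ℕ) : ℕ :=
  if sb i (x / 2 ^ (i + 1)) t = some (decide (2 ^ (i + 1) * (x / 2 ^ (i + 1)) + 2 ^ i ≤ x))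
  then 0 else 1

/-- The depth of the top of the block of `x` of height `i`. -/
def dp (i x : ℕ) (t : BinaryTree ℕ) : ℕ := td (2 ^ i * (x / 2 ^ i)) (2 ^ i * (x / 2 ^ i) + 2 ^ i) t

theorem ot_step {i x : ℕ} {t : BinaryTree ℕ} (hb : IsBST t) (hm : x ∈ inorder t) :
    dp (i + 1) x t + ot i x t ≤ dp i x t := by
  obtain ⟨h1, h2⟩ := blk i x
  set k := x / 2 ^ (i + 1) with hk
  have h3 : 2 ^ (i + 1) = 2 * 2 ^ i := by ring
  have h4 : 0 < 2 ^ i := by positivity
  unfold dp ot sb
  rw [← hk]
  by_cases h5 : 2 ^ (i + 1) * k + 2 ^ i ≤ x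
  · have h6 := blk_right h5 h2
    have h7 : 2 ^ i * (x / 2 ^ i) = 2 ^ (i + 1) * k + 2 ^ i := by rw [h6, h3]; ring
    have h8 : 2 ^ i * (x / 2 ^ i) + 2 ^ i = 2 ^ (i + 1) * k + 2 ^ (i + 1) := by rw [h6, h3]; ring
    rw [h8, h7]
    simp only [h5, decide_true]
    split_ifs with h9
    · have := td_step (a' := 2 ^ (i + 1) * k) (c' := 2 ^ (i + 1) * k + 2 ^ (i + 1))
        (show 2 ^ (i + 1) * k ≤ 2 ^ (i + 1) * k + 2 ^ i by omega) le_rfl h5 h2 hb hm
      omega
    · exact td_step_right (by omega) h5 h2 hb hm h9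
  · push Not at h5
    have h6 := blk_left h1 h5
    have h7 : 2 ^ i * (x / 2 ^ i) = 2 ^ (i + 1) * k := by rw [h6, h3]; ring
    rw [h7]
    have h10 : ¬ 2 ^ (i + 1) * k + 2 ^ i ≤ x := by omega
    simp only [h10, decide_false]
    split_ifs with h9
    · have := td_step (a := 2 ^ (i + 1) * k) (c' := 2 ^ (i + 1) * k + 2 ^ (i + 1)) le_rfl
        (show 2 ^ (i + 1) * k + 2 ^ i ≤ 2 ^ (i + 1) * k + 2 ^ (i + 1) by omega) h1 h5 hb hm
      omega
    · exact td_step_left (by omega) h1 h5 hb hm h9

theorem ot_sum {H x : ℕ} {t : BinaryTree ℕ} (hb : IsBST t) (hm : x ∈ inorder t) :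
    ∑ i ∈ Finset.range H, ot i x t ≤ depth x t := by
  have h1 : ∀ H, dp H x t + ∑ i ∈ Finset.range H, ot i x t ≤ dp 0 x t := by
    intro H
    induction H with
    | zero => simp
    | succ H ih =>
      rw [Finset.sum_range_succ]
      have := ot_step (i := H) hb hm
      omega
  have h2 : dp 0 x t ≤ depth x t := by
    unfold dp
    exact td_le_depth (by simp) (by simp) hb hm
  have := h1 H
  omega

theorem ph_cons_ne {i k x : ℕ} {hist : List ℕ} {t : BinaryTree ℕ} (h : x / 2 ^ (i + 1) ≠ k) :
    ph i k (x :: hist) t = ph i k hist t := by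
  unfold ph
  rw [List.find?_cons_of_neg (by simpa using h)]

theorem ph_cons_eq {i x : ℕ} {hist : List ℕ} {t : BinaryTree ℕ} :
    al i hist x + ph i (x / 2 ^ (i + 1)) (x :: hist) t ≤
      ph i (x / 2 ^ (i + 1)) hist t + 2 * ot i x t := by
  obtain ⟨h1, h2⟩ := blk i x
  unfold ph al ot
  rw [List.find?_cons_of_pos (by simp)]
  set k := x / 2 ^ (i + 1) with hk
  have h3 : 2 ^ (i + 1) = 2 * 2 ^ i := by ring
  rcases hf : hist.find? (fun y => decide (y / 2 ^ (i + 1) = k)) with _ | y
  · simp only
    split_ifs <;> omega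
  · simp only
    by_cases h5 : sb i k t = some (decide (2 ^ (i + 1) * k + 2 ^ i ≤ x))
    · rw [if_pos h5]
      by_cases h6 : y / 2 ^ i = x / 2 ^ i
      · simp [h6]
      · have hy : y / 2 ^ (i + 1) = k := by
          have := List.find?_some hf
          simpa using this
        have h7 := blk i y
        rw [hy] at h7
        have h8 : sb i k t ≠ some (decide (2 ^ (i + 1) * k + 2 ^ i ≤ y)) := by
          rw [h5]
          intro h9
          apply h6
          have h10 : (2 ^ (i + 1) * k + 2 ^ i ≤ x) ↔ (2 ^ (i + 1) * k + 2 ^ i ≤ y) := by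
            simpa using h9
          by_cases h11 : 2 ^ (i + 1) * k + 2 ^ i ≤ x
          · rw [blk_right h11 h2, blk_right (h10.1 h11) h7.2]
          · have h12 : ¬ 2 ^ (i + 1) * k + 2 ^ i ≤ y := fun h => h11 (h10.2 h)
            rw [blk_left h1 (by omega), blk_left h7.1 (by omega)]
        rw [if_neg h8]
        simp [h6]
    · rw [if_neg h5]
      split_ifs <;> omega

theorem ph_access {n H x : ℕ} {hist : List ℕ} {t : BinaryTree ℕ} (hx : x < n) (hb : IsBST t)
    (hm : x ∈ inorder t) :
    ∑ i ∈ Finset.range H, al i hist x + Ph n H (x :: hist) t ≤ Ph n H hist t + 2 * depth x t := by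
  have h1 := ot_sum (H := H) hb hm
  have h2 : ∑ i ∈ Finset.range H, al i hist x + Ph n H (x :: hist) t ≤
      Ph n H hist t + ∑ i ∈ Finset.range H, 2 * ot i x t := by
    unfold Ph J
    rw [Finset.sum_sigma, Finset.sum_sigma, ← Finset.sum_add_distrib, ← Finset.sum_add_distrib]
    apply Finset.sum_le_sum
    intro i _
    have h3 : x / 2 ^ (i + 1) ∈ Finset.range (n / 2 ^ (i + 1) + 1) := by
      rw [Finset.mem_range]
      have := Nat.div_le_div_right (c := 2 ^ (i + 1)) hx.le
      omega
    rw [← Finset.add_sum_erase _ _ h3, ← Finset.add_sum_erase (a := x / 2 ^ (i + 1)) _ _ h3]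
    have h4 : ∑ k ∈ (Finset.range (n / 2 ^ (i + 1) + 1)).erase (x / 2 ^ (i + 1)),
        ph i k (x :: hist) t =
        ∑ k ∈ (Finset.range (n / 2 ^ (i + 1) + 1)).erase (x / 2 ^ (i + 1)), ph i k hist t := by
      apply Finset.sum_congr rfl
      intro k hk
      exact ph_cons_ne (fun h => (Finset.mem_erase.1 hk).1 h.symm)
    have h5 := ph_cons_eq (i := i) (x := x) (hist := hist) (t := t)
    simp only
    omega
  rw [← Finset.mul_sum] at h2
  omega

theorem ph_rot {n H : ℕ} {hist : List ℕ} {t t' : BinaryTree ℕ} (h : Rot t t') (hb : IsBST t) :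
    Ph n H hist t' ≤ Ph n H hist t + 1 := by
  obtain ⟨u, v, huv⟩ := rot_sd h hb
  classical
  set S := (J n H).filter (fun p => sb p.1 p.2 t ≠ sb p.1 p.2 t') with hS
  have h1 : S.card ≤ 1 := by
    rw [Finset.card_le_one]
    have key : ∀ p ∈ S, u / 2 ^ (p.1 + 1) = p.2 ∧ v / 2 ^ (p.1 + 1) = p.2 ∧
        u / 2 ^ p.1 ≠ v / 2 ^ p.1 := by
      rintro ⟨i, k⟩ hp
      have h2 := huv _ _ _ (Finset.mem_filter.1 hp).2
      simp only at h2 ⊢
      have h3 : 2 ^ (i + 1) = 2 * 2 ^ i := by ring
      have h4 : 0 < 2 ^ i := by positivity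
      rcases h2 with ⟨h5, h6, h7, h8⟩ | ⟨h5, h6, h7, h8⟩
      · have e1 := blk_left h5 h6
        have e2 := blk_right h7 h8
        refine ⟨?_, ?_, by omega⟩
        · rw [pow_succ, ← Nat.div_div_eq_div_mul, e1]; omega
        · rw [pow_succ, ← Nat.div_div_eq_div_mul, e2]; omega
      · have e1 := blk_left h5 h6
        have e2 := blk_right h7 h8
        refine ⟨?_, ?_, by omega⟩
        · rw [pow_succ, ← Nat.div_div_eq_div_mul, e2]; omega
        · rw [pow_succ, ← Nat.div_div_eq_div_mul, e1]; omega
    have mono : ∀ i j : ℕ, i ≤ j → u / 2 ^ i = v / 2 ^ i → u / 2 ^ j = v / 2 ^ j := by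
      intro i j hij h2
      obtain ⟨d, rfl⟩ := Nat.exists_eq_add_of_le hij
      rw [pow_add, ← Nat.div_div_eq_div_mul, ← Nat.div_div_eq_div_mul, h2]
    intro p hp q hq
    obtain ⟨a1, a2, a3⟩ := key p hp
    obtain ⟨b1, b2, b3⟩ := key q hq
    have h2 : p.1 = q.1 := by
      rcases Nat.lt_trichotomy p.1 q.1 with h3 | h3 | h3
      · exact absurd (mono _ _ h3 (a1.trans a2.symm)) b3
      · exact h3
      · exact absurd (mono _ _ h3 (b1.trans b2.symm)) a3
    have h3 : p.2 = q.2 := by rw [← a1, ← b1, h2]
    cases p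
    cases q
    simp only at h2 h3
    subst h2 h3
    rfl
  have h2 : Ph n H hist t' ≤ Ph n H hist t + ∑ p ∈ J n H,
      (if sb p.1 p.2 t ≠ sb p.1 p.2 t' then 1 else 0) := by
    unfold Ph
    rw [← Finset.sum_add_distrib]
    apply Finset.sum_le_sum
    intro p _
    by_cases h3 : sb p.1 p.2 t = sb p.1 p.2 t'
    · simp only [ph, h3]
      omega
    · rw [if_pos h3]
      unfold ph
      split
      · omega
      · split_ifs <;> omega
  rw [← Finset.card_filter, ← hS] at h2
  omega

theorem ph_rotSeq {n H e : ℕ} {hist : List ℕ} {t t' : BinaryTree ℕ} (h : RotSeq e t t')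
    (hb : IsBST t) : Ph n H hist t' ≤ Ph n H hist t + e := by
  induction h with
  | refl t => omega
  | step h1 h2 ih =>
    have h3 := ih (rot_bst h1 hb)
    have h4 := ph_rot (n := n) (H := H) (hist := hist) h1 hb
    omega

theorem altL_exec {n H : ℕ} {T : BinaryTree ℕ} {X : List ℕ} {c : ℕ} (h : Exec T X c) :
    ∀ hist : List ℕ, IsBST T → (∀ x ∈ X, x ∈ inorder T) → (∀ v ∈ inorder T, v < n) →
      altL H hist X ≤ 2 * c + Ph n H hist T := by
  induction h with
  | nil T => intros; simp [altL]
  | @cons T T' x X e c h1 h2 ih =>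
    intro hist hb hX hn
    have hx : x ∈ inorder T := hX x (by simp)
    have h3 := ph_access (H := H) (hist := hist) (hn x hx) hb hx
    have h4 := ph_rotSeq (n := n) (H := H) (hist := x :: hist) h1 hb
    have h5 := rotSeq_inorder h1
    have h6 := ih (x :: hist) (by rw [IsBST, h5]; exact hb) (fun y hy => by
      rw [h5]; exact hX y (by simp [hy])) (by rw [h5]; exact hn)
    simp only [altL]
    omega

theorem Ph_nil {n H : ℕ} {T : BinaryTree ℕ} : Ph n H [] T ≤ n + H := by
  unfold Ph
  have h1 : ∑ p ∈ J n H, ph p.1 p.2 [] T = (J n H).card := by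
    rw [Finset.card_eq_sum_ones]
    exact Finset.sum_congr rfl fun p _ => rfl
  rw [h1, J, Finset.card_sigma]
  simp only [Finset.card_range]
  rw [Finset.sum_add_distrib]
  have h2 : ∀ H, n / 2 ^ H + ∑ i ∈ Finset.range H, n / 2 ^ (i + 1) ≤ n := by
    intro H
    induction H with
    | zero => simp
    | succ H ih =>
      rw [Finset.sum_range_succ]
      have h3 : n / 2 ^ (H + 1) = n / 2 ^ H / 2 := by
        rw [pow_succ, ← Nat.div_div_eq_div_mul]
      omega
  have h3 : ∑ i ∈ Finset.range H, n / 2 ^ (i + 1) ≤ n := (Nat.le_add_left _ _).trans (h2 H)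
  have h4 : ∑ i ∈ Finset.range H, 1 = H := by simp
  rw [h4]
  exact Nat.add_le_add_right h3 H

/-! ## The number of alternations in terms of sequences -/

/-- The last request before the time `t` in the block number `k` of length `B`. -/
def lastIn (B k : ℕ) (X : ℕ → ℕ) : ℕ → Option ℕ
  | 0 => none
  | t + 1 => if X t / B = k then some (X t) else lastIn B k X t

/-- `1` if the request `X t` is a switch at the level `b < B`: the last request before the time
`t` in the `B`-block of `X t` exists and lies in another `b`-block. -/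
def sw (b B : ℕ) (X : ℕ → ℕ) (t : ℕ) : ℕ :=
  match lastIn B (X t / B) X t with
  | none => 0
  | some y => if y / b = X t / b then 0 else 1

theorem lastIn_iff {B k : ℕ} {X : ℕ → ℕ} {y : ℕ} : ∀ {t : ℕ}, lastIn B k X t = some y ↔
    ∃ s < t, X s = y ∧ X s / B = k ∧ ∀ r, s < r → r < t → X r / B ≠ k
  | 0 => by simp [lastIn]
  | t + 1 => by
      rw [lastIn]
      split_ifs with h
      · constructor
        · intro h1
          refine ⟨t, by omega, by simpa using h1, h, fun r h2 h3 => by omega⟩
        · rintro ⟨s, h1, h2, h3, h4⟩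
          rcases Nat.lt_or_ge s t with h5 | h5
          · exact absurd h (h4 t h5 (by omega))
          · have : s = t := by omega
            rw [← this, h2]
      · rw [lastIn_iff]
        constructor
        · rintro ⟨s, h1, h2, h3, h4⟩
          refine ⟨s, by omega, h2, h3, fun r h5 h6 => ?_⟩
          rcases Nat.lt_or_ge r t with h7 | h7
          · exact h4 r h5 h7
          · have : r = t := by omega
            rw [this]
            exact h
        · rintro ⟨s, h1, h2, h3, h4⟩
          have h5 : s ≠ t := by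
            rintro rfl
            exact h h3
          exact ⟨s, by omega, h2, h3, fun r h6 h7 => h4 r h6 (by omega)⟩

/-- The requests before the time `t`, latest first. -/
def hs (X : ℕ → ℕ) : ℕ → List ℕ
  | 0 => []
  | t + 1 => X t :: hs X t

theorem hs_find (B k : ℕ) (X : ℕ → ℕ) : ∀ t,
    (hs X t).find? (fun y => decide (y / B = k)) = lastIn B k X t
  | 0 => rfl
  | t + 1 => by
      rw [hs, lastIn]
      split_ifs with h
      · rw [List.find?_cons_of_pos (by simpa using h)]
      · rw [List.find?_cons_of_neg (by simpa using h), hs_find B k X t]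

theorem al_eq (i : ℕ) (X : ℕ → ℕ) (t : ℕ) : al i (hs X t) (X t) = sw (2 ^ i) (2 ^ (i + 1)) X t := by
  unfold al sw
  rw [hs_find]

theorem altL_eq (H : ℕ) (X : ℕ → ℕ) : ∀ (L : List ℕ) (t : ℕ),
    (∀ i < L.length, L.getD i 0 = X (t + i)) →
    altL H (hs X t) L = ∑ j ∈ Finset.range L.length, ∑ i ∈ Finset.range H,
      sw (2 ^ i) (2 ^ (i + 1)) X (t + j)
  | [], t, _ => by simp [altL]
  | x :: L, t, h => by
      have h0 : x = X t := by
        have := h 0 (by simp)
        simpa using this
      have h1 := altL_eq H X L (t + 1) (fun i hi => by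
        have := h (i + 1) (by simp; omega)
        rw [List.getD_cons_succ] at this
        rw [this]
        congr 1
        omega)
      rw [altL, List.length_cons, Finset.sum_range_succ', h0]
      have h2 : X t :: hs X t = hs X (t + 1) := rfl
      rw [h2, h1, add_comm]
      congr 1
      · apply Finset.sum_congr rfl
        intro j _
        apply Finset.sum_congr rfl
        intro i _
        congr 1
        omega
      · apply Finset.sum_congr rfl
        intro i _
        rw [al_eq]
        rfl

theorem sw_zero {b B : ℕ} {X : ℕ → ℕ} {t m : ℕ} (ht : t < m) (hX : ∀ s < m, X s < b) :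
    sw b B X t = 0 := by
  unfold sw
  rcases h : lastIn B (X t / B) X t with _ | y
  · rfl
  · obtain ⟨s, h1, h2, -, -⟩ := lastIn_iff.1 h
    have h3 : y < b := by rw [← h2]; exact hX s (by omega)
    have h4 : X t < b := hX t ht
    simp [Nat.div_eq_of_lt h3, Nat.div_eq_of_lt h4]

/-- **The interleave lower bound.** -/
theorem ilb {n H : ℕ} {T : BinaryTree ℕ} {X : List ℕ} {c : ℕ} (h : Exec T X c) (hb : IsBST T)
    (hX : ∀ x ∈ X, x ∈ inorder T) (hn : ∀ v ∈ inorder T, v < n) :
    ∑ t ∈ Finset.range X.length, ∑ i ∈ Finset.range H,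
      sw (2 ^ i) (2 ^ (i + 1)) (fun i => X.getD i 0) t ≤ 2 * c + 2 * n := by
  set Y := fun i => X.getD i 0 with hY
  have hYn : ∀ s < X.length, Y s < n := by
    intro s hs
    rw [hY]
    simp only
    rw [List.getD_eq_getElem X 0 hs]
    exact hn _ (hX _ (List.getElem_mem hs))
  rcases Nat.eq_zero_or_pos n with h0 | h0
  · have : X.length = 0 := by
      by_contra h1
      have := hYn 0 (by omega)
      omega
    simp [this]
  set H0 := Nat.log 2 n + 1 with hH0
  have h1 : ∀ t ∈ Finset.range X.length, ∑ i ∈ Finset.range H, sw (2 ^ i) (2 ^ (i + 1)) Y t ≤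
      ∑ i ∈ Finset.range H0, sw (2 ^ i) (2 ^ (i + 1)) Y t := by
    intro t ht
    rw [Finset.mem_range] at ht
    have h2 : ∀ i, H0 ≤ i → sw (2 ^ i) (2 ^ (i + 1)) Y t = 0 := by
      intro i hi
      apply sw_zero ht
      intro s hs
      have h3 : n < 2 ^ H0 := Nat.lt_pow_succ_log_self (by norm_num) n
      have h4 : 2 ^ H0 ≤ 2 ^ i := Nat.pow_le_pow_right (by norm_num) hi
      have := hYn s hs
      omega
    rcases Nat.le_total H H0 with h3 | h3
    · exact Finset.sum_le_sum_of_subset (fun i hi => by
        rw [Finset.mem_range] at hi ⊢; omega)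
    · apply le_of_eq
      symm
      apply Finset.sum_subset
      · intro i hi
        rw [Finset.mem_range] at hi ⊢
        omega
      · intro i _ hi
        rw [Finset.mem_range, not_lt] at hi
        exact h2 i hi
  refine (Finset.sum_le_sum h1).trans ?_
  have h2 := altL_eq H0 Y X 0 (fun i hi => by rw [hY]; simp)
  simp only [Nat.zero_add] at h2
  rw [← h2]
  have h3 := altL_exec (n := n) (H := H0) h [] hb hX hn
  have h4 := Ph_nil (n := n) (H := H0) (T := T)
  have h5 : hs Y 0 = [] := rfl
  rw [h5]
  have h6 : H0 ≤ n := by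
    have h7 := Nat.pow_log_le_self 2 (show n ≠ 0 by omega)
    have h8 : Nat.log 2 n < 2 ^ Nat.log 2 n := Nat.lt_two_pow_self
    omega
  omega

/-! ## Coarser levels -/

theorem lastIn_refine {b B : ℕ} {X : ℕ → ℕ} {k y : ℕ} (hbB : b ∣ B)
    {t : ℕ} (h : lastIn B k X t = some y) : lastIn b (y / b) X t = some y := by
  obtain ⟨s, h1, h2, h3, h4⟩ := lastIn_iff.1 h
  refine lastIn_iff.2 ⟨s, h1, h2, by rw [h2], fun r h5 h6 h7 => h4 r h5 h6 ?_⟩
  obtain ⟨d, rfl⟩ := hbB
  rw [← Nat.div_div_eq_div_mul] at h3 ⊢
  rw [h7, ← h2]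
  exact h3

theorem sw_le_sum {k k' : ℕ} (hk : k ≤ k') (X : ℕ → ℕ) (t : ℕ) :
    sw (2 ^ k) (2 ^ k') X t ≤ ∑ i ∈ Finset.Ico k k', sw (2 ^ i) (2 ^ (i + 1)) X t := by
  rcases h : lastIn (2 ^ k') (X t / 2 ^ k') X t with _ | y
  · simp [sw, h]
  · by_cases h1 : y / 2 ^ k = X t / 2 ^ k
    · simp [sw, h, h1]
    · have h2 : y / 2 ^ k' = X t / 2 ^ k' := by
        obtain ⟨s, -, h3, h4, -⟩ := lastIn_iff.1 h
        rw [← h3]
        exact h4
      -- the least height with equal blocks
      classical
      have hex : ∃ j, y / 2 ^ j = X t / 2 ^ j := ⟨k', h2⟩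
      set j := Nat.find hex with hj
      have h3 : y / 2 ^ j = X t / 2 ^ j := Nat.find_spec hex
      have h4 : j ≤ k' := Nat.find_min' hex h2
      have mono : ∀ i j : ℕ, i ≤ j → y / 2 ^ i = X t / 2 ^ i → y / 2 ^ j = X t / 2 ^ j := by
        intro i j hij h2
        obtain ⟨d, rfl⟩ := Nat.exists_eq_add_of_le hij
        rw [pow_add, ← Nat.div_div_eq_div_mul, ← Nat.div_div_eq_div_mul, h2]
      have h5 : k < j := by
        by_contra h6
        exact h1 (mono j k (by omega) h3)
      obtain ⟨i, hi⟩ : ∃ i, j = i + 1 := ⟨j - 1, by omega⟩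
      rw [hi] at h3 h4 h5
      have h6 : y / 2 ^ i ≠ X t / 2 ^ i := by
        intro h7
        have := Nat.find_min' hex h7
        rw [← hj, hi] at this
        omega
      have h7 : lastIn (2 ^ (i + 1)) (X t / 2 ^ (i + 1)) X t = some y := by
        rw [← h3]
        exact lastIn_refine (pow_dvd_pow 2 h4) h
      have h8 : sw (2 ^ i) (2 ^ (i + 1)) X t = 1 := by simp [sw, h7, h6]
      have h9 : sw (2 ^ k) (2 ^ k') X t = 1 := by simp [sw, h, h1]
      rw [h9]
      refine h8.symm.le.trans ?_
      have h10 : i ∈ Finset.Ico k k' := Finset.mem_Ico.2 ⟨by omega, by omega⟩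
      exact Finset.single_le_sum (f := fun i => sw (2 ^ i) (2 ^ (i + 1)) X t)
        (fun i _ => Nat.zero_le _) h10

/-- The number of switches of all levels `2 ^ k 0 ≤ 2 ^ k 1 ≤ ...` at one time is at most the
number of alternations. -/
theorem sw_levels {k : ℕ → ℕ} (hk : ∀ j, k j ≤ k (j + 1)) (X : ℕ → ℕ) (t : ℕ) : ∀ l : ℕ,
    ∑ j ∈ Finset.range l, sw (2 ^ k j) (2 ^ k (j + 1)) X t ≤
      ∑ i ∈ Finset.range (k l), sw (2 ^ i) (2 ^ (i + 1)) X t
  | 0 => by simp
  | l + 1 => by
      rw [Finset.sum_range_succ, ← Finset.sum_range_add_sum_Ico _ (hk l)]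
      exact Nat.add_le_add (sw_levels hk X t l) (sw_le_sum (hk l) X t)

end Pool.Agent.SplNest
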