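import Pool.Agent.SplAll.Defs
import Pool.Agent.SplNest.Ilb

set_option autoImplicit false

/-!
# Splaying is `2 ^ O(√(log log n))`-competitive: definitions

Keys are natural numbers.  `f` and `F` are monotone colourings of the keys: the fibres of `f` are the
*cells*, those of `F` the *coarse cells*; `F` factors through `f` (`Fac`).
-/

namespace Pool.Agent.SplNest

open BinaryTree Pool.Agent.MP_c42954_lc.Scan Pool.Agent.SplPat Pool.Agent.SplAll

/-- `f` and `F` are monotone and `F` factors through `f`. -/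
structure Fac (f F : ℕ → ℕ) : Prop where
  mf : ∀ v w, v ≤ w → f v ≤ f w
  mF : ∀ v w, v ≤ w → F v ≤ F w
  fac : ∀ v w, f v = f w → F v = F w

/-- The pair of the cells of two keys, if these lie in different coarse cells. -/
def pr (f F : ℕ → ℕ) (a b : ℕ) : Finset (ℕ × ℕ) :=
  if F a = F b then ∅ else {(min (f a) (f b), max (f a) (f b))}

/-- The pair of the cells of `a` and of the root. -/
def prT (f F : ℕ → ℕ) (a : ℕ) : BinaryTree ℕ → Finset (ℕ × ℕ)
  | .nil => ∅
  | .node c _ _ => pr f F a c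

/-- The pairs of cells joined by an edge of the tree. -/
def E0 (f F : ℕ → ℕ) : BinaryTree ℕ → Finset (ℕ × ℕ)
  | .nil => ∅
  | .node a l r => prT f F a l ∪ prT f F a r ∪ E0 f F l ∪ E0 f F r

/-- `b` is a key, `l` its left subtree.  For every node `c` of the left spine of `node b l _` with
left child `a` and right child `s` of `a`: the pair `(c, s)`. -/
def XH (f F : ℕ → ℕ) : ℕ → BinaryTree ℕ → Finset (ℕ × ℕ)
  | _, .nil => ∅
  | b, .node a l s => prT f F b s ∪ XH f F a l

/-- The mirror image of `XH`: `r` is the right subtree of `b`. -/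
def XG (f F : ℕ → ℕ) : ℕ → BinaryTree ℕ → Finset (ℕ × ℕ)
  | _, .nil => ∅
  | b, .node a s r => prT f F b s ∪ XG f F a r

/-- The additional pairs of the left spine. -/
def XL (f F : ℕ → ℕ) : BinaryTree ℕ → Finset (ℕ × ℕ)
  | .nil => ∅
  | .node b l _ => XH f F b l

/-- The additional pairs of the right spine. -/
def XR (f F : ℕ → ℕ) : BinaryTree ℕ → Finset (ℕ × ℕ)
  | .nil => ∅
  | .node b _ r => XG f F b r

/-- All pairs. -/
def EE (f F : ℕ → ℕ) (t : BinaryTree ℕ) : Finset (ℕ × ℕ) := E0 f F t ∪ XL f F t ∪ XR f F t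

/-- The pairs of the left subtree `l` of `b`, when `b` is a node of the left spine. -/
def EL (f F : ℕ → ℕ) (b : ℕ) (l : BinaryTree ℕ) : Finset (ℕ × ℕ) :=
  prT f F b l ∪ XH f F b l ∪ E0 f F l

/-- The pairs of the right subtree `r` of `b`, when `b` is a node of the right spine. -/
def ER (f F : ℕ → ℕ) (b : ℕ) (r : BinaryTree ℕ) : Finset (ℕ × ℕ) :=
  prT f F b r ∪ XG f F b r ∪ E0 f F r

/-- The left spine. -/
def SL : BinaryTree ℕ → Finset ℕ
  | .nil => ∅
  | .node a l _ => insert a (SL l)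

/-- The right spine. -/
def SR : BinaryTree ℕ → Finset ℕ
  | .nil => ∅
  | .node a _ r => insert a (SR r)

/-- The cells of the two spines. -/
def SC (f : ℕ → ℕ) (t : BinaryTree ℕ) : Finset ℕ := (SL t ∪ SR t).image f

/-- Rotations of the left spine. -/
inductive LS : BinaryTree ℕ → BinaryTree ℕ → Prop
  | refl (A : BinaryTree ℕ) : LS A A
  | left {a : ℕ} {A A' C : BinaryTree ℕ} : LS A A' → LS (.node a A C) (.node a A' C)
  | rot {g p : ℕ} {A A' C D : BinaryTree ℕ} : LS A A' →
      LS (.node g (.node p A C) D) (.node p A' (.node g C D))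

/-- Rotations of the right spine. -/
inductive RS : BinaryTree ℕ → BinaryTree ℕ → Prop
  | refl (A : BinaryTree ℕ) : RS A A
  | right {a : ℕ} {A A' C : BinaryTree ℕ} : RS A A' → RS (.node a C A) (.node a C A')
  | rot {g p : ℕ} {A A' C D : BinaryTree ℕ} : RS A A' →
      RS (.node g D (.node p C A)) (.node p (.node g D C) A')

/-- Generalised splaying: single rotations and zig-zig steps from the bottom, in any order. -/
inductive GS (x : ℕ) : BinaryTree ℕ → BinaryTree ℕ → BinaryTree ℕ → Prop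
  | base (A B : BinaryTree ℕ) : GS x (.node x A B) A B
  | zl {g : ℕ} {L D A B : BinaryTree ℕ} : x < g → GS x L A B → GS x (.node g L D) A (.node g B D)
  | zr {g : ℕ} {R D A B : BinaryTree ℕ} : g < x → GS x R A B → GS x (.node g D R) (.node g D A) B
  | ll {p g : ℕ} {L C D A B : BinaryTree ℕ} : x < p → p < g → GS x L A B →
      GS x (.node g (.node p L C) D) A (.node p B (.node g C D))
  | rr {p g : ℕ} {R C D A B : BinaryTree ℕ} : p < x → g < p → GS x R A B →
      GS x (.node g D (.node p C R)) (.node p (.node g D C) A) B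

/-- The sum over the cells, not in `Ex`, of the number of spine nodes of `[a, b)` in the cell, capped
at `τ`. -/
def Th (τ : ℕ) (f : ℕ → ℕ) (Ex : Finset ℕ) (a b : ℕ) (t : BinaryTree ℕ) : ℕ :=
  ∑ A ∈ (spn a b t).image f \ Ex, min ((spn a b t).filter (fun v => f v = A)).card τ

/-- The touched nodes: the ancestors of `x` in `[lo, hi)`. -/
def tc (lo hi x : ℕ) (t : BinaryTree ℕ) : Finset ℕ :=
  (ancs x t).toFinset.filter (fun v => lo ≤ v ∧ v < hi)

/-- The touched nodes outside the coarse cell of `x`. -/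
def tcF (F : ℕ → ℕ) (lo hi x : ℕ) (t : BinaryTree ℕ) : Finset ℕ :=
  (tc lo hi x t).filter (fun v => F v ≠ F x)

/-- The number of cells with a touched node outside the coarse cell of `x`. -/
def qn (f F : ℕ → ℕ) (lo hi x : ℕ) (t : BinaryTree ℕ) : ℕ := ((tcF F lo hi x t).image f).card

/-- The number of cells, outside the coarse cell of `x`, with more than `τ` touched nodes. -/
def lgn (τ : ℕ) (f F : ℕ → ℕ) (lo hi x : ℕ) (t : BinaryTree ℕ) : ℕ :=
  (((tcF F lo hi x t).image f).filter
    (fun A => τ < ((tcF F lo hi x t).filter (fun v => f v = A)).card)).card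

/-- The number of cells with more than `τ` touched nodes. -/
def lg (τ : ℕ) (f : ℕ → ℕ) (a b x : ℕ) (t : BinaryTree ℕ) : ℕ :=
  (((tc a b x t).image f).filter
    (fun A => τ < ((tc a b x t).filter (fun v => f v = A)).card)).card

open Classical in
/-- The cells in which the path of `x` (seen from the bottom) leaves `[a, b)` and returns later. -/
noncomputable def bro (f : ℕ → ℕ) (a b x : ℕ) (t : BinaryTree ℕ) : Finset ℕ :=
  ((tc a b x t).filter (fun w => ∃ (l1 l2 : List ℕ) (v : ℕ), ancs x t = l1 ++ w :: v :: l2 ∧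
    ¬ (a ≤ v ∧ v < b) ∧ ∃ z ∈ l2, a ≤ z ∧ z < b)).image f

open Classical in
/-- The cells, outside the coarse cell of `x`, of the touched nodes of `[lo, hi)` whose parent lies
outside `[lo, hi)` on the other side of `x`. -/
noncomputable def hc (f F : ℕ → ℕ) (lo hi x : ℕ) (t : BinaryTree ℕ) : Finset ℕ :=
  ((tcF F lo hi x t).filter (fun w => ∃ (l1 l2 : List ℕ) (v : ℕ), ancs x t = l1 ++ w :: v :: l2 ∧
    ¬ (lo ≤ v ∧ v < hi) ∧ ((w < x ∧ x < v) ∨ (v < x ∧ x < w)))).image f

/-- The pairs of cells of adjacent nodes of the path of `x` on different sides of `x`. -/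
def altp (f F : ℕ → ℕ) (x : ℕ) (t : BinaryTree ℕ) : Finset (ℕ × ℕ) :=
  (((ancs x t).zip (ancs x t).tail).toFinset.filter
    (fun q => (q.1 < x ∧ x < q.2) ∨ (q.2 < x ∧ x < q.1))).biUnion (fun q => pr f F q.1 q.2)

/-! ## Dyadic blocks -/

/-- The ancestors of `x` in its block of height `β`, outside its block of height `α`. -/
def an (α β x : ℕ) (t : BinaryTree ℕ) : Finset ℕ :=
  (ancs x t).toFinset.filter (fun v => v / 2 ^ β = x / 2 ^ β ∧ v / 2 ^ α ≠ x / 2 ^ α)

/-- The number of blocks of height `α` in the block of height `γ'` of `x`, outside its block of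
height `γ`, which contain an ancestor of `x`. -/
def Qn (α γ γ' x : ℕ) (t : BinaryTree ℕ) : ℕ := ((an γ γ' x t).image (fun v => v / 2 ^ α)).card

/-- Those with more than `τ` ancestors of `x`. -/
def LQ (τ α γ γ' x : ℕ) (t : BinaryTree ℕ) : ℕ :=
  (((an γ γ' x t).image (fun v => v / 2 ^ α)).filter
    (fun A => τ < ((an γ γ' x t).filter (fun v => v / 2 ^ α = A)).card)).card

/-- The number of sides of the block of height `α` of `x` on which its block of height `β` contains
an ancestor of `x`. -/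
def Nn (α β x : ℕ) (t : BinaryTree ℕ) : ℕ :=
  (if ((an α β x t).filter (fun v => v < x)).Nonempty then 1 else 0) +
    (if ((an α β x t).filter (fun v => x < v)).Nonempty then 1 else 0)

/-- The number of those sides with more than `τ` ancestors of `x`. -/
def LN (τ α β x : ℕ) (t : BinaryTree ℕ) : ℕ :=
  (if τ < ((an α β x t).filter (fun v => v < x)).card then 1 else 0) +
    (if τ < ((an α β x t).filter (fun v => x < v)).card then 1 else 0)

/-- The block of height `α` of the last request, before the time `s`, in the block number `i` of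
height `γ`. -/
def exl (α γ : ℕ) (X : ℕ → ℕ) (s i : ℕ) : Finset ℕ :=
  match lastIn (2 ^ γ) i X s with
  | none => ∅
  | some y => {y / 2 ^ α}

/-- The potential of the triple `α ≤ γ ≤ γ'` (cells: blocks of height `α`; coarse cells: blocks of
height `γ`; intervals: blocks of height `γ'`), at the time `s`. -/
def PhiD (τ α γ γ' M : ℕ) (X : ℕ → ℕ) (s : ℕ) (t : BinaryTree ℕ) : ℕ :=
  ∑ i ∈ Finset.range M,
    (6 * (EE (fun v => v / 2 ^ α) (fun v => v / 2 ^ γ) (res (i * 2 ^ γ') ((i + 1) * 2 ^ γ') t)).card +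
      9 * (SC (fun v => v / 2 ^ α) (res (i * 2 ^ γ') ((i + 1) * 2 ^ γ') t)).card) +
  2 * ∑ i ∈ Finset.range M,
    Th τ (fun v => v / 2 ^ α) (exl α γ X s i) (i * 2 ^ γ) ((i + 1) * 2 ^ γ) t

/-- The distance of `v` from `u`: the number of heights `g 0, ..., g (ρ - 1)` at which `u` and `v`
lie in different blocks. -/
def dst (ρ : ℕ) (g : ℕ → ℕ) (u v : ℕ) : ℕ :=
  ((Finset.range ρ).filter (fun j => v / 2 ^ g j ≠ u / 2 ^ g j)).card

/-- The cells are the shells around the block of height `g 0` of `u`, on the left and on the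
right. -/
def fS (ρ : ℕ) (g : ℕ → ℕ) (u v : ℕ) : ℕ :=
  if v < u then ρ - dst ρ g u v else ρ + dst ρ g u v

/-- The coarse cells: left of the block of height `α` of `u`, the block, and right of it. -/
def FS (α u v : ℕ) : ℕ :=
  if v / 2 ^ α < u / 2 ^ α then 0 else if v / 2 ^ α = u / 2 ^ α then 1 else 2

/-- The potential of the block number `i` of height `g ρ` with the current key `u`. -/
def psi (τ ρ : ℕ) (g : ℕ → ℕ) (i u : ℕ) (t : BinaryTree ℕ) : ℕ :=
  6 * (EE (fS ρ g u) (FS (g 0) u) (res (i * 2 ^ g ρ) ((i + 1) * 2 ^ g ρ) t)).card +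
  9 * (SC (fS ρ g u) (res (i * 2 ^ g ρ) ((i + 1) * 2 ^ g ρ) t)).card +
  2 * Th τ (fS ρ g u) ∅ (i * 2 ^ g ρ) (u / 2 ^ g 0 * 2 ^ g 0) t +
  2 * Th τ (fS ρ g u) ∅ ((u / 2 ^ g 0 + 1) * 2 ^ g 0) ((i + 1) * 2 ^ g ρ) t

/-- The potential of the heights `g 0 ≤ g 1 ≤ ... ≤ g ρ` at the time `s`. -/
def PsiN (τ ρ : ℕ) (g : ℕ → ℕ) (M : ℕ) (X : ℕ → ℕ) (s : ℕ) (t : BinaryTree ℕ) : ℕ :=
  ∑ i ∈ Finset.range M, match lastIn (2 ^ g ρ) i X s with
    | none => 0
    | some u => psi τ ρ g i u t

/-- `1` if `X s` is the first request in its block of height `β`. -/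
def fa (β : ℕ) (X : ℕ → ℕ) (s : ℕ) : ℕ :=
  match lastIn (2 ^ β) (X s / 2 ^ β) X s with
  | none => 1
  | some _ => 0

/-- The cost of a switch in the N-step. -/
def RN (τ ρ : ℕ) : ℕ := 100 * (ρ + 1) * (ρ + 1) * (τ + 1)

end Pool.Agent.SplNest
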