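import Pool.Agent.SplNest.Defs
import Pool.Agent.SplNest.Bas

set_option autoImplicit false

namespace Pool.Agent.SplNest

open BinaryTree Pool.Agent.MP_c42954_lc.Scan Pool.Agent.SplPat Pool.Agent.SplAll

/-- EPL_a.  Pairs of numbers which do not cross.  PROOF.  Let `q = (i, j)`, `i < j`, be in `Q`.  Call
`q` left-maximal if no `(i, j') ∈ Q` has `j' > j`, right-maximal if no `(i', j) ∈ Q` has `i' < i`.
Every `q` is one of the two: otherwise `(i', j)` and `(i, j')` with `i' < i < j < j'` cross.  The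
left-maximal pairs are determined by `i ∈ V`, the right-maximal ones by `j ∈ V`. -/
theorem EPL_a {Q : Finset (ℕ × ℕ)} {V : Finset ℕ} (h1 : ∀ q ∈ Q, q.1 < q.2 ∧ q.1 ∈ V ∧ q.2 ∈ V)
    (h2 : ∀ q ∈ Q, ∀ q' ∈ Q, ¬ (q.1 < q'.1 ∧ q'.1 < q.2 ∧ q.2 < q'.2)) :
    Q.card ≤ 2 * V.card := by
  classical
  have hsub : Q ⊆ Q.filter (fun q => ∀ q' ∈ Q, q'.1 = q.1 → q'.2 ≤ q.2) ∪
      Q.filter (fun q => ∀ q' ∈ Q, q'.2 = q.2 → q.1 ≤ q'.1) := by
    intro q hq
    rw [Finset.mem_union, Finset.mem_filter, Finset.mem_filter]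
    by_contra hcon
    rw [not_or] at hcon
    obtain ⟨hc1, hc2⟩ := hcon
    have h3 : ∃ q' ∈ Q, q'.1 = q.1 ∧ q.2 < q'.2 := by
      by_contra h
      push Not at h
      exact hc1 ⟨hq, h⟩
    have h4 : ∃ q' ∈ Q, q'.2 = q.2 ∧ q'.1 < q.1 := by
      by_contra h
      push Not at h
      exact hc2 ⟨hq, h⟩
    obtain ⟨a, ha, ha1, ha2⟩ := h3
    obtain ⟨b, hb, hb1, hb2⟩ := h4
    have h5 := (h1 q hq).1
    exact h2 b hb a ha ⟨by omega, by omega, by omega⟩
  have hA : (Q.filter (fun q => ∀ q' ∈ Q, q'.1 = q.1 → q'.2 ≤ q.2)).card ≤ V.card := by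
    refine Finset.card_le_card_of_injOn Prod.fst (fun q hq => ?_) (fun q hq q' hq' he => ?_)
    · rw [Finset.mem_coe, Finset.mem_filter] at hq
      exact (h1 q hq.1).2.1
    · rw [Finset.mem_coe, Finset.mem_filter] at hq hq'
      have h3 := hq.2 q' hq'.1 he.symm
      have h4 := hq'.2 q hq.1 he
      exact Prod.ext he (by omega)
  have hB : (Q.filter (fun q => ∀ q' ∈ Q, q'.2 = q.2 → q.1 ≤ q'.1)).card ≤ V.card := by
    refine Finset.card_le_card_of_injOn Prod.snd (fun q hq => ?_) (fun q hq q' hq' he => ?_)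
    · rw [Finset.mem_coe, Finset.mem_filter] at hq
      exact (h1 q hq.1).2.2
    · rw [Finset.mem_coe, Finset.mem_filter] at hq hq'
      have h3 := hq.2 q' hq'.1 he.symm
      have h4 := hq'.2 q hq.1 he
      exact Prod.ext (by omega) he
  have h3 := Finset.card_le_card hsub
  have h4 := Finset.card_union_le (Q.filter (fun q => ∀ q' ∈ Q, q'.1 = q.1 → q'.2 ≤ q.2))
    (Q.filter (fun q => ∀ q' ∈ Q, q'.2 = q.2 → q.1 ≤ q'.1))
  omega

/-! ### depths of the keys between the two keys of a pair -/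

private def Gd (t : BinaryTree ℕ) (q : ℕ × ℕ) : Prop :=
  q.1 ∈ inorder t ∧ q.2 ∈ inorder t ∧ q.1 < q.2 ∧ ∀ w ∈ inorder t, q.1 < w → w < q.2 →
    depth q.1 t < depth w t ∧ depth q.2 t < depth w t

private theorem mem_node {v a : ℕ} {l r : BinaryTree ℕ} :
    v ∈ inorder (.node a l r) ↔ v ∈ inorder l ∨ v = a ∨ v ∈ inorder r := by
  rw [inorder, List.mem_append, List.mem_cons]

private theorem dp_root {a : ℕ} {l r : BinaryTree ℕ} : depth a (.node a l r) = 0 := by
  rw [depth, if_pos rfl]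

private theorem dp_left {v a : ℕ} {l r : BinaryTree ℕ} (h : v < a) :
    depth v (.node a l r) = depth v l + 1 := by
  rw [depth, if_neg (by omega), if_pos h]

private theorem dp_right {v a : ℕ} {l r : BinaryTree ℕ} (h : a < v) :
    depth v (.node a l r) = depth v r + 1 := by
  rw [depth, if_neg (by omega), if_neg (by omega)]

private theorem dp_pos {v a : ℕ} {l r : BinaryTree ℕ} (h : v ≠ a) :
    0 < depth v (.node a l r) := by
  rw [depth, if_neg h]
  split_ifs <;> omega

private theorem Gd_left {a : ℕ} {l r : BinaryTree ℕ} (hb : IsBST (.node a l r)) {q : ℕ × ℕ}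
    (h : Gd l q) : Gd (.node a l r) q := by
  obtain ⟨h1, h2, h3, h4⟩ := h
  obtain ⟨-, -, hl, hr⟩ := bst_node.1 hb
  have k1 := hl _ h1
  have k2 := hl _ h2
  refine ⟨mem_node.2 (Or.inl h1), mem_node.2 (Or.inl h2), h3, fun w hw hw1 hw2 => ?_⟩
  have hwl : w ∈ inorder l := by
    rcases mem_node.1 hw with h | h | h
    · exact h
    · omega
    · have := hr w h
      omega
  have h5 := h4 w hwl hw1 hw2
  rw [dp_left k1, dp_left k2, dp_left (by omega)]
  omega

private theorem Gd_right {a : ℕ} {l r : BinaryTree ℕ} (hb : IsBST (.node a l r)) {q : ℕ × ℕ}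
    (h : Gd r q) : Gd (.node a l r) q := by
  obtain ⟨h1, h2, h3, h4⟩ := h
  obtain ⟨-, -, hl, hr⟩ := bst_node.1 hb
  have k1 := hr _ h1
  have k2 := hr _ h2
  refine ⟨mem_node.2 (Or.inr (Or.inr h1)), mem_node.2 (Or.inr (Or.inr h2)), h3,
    fun w hw hw1 hw2 => ?_⟩
  have hwl : w ∈ inorder r := by
    rcases mem_node.1 hw with h | h | h
    · have := hl w h
      omega
    · omega
    · exact h
  have h5 := h4 w hwl hw1 hw2
  rw [dp_right k1, dp_right k2, dp_right (by omega)]
  omega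

private theorem pr_id {a b : ℕ} {q : ℕ × ℕ} (h : q ∈ pr (fun v => v) (fun v => v) a b) :
    a ≠ b ∧ q = (min a b, max a b) := by
  unfold pr at h
  by_cases hab : a = b
  · rw [if_pos hab] at h
    exact absurd h (Finset.notMem_empty _)
  · rw [if_neg hab, Finset.mem_singleton] at h
    exact ⟨hab, h⟩

private theorem Gd_T1 {a : ℕ} {l r : BinaryTree ℕ} (hb : IsBST (.node a l r)) {q : ℕ × ℕ}
    (h : q ∈ prT (fun v => v) (fun v => v) a l) : Gd (.node a l r) q := by
  obtain ⟨-, -, hl, hr⟩ := bst_node.1 hb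
  cases l with
  | nil => exact absurd h (Finset.notMem_empty _)
  | node c x y =>
    have hc : c ∈ inorder (.node c x y) := mem_node.2 (Or.inr (Or.inl rfl))
    have hca := hl c hc
    obtain ⟨-, rfl⟩ := pr_id h
    rw [min_eq_right hca.le, max_eq_left hca.le]
    refine ⟨mem_node.2 (Or.inl hc), mem_node.2 (Or.inr (Or.inl rfl)), hca, fun w hw hw1 hw2 => ?_⟩
    dsimp only at hw1 hw2 ⊢
    rw [dp_root, dp_left hca, dp_root, dp_left hw2]
    have := dp_pos (l := x) (r := y) (show w ≠ c by omega)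
    omega

private theorem Gd_T2 {a : ℕ} {l r : BinaryTree ℕ} (hb : IsBST (.node a l r)) {q : ℕ × ℕ}
    (h : q ∈ prT (fun v => v) (fun v => v) a r) : Gd (.node a l r) q := by
  obtain ⟨-, -, hl, hr⟩ := bst_node.1 hb
  cases r with
  | nil => exact absurd h (Finset.notMem_empty _)
  | node c x y =>
    have hc : c ∈ inorder (.node c x y) := mem_node.2 (Or.inr (Or.inl rfl))
    have hca := hr c hc
    obtain ⟨-, rfl⟩ := pr_id h
    rw [min_eq_left hca.le, max_eq_right hca.le]
    refine ⟨mem_node.2 (Or.inr (Or.inl rfl)), mem_node.2 (Or.inr (Or.inr hc)), hca,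
      fun w hw hw1 hw2 => ?_⟩
    dsimp only at hw1 hw2 ⊢
    rw [dp_root, dp_right hca, dp_root, dp_right hw1]
    have := dp_pos (l := x) (r := y) (show w ≠ c by omega)
    omega

private theorem Gd_T3 {a b : ℕ} {l s r : BinaryTree ℕ} (hb : IsBST (.node b (.node a l s) r))
    {q : ℕ × ℕ} (h : q ∈ prT (fun v => v) (fun v => v) b s) : Gd (.node b (.node a l s) r) q := by
  obtain ⟨hb1, -, hl, hr⟩ := bst_node.1 hb
  obtain ⟨-, -, hl1, hr1⟩ := bst_node.1 hb1
  cases s with
  | nil => exact absurd h (Finset.notMem_empty _)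
  | node c x y =>
    have hc : c ∈ inorder (.node c x y) := mem_node.2 (Or.inr (Or.inl rfl))
    have hc' : c ∈ inorder (.node a l (.node c x y)) := mem_node.2 (Or.inr (Or.inr hc))
    have hcb := hl c hc'
    have hac := hr1 c hc
    obtain ⟨-, rfl⟩ := pr_id h
    rw [min_eq_right hcb.le, max_eq_left hcb.le]
    refine ⟨mem_node.2 (Or.inl hc'), mem_node.2 (Or.inr (Or.inl rfl)), hcb,
      fun w hw hw1 hw2 => ?_⟩
    dsimp only at hw1 hw2 ⊢
    rw [dp_root, dp_left hcb, dp_right hac, dp_root, dp_left hw2,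
      dp_right (show a < w by omega)]
    have := dp_pos (l := x) (r := y) (show w ≠ c by omega)
    omega

private theorem Gd_T4 {a b : ℕ} {l s r : BinaryTree ℕ} (hb : IsBST (.node b r (.node a s l)))
    {q : ℕ × ℕ} (h : q ∈ prT (fun v => v) (fun v => v) b s) : Gd (.node b r (.node a s l)) q := by
  obtain ⟨-, hb1, hl, hr⟩ := bst_node.1 hb
  obtain ⟨-, -, hl1, hr1⟩ := bst_node.1 hb1
  cases s with
  | nil => exact absurd h (Finset.notMem_empty _)
  | node c x y =>
    have hc : c ∈ inorder (.node c x y) := mem_node.2 (Or.inr (Or.inl rfl))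
    have hc' : c ∈ inorder (.node a (.node c x y) l) := mem_node.2 (Or.inl hc)
    have hcb := hr c hc'
    have hac := hl1 c hc
    obtain ⟨-, rfl⟩ := pr_id h
    rw [min_eq_left hcb.le, max_eq_right hcb.le]
    refine ⟨mem_node.2 (Or.inr (Or.inl rfl)), mem_node.2 (Or.inr (Or.inr hc')), hcb,
      fun w hw hw1 hw2 => ?_⟩
    dsimp only at hw1 hw2 ⊢
    rw [dp_root, dp_right hcb, dp_left hac, dp_root, dp_right hw1,
      dp_left (show w < a by omega)]
    have := dp_pos (l := x) (r := y) (show w ≠ c by omega)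
    omega

private theorem Gd_E0 {q : ℕ × ℕ} : ∀ {t : BinaryTree ℕ}, IsBST t →
    q ∈ E0 (fun v => v) (fun v => v) t → Gd t q
  | .nil, _, h => absurd h (Finset.notMem_empty _)
  | .node a l r, hb, h => by
    obtain ⟨hb1, hb2, -, -⟩ := bst_node.1 hb
    rw [E0] at h
    simp only [Finset.mem_union] at h
    rcases h with ((h | h) | h) | h
    · exact Gd_T1 hb h
    · exact Gd_T2 hb h
    · exact Gd_left hb (Gd_E0 hb1 h)
    · exact Gd_right hb (Gd_E0 hb2 h)

private theorem Gd_XH {q : ℕ × ℕ} : ∀ {l : BinaryTree ℕ} {b : ℕ} {r : BinaryTree ℕ},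
    IsBST (.node b l r) → q ∈ XH (fun v => v) (fun v => v) b l → Gd (.node b l r) q
  | .nil, _, _, _, h => absurd h (Finset.notMem_empty _)
  | .node a l s, b, r, hb, h => by
    obtain ⟨hb1, -, -, -⟩ := bst_node.1 hb
    rw [XH, Finset.mem_union] at h
    rcases h with h | h
    · exact Gd_T3 hb h
    · exact Gd_left hb (Gd_XH hb1 h)

private theorem Gd_XG {q : ℕ × ℕ} : ∀ {r : BinaryTree ℕ} {b : ℕ} {l : BinaryTree ℕ},
    IsBST (.node b l r) → q ∈ XG (fun v => v) (fun v => v) b r → Gd (.node b l r) q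
  | .nil, _, _, _, h => absurd h (Finset.notMem_empty _)
  | .node a s r, b, l, hb, h => by
    obtain ⟨-, hb2, -, -⟩ := bst_node.1 hb
    rw [XG, Finset.mem_union] at h
    rcases h with h | h
    · exact Gd_T4 hb h
    · exact Gd_right hb (Gd_XG hb2 h)

private theorem Gd_EE {q : ℕ × ℕ} {t : BinaryTree ℕ} (hb : IsBST t)
    (h : q ∈ EE (fun v => v) (fun v => v) t) : Gd t q := by
  rw [EE, Finset.mem_union, Finset.mem_union] at h
  rcases h with (h | h) | h
  · exact Gd_E0 hb h
  · cases t with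
    | nil => exact absurd h (Finset.notMem_empty _)
    | node b l r => exact Gd_XH hb h
  · cases t with
    | nil => exact absurd h (Finset.notMem_empty _)
    | node b l r => exact Gd_XG hb h

/-- EPL_b.  The pairs of keys (`f = F = id`) do not cross.  PROOF.  Write `i = fun v => v`.  Show by
induction on `t` (search tree), for all `q, q' ∈ E0 i i t ∪ XL i i t ∪ XR i i t`.  It is convenient
to show first: (a) for `q ∈ E0 i i t ∪ XL i i t ∪ XR i i t`, `t = node a l r`: `q.2 ≤ a` or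
`a ≤ q.1` (no pair spans the root), by cases; (b) `EE (node a l r) = EL a l ∪ ER a r`; the pairs of
`EL a l` have both components `≤ a`, those of `ER a r` both `≥ a`, so they do not cross each other;
(c) the pairs of `EL a l` do not cross, by induction on `l = node c l' s`: they are `(c, a)`,
`(root s, a)`, the pairs of `E0 s`, `prT c s`, and `EL c l'`: the pairs of `EL c l'` have both
components `≤ c`; the pairs of `E0 s ∪ prT c s` are in `[c, a)` and do not span the root of `s`
(a), so they do not cross `(root s, a)`; the pairs of `E0 s` do not cross each other (induction) nor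
`(c, root s)`.  The mirror image for `ER`. -/
theorem EPL_b {t : BinaryTree ℕ} (hb : IsBST t) :
    ∀ q ∈ EE (fun v => v) (fun v => v) t, ∀ q' ∈ EE (fun v => v) (fun v => v) t,
      ¬ (q.1 < q'.1 ∧ q'.1 < q.2 ∧ q.2 < q'.2) := by
  intro q hq q' hq' ⟨h1, h2, h3⟩
  obtain ⟨-, k2, -, k4⟩ := Gd_EE hb hq
  obtain ⟨m1, -, -, m4⟩ := Gd_EE hb hq'
  have h5 := (k4 q'.1 m1 h1 h2).2
  have h6 := (m4 q.2 k2 h2 h3).1
  omega

/-! ### pairs of cells and pairs of keys -/

private def Rel (f F : ℕ → ℕ) (S S' : Finset (ℕ × ℕ)) : Prop :=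
  ∀ q ∈ S, ∃ k ∈ S', F k.1 ≠ F k.2 ∧ q = (f k.1, f k.2)

private theorem Rel_union {f F : ℕ → ℕ} {S S' T T' : Finset (ℕ × ℕ)} (h1 : Rel f F S S')
    (h2 : Rel f F T T') : Rel f F (S ∪ T) (S' ∪ T') := by
  intro q hq
  rcases Finset.mem_union.1 hq with h | h
  · obtain ⟨k, hk, hk'⟩ := h1 q h
    exact ⟨k, Finset.mem_union_left _ hk, hk'⟩
  · obtain ⟨k, hk, hk'⟩ := h2 q h
    exact ⟨k, Finset.mem_union_right _ hk, hk'⟩

private theorem Rel_empty {f F : ℕ → ℕ} (S : Finset (ℕ × ℕ)) : Rel f F ∅ S :=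
  fun q hq => absurd hq (Finset.notMem_empty _)

private theorem Rel_pr {f F : ℕ → ℕ} (h : Fac f F) (a b : ℕ) :
    Rel f F (pr f F a b) (pr (fun v => v) (fun v => v) a b) := by
  intro q hq
  unfold pr at hq
  by_cases hF : F a = F b
  · rw [if_pos hF] at hq
    exact absurd hq (Finset.notMem_empty _)
  · rw [if_neg hF, Finset.mem_singleton] at hq
    have hab : a ≠ b := fun h => hF (by rw [h])
    refine ⟨(min a b, max a b), ?_, ?_, ?_⟩
    · unfold pr
      rw [if_neg hab, Finset.mem_singleton]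
    · dsimp only
      rcases le_total a b with hle | hle
      · rw [min_eq_left hle, max_eq_right hle]
        exact hF
      · rw [min_eq_right hle, max_eq_left hle]
        exact Ne.symm hF
    · rw [hq]
      rcases le_total a b with hle | hle
      · rw [min_eq_left hle, max_eq_right hle, min_eq_left (h.mf _ _ hle),
          max_eq_right (h.mf _ _ hle)]
      · rw [min_eq_right hle, max_eq_left hle, min_eq_right (h.mf _ _ hle),
          max_eq_left (h.mf _ _ hle)]

private theorem Rel_prT {f F : ℕ → ℕ} (h : Fac f F) (a : ℕ) (t : BinaryTree ℕ) :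
    Rel f F (prT f F a t) (prT (fun v => v) (fun v => v) a t) := by
  cases t with
  | nil => exact Rel_empty _
  | node c l r => exact Rel_pr h a c

private theorem Rel_E0 {f F : ℕ → ℕ} (h : Fac f F) : ∀ t : BinaryTree ℕ,
    Rel f F (E0 f F t) (E0 (fun v => v) (fun v => v) t)
  | .nil => Rel_empty _
  | .node a l r => Rel_union (Rel_union (Rel_union (Rel_prT h a l) (Rel_prT h a r)) (Rel_E0 h l))
      (Rel_E0 h r)

private theorem Rel_XH {f F : ℕ → ℕ} (h : Fac f F) : ∀ (b : ℕ) (t : BinaryTree ℕ),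
    Rel f F (XH f F b t) (XH (fun v => v) (fun v => v) b t)
  | _, .nil => Rel_empty _
  | b, .node a l s => Rel_union (Rel_prT h b s) (Rel_XH h a l)

private theorem Rel_XG {f F : ℕ → ℕ} (h : Fac f F) : ∀ (b : ℕ) (t : BinaryTree ℕ),
    Rel f F (XG f F b t) (XG (fun v => v) (fun v => v) b t)
  | _, .nil => Rel_empty _
  | b, .node a s r => Rel_union (Rel_prT h b s) (Rel_XG h a r)

private theorem Rel_EE {f F : ℕ → ℕ} (h : Fac f F) (t : BinaryTree ℕ) :
    Rel f F (EE f F t) (EE (fun v => v) (fun v => v) t) := by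
  refine Rel_union (Rel_union (Rel_E0 h t) ?_) ?_
  · cases t with
    | nil => exact Rel_empty _
    | node b l r => exact Rel_XH h b l
  · cases t with
    | nil => exact Rel_empty _
    | node b l r => exact Rel_XG h b r

/-- EPL_c.  Every pair of cells comes from a pair of keys.  PROOF.  Induction as in the
definitions; `pr f F u v` is not empty only if `F u ≠ F v`, so `u ≠ v`. -/
theorem EPL_c {f F : ℕ → ℕ} (h : Fac f F) {t : BinaryTree ℕ} (hb : IsBST t) :
    ∀ q ∈ EE f F t, ∃ k ∈ EE (fun v => v) (fun v => v) t, F k.1 ≠ F k.2 ∧ k.1 ∈ inorder t ∧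
      k.2 ∈ inorder t ∧ k.1 < k.2 ∧ q = (f k.1, f k.2) := by
  intro q hq
  obtain ⟨k, hk, h1, h2⟩ := Rel_EE h t q hq
  obtain ⟨k1, k2, k3, -⟩ := Gd_EE hb hk
  exact ⟨k, hk, h1, k1, k2, k3, h2⟩

/-- EPL: from the three lemmas (`f k.1 < f k.2` as `F k.1 ≠ F k.2`; if pairs of cells cross, so do
the pairs of keys). -/
theorem EPL {f F : ℕ → ℕ} (h : Fac f F) {t : BinaryTree ℕ} (hb : IsBST t) :
    (EE f F t).card ≤ 2 * ((inorder t).toFinset.image f).card := by
  refine EPL_a (fun q hq => ?_) (fun q hq q' hq' => ?_)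
  · obtain ⟨k, hk, h1, h2, h3, h4, rfl⟩ := EPL_c h hb q hq
    have h5 : f k.1 ≠ f k.2 := fun h6 => h1 (h.fac _ _ h6)
    have h6 := h.mf _ _ h4.le
    refine ⟨?_, ?_, ?_⟩
    · dsimp only
      omega
    · exact Finset.mem_image_of_mem f (List.mem_toFinset.2 h2)
    · exact Finset.mem_image_of_mem f (List.mem_toFinset.2 h3)
  · obtain ⟨k, hk, -, -, -, -, rfl⟩ := EPL_c h hb q hq
    obtain ⟨k', hk', -, -, -, -, rfl⟩ := EPL_c h hb q' hq'
    rintro ⟨h1, h2, h3⟩
    dsimp only at h1 h2 h3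
    have lt : ∀ a b, f a < f b → a < b := by
      intro a b hab
      by_contra hcon
      have := h.mf b a (by omega)
      omega
    exact EPL_b hb k hk k' hk' ⟨lt _ _ h1, lt _ _ h2, lt _ _ h3⟩

end Pool.Agent.SplNest
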