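import Pool.Agent.SplNest.Defs

set_option autoImplicit false

/-!
FAL.  `fa_sum`: the set of all `s < m` with `fa β X s = 1` is mapped injectively into `range (M / 2^β + 1)` by `s ↦ X s / 2^β`: if `s' < s` and
`X s' / 2^β = X s / 2^β` then `lastIn (2^β) (X s / 2^β) X s ≠ none`, so `fa β X s = 0` (lemma: `lastIn B k X s = none ↔ ∀ r < s, X r / B ≠ k`, by induction on `s`).
`div_sum`: `Σ_{j<P} M / 2^((j+1) L) ≤ M` for `1 ≤ L`: `M / 2^((j+1) L) ≤ M / 2^(j+1)` and `Σ_{j<P} M / 2^(j+1) + M / 2^P ≤ M` by induction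
(see `Ph_nil` in `Ilb`).  `div_sum0`: `Σ_{j<P} M / 2^(j L) ≤ 2 M` (first term `M`).
-/

namespace Pool.Agent.SplNest

open BinaryTree Pool.Agent.MP_c42954_lc.Scan Pool.Agent.SplPat Pool.Agent.SplAll

theorem FaL_none {B k : ℕ} {X : ℕ → ℕ} : ∀ {s : ℕ}, lastIn B k X s = none →
    ∀ r < s, X r / B ≠ k
  | 0, _, r, hr => by omega
  | s + 1, h, r, hr => by
      rw [lastIn] at h
      split_ifs at h with h1
      rcases Nat.lt_or_ge r s with h2 | h2
      · exact FaL_none h r h2
      · have : r = s := by omega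
        rw [this]
        exact h1

theorem fa_sum {β M m : ℕ} {X : ℕ → ℕ} (hX : ∀ s < m, X s < M) :
    ∑ s ∈ Finset.range m, fa β X s ≤ M / 2 ^ β + 1 := by
  have h1 : ∀ s, fa β X s = if lastIn (2 ^ β) (X s / 2 ^ β) X s = none then 1 else 0 := by
    intro s
    unfold fa
    split <;> simp_all
  simp only [h1]
  rw [← Finset.card_filter]
  have h2 : ((Finset.range m).filter (fun s => lastIn (2 ^ β) (X s / 2 ^ β) X s = none)).card ≤
      (Finset.range (M / 2 ^ β + 1)).card := by
    apply Finset.card_le_card_of_injOn (fun s => X s / 2 ^ β)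
    · intro s hs
      have hs := Finset.mem_coe.1 hs
      rw [Finset.mem_filter, Finset.mem_range] at hs
      apply Finset.mem_coe.2
      rw [Finset.mem_range]
      have := Nat.div_le_div_right (c := 2 ^ β) (hX s hs.1).le
      show X s / 2 ^ β < M / 2 ^ β + 1
      omega
    · intro s hs s' hs' he
      have hs := Finset.mem_coe.1 hs
      have hs' := Finset.mem_coe.1 hs'
      rw [Finset.mem_filter] at hs hs'
      have he' : X s / 2 ^ β = X s' / 2 ^ β := he
      rcases Nat.lt_trichotomy s s' with h | h | h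
      · exact absurd he' (FaL_none hs'.2 s h)
      · exact h
      · exact absurd he'.symm (FaL_none hs.2 s' h)
  rwa [Finset.card_range] at h2

theorem FaL_geo (M : ℕ) : ∀ P, M / 2 ^ P + ∑ j ∈ Finset.range P, M / 2 ^ (j + 1) ≤ M
  | 0 => by simp
  | P + 1 => by
      have h1 := FaL_geo M P
      rw [Finset.sum_range_succ]
      have h3 : M / 2 ^ (P + 1) = M / 2 ^ P / 2 := by
        rw [pow_succ, ← Nat.div_div_eq_div_mul]
      omega

theorem div_sum {M L : ℕ} (hL : 1 ≤ L) (P : ℕ) :
    ∑ j ∈ Finset.range P, M / 2 ^ ((j + 1) * L) ≤ M := by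
  have h1 := FaL_geo M P
  have h2 : ∑ j ∈ Finset.range P, M / 2 ^ ((j + 1) * L) ≤
      ∑ j ∈ Finset.range P, M / 2 ^ (j + 1) := by
    refine Finset.sum_le_sum fun j _ => ?_
    apply Nat.div_le_div_left _ (by positivity)
    exact Nat.pow_le_pow_right (by norm_num) (Nat.le_mul_of_pos_right _ (by omega))
  exact h2.trans ((Nat.le_add_left _ _).trans h1)

theorem div_sum0 {M L : ℕ} (hL : 1 ≤ L) (P : ℕ) :
    ∑ j ∈ Finset.range P, M / 2 ^ (j * L) ≤ 2 * M := by
  rcases P with _ | P
  · simp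
  · rw [Finset.sum_range_succ']
    have h1 := div_sum (M := M) hL P
    have h2 : M / 2 ^ (0 * L) = M := by simp
    omega

end Pool.Agent.SplNest
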