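import Mathlib
import Pool.Agent.SplNest.Defs

set_option autoImplicit false

/-!
NUMN.  `k` := the least `k ≥ 1` with `u ≤ 2^(2^(k k))` (exists: `u ≤ 2^u`, `u ≤ 2^(u u)`).
* `2^(k k) ≤ 16 u`: `k = 1`: `2 ≤ 16 u`.  `k = j + 1`, `j ≥ 1`: by minimality `u > 2^(2^(j j))`, and `(j+1)^2 ≤ 4 + 2^(j j)` (`j = 1`: `4 ≤ 6`; `j = 2`: `9 ≤ 20`; `j ≥ 3`: `2^(j j) ≥ 2^(3 j) = 8^j ≥ (j+1)^2`).
* `k ≤ C' √(log log n)` for `n ≥ 3`: `k = 1`: `log log n ≥ log log 3 > 0`, so `1 ≤ √(log log n) / √(log log 3)`.  `k = j + 1 ≥ 2`: `n ≥ u > 2^(2^(j j))`: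
  `log n > 2^(j j) log 2`, `log log n > j j log 2 + log log 2`, so `j j log 2 ≤ log log n - log log 2 ≤ C'' log log n` (`- log log 2 ≤ 0.37`, `log log n ≥ log log 3 ≥ 0.09`), and
  `k ≤ 2 j`.
* the factor is at most `exp (C3 k)`: `1 + 3700 (2^k+1)^2 (128 · 2^k · 20988^k)^2 ≤ 10^(7+...)^k`, e.g. `2^k + 1 ≤ 4^k`, `128 ≤ 128^k`, `1 + 3700 y ≤ 3701^k y` for `y ≥ 1`, so it is
  `≤ (3701 · 16 · (128 · 2 · 20988)^2)^k = exp (k log(..))`.
-/

namespace Pool.Agent.SplNest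

open BinaryTree Pool.Agent.MP_c42954_lc.Scan Pool.Agent.SplPat Pool.Agent.SplAll

private theorem NumN_sq (j : ℕ) (hj : 1 ≤ j) : (j + 1) * (j + 1) ≤ 4 + 2 ^ (j * j) := by
  rcases Nat.lt_or_ge j 2 with h | h
  · have : j = 1 := by omega
    subst this
    norm_num
  · have h1 : 2 ^ (j * 2) ≤ 2 ^ (j * j) :=
      Nat.pow_le_pow_right (by norm_num) (Nat.mul_le_mul_left j h)
    have h2 : j + 1 ≤ 2 ^ j := Nat.lt_two_pow_self
    have h3 : (j + 1) * (j + 1) ≤ 2 ^ (j * 2) := by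
      rw [pow_mul, pow_two]
      exact Nat.mul_le_mul h2 h2
    omega

private theorem NumN_fac (k : ℕ) (hk : 1 ≤ k) :
    (1 : ℝ) + 3700 * (2 ^ k + 1) * (2 ^ k + 1) * (128 * 2 ^ k * 20988 ^ k) ^ 2 ≤
      (3701 * 16 * (128 * 2 * 20988) ^ 2) ^ k := by
  have h1 : (2 : ℝ) ^ k + 1 ≤ 4 ^ k := by
    have h2 : (4 : ℝ) ^ k = 2 ^ k * 2 ^ k := by rw [← mul_pow]; norm_num
    have h3 : (2 : ℝ) ≤ 2 ^ k := by
      calc (2 : ℝ) = 2 ^ 1 := by norm_num
        _ ≤ 2 ^ k := pow_le_pow_right₀ (by norm_num) hk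
    rw [h2]
    nlinarith
  have h4 : (128 : ℝ) ≤ 128 ^ k := by
    calc (128 : ℝ) = 128 ^ 1 := by norm_num
      _ ≤ 128 ^ k := pow_le_pow_right₀ (by norm_num) hk
  have h5 : (3701 : ℝ) ≤ 3701 ^ k := by
    calc (3701 : ℝ) = 3701 ^ 1 := by norm_num
      _ ≤ 3701 ^ k := pow_le_pow_right₀ (by norm_num) hk
  set y : ℝ := 4 ^ k * 4 ^ k * (128 ^ k * 2 ^ k * 20988 ^ k) ^ 2 with hy
  have hy1 : 1 ≤ y := by
    have e1 : (1 : ℝ) ≤ 4 ^ k := one_le_pow₀ (by norm_num)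
    have e2 : (1 : ℝ) ≤ 128 ^ k * 2 ^ k * 20988 ^ k := by
      have a1 : (1 : ℝ) ≤ 128 ^ k := one_le_pow₀ (by norm_num)
      have a2 : (1 : ℝ) ≤ 2 ^ k := one_le_pow₀ (by norm_num)
      have a3 : (1 : ℝ) ≤ 20988 ^ k := one_le_pow₀ (by norm_num)
      exact one_le_mul_of_one_le_of_one_le (one_le_mul_of_one_le_of_one_le a1 a2) a3
    exact one_le_mul_of_one_le_of_one_le (one_le_mul_of_one_le_of_one_le e1 e1)
      (one_le_pow₀ e2)
  have h6 : ((2 : ℝ) ^ k + 1) * (2 ^ k + 1) * (128 * 2 ^ k * 20988 ^ k) ^ 2 ≤ y := by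
    rw [hy]
    gcongr
  have h7 : (3701 * 16 * (128 * 2 * 20988) ^ 2 : ℝ) ^ k = 3701 ^ k * y := by
    have e1 : (128 : ℝ) ^ k * 2 ^ k * 20988 ^ k = (128 * 2 * 20988) ^ k := by
      rw [mul_pow, mul_pow]
    have e2 : ((128 * 2 * 20988 : ℝ) ^ k) ^ 2 = ((128 * 2 * 20988 : ℝ) ^ 2) ^ k := by
      rw [← pow_mul, ← pow_mul, Nat.mul_comm k 2]
    have e3 : (4 : ℝ) ^ k * 4 ^ k = 16 ^ k := by
      rw [← mul_pow]
      norm_num
    rw [hy, e1, e2, e3, mul_pow, mul_pow]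
    ring
  rw [h7]
  have h8 : 3700 * ((2 : ℝ) ^ k + 1) * (2 ^ k + 1) * (128 * 2 ^ k * 20988 ^ k) ^ 2 ≤ 3700 * y := by
    calc 3700 * ((2 : ℝ) ^ k + 1) * (2 ^ k + 1) * (128 * 2 ^ k * 20988 ^ k) ^ 2 =
        3700 * (((2 : ℝ) ^ k + 1) * (2 ^ k + 1) * (128 * 2 ^ k * 20988 ^ k) ^ 2) := by ring
      _ ≤ 3700 * y := by linarith
  nlinarith

theorem NUMN : ∃ C : ℝ, 0 < C ∧ ∀ n u : ℕ, 3 ≤ n → 1 ≤ u → u ≤ n → ∃ k : ℕ,
    u ≤ 2 ^ (2 ^ k) ^ k ∧ (2 ^ k) ^ k ≤ 16 * u ∧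
    (1 : ℝ) + 3700 * (2 ^ k + 1) * (2 ^ k + 1) * (128 * 2 ^ k * 20988 ^ k) ^ 2 ≤
      Real.exp (C * Real.sqrt (Real.log (Real.log n))) := by
  set K : ℝ := 3701 * 16 * (128 * 2 * 20988) ^ 2 with hK
  have hK1 : 1 < K := by rw [hK]; norm_num
  have hlK : 0 < Real.log K := Real.log_pos hK1
  have hl3 : 1 < Real.log 3 := by
    have h1 : Real.exp 1 < 3 := lt_trans Real.exp_one_lt_d9 (by norm_num)
    have h2 := Real.log_lt_log (Real.exp_pos 1) h1
    rwa [Real.log_exp] at h2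
  set l3 := Real.log (Real.log 3) with hl3d
  have hl3p : 0 < l3 := Real.log_pos hl3
  have hlog2 : 0 < Real.log 2 := Real.log_pos (by norm_num)
  have hlog2' : Real.log 2 < 1 := by
    have := Real.log_two_lt_d9
    linarith
  set A := -Real.log (Real.log 2) with hA
  have hAp : 0 < A := by
    rw [hA, neg_pos]
    exact Real.log_neg hlog2 hlog2'
  set C1 := 1 / Real.sqrt l3 + 2 * Real.sqrt ((1 + A / l3) / Real.log 2) with hC1
  have hC1p : 0 < C1 := by positivity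
  refine ⟨C1 * Real.log K, by positivity, fun n u hn hu hun => ?_⟩
  have hex : ∃ k, 1 ≤ k ∧ u ≤ 2 ^ (2 ^ k) ^ k := by
    refine ⟨u, hu, ?_⟩
    have h1 : u < 2 ^ u := Nat.lt_two_pow_self
    have h2 : u ≤ (2 ^ u) ^ u := by
      calc u ≤ 2 ^ u := h1.le
        _ = (2 ^ u) ^ 1 := by rw [pow_one]
        _ ≤ (2 ^ u) ^ u := Nat.pow_le_pow_right (by positivity) hu
    exact h1.le.trans (Nat.pow_le_pow_right (by norm_num) h2)
  classical
  set k := Nat.find hex with hk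
  obtain ⟨hk1, hk2⟩ := Nat.find_spec hex
  rw [← hk] at hk1 hk2
  have hsq : (2 ^ k) ^ k = 2 ^ (k * k) := by rw [← pow_mul]
  have hmin : ∀ j, 1 ≤ j → j < k → 2 ^ 2 ^ (j * j) < u := by
    intro j hj hjk
    have h1 := Nat.find_min hex hjk
    push Not at h1
    have h2 := h1 hj
    rwa [← pow_mul] at h2
  -- the real data
  have hn3 : (3 : ℝ) ≤ n := by exact_mod_cast hn
  have hln : Real.log 3 ≤ Real.log n := Real.log_le_log (by norm_num) hn3
  set ℓ := Real.log (Real.log n) with hℓ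
  have hℓ3 : l3 ≤ ℓ := Real.log_le_log (by linarith) hln
  have hℓp : 0 < ℓ := lt_of_lt_of_le hl3p hℓ3
  have hkC : (k : ℝ) ≤ C1 * Real.sqrt ℓ := by
    rcases Nat.lt_or_ge k 2 with h | h
    · have hk' : k = 1 := by omega
      rw [hk']
      have h1 : Real.sqrt l3 ≤ Real.sqrt ℓ := Real.sqrt_le_sqrt hℓ3
      have h2 : 0 < Real.sqrt l3 := Real.sqrt_pos.2 hl3p
      have h3 : 1 ≤ 1 / Real.sqrt l3 * Real.sqrt ℓ := by
        rw [div_mul_eq_mul_div, one_mul, le_div_iff₀ h2]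
        linarith
      have h4 : 0 ≤ 2 * Real.sqrt ((1 + A / l3) / Real.log 2) * Real.sqrt ℓ := by positivity
      push_cast
      rw [hC1, add_mul]
      linarith
    · obtain ⟨j, hj⟩ : ∃ j, k = j + 1 := ⟨k - 1, by omega⟩
      have hj1 : 1 ≤ j := by omega
      have h1 := hmin j hj1 (by omega)
      have h2 : (2 : ℝ) ^ 2 ^ (j * j) < n := by
        have : 2 ^ 2 ^ (j * j) < n := lt_of_lt_of_le h1 hun
        exact_mod_cast this
      have h3 := Real.log_lt_log (by positivity) h2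
      rw [Real.log_pow] at h3
      push_cast at h3
      have h4 := Real.log_lt_log (by positivity) h3
      rw [Real.log_mul (by positivity) (by positivity), Real.log_pow] at h4
      push_cast at h4
      have h5 : (j : ℝ) * j * Real.log 2 ≤ ℓ + A := by
        rw [hA]
        linarith
      have h6 : ℓ + A ≤ ℓ * (1 + A / l3) := by
        have : A ≤ ℓ * (A / l3) := by
          rw [mul_div_assoc', le_div_iff₀ hl3p]
          nlinarith
        linarith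
      have h7 : (j : ℝ) * j ≤ ℓ * ((1 + A / l3) / Real.log 2) := by
        rw [mul_div_assoc', le_div_iff₀ hlog2]
        linarith
      have h8 : (j : ℝ) ≤ Real.sqrt ℓ * Real.sqrt ((1 + A / l3) / Real.log 2) := by
        rw [← Real.sqrt_mul hℓp.le]
        apply Real.le_sqrt_of_sq_le
        rw [sq]
        exact h7
      have h9 : (k : ℝ) ≤ 2 * j := by
        rw [hj]
        push_cast
        have : (1 : ℝ) ≤ j := by exact_mod_cast hj1
        linarith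
      have h10 : 0 ≤ 1 / Real.sqrt l3 * Real.sqrt ℓ := by positivity
      rw [hC1, add_mul]
      nlinarith
  refine ⟨k, hk2, ?_, ?_⟩
  · rw [hsq]
    rcases Nat.lt_or_ge k 2 with h | h
    · have hk' : k = 1 := by omega
      rw [hk']
      norm_num
      omega
    · obtain ⟨j, hj⟩ : ∃ j, k = j + 1 := ⟨k - 1, by omega⟩
      have hj1 : 1 ≤ j := by omega
      have h1 := hmin j hj1 (by omega)
      have h2 := NumN_sq j hj1
      calc 2 ^ (k * k) ≤ 2 ^ (4 + 2 ^ (j * j)) := by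
            rw [hj]
            exact Nat.pow_le_pow_right (by norm_num) h2
        _ = 16 * 2 ^ 2 ^ (j * j) := by rw [pow_add]; norm_num
        _ ≤ 16 * u := by omega
  · refine (NumN_fac k hk1).trans ?_
    rw [← hK]
    have h1 : K ^ k = Real.exp (k * Real.log K) := by
      rw [mul_comm, Real.exp_mul, Real.exp_log (by linarith), Real.rpow_natCast]
    rw [h1]
    apply Real.exp_le_exp.2
    calc (k : ℝ) * Real.log K ≤ (C1 * Real.sqrt ℓ) * Real.log K :=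
          mul_le_mul_of_nonneg_right hkC hlK.le
      _ = C1 * Real.log K * Real.sqrt ℓ := by ring

end Pool.Agent.SplNest
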