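import Pool.Agent.SplNest.SumN
import Pool.Agent.SplAll.LB

set_option autoImplicit false

/-!
SWL.  `cu s := ` the pointers after the first `s` requests (`cu 0 = cur`, `cu (s+1) = upd 2 (cu s) (X s)`).
(1) invariant, by induction on `s`: `lastIn (2^(i+1)) k X s = some y → cu s i k = y / 2^i`.  Step: if `X s / 2^(i+1) = k` then `lastIn .. (s+1) = some (X s)` and
`upd 2 (cu s) (X s) i k = X s / 2^i` (note `X s / 2^i / 2 = X s / 2^(i+1)`); otherwise both are unchanged.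
(2) `Σ_{i<l} sw (2^i) (2^(i+1)) X s ≤ SplAll.sw 2 l (cu s) (X s)` (`Finset.card_filter`, termwise: if `sw (2^i) (2^(i+1)) X s = 1` then `lastIn = some y`, `y / 2^i ≠ X s / 2^i`, so
`cu s i (X s / 2^i / 2) = y / 2^i ≠ X s / 2^i`).
(3) `SplAll.SW 2 l cur (list) = Σ_{s < length} SplAll.sw 2 l (cu s) (X s)`, by induction on the list (generalise over `cur`; `X.getD (s+1) 0` of `x :: X`).
-/

namespace Pool.Agent.SplNest

open BinaryTree Pool.Agent.MP_c42954_lc.Scan Pool.Agent.SplPat Pool.Agent.SplAll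

/-- The pointers after the first `s` requests. -/
def SWL_cu (cur : ℕ → ℕ → ℕ) (X : ℕ → ℕ) : ℕ → ℕ → ℕ → ℕ
  | 0 => cur
  | s + 1 => upd 2 (SWL_cu cur X s) (X s)

theorem SWL_inv (cur : ℕ → ℕ → ℕ) (X : ℕ → ℕ) (i k y : ℕ) : ∀ s,
    lastIn (2 ^ (i + 1)) k X s = some y → SWL_cu cur X s i k = y / 2 ^ i
  | 0, h => by simp [lastIn] at h
  | s + 1, h => by
      rw [lastIn] at h
      have e : X s / 2 ^ i / 2 = X s / 2 ^ (i + 1) := by
        rw [pow_succ, ← Nat.div_div_eq_div_mul]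
      rw [SWL_cu, upd]
      split_ifs at h with h1
      · have h2 : X s = y := by simpa using h
        rw [if_pos (by rw [e, h1]), h2]
      · rw [if_neg (by rw [e]; exact fun h2 => h1 h2.symm)]
        exact SWL_inv cur X i k y s h

theorem SWL_step (l : ℕ) (cur : ℕ → ℕ → ℕ) (X : ℕ → ℕ) (s : ℕ) :
    ∑ i ∈ Finset.range l, sw (2 ^ i) (2 ^ (i + 1)) X s ≤
      SplAll.sw 2 l (SWL_cu cur X s) (X s) := by
  unfold SplAll.sw
  rw [Finset.card_filter]
  refine Finset.sum_le_sum fun i _ => ?_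
  have e : X s / 2 ^ i / 2 = X s / 2 ^ (i + 1) := by
    rw [pow_succ, ← Nat.div_div_eq_div_mul]
  unfold sw
  split
  · exact Nat.zero_le _
  · rename_i y hy
    have h1 := SWL_inv cur X i _ y s hy
    rw [e, h1]
    split_ifs <;> omega

theorem SWL_cu_succ (cur : ℕ → ℕ → ℕ) (X : ℕ → ℕ) : ∀ s,
    SWL_cu cur X (s + 1) = SWL_cu (upd 2 cur (X 0)) (fun i => X (i + 1)) s
  | 0 => rfl
  | s + 1 => by
      rw [SWL_cu, SWL_cu_succ cur X s]
      rfl

theorem SWL_sum (l : ℕ) : ∀ (X : List ℕ) (cur : ℕ → ℕ → ℕ),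
    ∑ s ∈ Finset.range X.length, SplAll.sw 2 l (SWL_cu cur (fun i => X.getD i 0) s) (X.getD s 0) =
      SW 2 l cur X
  | [], cur => by simp [SW]
  | x :: X, cur => by
      rw [List.length_cons, Finset.sum_range_succ', SW, ← SWL_sum l X (upd 2 cur x), add_comm]
      congr 1
      refine Finset.sum_congr rfl fun s _ => ?_
      rw [SWL_cu_succ]
      rfl

theorem SWL (l : ℕ) (cur : ℕ → ℕ → ℕ) (X : List ℕ) :
    SWT (fun i => X.getD i 0) X.length l ≤ SW 2 l cur X := by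
  rw [← SWL_sum l X cur]
  unfold SWT
  exact Finset.sum_le_sum fun s _ => SWL_step l cur (fun i => X.getD i 0) s

end Pool.Agent.SplNest
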