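import Pool.Agent.SplNest.Glob
import Pool.Agent.SplNest.NumN
import Pool.Agent.SplNest.SwL
import Pool.Agent.SplAll.Red
import Pool.Agent.SplAll.UCard
import Pool.Agent.SplPat.Mir

set_option autoImplicit false

/-!
FINN.  Template: `Pool.Agent.SplAll.Fin`.  `X = []`: cost 0.  Otherwise `u := |Un X T|`, `1 ≤ u ≤ n`, `u ≤ c` (`ucard`), `|X| ≤ c`.  `k` from `NUMN`, `ρ := 2^k`, `τ := 128 ρ 20988^k - 1`.
`RED`: `T'`, `X' = X.map (rk U)`, keys of `T'` are `< u`, same cost.  `REL_run` (SplPat.Final): the run of `X'` from `T'`; `splayCost X' T' = |X'| + DS` (see how `Final` does it).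
`GLOB` (`M := u`): `DS ≤ (τ+1) RN (SWT + m + u + ρ^k)`.  `SWT ≤ SW 2 (ρ^k) cur X' ≤ 2 c + u + ρ^k` (`SWL`, `LB` with `f = rk U`, `m0 = u`).  `ρ^k ≤ 16 u ≤ 16 c`.
Together `cost ≤ c + (τ+1) · 100 (ρ+1)(ρ+1)(τ+1) · (2 c + c + 16 c + c + c + 16 c)`; the factor is `1 + 3700 (ρ+1)(ρ+1)(τ+1)^2`.
-/

namespace Pool.Agent.SplNest

open BinaryTree Pool.Agent.MP_c42954_lc.Scan Pool.Agent.SplPat Pool.Agent.SplAll

/-- The trees. -/
noncomputable def FINN_tr (T : BinaryTree ℕ) (Y : ℕ → ℕ) : ℕ → BinaryTree ℕ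
  | 0 => T
  | t + 1 => splay (Y t) (FINN_tr T Y t)

theorem FINN_tr_succ (T : BinaryTree ℕ) (Y : ℕ → ℕ) : ∀ t,
    FINN_tr T Y (t + 1) = FINN_tr (splay (Y 0) T) (fun i => Y (i + 1)) t
  | 0 => rfl
  | t + 1 => by
      rw [FINN_tr, FINN_tr_succ T Y t]
      rfl

theorem FINN_sum : ∀ (X : List ℕ) (T : BinaryTree ℕ),
    splayCost X T = X.length + ∑ t ∈ Finset.range X.length,
      depth (X.getD t 0) (FINN_tr T (fun i => X.getD i 0) t)
  | [], T => by simp [splayCost]
  | x :: X, T => by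
      rw [splayCost, FINN_sum X (splay x T), List.length_cons, Finset.sum_range_succ']
      have h1 : ∀ t, depth ((x :: X).getD (t + 1) 0) (FINN_tr T (fun i => (x :: X).getD i 0) (t + 1))
          = depth (X.getD t 0) (FINN_tr (splay x T) (fun i => X.getD i 0) t) := by
        intro t
        rw [FINN_tr_succ]
        rfl
      simp only [h1]
      have h2 : depth ((x :: X).getD 0 0) (FINN_tr T (fun i => (x :: X).getD i 0) 0) =
          depth x T := rfl
      rw [h2]
      ring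

theorem FINN_run {X : List ℕ} {T : BinaryTree ℕ} (hb : IsBST T) (hX : ∀ x ∈ X, x ∈ inorder T) :
    Run (FINN_tr T (fun i => X.getD i 0)) (fun i => X.getD i 0) X.length := by
  have hmem : ∀ t < X.length, X.getD t 0 ∈ inorder T := by
    intro t ht
    rw [List.getD_eq_getElem X 0 ht]
    exact hX _ (List.getElem_mem ht)
  have h1 : ∀ t ≤ X.length, IsBST (FINN_tr T (fun i => X.getD i 0) t) ∧
      inorder (FINN_tr T (fun i => X.getD i 0) t) = inorder T := by
    intro t
    induction t with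
    | zero => exact fun _ => ⟨hb, rfl⟩
    | succ t ih =>
      intro ht
      obtain ⟨h2, h3⟩ := ih (by omega)
      have h4 : X.getD t 0 ∈ inorder (FINN_tr T (fun i => X.getD i 0) t) := by
        rw [h3]
        exact hmem t (by omega)
      exact ⟨splay_bst h2 h4, (splay_inorder h2 h4).trans h3⟩
  refine ⟨fun t ht => (h1 t ht).1, fun t ht => ?_, fun t ht => rfl⟩
  rw [(h1 t ht.le).2]
  exact hmem t ht

private theorem FINN_len {T : BinaryTree ℕ} {X : List ℕ} {c : ℕ} (h : Exec T X c) :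
    X.length ≤ c := by
  induction h with
  | nil T => simp
  | cons h1 h2 ih =>
    rw [List.length_cons]
    omega

private theorem FINN_anc {x v : ℕ} : ∀ {t : BinaryTree ℕ}, v ∈ ancs x t → v ∈ inorder t
  | .nil, h => by simp [ancs] at h
  | .node a l r, h => by
      simp only [ancs] at h
      simp only [inorder, List.mem_append, List.mem_cons]
      split_ifs at h
      · simp at h
      · simp only [List.mem_append, List.mem_singleton] at h
        rcases h with h | h
        · exact Or.inl (FINN_anc h)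
        · exact Or.inr (Or.inl h)
      · simp only [List.mem_append, List.mem_singleton] at h
        rcases h with h | h
        · exact Or.inr (Or.inr (FINN_anc h))
        · exact Or.inr (Or.inl h)

private theorem FINN_Un {X : List ℕ} {T : BinaryTree ℕ} (hX : ∀ x ∈ X, x ∈ inorder T) :
    Un X T ⊆ (inorder T).toFinset := by
  intro v hv
  rw [Un, Finset.mem_biUnion] at hv
  obtain ⟨x, hx, hv⟩ := hv
  rw [List.mem_toFinset] at hx ⊢
  rw [Finset.mem_insert, List.mem_toFinset] at hv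
  rcases hv with rfl | hv
  · exact hX v hx
  · exact FINN_anc hv

private theorem FINN_mem {X : List ℕ} {T : BinaryTree ℕ} {x : ℕ} (hx : x ∈ X) : x ∈ Un X T := by
  rw [Un, Finset.mem_biUnion]
  exact ⟨x, List.mem_toFinset.2 hx, Finset.mem_insert_self _ _⟩

private theorem FINN_mono (U : Finset ℕ) : Monotone (rk U) := by
  intro a b hab
  apply Finset.card_le_card
  intro v hv
  rw [Finset.mem_filter] at hv ⊢
  exact ⟨hv.1, by omega⟩

theorem nested_competitive : ∃ C : ℝ, 0 < C ∧ ∀ (T : BinaryTree ℕ) (X : List ℕ) (c : ℕ), IsBST T →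
    (∀ x ∈ X, x ∈ inorder T) → 3 ≤ (inorder T).length → Exec T X c →
    (splayCost X T : ℝ) ≤ Real.exp (C * Real.sqrt (Real.log (Real.log (inorder T).length))) * c := by
  obtain ⟨C, hC, hnum⟩ := NUMN
  refine ⟨C, hC, fun T X c hb hX hn hex => ?_⟩
  rcases X with _ | ⟨x0, X0⟩
  · -- no requests
    cases hex
    simp [splayCost]
  set X := x0 :: X0 with hXdef
  have hx0 : x0 ∈ X := List.mem_cons_self
  set n := (inorder T).length with hnd
  set u := (Un X T).card with hu
  have hu1 : 1 ≤ u := Finset.card_pos.2 ⟨x0, FINN_mem hx0⟩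
  have hun : u ≤ n := (Finset.card_le_card (FINN_Un hX)).trans (List.toFinset_card_le _)
  have huc : u ≤ c := ucard hex hb hX
  have hXc : X.length ≤ c := FINN_len hex
  obtain ⟨k, h1, h2, h3⟩ := hnum n u hn hu1 hun
  obtain ⟨T', hb', hX', hT', -, hcost⟩ := RED hb hX
  set X' := X.map (rk (Un X T)) with hX'def
  have hlen : X'.length = X.length := List.length_map _
  set ρ := 2 ^ k with hρ
  have hρ1 : 1 ≤ ρ := Nat.one_le_pow _ _ (by norm_num)
  obtain ⟨τ, hτ⟩ : ∃ τ, τ + 1 = 128 * ρ * 20988 ^ k := by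
    have : 0 < 128 * ρ * 20988 ^ k := by positivity
    exact ⟨128 * ρ * 20988 ^ k - 1, by omega⟩
  have hR := FINN_run hb' hX'
  have hg := GLOB (T := FINN_tr T' (fun i => X'.getD i 0)) (M := u) hR hT' (by rw [hρ]; exact h1)
    hρ1 hτ
  have hsw := SWL (ρ ^ k) (colf (fun v => v) 2 T') X'
  have hlb : SW 2 (ρ ^ k) (colf (fun v => v) 2 T') X' ≤ 2 * c + u + ρ ^ k :=
    LB (l := ρ ^ k) (m0 := u) (FINN_mono (Un X T)) (le_refl 2) hex hb
      (fun x hx => ⟨hX x hx, RED_rk_card (FINN_mem hx)⟩) (colf (fun v => v) 2 T')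
  have hsum := FINN_sum X' T'
  rw [hcost] at hsum
  have hds : splayCost X T = X'.length + DS (FINN_tr T' (fun i => X'.getD i 0))
      (fun i => X'.getD i 0) X'.length := hsum
  have hH : ρ ^ k ≤ 16 * c := by
    have : ρ ^ k ≤ 16 * u := h2
    omega
  have hW : SWT (fun i => X'.getD i 0) X'.length (ρ ^ k) + X'.length + u + ρ ^ k ≤ 37 * c := by
    omega
  have h4 : splayCost X T ≤ (1 + 3700 * (ρ + 1) * (ρ + 1) * (128 * ρ * 20988 ^ k) ^ 2) * c := by
    rw [← hτ, hds]
    calc X'.length + DS (FINN_tr T' (fun i => X'.getD i 0)) (fun i => X'.getD i 0) X'.length ≤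
        c + (τ + 1) * (RN τ ρ * (37 * c)) :=
          Nat.add_le_add (by omega) (hg.trans (Nat.mul_le_mul_left _ (Nat.mul_le_mul_left _ hW)))
      _ = (1 + 3700 * (ρ + 1) * (ρ + 1) * (τ + 1) ^ 2) * c := by
          unfold RN
          ring
  have h5 : (splayCost X T : ℝ) ≤
      ((1 : ℝ) + 3700 * (2 ^ k + 1) * (2 ^ k + 1) * (128 * 2 ^ k * 20988 ^ k) ^ 2) * c := by
    have : (splayCost X T : ℝ) ≤
        (((1 + 3700 * (ρ + 1) * (ρ + 1) * (128 * ρ * 20988 ^ k) ^ 2) * c : ℕ) : ℝ) := by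
      exact_mod_cast h4
    refine this.trans (le_of_eq ?_)
    rw [hρ]
    push_cast
    ring
  exact h5.trans (mul_le_mul_of_nonneg_right h3 (Nat.cast_nonneg c))

end Pool.Agent.SplNest
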