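import Pool.Agent.SplNest.SumD

set_option autoImplicit false

/-!
GLOB.  `glob_arith`: `a r ≤ 159^r c` by induction (`158 · 159^r c + c ≤ 159^(r+1) c`).  Let `B := 32 ρ 159^k c`; for `r < k`: `31 ρ a r + c ≤ B` and `b k ≤ a k ≤ B`;
by induction on `i ≤ k`: `b (k - i) ≤ 132^i B` (`131 · 132^i B + B ≤ 132^(i+1) B`).  `i = k`: `b 0 ≤ 132^k 32 ρ 159^k c`, `132 · 159 = 20988`.
`GLOB`: `a r := (τ+1) SN T X m (ρ^(k-r)) (ρ^r)`, `b r := (τ+1) SD T X m (ρ^(k-r)) (ρ^r)`, `H := ρ^k`, `W := SWT X m H + m + M + H`,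
`c := (τ+1) (RN τ ρ W) + 2 DS`.  `a 0 ≤ (τ+1) 2 m ≤ c` (`Nn_le_two`; `RN ≥ 2`).  `SUMN` with `L = ρ^(k-r-1)`, `P = ρ^r ≤ H`, `ρ L = ρ^(k-r)`, `ρ P = ρ^(r+1)`, `P (ρ L) = H`.
`b k ≤ a k`: `L = 1`: `Qn_one`.  `SUMD`: `2 τ ρ SWT + ρ (21 + 2τ)(2 M + P) ≤ RN τ ρ W` because `RN = 100 (ρ+1)(ρ+1)(τ+1) ≥ 42 ρ (τ+1) + ..`: each coefficient
`2τρ, 2ρ(21+2τ) ≤ 42 ρ (τ+1) ≤ RN`.
`b 0 = (τ+1) DS` (`Qn_top`, `M ≤ 2^H`; keys of `T s` as in `T 0`).  So `(τ+1) DS ≤ 32 ρ 20988^k ((τ+1) RN W + 2 DS)`; with `τ + 1 = 4 · 32 ρ 20988^k`: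
`4 DS ≤ (τ+1) RN W + 2 DS`.
-/

namespace Pool.Agent.SplNest

open BinaryTree Pool.Agent.MP_c42954_lc.Scan Pool.Agent.SplPat Pool.Agent.SplAll

theorem glob_arith {k ρ c : ℕ} {a b : ℕ → ℕ} (hρ : 1 ≤ ρ) (h0 : a 0 ≤ c)
    (ha : ∀ r < k, a (r + 1) ≤ 158 * a r + c) (hk : b k ≤ a k)
    (hb : ∀ r < k, b r ≤ 131 * b (r + 1) + 31 * ρ * a r + c) :
    b 0 ≤ 32 * ρ * 20988 ^ k * c := by
  have h1 : ∀ r ≤ k, a r ≤ 159 ^ r * c := by
    intro r
    induction r with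
    | zero => intro _; simpa using h0
    | succ r ih =>
      intro hr
      have h2 := ih (by omega)
      have h3 := ha r (by omega)
      have h4 : c ≤ 159 ^ r * c := Nat.le_mul_of_pos_left c (by positivity)
      calc a (r + 1) ≤ 158 * a r + c := h3
        _ ≤ 158 * (159 ^ r * c) + 159 ^ r * c := by omega
        _ = 159 ^ (r + 1) * c := by ring
  have h2 : ∀ r ≤ k, a r ≤ 159 ^ k * c := fun r hr =>
    (h1 r hr).trans (Nat.mul_le_mul_right c (Nat.pow_le_pow_right (by norm_num) hr))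
  have h3 : c ≤ 159 ^ k * c := Nat.le_mul_of_pos_left c (by positivity)
  set B := 32 * ρ * (159 ^ k * c) with hB
  have h4 : ∀ r ≤ k, 31 * ρ * a r + c ≤ B := by
    intro r hr
    have h5 := Nat.mul_le_mul_left (31 * ρ) (h2 r hr)
    have h6 : 159 ^ k * c ≤ ρ * (159 ^ k * c) := Nat.le_mul_of_pos_left _ (by omega)
    calc 31 * ρ * a r + c ≤ 31 * ρ * (159 ^ k * c) + ρ * (159 ^ k * c) := by omega
      _ = B := by rw [hB]; ring
  have h5 : ∀ i ≤ k, b (k - i) ≤ 132 ^ i * B := by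
    intro i
    induction i with
    | zero =>
      intro _
      have h6 := h2 k le_rfl
      have h7 : 159 ^ k * c ≤ ρ * (159 ^ k * c) := Nat.le_mul_of_pos_left _ (by omega)
      simp only [Nat.sub_zero, pow_zero, one_mul]
      calc b k ≤ ρ * (159 ^ k * c) := by omega
        _ ≤ 32 * (ρ * (159 ^ k * c)) := by omega
        _ = B := by rw [hB]; ring
    | succ i ih =>
      intro hi
      have h6 := ih (by omega)
      have h7 := hb (k - (i + 1)) (by omega)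
      have e : k - (i + 1) + 1 = k - i := by omega
      rw [e] at h7
      have h8 := h4 (k - (i + 1)) (by omega)
      have h9 : B ≤ 132 ^ i * B := Nat.le_mul_of_pos_left B (by positivity)
      calc b (k - (i + 1)) ≤ 131 * b (k - i) + 31 * ρ * a (k - (i + 1)) + c := h7
        _ ≤ 131 * (132 ^ i * B) + 132 ^ i * B := by omega
        _ = 132 ^ (i + 1) * B := by ring
  have h6 := h5 k le_rfl
  rw [Nat.sub_self] at h6
  refine h6.trans (le_of_eq ?_)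
  have e : (20988 : ℕ) ^ k = 132 ^ k * 159 ^ k := by rw [← mul_pow]; norm_num
  rw [e, hB]
  ring

theorem GLOB {T : ℕ → BinaryTree ℕ} {X : ℕ → ℕ} {m M τ ρ k : ℕ} (hR : Run T X m)
    (hM : ∀ v ∈ inorder (T 0), v < M) (hMH : M ≤ 2 ^ ρ ^ k) (hρ : 1 ≤ ρ)
    (hτ : τ + 1 = 128 * ρ * 20988 ^ k) :
    DS T X m ≤ (τ + 1) * (RN τ ρ * (SWT X m (ρ ^ k) + m + M + ρ ^ k)) := by
  set H := ρ ^ k with hH
  set W := SWT X m H + m + M + H with hW
  set c := (τ + 1) * (RN τ ρ * W) + 2 * DS T X m with hc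
  have hRN : 100 * (τ + 1) * ρ ≤ RN τ ρ := by
    unfold RN
    nlinarith [Nat.zero_le τ, Nat.zero_le ρ, Nat.zero_le (ρ * ρ * (τ + 1)), Nat.zero_le (ρ * (τ + 1))]
  have hRN1 : 100 ≤ RN τ ρ := by
    refine le_trans ?_ hRN
    nlinarith [Nat.zero_le τ, Nat.zero_le (τ * ρ)]
  have hpow : ∀ r < k, ρ * ρ ^ (k - (r + 1)) = ρ ^ (k - r) := by
    intro r hr
    rw [← pow_succ']
    congr 1
    omega
  have hpow2 : ∀ r < k, ρ ^ r * ρ ^ (k - r) = H := by
    intro r hr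
    rw [← pow_add, hH]
    congr 1
    omega
  have hpos : ∀ r, 1 ≤ ρ ^ r := fun r => Nat.one_le_pow _ _ hρ
  have hPH : ∀ r ≤ k, ρ ^ r ≤ H := fun r hr => Nat.pow_le_pow_right hρ hr
  have key := glob_arith (k := k) (ρ := ρ) (c := c)
    (a := fun r => (τ + 1) * SN T X m (ρ ^ (k - r)) (ρ ^ r))
    (b := fun r => (τ + 1) * SD T X m (ρ ^ (k - r)) (ρ ^ r)) hρ ?_ ?_ ?_ ?_
  · -- conclusion
    simp only [Nat.sub_zero, pow_zero] at key
    have h1 : SD T X m H 1 = DS T X m := by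
      unfold SD DS
      refine Finset.sum_congr rfl fun s hs => ?_
      rw [Finset.mem_range] at hs
      simp only [Finset.sum_range_one, Nat.zero_mul, Nat.zero_add, Nat.one_mul]
      exact Qn_top (hR.bst s hs.le) (hR.mem s hs)
        (fun v hv => lt_of_lt_of_le (SUMN_keys hR hM hs.le v hv) hMH)
    rw [h1, hc] at key
    set N0 := 32 * ρ * 20988 ^ k with hN0
    have hN : τ + 1 = 4 * N0 := by rw [hτ, hN0]; ring
    have hN1 : 0 < N0 := by omega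
    have h2 : N0 * (4 * DS T X m) ≤ N0 * ((τ + 1) * (RN τ ρ * W) + 2 * DS T X m) := by
      calc N0 * (4 * DS T X m) = (τ + 1) * DS T X m := by rw [hN]; ring
        _ ≤ _ := key
    have h3 := Nat.le_of_mul_le_mul_left h2 hN1
    omega
  · -- a 0 ≤ c
    simp only [Nat.sub_zero, pow_zero]
    have h1 : SN T X m H 1 ≤ 2 * m := by
      unfold SN
      calc ∑ s ∈ Finset.range m, ∑ j ∈ Finset.range 1, Nn (j * H) ((j + 1) * H) (X s) (T s) ≤
          ∑ s ∈ Finset.range m, 2 := Finset.sum_le_sum fun s _ => by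
            rw [Finset.sum_range_one]; exact Nn_le_two
        _ = 2 * m := by simp [mul_comm]
    have h2 : 2 * m ≤ RN τ ρ * W := by
      have : 100 * m ≤ RN τ ρ * W := Nat.mul_le_mul hRN1 (by omega)
      omega
    have h3 := Nat.mul_le_mul_left (τ + 1) (h1.trans h2)
    rw [← hH]
    omega
  · -- SUMN
    intro r hr
    have h1 := SUMN (τ := τ) (L := ρ ^ (k - (r + 1))) (P := ρ ^ r) hR hM (hpos _) hρ
    rw [hpow r hr, hpow2 r hr, ← pow_succ'] at h1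
    have h2 : RN τ ρ * (SWT X m H + M + ρ ^ r) ≤ RN τ ρ * W :=
      Nat.mul_le_mul_left _ (by have := hPH r hr.le; omega)
    have h3 := Nat.mul_le_mul_left (τ + 1) h2
    omega
  · -- b k ≤ a k
    simp only [Nat.sub_self, pow_zero]
    apply Nat.mul_le_mul_left
    unfold SD SN
    refine Finset.sum_le_sum fun s _ => Finset.sum_le_sum fun j _ => ?_
    simp only [Nat.mul_one]
    exact Qn_one
  · -- SUMD
    intro r hr
    have h1 := SUMD (τ := τ) (L := ρ ^ (k - (r + 1))) (P := ρ ^ r) hR hM (hpos _) hρ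
    rw [hpow r hr, hpow2 r hr, ← pow_succ'] at h1
    have h2 : 2 * τ * ρ * SWT X m H + ρ * (21 + 2 * τ) * (2 * M + ρ ^ r) ≤ RN τ ρ * W := by
      have h3 := hPH r hr.le
      have h4 : 2 * τ * ρ * SWT X m H + ρ * (21 + 2 * τ) * (2 * M + ρ ^ r) ≤
          (100 * (τ + 1) * ρ) * (SWT X m H + M + ρ ^ r) := by
        nlinarith [Nat.zero_le (τ * ρ * SWT X m H), Nat.zero_le (ρ * SWT X m H),
          Nat.zero_le (τ * ρ * M), Nat.zero_le (ρ * M), Nat.zero_le (τ * ρ * ρ ^ r),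
          Nat.zero_le (ρ * ρ ^ r)]
      exact h4.trans (Nat.mul_le_mul hRN (by omega))
    have h3 := Nat.mul_le_mul_left (τ + 1) h2
    omega

end Pool.Agent.SplNest
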