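import Pool.Agent.SplNest.Defs
import Pool.Agent.SplNest.Bas

set_option autoImplicit false

namespace Pool.Agent.SplNest

open BinaryTree Pool.Agent.MP_c42954_lc.Scan Pool.Agent.SplPat Pool.Agent.SplAll

private theorem Gss_lt {x a : ℕ} {l r : BinaryTree ℕ} (h : x < a) :
    ancs x (.node a l r) = ancs x l ++ [a] := by
  simp only [ancs]
  rw [if_neg (by omega), if_pos h]

private theorem Gss_gt {x a : ℕ} {l r : BinaryTree ℕ} (h : a < x) :
    ancs x (.node a l r) = ancs x r ++ [a] := by
  simp only [ancs]
  rw [if_neg (by omega), if_neg (by omega)]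

private theorem Gss_anc {x v : ℕ} : ∀ {t : BinaryTree ℕ}, v ∈ ancs x t → v ∈ inorder t
  | .nil, h => by simp [ancs] at h
  | .node a l r, h => by
      simp only [ancs] at h
      split_ifs at h with h1 h2
      · simp at h
      · rw [List.mem_append, List.mem_singleton] at h
        rcases h with h | h
        · simp [inorder, Gss_anc h]
        · simp [inorder, h]
      · rw [List.mem_append, List.mem_singleton] at h
        rcases h with h | h
        · simp [inorder, Gss_anc h]
        · simp [inorder, h]

/-- GSS_L.  PROOF.  Induction on `GS`.  base: no ancestors.  zl (`t = node g L D`): `SL L ⊆ SL t`; the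
new ancestor `g > x` has cell `≥ f x`, the cells of `SL A` are `≤ f x`.  ll: the same.  zr
(`A' = node g D A`): `SL A' = insert g (SL D) = SL t`; a touched cell `f w`, `w` a left ancestor,
`w ≥ g`, which is a cell of `SL A'`, is `f u` with `u ≤ g ≤ w`, so it is `f g`: take `p = q = g`.  rr
(`t = node g D (node p C R)`, `A' = node p (node g D C) A`): `SL A' = {p, g} ∪ SL D`, `SL t = {g} ∪
SL D`; touched cells: `f p`, `f g`: take `p = p`, `q = g`. -/
theorem GSS_L {f : ℕ → ℕ} (h : ∀ v w, v ≤ w → f v ≤ f w) {x : ℕ} {t A B : BinaryTree ℕ}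
    (hg : GS x t A B) (hb : IsBST t) : ∃ p ∈ insert x (ancs x t).toFinset,
      ∃ q ∈ insert x (ancs x t).toFinset, SL A ⊆ insert p (SL t) ∧
      ∀ v ∈ ancs x t, f v ≠ f x → f v ∈ (SL A).image f → f v = f p ∨ f v = f q := by
  have hA : ∀ u ∈ SL A, u < x := fun u hu =>
    (bst_node.1 (GS_bst hg hb)).2.2.1 u (SL_mem hu)
  induction hg with
  | base A B =>
    refine ⟨x, Finset.mem_insert_self _ _, x, Finset.mem_insert_self _ _, ?_, ?_⟩
    · intro u hu
      simp only [SL, Finset.mem_insert]
      exact Or.inr (Or.inr hu)
    · intro v hv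
      simp [ancs] at hv
  | @zl g L D A B h1 hL ih =>
    obtain ⟨hbL, -, -, -⟩ := bst_node.1 hb
    obtain ⟨p, hp, q, hq, h2, h3⟩ := ih hbL hA
    have hsub : insert x (ancs x L).toFinset ⊆ insert x (ancs x (.node g L D)).toFinset := by
      rw [Gss_lt h1]
      intro u hu
      simp only [Finset.mem_insert, List.mem_toFinset, List.mem_append] at hu ⊢
      tauto
    refine ⟨p, hsub hp, q, hsub hq, ?_, ?_⟩
    · intro u hu
      have h4 := h2 hu
      simp only [SL, Finset.mem_insert] at h4 ⊢
      tauto
    · intro v hv hvx hvA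
      rw [Gss_lt h1, List.mem_append, List.mem_singleton] at hv
      rcases hv with hv | hv
      · exact h3 v hv hvx hvA
      · obtain ⟨u, hu, huv⟩ := Finset.mem_image.1 hvA
        have h5 := h u x (hA u hu).le
        have h6 := h x g h1.le
        rw [hv] at huv hvx
        omega
  | @ll p' g L C D A B h1 h1' hL ih =>
    obtain ⟨hbP, -, -, -⟩ := bst_node.1 hb
    obtain ⟨hbL, -, -, -⟩ := bst_node.1 hbP
    obtain ⟨p, hp, q, hq, h2, h3⟩ := ih hbL hA
    have hxg : x < g := by omega
    have hsub : insert x (ancs x L).toFinset ⊆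
        insert x (ancs x (.node g (.node p' L C) D)).toFinset := by
      rw [Gss_lt hxg, Gss_lt h1]
      intro u hu
      simp only [Finset.mem_insert, List.mem_toFinset, List.mem_append] at hu ⊢
      tauto
    refine ⟨p, hsub hp, q, hsub hq, ?_, ?_⟩
    · intro u hu
      have h4 := h2 hu
      simp only [SL, Finset.mem_insert] at h4 ⊢
      tauto
    · intro v hv hvx hvA
      rw [Gss_lt hxg, Gss_lt h1, List.mem_append, List.mem_append, List.mem_singleton,
        List.mem_singleton] at hv
      obtain ⟨u, hu, huv⟩ := Finset.mem_image.1 hvA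
      have h5 := h u x (hA u hu).le
      rcases hv with (hv | hv) | hv
      · exact h3 v hv hvx hvA
      · have h6 := h x p' h1.le
        rw [hv] at huv hvx
        omega
      · have h6 := h x g hxg.le
        rw [hv] at huv hvx
        omega
  | @zr g R D A B h1 hR ih =>
    obtain ⟨hbD, hbR, hDg, hRg⟩ := bst_node.1 hb
    have hgm : g ∈ insert x (ancs x (.node g D R)).toFinset := by
      rw [Gss_gt h1]
      simp
    refine ⟨g, hgm, g, hgm, ?_, ?_⟩
    · intro u hu
      simp only [SL, Finset.mem_insert] at hu ⊢
      tauto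
    · intro v hv hvx hvA
      left
      rw [Gss_gt h1, List.mem_append, List.mem_singleton] at hv
      rcases hv with hv | hv
      · obtain ⟨u, hu, huv⟩ := Finset.mem_image.1 hvA
        have h5 : u ≤ g := by
          simp only [SL, Finset.mem_insert] at hu
          rcases hu with hu | hu
          · exact hu.le
          · exact (hDg u (SL_mem hu)).le
        have h6 := h u g h5
        have h7 := h g v (hRg v (Gss_anc hv)).le
        omega
      · rw [hv]
  | @rr p g R C D A B h1 h1' hR ih =>
    obtain ⟨hbD, hbP, hDg, hPg⟩ := bst_node.1 hb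
    obtain ⟨hbC, hbR, hCp, hRp⟩ := bst_node.1 hbP
    have hgx : g < x := by omega
    have hpm : p ∈ insert x (ancs x (.node g D (.node p C R))).toFinset := by
      rw [Gss_gt hgx, Gss_gt h1]
      simp
    have hgm : g ∈ insert x (ancs x (.node g D (.node p C R))).toFinset := by
      rw [Gss_gt hgx, Gss_gt h1]
      simp
    refine ⟨p, hpm, g, hgm, ?_, ?_⟩
    · intro u hu
      simp only [SL, Finset.mem_insert] at hu ⊢
      tauto
    · intro v hv hvx hvA
      rw [Gss_gt hgx, Gss_gt h1, List.mem_append, List.mem_append, List.mem_singleton,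
        List.mem_singleton] at hv
      rcases hv with (hv | hv) | hv
      · left
        obtain ⟨u, hu, huv⟩ := Finset.mem_image.1 hvA
        have h5 : u ≤ p := by
          simp only [SL, Finset.mem_insert] at hu
          rcases hu with hu | hu | hu
          · exact hu.le
          · omega
          · have := hDg u (SL_mem hu)
            omega
        have h6 := h u p h5
        have h7 := h p v (hRp v (Gss_anc hv)).le
        omega
      · left
        rw [hv]
      · right
        rw [hv]

/-- GSS_R: the mirror image. -/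
theorem GSS_R {f : ℕ → ℕ} (h : ∀ v w, v ≤ w → f v ≤ f w) {x : ℕ} {t A B : BinaryTree ℕ}
    (hg : GS x t A B) (hb : IsBST t) : ∃ p ∈ insert x (ancs x t).toFinset,
      ∃ q ∈ insert x (ancs x t).toFinset, SR B ⊆ insert p (SR t) ∧
      ∀ v ∈ ancs x t, f v ≠ f x → f v ∈ (SR B).image f → f v = f p ∨ f v = f q := by
  have hB : ∀ u ∈ SR B, x < u := fun u hu =>
    (bst_node.1 (GS_bst hg hb)).2.2.2 u (SR_mem hu)
  induction hg with
  | base A B =>
    refine ⟨x, Finset.mem_insert_self _ _, x, Finset.mem_insert_self _ _, ?_, ?_⟩
    · intro u hu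
      simp only [SR, Finset.mem_insert]
      exact Or.inr (Or.inr hu)
    · intro v hv
      simp [ancs] at hv
  | @zr g R D A B h1 hR ih =>
    obtain ⟨-, hbR, -, -⟩ := bst_node.1 hb
    obtain ⟨p, hp, q, hq, h2, h3⟩ := ih hbR hB
    have hsub : insert x (ancs x R).toFinset ⊆ insert x (ancs x (.node g D R)).toFinset := by
      rw [Gss_gt h1]
      intro u hu
      simp only [Finset.mem_insert, List.mem_toFinset, List.mem_append] at hu ⊢
      tauto
    refine ⟨p, hsub hp, q, hsub hq, ?_, ?_⟩
    · intro u hu
      have h4 := h2 hu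
      simp only [SR, Finset.mem_insert] at h4 ⊢
      tauto
    · intro v hv hvx hvB
      rw [Gss_gt h1, List.mem_append, List.mem_singleton] at hv
      rcases hv with hv | hv
      · exact h3 v hv hvx hvB
      · obtain ⟨u, hu, huv⟩ := Finset.mem_image.1 hvB
        have h5 := h x u (hB u hu).le
        have h6 := h g x h1.le
        rw [hv] at huv hvx
        omega
  | @rr p' g R C D A B h1 h1' hR ih =>
    obtain ⟨-, hbP, -, -⟩ := bst_node.1 hb
    obtain ⟨-, hbR, -, -⟩ := bst_node.1 hbP
    obtain ⟨p, hp, q, hq, h2, h3⟩ := ih hbR hB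
    have hgx : g < x := by omega
    have hsub : insert x (ancs x R).toFinset ⊆
        insert x (ancs x (.node g D (.node p' C R))).toFinset := by
      rw [Gss_gt hgx, Gss_gt h1]
      intro u hu
      simp only [Finset.mem_insert, List.mem_toFinset, List.mem_append] at hu ⊢
      tauto
    refine ⟨p, hsub hp, q, hsub hq, ?_, ?_⟩
    · intro u hu
      have h4 := h2 hu
      simp only [SR, Finset.mem_insert] at h4 ⊢
      tauto
    · intro v hv hvx hvB
      rw [Gss_gt hgx, Gss_gt h1, List.mem_append, List.mem_append, List.mem_singleton,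
        List.mem_singleton] at hv
      obtain ⟨u, hu, huv⟩ := Finset.mem_image.1 hvB
      have h5 := h x u (hB u hu).le
      rcases hv with (hv | hv) | hv
      · exact h3 v hv hvx hvB
      · have h6 := h p' x h1.le
        rw [hv] at huv hvx
        omega
      · have h6 := h g x hgx.le
        rw [hv] at huv hvx
        omega
  | @zl g L D A B h1 hL ih =>
    obtain ⟨hbL, hbD, hLg, hDg⟩ := bst_node.1 hb
    have hgm : g ∈ insert x (ancs x (.node g L D)).toFinset := by
      rw [Gss_lt h1]
      simp
    refine ⟨g, hgm, g, hgm, ?_, ?_⟩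
    · intro u hu
      simp only [SR, Finset.mem_insert] at hu ⊢
      tauto
    · intro v hv hvx hvB
      left
      rw [Gss_lt h1, List.mem_append, List.mem_singleton] at hv
      rcases hv with hv | hv
      · obtain ⟨u, hu, huv⟩ := Finset.mem_image.1 hvB
        have h5 : g ≤ u := by
          simp only [SR, Finset.mem_insert] at hu
          rcases hu with hu | hu
          · exact hu.ge
          · exact (hDg u (SR_mem hu)).le
        have h6 := h g u h5
        have h7 := h v g (hLg v (Gss_anc hv)).le
        omega
      · rw [hv]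
  | @ll p g L C D A B h1 h1' hL ih =>
    obtain ⟨hbP, hbD, hPg, hDg⟩ := bst_node.1 hb
    obtain ⟨hbL, hbC, hLp, hCp⟩ := bst_node.1 hbP
    have hgx : x < g := by omega
    have hpm : p ∈ insert x (ancs x (.node g (.node p L C) D)).toFinset := by
      rw [Gss_lt hgx, Gss_lt h1]
      simp
    have hgm : g ∈ insert x (ancs x (.node g (.node p L C) D)).toFinset := by
      rw [Gss_lt hgx, Gss_lt h1]
      simp
    refine ⟨p, hpm, g, hgm, ?_, ?_⟩
    · intro u hu
      simp only [SR, Finset.mem_insert] at hu ⊢
      tauto
    · intro v hv hvx hvB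
      rw [Gss_lt hgx, Gss_lt h1, List.mem_append, List.mem_append, List.mem_singleton,
        List.mem_singleton] at hv
      rcases hv with (hv | hv) | hv
      · left
        obtain ⟨u, hu, huv⟩ := Finset.mem_image.1 hvB
        have h5 : p ≤ u := by
          simp only [SR, Finset.mem_insert] at hu
          rcases hu with hu | hu | hu
          · exact hu.ge
          · omega
          · have := hDg u (SR_mem hu)
            omega
        have h6 := h p u h5
        have h7 := h v p (hLp v (Gss_anc hv)).le
        omega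
      · left
        rw [hv]
      · right
        rw [hv]

/-- GSS: the new spine nodes are `x` and at most two ancestors of `x`; at most four touched cells
other than the cell of `x` meet the new spines. -/
theorem GSS {f : ℕ → ℕ} (h : ∀ v w, v ≤ w → f v ≤ f w) {x : ℕ} {t A B : BinaryTree ℕ}
    (hg : GS x t A B) (hb : IsBST t) :
    (∃ P : Finset ℕ, P ⊆ insert x (ancs x t).toFinset ∧ P.card ≤ 3 ∧ x ∈ P ∧
      SL (.node x A B) ∪ SR (.node x A B) ⊆ (SL t ∪ SR t) ∪ P) ∧
    ((((ancs x t).toFinset.image f).erase (f x)) ∩ SC f (.node x A B)).card ≤ 4 := by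
  obtain ⟨p, hp, q, hq, h1, h2⟩ := GSS_L h hg hb
  obtain ⟨p', hp', q', hq', h1', h2'⟩ := GSS_R h hg hb
  refine ⟨⟨{x, p, p'}, ?_, Finset.card_le_three, by simp, ?_⟩, ?_⟩
  · intro u hu
    simp only [Finset.mem_insert, Finset.mem_singleton] at hu
    rcases hu with rfl | rfl | rfl
    · exact Finset.mem_insert_self _ _
    · exact hp
    · exact hp'
  · intro u hu
    have h3 := @h1 u
    have h4 := @h1' u
    simp only [SL, SR, Finset.mem_union, Finset.mem_insert, Finset.mem_singleton] at hu h3 h4 ⊢
    tauto
  · refine (Finset.card_le_card ?_).trans (Finset.card_le_four (a := f p) (b := f q) (c := f p')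
      (d := f q'))
    intro c hc
    rw [Finset.mem_inter, Finset.mem_erase, Finset.mem_image] at hc
    obtain ⟨⟨hcx, v, hv, rfl⟩, hc2⟩ := hc
    rw [List.mem_toFinset] at hv
    obtain ⟨u, hu, huv⟩ := Finset.mem_image.1 hc2
    simp only [SL, SR, Finset.mem_union, Finset.mem_insert] at hu
    simp only [Finset.mem_insert, Finset.mem_singleton]
    rcases hu with (hu | hu) | hu | hu
    · exact absurd (by rw [← huv, hu]) hcx
    · rcases h2 v hv hcx (by rw [← huv]; exact Finset.mem_image_of_mem f hu) with h3 | h3
      · exact Or.inl h3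
      · exact Or.inr (Or.inl h3)
    · exact absurd (by rw [← huv, hu]) hcx
    · rcases h2' v hv hcx (by rw [← huv]; exact Finset.mem_image_of_mem f hu) with h3 | h3
      · exact Or.inr (Or.inr (Or.inl h3))
      · exact Or.inr (Or.inr (Or.inr h3))

end Pool.Agent.SplNest
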