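import Pool.Agent.SplNest.Defs
import Pool.Agent.SplNest.Bas
import Pool.Agent.SplNest.RotIn
import Pool.Agent.SplNest.Spk
import Pool.Agent.SplNest.Gss

set_option autoImplicit false

namespace Pool.Agent.SplNest

open BinaryTree Pool.Agent.MP_c42954_lc.Scan Pool.Agent.SplPat Pool.Agent.SplAll

private theorem Hc_mem {x v : ℕ} : ∀ {t : BinaryTree ℕ}, v ∈ ancs x t → v ∈ inorder t
  | .nil, h => by simp [ancs] at h
  | .node a l r, h => by
      simp only [ancs] at h
      simp only [inorder, List.mem_append, List.mem_cons]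
      split_ifs at h with h1 h2
      · simp at h
      · rw [List.mem_append, List.mem_singleton] at h
        rcases h with h | h
        · exact Or.inl (Hc_mem h)
        · exact Or.inr (Or.inl h)
      · rw [List.mem_append, List.mem_singleton] at h
        rcases h with h | h
        · exact Or.inr (Or.inr (Hc_mem h))
        · exact Or.inr (Or.inl h)

/-- the last ancestor is the root -/
private theorem Hc_root {x w c : ℕ} {l1 : List ℕ} : ∀ {t : BinaryTree ℕ}, ancs x t = l1 ++ [w] →
    w ∈ gp c t
  | .nil, h => by simp [ancs] at h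
  | .node a l r, h => by
      simp only [ancs] at h
      have hw : w = a := by
        split_ifs at h with h1 h2
        · simp at h
        · have := (List.append_inj' h rfl).2
          simpa using this.symm
        · have := (List.append_inj' h rfl).2
          simpa using this.symm
      subst hw
      simp only [gp]
      split_ifs <;> simp

private theorem Hc_split {l l1 l2 : List ℕ} {a w v : ℕ} (h : l ++ [a] = l1 ++ w :: v :: l2) :
    (l2 = [] ∧ v = a ∧ l = l1 ++ [w]) ∨ ∃ l3, l2 = l3 ++ [a] ∧ l = l1 ++ w :: v :: l3 := by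
  rcases List.eq_nil_or_concat l2 with h2 | ⟨l3, b, h2⟩
  · subst h2
    left
    have h3 : l ++ [a] = (l1 ++ [w]) ++ [v] := by rw [h]; simp
    have h4 := List.append_inj' h3 rfl
    refine ⟨rfl, ?_, h4.1⟩
    simpa using h4.2.symm
  · right
    subst h2
    have h3 : l ++ [a] = (l1 ++ w :: v :: l3) ++ [b] := by rw [h]; simp
    have h4 := List.append_inj' h3 rfl
    have h5 : a = b := by simpa using h4.2
    subst h5
    exact ⟨l3, by simp, h4.1⟩

/-- The node below an ancestor `v ≥ c > x` of `x` is on the search path of the gap `c`. -/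
theorem HC_gp {c x w v : ℕ} {l1 l2 : List ℕ} : ∀ {t : BinaryTree ℕ}, IsBST t → x ∈ inorder t →
    ancs x t = l1 ++ w :: v :: l2 → x < c → c ≤ v → w ∈ gp c t := by
  intro t
  induction t generalizing l2 with
  | nil => intro _ _ h; simp [ancs] at h
  | node a l r ihl ihr =>
    intro hb hm h hxc hcv
    obtain ⟨hl, hr, hla, hra⟩ := bst_node.1 hb
    have hmem := hm
    simp only [inorder, List.mem_append, List.mem_cons] at hmem
    simp only [ancs] at h
    split_ifs at h with h1 h2
    · simp at h
    · have hml : x ∈ inorder l := by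
        rcases hmem with h3 | h3 | h3
        · exact h3
        · exact absurd h3 h1
        · exact absurd (hra x h3) (by omega)
      rcases Hc_split h with ⟨_, rfl, h4⟩ | ⟨l3, _, h4⟩
      · simp only [gp]
        rw [if_neg (by omega), List.mem_append]
        exact Or.inl (Hc_root h4)
      · have hv : v ∈ inorder l := Hc_mem (x := x) (by rw [h4]; simp)
        have hva := hla v hv
        simp only [gp]
        rw [if_neg (by omega), List.mem_append]
        exact Or.inl (ihl hl hml h4 hxc hcv)
    · have hmr : x ∈ inorder r := by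
        rcases hmem with h3 | h3 | h3
        · exact absurd (hla x h3) (by omega)
        · exact absurd h3 h1
        · exact h3
      have hax := hra x hmr
      rcases Hc_split h with ⟨_, rfl, h4⟩ | ⟨l3, _, h4⟩
      · omega
      · simp only [gp]
        rw [if_pos (by omega), List.mem_append]
        exact Or.inl (ihr hr hmr h4 hxc hcv)

/-- The mirror image. -/
theorem HC_gp' {c x w v : ℕ} {l1 l2 : List ℕ} : ∀ {t : BinaryTree ℕ}, IsBST t → x ∈ inorder t →
    ancs x t = l1 ++ w :: v :: l2 → c ≤ x → v < c → w ∈ gp c t := by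
  intro t
  induction t generalizing l2 with
  | nil => intro _ _ h; simp [ancs] at h
  | node a l r ihl ihr =>
    intro hb hm h hxc hcv
    obtain ⟨hl, hr, hla, hra⟩ := bst_node.1 hb
    have hmem := hm
    simp only [inorder, List.mem_append, List.mem_cons] at hmem
    simp only [ancs] at h
    split_ifs at h with h1 h2
    · simp at h
    · have hml : x ∈ inorder l := by
        rcases hmem with h3 | h3 | h3
        · exact h3
        · exact absurd h3 h1
        · exact absurd (hra x h3) (by omega)
      rcases Hc_split h with ⟨_, rfl, h4⟩ | ⟨l3, _, h4⟩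
      · omega
      · simp only [gp]
        rw [if_neg (by omega), List.mem_append]
        exact Or.inl (ihl hl hml h4 hxc hcv)
    · have hmr : x ∈ inorder r := by
        rcases hmem with h3 | h3 | h3
        · exact absurd (hla x h3) (by omega)
        · exact absurd h3 h1
        · exact h3
      have hax := hra x hmr
      rcases Hc_split h with ⟨_, rfl, h4⟩ | ⟨l3, _, h4⟩
      · simp only [gp]
        rw [if_pos (by omega), List.mem_append]
        exact Or.inl (Hc_root h4)
      · have hv : v ∈ inorder r := Hc_mem (x := x) (by rw [h4]; simp)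
        have hva := hra v hv
        simp only [gp]
        rw [if_pos (by omega), List.mem_append]
        exact Or.inl (ihr hr hmr h4 hxc hcv)

/-- HCS. -/
theorem HCS {f F : ℕ → ℕ} {lo hi x : ℕ} {t : BinaryTree ℕ} (hb : IsBST t) (hm : x ∈ inorder t)
    (h1 : lo ≤ x) (h2 : x < hi) : hc f F lo hi x t ⊆ SC f (res lo hi t) := by
  classical
  unfold hc SC
  rw [SPK hb (by omega)]
  refine Finset.image_subset_image ?_
  intro w hw
  obtain ⟨hw1, l1, l2, v, hv1, hv2, hv3⟩ := Finset.mem_filter.1 hw
  obtain ⟨hw2, -⟩ := Finset.mem_filter.1 hw1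
  obtain ⟨-, hw3, hw4⟩ := Finset.mem_filter.1 hw2
  unfold spn
  rw [Finset.mem_union, Finset.mem_filter, Finset.mem_filter]
  rcases hv3 with ⟨h3, h4⟩ | ⟨h3, h4⟩
  · right
    exact ⟨mem_Lg.2 ⟨HC_gp hb hm hv1 h2 (by omega), hw4⟩, hw3⟩
  · left
    exact ⟨mem_Rg.2 ⟨HC_gp' hb hm hv1 h1 (by omega), hw3⟩, hw4⟩

/-- HCC. -/
theorem HCC {f F : ℕ → ℕ} (h : Fac f F) {lo hi x : ℕ} {t : BinaryTree ℕ} (hb : IsBST t)
    (hm : x ∈ inorder t) (h1 : lo ≤ x) (h2 : x < hi) :
    (hc f F lo hi x t).card + (SC f (res lo hi (splay x t))).card ≤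
      (SC f (res lo hi t)).card + 7 ∧
    (SC f (res lo hi (splay x t))).card ≤ (SC f (res lo hi t)).card + 3 ∧
    ((∀ v ∈ tc lo hi x t, f v = f x) →
      SC f (res lo hi (splay x t)) ⊆ SC f (res lo hi t)) := by
  classical
  obtain ⟨A, B, hg, he⟩ := RSI hb hm h1 h2
  have hbT := res_bst (lo := lo) (hi := hi) hb
  obtain ⟨⟨P, hP1, hP2, -, hP4⟩, h4⟩ := GSS h.mf hg hbT
  rw [ANR_tc h1 h2] at hP1 h4
  rw [he]
  set S := SC f (res lo hi t) with hS
  set S' := SC f (.node x A B) with hS'
  have hsub : S' ⊆ S ∪ P.image f := by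
    rw [hS', hS]
    unfold SC
    rw [← Finset.image_union]
    exact Finset.image_subset_image hP4
  have hPc : (P.image f).card ≤ 3 := Finset.card_image_le.trans hP2
  have hdiff : (S' \ S).card ≤ 3 := by
    refine (Finset.card_le_card ?_).trans hPc
    intro y hy
    rw [Finset.mem_sdiff] at hy
    rcases Finset.mem_union.1 (hsub hy.1) with h5 | h5
    · exact absurd h5 hy.2
    · exact h5
  have hSS : hc f F lo hi x t ⊆ S := HCS hb hm h1 h2
  have htc : hc f F lo hi x t ⊆ ((tc lo hi x t).image f).erase (f x) := by
    intro y hy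
    unfold hc at hy
    obtain ⟨w, hw, rfl⟩ := Finset.mem_image.1 hy
    obtain ⟨hw1, -⟩ := Finset.mem_filter.1 hw
    obtain ⟨hw2, hw3⟩ := Finset.mem_filter.1 hw1
    rw [Finset.mem_erase]
    exact ⟨fun h5 => hw3 (h.fac w x h5), Finset.mem_image_of_mem f hw2⟩
  have hc1 : (hc f F lo hi x t ∩ S').card ≤ 4 :=
    (Finset.card_le_card (Finset.inter_subset_inter_right htc)).trans h4
  have hc2 : (hc f F lo hi x t \ S').card ≤ (S \ S').card :=
    Finset.card_le_card (Finset.sdiff_subset_sdiff hSS (le_refl _))
  have e1 := Finset.card_inter_add_card_sdiff (hc f F lo hi x t) S'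
  have e2 := Finset.card_inter_add_card_sdiff S S'
  have e3 := Finset.card_inter_add_card_sdiff S' S
  rw [Finset.inter_comm S' S] at e3
  refine ⟨by omega, ?_, ?_⟩
  · have := (Finset.card_le_card hsub).trans (Finset.card_union_le _ _)
    omega
  · intro hall
    have hfx : f x ∈ S := by
      have hmT : x ∈ inorder (res lo hi t) := (res_mem hb).2 ⟨hm, h1, h2⟩
      have hanc : ∀ v ∈ ancs x (res lo hi t), f v = f x := by
        intro v hv
        apply hall
        rw [← ANR_tc h1 h2]
        exact List.mem_toFinset.2 hv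
      rw [hS]
      generalize hT : res lo hi t = T at hmT hanc
      cases T with
      | nil => simp [inorder] at hmT
      | node b l r =>
        unfold SC
        rw [Finset.mem_image]
        refine ⟨b, Finset.mem_union_left _ (by simp [SL]), ?_⟩
        by_cases hxb : x = b
        · rw [hxb]
        · apply hanc
          simp only [ancs]
          rw [if_neg hxb]
          split_ifs <;> simp
    intro y hy
    rcases Finset.mem_union.1 (hsub hy) with h5 | h5
    · exact h5
    · obtain ⟨p, hp, rfl⟩ := Finset.mem_image.1 h5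
      rcases Finset.mem_insert.1 (hP1 hp) with h6 | h6
      · rw [h6]; exact hfx
      · rw [hall p h6]; exact hfx

end Pool.Agent.SplNest
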