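import Pool.Agent.SplNest.Bas
import Pool.Agent.SplNest.Spk
import Pool.Agent.SplNest.ThB
import Pool.Agent.SplNest.Epl

set_option autoImplicit false

namespace Pool.Agent.SplNest

open BinaryTree Pool.Agent.MP_c42954_lc.Scan Pool.Agent.SplPat Pool.Agent.SplAll

/-- The coarse number of a cell: `v / 2 ^ γ = (v / 2 ^ α) / 2 ^ (γ - α)`. -/
theorem InitD_div {α γ : ℕ} (h : α ≤ γ) (v : ℕ) : v / 2 ^ γ = v / 2 ^ α / 2 ^ (γ - α) := by
  rw [Nat.div_div_eq_div_mul, ← pow_add]
  congr 2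
  omega

theorem InitD_fac {α γ : ℕ} (h : α ≤ γ) : Fac (fun v => v / 2 ^ α) (fun v => v / 2 ^ γ) where
  mf := fun _ _ hvw => Nat.div_le_div_right hvw
  mF := fun _ _ hvw => Nat.div_le_div_right hvw
  fac := fun v w hvw => by
    have h1 : v / 2 ^ α = w / 2 ^ α := hvw
    change v / 2 ^ γ = w / 2 ^ γ
    rw [InitD_div h, InitD_div h, h1]

/-- The cells of the keys in the block number `i` of height `δ ≥ α`. -/
private theorem cells_sum {α δ M : ℕ} (h : α ≤ δ) (t : BinaryTree ℕ)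
    (hM : ∀ v ∈ inorder t, v < M) :
    ∑ i ∈ Finset.range M, (((inorder t).toFinset.filter
      (fun v => i * 2 ^ δ ≤ v ∧ v < (i + 1) * 2 ^ δ)).image (fun v => v / 2 ^ α)).card ≤
      M / 2 ^ α + 1 := by
  rw [← Finset.card_biUnion]
  · refine (Finset.card_le_card (t := Finset.range (M / 2 ^ α + 1)) ?_).trans (by simp)
    intro A hA
    simp only [Finset.mem_biUnion, Finset.mem_image, Finset.mem_filter, List.mem_toFinset,
      Finset.mem_range] at hA ⊢
    obtain ⟨i, _, v, ⟨h1, _⟩, rfl⟩ := hA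
    exact Nat.lt_succ_of_le (Nat.div_le_div_right (hM v h1).le)
  · intro i _ j _ hij
    simp only [Function.onFun]
    rw [Finset.disjoint_left]
    intro A hA hB
    simp only [Finset.mem_image, Finset.mem_filter, List.mem_toFinset] at hA hB
    obtain ⟨v, ⟨_, h1, h2⟩, h3⟩ := hA
    obtain ⟨w, ⟨_, h4, h5⟩, h6⟩ := hB
    have h0 : 0 < 2 ^ δ := by positivity
    have h7 : v / 2 ^ δ = i := by
      apply Nat.div_eq_of_lt_le
      · exact h1
      · exact h2
    have h8 : w / 2 ^ δ = j := by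
      apply Nat.div_eq_of_lt_le
      · exact h4
      · exact h5
    apply hij
    rw [← h7, ← h8, InitD_div h, InitD_div h, h3, h6]

private theorem res_img {lo hi α : ℕ} {t : BinaryTree ℕ} (hb : IsBST t) :
    ((inorder (res lo hi t)).toFinset.image (fun v => v / 2 ^ α)) =
      (((inorder t).toFinset.filter (fun v => lo ≤ v ∧ v < hi)).image (fun v => v / 2 ^ α)) := by
  congr 1
  ext v
  simp only [List.mem_toFinset, Finset.mem_filter]
  exact res_mem hb

private theorem spn_sub {a b : ℕ} {t : BinaryTree ℕ} (hb : IsBST t) (hab : a ≤ b) (f : ℕ → ℕ) :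
    (spn a b t).image f ⊆ (((inorder t).toFinset.filter (fun v => a ≤ v ∧ v < b)).image f) := by
  apply Finset.image_subset_image
  rw [← SPK hb hab]
  intro v hv
  rw [Finset.mem_union] at hv
  simp only [List.mem_toFinset, Finset.mem_filter]
  exact (res_mem hb).1 (hv.elim SL_mem SR_mem)

theorem INITD {τ α γ γ' M : ℕ} {X : ℕ → ℕ} {t : BinaryTree ℕ} (h1 : α ≤ γ) (h2 : γ ≤ γ')
    (hb : IsBST t) (hM : ∀ v ∈ inorder t, v < M) :
    PhiD τ α γ γ' M X 0 t ≤ (21 + 2 * τ) * (M / 2 ^ α + 1) := by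
  have hA := cells_sum (h1.trans h2) t hM
  have hB := cells_sum h1 t hM
  unfold PhiD
  have e1 : ∀ i ∈ Finset.range M,
      6 * (EE (fun v => v / 2 ^ α) (fun v => v / 2 ^ γ)
        (res (i * 2 ^ γ') ((i + 1) * 2 ^ γ') t)).card +
      9 * (SC (fun v => v / 2 ^ α) (res (i * 2 ^ γ') ((i + 1) * 2 ^ γ') t)).card ≤
      21 * (((inorder t).toFinset.filter
        (fun v => i * 2 ^ γ' ≤ v ∧ v < (i + 1) * 2 ^ γ')).image (fun v => v / 2 ^ α)).card := by
    intro i _
    have e2 := EPL (InitD_fac h1) (res_bst (lo := i * 2 ^ γ') (hi := (i + 1) * 2 ^ γ') hb)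
    rw [res_img hb] at e2
    have e3 : (SC (fun v => v / 2 ^ α) (res (i * 2 ^ γ') ((i + 1) * 2 ^ γ') t)).card ≤
        (((inorder t).toFinset.filter
        (fun v => i * 2 ^ γ' ≤ v ∧ v < (i + 1) * 2 ^ γ')).image (fun v => v / 2 ^ α)).card := by
      apply Finset.card_le_card
      unfold SC
      rw [SPK hb (Nat.mul_le_mul_right _ (Nat.le_succ i))]
      exact spn_sub hb (Nat.mul_le_mul_right _ (Nat.le_succ i)) _
    omega
  have e4 : ∀ i ∈ Finset.range M,
      Th τ (fun v => v / 2 ^ α) (exl α γ X 0 i) (i * 2 ^ γ) ((i + 1) * 2 ^ γ) t ≤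
      τ * (((inorder t).toFinset.filter
        (fun v => i * 2 ^ γ ≤ v ∧ v < (i + 1) * 2 ^ γ)).image (fun v => v / 2 ^ α)).card := by
    intro i _
    refine TH_le.trans (Nat.mul_le_mul_left _ (Finset.card_le_card ?_))
    exact spn_sub hb (Nat.mul_le_mul_right _ (Nat.le_succ i)) _
  have e5 := Finset.sum_le_sum e1
  have e6 := Finset.sum_le_sum e4
  rw [← Finset.mul_sum] at e5 e6
  calc _ ≤ 21 * (M / 2 ^ α + 1) + 2 * (τ * (M / 2 ^ α + 1)) := by
        refine Nat.add_le_add (e5.trans (Nat.mul_le_mul_left _ hA))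
          (Nat.mul_le_mul_left _ (e6.trans (Nat.mul_le_mul_left _ hB)))
    _ = _ := by ring

end Pool.Agent.SplNest
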