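import Pool.Agent.SplNest.Defs
import Pool.Agent.SplNest.Bas
import Pool.Agent.SplNest.RotIn
import Pool.Agent.SplNest.Alt
import Pool.Agent.SplNest.Hc
import Pool.Agent.SplNest.Cnt
import Pool.Agent.SplNest.Brk

set_option autoImplicit false

namespace Pool.Agent.SplNest

open BinaryTree Pool.Agent.MP_c42954_lc.Scan Pool.Agent.SplPat Pool.Agent.SplAll

private theorem LG_tc {F : ℕ → ℕ} {lo hi x : ℕ} {t : BinaryTree ℕ}
    (a b : ℕ → ℕ) (K : Finset ℕ) (hxK : F x ∉ K)
    (hK : ∀ c ∈ K, ∀ v, (a c ≤ v ∧ v < b c) ↔ (lo ≤ v ∧ v < hi ∧ F v = c)) {c : ℕ} (hc : c ∈ K) :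
    tc (a c) (b c) x t = (tcF F lo hi x t).filter (fun v => F v = c) := by
  ext v
  simp only [tc, tcF, Finset.mem_filter, List.mem_toFinset]
  rw [hK c hc v]
  constructor
  · rintro ⟨h1, h2, h3, h4⟩
    refine ⟨⟨⟨h1, h2, h3⟩, ?_⟩, h4⟩
    rintro h5
    exact hxK (by rw [← h5, h4]; exact hc)
  · rintro ⟨⟨⟨h1, h2, h3⟩, _⟩, h4⟩
    exact ⟨h1, h2, h3, h4⟩

/-- The touched cells split over the coarse cells (`tcF = ⋃_c tc (a c) (b c)`; the images under `f`
are disjoint, since `F` factors through `f`; the fibre of a cell `A` of the coarse cell `c` is the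
same in `tcF` and in `tc (a c) (b c)`). -/
theorem LG_split {τ : ℕ} {f F : ℕ → ℕ} (h : Fac f F) {lo hi x : ℕ} {t : BinaryTree ℕ}
    (a b : ℕ → ℕ) (K : Finset ℕ) (hxK : F x ∉ K)
    (hK : ∀ c ∈ K, ∀ v, (a c ≤ v ∧ v < b c) ↔ (lo ≤ v ∧ v < hi ∧ F v = c))
    (hT : ∀ v ∈ tcF F lo hi x t, F v ∈ K) :
    qn f F lo hi x t = ∑ c ∈ K, ((tc (a c) (b c) x t).image f).card ∧
    ∑ c ∈ K, lg τ f (a c) (b c) x t = lgn τ f F lo hi x t := by
  have hdis : ∀ c ∈ K, ∀ c' ∈ K, c ≠ c' → ∀ A, A ∈ (tc (a c) (b c) x t).image f →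
      A ∈ (tc (a c') (b c') x t).image f → False := by
    intro c hc c' hc' hne A h1 h2
    rw [LG_tc a b K hxK hK hc] at h1
    rw [LG_tc a b K hxK hK hc'] at h2
    simp only [Finset.mem_image, Finset.mem_filter] at h1 h2
    obtain ⟨v, ⟨_, h3⟩, h4⟩ := h1
    obtain ⟨w, ⟨_, h5⟩, h6⟩ := h2
    apply hne
    rw [← h3, ← h5]
    exact h.fac _ _ (h4.trans h6.symm)
  constructor
  · unfold qn
    rw [← Finset.card_biUnion]
    · congr 1
      ext A
      simp only [Finset.mem_image, Finset.mem_biUnion]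
      constructor
      · rintro ⟨v, h1, h2⟩
        refine ⟨F v, hT v h1, v, ?_, h2⟩
        rw [LG_tc a b K hxK hK (hT v h1), Finset.mem_filter]
        exact ⟨h1, rfl⟩
      · rintro ⟨c, hc, v, h1, h2⟩
        rw [LG_tc a b K hxK hK hc, Finset.mem_filter] at h1
        exact ⟨v, h1.1, h2⟩
    · intro c hc c' hc' hne
      simp only [Function.onFun]
      rw [Finset.disjoint_left]
      intro A h1 h2
      exact hdis c hc c' hc' hne A h1 h2
  · unfold lg lgn
    rw [← Finset.card_biUnion]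
    · congr 1
      ext A
      simp only [Finset.mem_biUnion, Finset.mem_filter]
      constructor
      · rintro ⟨c, hc, h1, h2⟩
        have h1' := h1
        rw [LG_tc a b K hxK hK hc] at h1 h2
        constructor
        · simp only [Finset.mem_image, Finset.mem_filter] at h1 ⊢
          obtain ⟨v, ⟨h3, _⟩, h4⟩ := h1
          exact ⟨v, h3, h4⟩
        · refine lt_of_lt_of_le h2 (Finset.card_le_card ?_)
          rw [Finset.filter_filter]
          intro v hv
          simp only [Finset.mem_filter] at hv ⊢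
          exact ⟨hv.1, hv.2.2⟩
      · rintro ⟨h1, h2⟩
        simp only [Finset.mem_image] at h1
        obtain ⟨v, h3, h4⟩ := h1
        refine ⟨F v, hT v h3, ?_, ?_⟩
        · rw [LG_tc a b K hxK hK (hT v h3)]
          simp only [Finset.mem_image, Finset.mem_filter]
          exact ⟨v, ⟨h3, rfl⟩, h4⟩
        · refine lt_of_lt_of_le h2 (Finset.card_le_card ?_)
          rw [LG_tc a b K hxK hK (hT v h3)]
          intro w hw
          simp only [Finset.mem_filter] at hw ⊢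
          exact ⟨⟨hw.1, h.fac _ _ (hw.2.trans h4.symm)⟩, hw.2⟩
    · intro c hc c' hc' hne
      simp only [Function.onFun]
      rw [Finset.disjoint_left]
      intro A h1 h2
      exact hdis c hc c' hc' hne A (Finset.mem_filter.1 h1).1 (Finset.mem_filter.1 h2).1

private theorem LG_q {F : ℕ → ℕ} {lo hi x : ℕ} {t : BinaryTree ℕ}
    (a b : ℕ → ℕ) (K : Finset ℕ) (hxK : F x ∉ K)
    (hK : ∀ c ∈ K, ∀ v, (a c ≤ v ∧ v < b c) ↔ (lo ≤ v ∧ v < hi ∧ F v = c)) :
    (K.filter (fun c => (tc (a c) (b c) x t).Nonempty)).card ≤ qn F F lo hi x t := by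
  unfold qn
  apply Finset.card_le_card
  intro c hc
  rw [Finset.mem_filter] at hc
  obtain ⟨hc, v, hv⟩ := hc
  rw [LG_tc a b K hxK hK hc, Finset.mem_filter] at hv
  rw [Finset.mem_image]
  exact ⟨v, hv⟩

/-- LG.  PROOF.  Let `q = qn F F lo hi x t` (the number of touched coarse cells `≠ F x`),
`K0 = {c ∈ K | tc (a c) (b c) x t ≠ ∅}`, so `|K0| = q`.  For `c ∈ K0` use `CNT` with the interval
`[a c, b c)` (`x` is outside, as `F x ≠ c`; `a c ≤ b c`), for `c ∈ K \ K0` use `TH_out`.  Sum, with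
`LG_split` and `BRK`:
`qn f F + 2 Σ Th' ≤ 2 Σ Th + 2 lgn + 3 (|hc| + 2 |altp|) + 8 q`.
If `q = 0`: `qn f F = 0` (`tcF = ∅`), `bro` etc. are empty, `Th' ≤ Th` for all `c` (`TH_out`), and
`EE' ⊆ EE` by `GE1` (through `RSI`: `res (splay x t) = node x A B`, `GS x (res t) A B`, `ANR_tc`),
`|SC'| ≤ |SC| + 3`, and `SC' ⊆ SC` if all touched nodes of `[lo, hi)` are in the cell of `x`
(`HCC`).
If `q ≥ 1`: `GE` for `res lo hi t`: `6 |altp| + 6 |EE'| ≤ 6 |EE| + 12 q + 72`; `HCC`:
`3 |hc| + 3 |SC'| ≤ 3 |SC| + 21` and `6 |SC'| ≤ 6 |SC| + 18`; total `8 q + 12 q + 111 ≤ 131 q`. -/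
theorem LG {τ : ℕ} {f F : ℕ → ℕ} (h : Fac f F) {lo hi x : ℕ} {t : BinaryTree ℕ} (hb : IsBST t)
    (hm : x ∈ inorder t) (hx : lo ≤ x ∧ x < hi) (a b : ℕ → ℕ) (K : Finset ℕ)
    (Ex : ℕ → Finset ℕ) (hE : ∀ c ∈ K, (Ex c).card ≤ 1) (hxK : F x ∉ K)
    (hab : ∀ c ∈ K, a c ≤ b c)
    (hK : ∀ c ∈ K, ∀ v, (a c ≤ v ∧ v < b c) ↔ (lo ≤ v ∧ v < hi ∧ F v = c))
    (hT : ∀ v ∈ tcF F lo hi x t, F v ∈ K) :
    qn f F lo hi x t + 2 * ∑ c ∈ K, Th τ f (Ex c) (a c) (b c) (splay x t) +
        6 * (EE f F (res lo hi (splay x t))).card + 9 * (SC f (res lo hi (splay x t))).card ≤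
      2 * ∑ c ∈ K, Th τ f (Ex c) (a c) (b c) t +
        6 * (EE f F (res lo hi t)).card + 9 * (SC f (res lo hi t)).card +
        2 * lgn τ f F lo hi x t + 131 * qn F F lo hi x t +
        27 * (if ∃ v ∈ tc lo hi x t, f v ≠ f x then 1 else 0) := by
  classical
  obtain ⟨A, B, hg, hn⟩ := RSI hb hm hx.1 hx.2
  have hrb : IsBST (res lo hi t) := res_bst hb
  have htc := ANR_tc (t := t) hx.1 hx.2
  have hq : (((ancs x (res lo hi t)).toFinset.filter (fun v => F v ≠ F x)).image F).card =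
      qn F F lo hi x t := by
    rw [htc]; rfl
  have hH := HCC h hb hm hx.1 hx.2
  have hxout : ∀ c ∈ K, x < a c ∨ b c ≤ x := by
    intro c hc
    by_contra h1
    push Not at h1
    have h2 := (hK c hc x).1 h1
    exact hxK (by rw [h2.2.2]; exact hc)
  have hsp := LG_split (τ := τ) h a b K hxK hK hT
  rcases Nat.eq_zero_or_pos (qn F F lo hi x t) with h0 | h0
  · have hE0 : tcF F lo hi x t = ∅ := by
      have : ((tcF F lo hi x t).image F).card = 0 := h0
      rw [Finset.card_eq_zero, Finset.image_eq_empty] at this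
      exact this
    have e1 : qn f F lo hi x t = 0 := by simp [qn, hE0]
    have e2 : ∑ c ∈ K, Th τ f (Ex c) (a c) (b c) (splay x t) ≤
        ∑ c ∈ K, Th τ f (Ex c) (a c) (b c) t :=
      Finset.sum_le_sum (fun c hc => TH_out hb hm (hab c hc) (hxout c hc))
    have e3 : (EE f F (res lo hi (splay x t))).card ≤ (EE f F (res lo hi t)).card := by
      rw [hn]
      exact Finset.card_le_card ((GE1 h hg hrb).2 (by rw [hq, h0]))
    have e4 : (SC f (res lo hi (splay x t))).card ≤ (SC f (res lo hi t)).card +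
        3 * (if ∃ v ∈ tc lo hi x t, f v ≠ f x then 1 else 0) := by
      by_cases h1 : ∃ v ∈ tc lo hi x t, f v ≠ f x
      · rw [if_pos h1]
        exact hH.2.1
      · rw [if_neg h1]
        push Not at h1
        exact Finset.card_le_card (hH.2.2 h1)
    omega
  · have e1 : ∑ c ∈ K, (((tc (a c) (b c) x t).image f).card +
        2 * Th τ f (Ex c) (a c) (b c) (splay x t)) ≤
        ∑ c ∈ K, (2 * Th τ f (Ex c) (a c) (b c) t + 2 * lg τ f (a c) (b c) x t +
          3 * (bro f (a c) (b c) x t).card +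
          8 * (if (tc (a c) (b c) x t).Nonempty then 1 else 0)) := by
      apply Finset.sum_le_sum
      intro c hc
      by_cases h1 : (tc (a c) (b c) x t).Nonempty
      · rw [if_pos h1]
        exact CNT h.mf (hE c hc) hb hm (hab c hc) (hxout c hc)
      · rw [if_neg h1]
        rw [Finset.not_nonempty_iff_eq_empty] at h1
        have h2 := TH_out (τ := τ) (f := f) (Ex := Ex c) hb hm (hab c hc) (hxout c hc)
        rw [h1]
        simp only [Finset.image_empty, Finset.card_empty]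
        omega
    have e2 := BRK h hb hm hx a b K hxK hK
    have e3 := LG_q (t := t) a b K hxK hK
    rw [Finset.card_filter] at e3
    simp only [Finset.sum_add_distrib, ← Finset.mul_sum] at e1
    have e4 := GE h hg hrb
    rw [hq, ← hn] at e4
    have e5 := hH.1
    have e6 := hH.2.1
    rw [hsp.1]
    rw [hsp.2] at e1
    generalize (if ∃ v ∈ tc lo hi x t, f v ≠ f x then 1 else 0) = z
    omega

end Pool.Agent.SplNest
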