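import Pool.Agent.SplNest.DBlk

set_option autoImplicit false

namespace Pool.Agent.SplNest

open BinaryTree Pool.Agent.MP_c42954_lc.Scan Pool.Agent.SplPat Pool.Agent.SplAll

/-- The distance determines the shell. -/
theorem dst_spec {ρ : ℕ} {g : ℕ → ℕ} (hg : ∀ j, g j ≤ g (j + 1)) {x v : ℕ}
    (h : v / 2 ^ g ρ = x / 2 ^ g ρ) :
    v / 2 ^ g (dst ρ g x v) = x / 2 ^ g (dst ρ g x v) ∧
      ∀ j < dst ρ g x v, v / 2 ^ g j ≠ x / 2 ^ g j := by
  classical
  have hex : ∃ j, v / 2 ^ g j = x / 2 ^ g j := ⟨ρ, h⟩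
  have h1 : Nat.find hex ≤ ρ := Nat.find_min' hex h
  have h2 : dst ρ g x v = Nat.find hex := by
    unfold dst
    have h3 : (Finset.range ρ).filter (fun j => v / 2 ^ g j ≠ x / 2 ^ g j) =
        Finset.range (Nat.find hex) := by
      ext j
      rw [Finset.mem_filter, Finset.mem_range, Finset.mem_range]
      constructor
      · rintro ⟨_, h4⟩
        by_contra h5
        exact h4 (div_pow_up (gle hg (not_lt.1 h5)) (Nat.find_spec hex))
      · intro h4
        exact ⟨by omega, Nat.find_min hex h4⟩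
    rw [h3, Finset.card_range]
  rw [h2]
  exact ⟨Nat.find_spec hex, fun j hj => Nat.find_min hex hj⟩

theorem dst_shell {ρ j : ℕ} {g : ℕ → ℕ} (hg : ∀ j, g j ≤ g (j + 1)) {x v : ℕ} (hj : j < ρ)
    (h1 : v / 2 ^ g (j + 1) = x / 2 ^ g (j + 1)) (h2 : v / 2 ^ g j ≠ x / 2 ^ g j) :
    dst ρ g x v = j + 1 := by
  unfold dst
  have h3 : (Finset.range ρ).filter (fun j => v / 2 ^ g j ≠ x / 2 ^ g j) =
      Finset.range (j + 1) := by
    ext i
    rw [Finset.mem_filter, Finset.mem_range, Finset.mem_range]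
    constructor
    · rintro ⟨_, h4⟩
      by_contra h5
      exact h4 (div_pow_up (gle hg (not_lt.1 h5)) h1)
    · intro h4
      exact ⟨by omega, fun h5 => h2 (div_pow_up (gle hg (Nat.lt_succ_iff.1 h4)) h5)⟩
  rw [h3, Finset.card_range]

theorem FS_self {α x : ℕ} : FS α x x = 1 := by
  unfold FS
  rw [if_neg (lt_irrefl _), if_pos rfl]

theorem FS_ne {α x v : ℕ} : FS α x v ≠ FS α x x ↔ v / 2 ^ α ≠ x / 2 ^ α := by
  rw [FS_self]
  unfold FS
  split_ifs <;> simp <;> omega

theorem mem_tcS {ρ x v : ℕ} {g : ℕ → ℕ} {t : BinaryTree ℕ} :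
    v ∈ tcF (FS (g 0) x) (x / 2 ^ g ρ * 2 ^ g ρ) ((x / 2 ^ g ρ + 1) * 2 ^ g ρ) x t ↔
      v ∈ an (g 0) (g ρ) x t := by
  unfold tcF tc an
  rw [Finset.filter_filter, Finset.mem_filter, Finset.mem_filter, blk_iff, FS_ne]

theorem tcS_eq {ρ x : ℕ} {g : ℕ → ℕ} {t : BinaryTree ℕ} :
    tcF (FS (g 0) x) (x / 2 ^ g ρ * 2 ^ g ρ) ((x / 2 ^ g ρ + 1) * 2 ^ g ρ) x t =
      an (g 0) (g ρ) x t := by
  ext v
  exact mem_tcS

theorem sum_ite_card (n : ℕ) (P : ℕ → Prop) [DecidablePred P] :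
    ∑ j ∈ Finset.range n, (if P j then 1 else 0) = ((Finset.range n).filter P).card := by
  rw [Finset.card_filter]

theorem fS_shellL {ρ j : ℕ} {g : ℕ → ℕ} (hg : ∀ j, g j ≤ g (j + 1)) {x v : ℕ} (hj : j < ρ)
    (h1 : v / 2 ^ g (j + 1) = x / 2 ^ g (j + 1)) (h2 : v / 2 ^ g j ≠ x / 2 ^ g j) (h3 : v < x) :
    fS ρ g x v = ρ - (j + 1) := by
  unfold fS
  rw [if_pos h3, dst_shell hg hj h1 h2]

theorem fS_shellR {ρ j : ℕ} {g : ℕ → ℕ} (hg : ∀ j, g j ≤ g (j + 1)) {x v : ℕ} (hj : j < ρ)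
    (h1 : v / 2 ^ g (j + 1) = x / 2 ^ g (j + 1)) (h2 : v / 2 ^ g j ≠ x / 2 ^ g j) (h3 : x < v) :
    fS ρ g x v = ρ + (j + 1) := by
  unfold fS
  rw [if_neg (by omega), dst_shell hg hj h1 h2]

theorem mem_an {α β x v : ℕ} {t : BinaryTree ℕ} : v ∈ an α β x t ↔
    v ∈ ancs x t ∧ v / 2 ^ β = x / 2 ^ β ∧ v / 2 ^ α ≠ x / 2 ^ α := by
  unfold an
  rw [Finset.mem_filter, List.mem_toFinset]

theorem an_sub {ρ j x : ℕ} {g : ℕ → ℕ} (hg : ∀ j, g j ≤ g (j + 1)) {t : BinaryTree ℕ}
    (hj : j < ρ) : an (g j) (g (j + 1)) x t ⊆ an (g 0) (g ρ) x t := by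
  intro v hv
  rw [mem_an] at hv ⊢
  exact ⟨hv.1, div_pow_up (gle hg hj) hv.2.1,
    fun h => hv.2.2 (div_pow_up (gle hg (Nat.zero_le j)) h)⟩

/-- The touched shells are touched cells. -/
theorem sumNn_le {ρ x : ℕ} {g : ℕ → ℕ} (hg : ∀ j, g j ≤ g (j + 1)) {t : BinaryTree ℕ} :
    ∑ j ∈ Finset.range ρ, Nn (g j) (g (j + 1)) x t ≤
      qn (fS ρ g x) (FS (g 0) x) (x / 2 ^ g ρ * 2 ^ g ρ) ((x / 2 ^ g ρ + 1) * 2 ^ g ρ) x t := by
  unfold Nn qn
  rw [Finset.sum_add_distrib, sum_ite_card, sum_ite_card, tcS_eq]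
  set TL := (Finset.range ρ).filter
    (fun j => ((an (g j) (g (j + 1)) x t).filter (fun v => v < x)).Nonempty) with hTL
  set TR := (Finset.range ρ).filter
    (fun j => ((an (g j) (g (j + 1)) x t).filter (fun v => x < v)).Nonempty) with hTR
  have hL : TL.card = (TL.image (fun j => ρ - (j + 1))).card := by
    rw [Finset.card_image_of_injOn]
    intro i hi j hj hij
    have h1 := (Finset.mem_filter.1 (Finset.mem_coe.1 hi)).1
    have h2 := (Finset.mem_filter.1 (Finset.mem_coe.1 hj)).1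
    rw [Finset.mem_range] at h1 h2
    simp only at hij
    omega
  have hR : TR.card = (TR.image (fun j => ρ + (j + 1))).card := by
    rw [Finset.card_image_of_injOn]
    intro i _ j _ hij
    simp only at hij
    omega
  rw [hL, hR, ← Finset.card_union_of_disjoint]
  · apply Finset.card_le_card
    intro A hA
    rw [Finset.mem_union, Finset.mem_image, Finset.mem_image] at hA
    rw [Finset.mem_image]
    rcases hA with ⟨j, hj, rfl⟩ | ⟨j, hj, rfl⟩
    · rw [hTL, Finset.mem_filter, Finset.mem_range] at hj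
      obtain ⟨v, hv⟩ := hj.2
      rw [Finset.mem_filter] at hv
      have h1 := mem_an.1 hv.1
      exact ⟨v, an_sub hg hj.1 hv.1, fS_shellL hg hj.1 h1.2.1 h1.2.2 hv.2⟩
    · rw [hTR, Finset.mem_filter, Finset.mem_range] at hj
      obtain ⟨v, hv⟩ := hj.2
      rw [Finset.mem_filter] at hv
      have h1 := mem_an.1 hv.1
      exact ⟨v, an_sub hg hj.1 hv.1, fS_shellR hg hj.1 h1.2.1 h1.2.2 hv.2⟩
  · rw [Finset.disjoint_left]
    intro A hA hB
    rw [Finset.mem_image] at hA hB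
    obtain ⟨i, hi, rfl⟩ := hA
    obtain ⟨j, hj, h1⟩ := hB
    omega

/-- The cells with many touched nodes are shells with many touched nodes. -/
theorem lgn_le {τ ρ x : ℕ} {g : ℕ → ℕ} (hρ : 0 < ρ) (hg : ∀ j, g j ≤ g (j + 1))
    {t : BinaryTree ℕ} :
    lgn τ (fS ρ g x) (FS (g 0) x) (x / 2 ^ g ρ * 2 ^ g ρ) ((x / 2 ^ g ρ + 1) * 2 ^ g ρ) x t ≤
      ∑ j ∈ Finset.range ρ, LN τ (g j) (g (j + 1)) x t := by
  unfold LN lgn
  rw [Finset.sum_add_distrib, sum_ite_card, sum_ite_card, tcS_eq]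
  set TL := (Finset.range ρ).filter
    (fun j => τ < ((an (g j) (g (j + 1)) x t).filter (fun v => v < x)).card) with hTL
  set TR := (Finset.range ρ).filter
    (fun j => τ < ((an (g j) (g (j + 1)) x t).filter (fun v => x < v)).card) with hTR
  have hsub : ((an (g 0) (g ρ) x t).image (fS ρ g x)).filter
      (fun A => τ < ((an (g 0) (g ρ) x t).filter (fun v => fS ρ g x v = A)).card) ⊆
      TL.image (fun j => ρ - (j + 1)) ∪ TR.image (fun j => ρ + (j + 1)) := by
    intro A hA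
    rw [Finset.mem_filter, Finset.mem_image] at hA
    obtain ⟨⟨v0, hv0, rfl⟩, hc⟩ := hA
    have h0 := mem_an.1 hv0
    have hd := dst_pos hρ (g := g) (u := x) (v := v0) h0.2.2
    have hdl := dst_le ρ g x v0
    obtain ⟨j, hj⟩ : ∃ j, dst ρ g x v0 = j + 1 := ⟨dst ρ g x v0 - 1, by omega⟩
    have hjρ : j < ρ := by omega
    have hne : v0 ≠ x := fun h => h0.2.2 (by rw [h])
    -- the fibre lies in the shell
    have key : ∀ v ∈ an (g 0) (g ρ) x t, dst ρ g x v = j + 1 → v ∈ an (g j) (g (j + 1)) x t := by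
      intro v hv h1
      have h2 := mem_an.1 hv
      have h3 := dst_spec hg h2.2.1
      rw [h1] at h3
      exact mem_an.2 ⟨h2.1, h3.1, h3.2 j (Nat.lt_succ_self j)⟩
    rw [Finset.mem_union, Finset.mem_image, Finset.mem_image]
    rcases Nat.lt_or_gt_of_ne hne with h4 | h4
    · left
      have h5 : fS ρ g x v0 = ρ - (j + 1) := by
        unfold fS
        rw [if_pos h4, hj]
      refine ⟨j, ?_, h5.symm⟩
      rw [hTL, Finset.mem_filter, Finset.mem_range]
      refine ⟨hjρ, lt_of_lt_of_le hc (Finset.card_le_card ?_)⟩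
      intro v hv
      rw [Finset.mem_filter] at hv ⊢
      have h6 := dst_le ρ g x v
      have h7 : v < x := by
        by_contra h8
        have h9 := hv.2
        rw [h5] at h9
        unfold fS at h9
        rw [if_neg h8] at h9
        omega
      refine ⟨key v hv.1 ?_, h7⟩
      have h9 := hv.2
      rw [h5] at h9
      unfold fS at h9
      rw [if_pos h7] at h9
      omega
    · right
      have h5 : fS ρ g x v0 = ρ + (j + 1) := by
        unfold fS
        rw [if_neg (by omega), hj]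
      refine ⟨j, ?_, h5.symm⟩
      rw [hTR, Finset.mem_filter, Finset.mem_range]
      refine ⟨hjρ, lt_of_lt_of_le hc (Finset.card_le_card ?_)⟩
      intro v hv
      rw [Finset.mem_filter] at hv ⊢
      have h6 := dst_le ρ g x v
      have h7 : ¬ v < x := by
        intro h8
        have h9 := hv.2
        rw [h5] at h9
        unfold fS at h9
        rw [if_pos h8] at h9
        omega
      have h10 : dst ρ g x v = j + 1 := by
        have h9 := hv.2
        rw [h5] at h9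
        unfold fS at h9
        rw [if_neg h7] at h9
        omega
      refine ⟨key v hv.1 h10, ?_⟩
      have h11 : v ≠ x := fun h => (mem_an.1 hv.1).2.2 (by rw [h])
      omega
  refine (Finset.card_le_card hsub).trans ((Finset.card_union_le _ _).trans ?_)
  exact Nat.add_le_add Finset.card_image_le Finset.card_image_le

/-- The touched coarse cells are touched sides. -/
theorem qnF_le {ρ x : ℕ} {g : ℕ → ℕ} {t : BinaryTree ℕ} :
    qn (FS (g 0) x) (FS (g 0) x) (x / 2 ^ g ρ * 2 ^ g ρ) ((x / 2 ^ g ρ + 1) * 2 ^ g ρ) x t ≤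
      Nn (g 0) (g ρ) x t := by
  unfold qn Nn
  rw [tcS_eq]
  have hsub : (an (g 0) (g ρ) x t).image (FS (g 0) x) ⊆
      (if ((an (g 0) (g ρ) x t).filter (fun v => v < x)).Nonempty then {0} else ∅) ∪
      (if ((an (g 0) (g ρ) x t).filter (fun v => x < v)).Nonempty then {2} else ∅) := by
    intro A hA
    rw [Finset.mem_image] at hA
    obtain ⟨v, hv, rfl⟩ := hA
    have h1 := (mem_an.1 hv).2.2
    rw [Finset.mem_union]
    rcases Nat.lt_or_gt_of_ne h1 with h2 | h2
    · left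
      have h3 : v < x := by
        by_contra h4
        have := Nat.div_le_div_right (c := 2 ^ g 0) (not_lt.1 h4)
        omega
      have h4 : ((an (g 0) (g ρ) x t).filter (fun v => v < x)).Nonempty :=
        ⟨v, Finset.mem_filter.2 ⟨hv, h3⟩⟩
      rw [if_pos h4]
      unfold FS
      rw [if_pos h2]
      exact Finset.mem_singleton_self _
    · right
      have h3 : x < v := by
        by_contra h4
        have := Nat.div_le_div_right (c := 2 ^ g 0) (not_lt.1 h4)
        omega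
      have h4 : ((an (g 0) (g ρ) x t).filter (fun v => x < v)).Nonempty :=
        ⟨v, Finset.mem_filter.2 ⟨hv, h3⟩⟩
      rw [if_pos h4]
      unfold FS
      rw [if_neg (by omega), if_neg (by omega)]
      exact Finset.mem_singleton_self _
  refine (Finset.card_le_card hsub).trans ((Finset.card_union_le _ _).trans ?_)
  refine Nat.add_le_add ?_ ?_ <;> split_ifs <;> simp

end Pool.Agent.SplNest
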