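import Pool.Agent.SplNest.Defs

set_option autoImplicit false

namespace Pool.Agent.SplNest

open BinaryTree Pool.Agent.MP_c42954_lc.Scan Pool.Agent.SplPat Pool.Agent.SplAll

theorem div_pow_up {u v a b : ℕ} (h : a ≤ b) (h1 : v / 2 ^ a = u / 2 ^ a) :
    v / 2 ^ b = u / 2 ^ b := by
  obtain ⟨d, rfl⟩ := Nat.exists_eq_add_of_le h
  rw [pow_add, ← Nat.div_div_eq_div_mul, ← Nat.div_div_eq_div_mul, h1]

theorem gle {g : ℕ → ℕ} (hg : ∀ j, g j ≤ g (j + 1)) {i j : ℕ} (h : i ≤ j) : g i ≤ g j :=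
  monotone_nat_of_le_succ hg h

theorem dst_le (ρ : ℕ) (g : ℕ → ℕ) (u v : ℕ) : dst ρ g u v ≤ ρ := by
  unfold dst
  exact (Finset.card_filter_le _ _).trans (by rw [Finset.card_range])

theorem dst_zero {ρ : ℕ} {g : ℕ → ℕ} (hg : ∀ j, g j ≤ g (j + 1)) {u v : ℕ}
    (h : v / 2 ^ g 0 = u / 2 ^ g 0) : dst ρ g u v = 0 := by
  unfold dst
  rw [Finset.card_eq_zero, Finset.filter_eq_empty_iff]
  intro j _ h1
  exact h1 (div_pow_up (gle hg (Nat.zero_le j)) h)

theorem dst_pos {ρ : ℕ} {g : ℕ → ℕ} (hρ : 0 < ρ) {u v : ℕ}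
    (h : v / 2 ^ g 0 ≠ u / 2 ^ g 0) : 0 < dst ρ g u v := by
  unfold dst
  exact Finset.card_pos.2 ⟨0, Finset.mem_filter.2 ⟨Finset.mem_range.2 hρ, h⟩⟩

theorem dst_between {ρ : ℕ} {g : ℕ → ℕ} {u v w : ℕ} (h : (v ≤ w ∧ w ≤ u) ∨ (u ≤ w ∧ w ≤ v)) :
    dst ρ g u w ≤ dst ρ g u v := by
  unfold dst
  apply Finset.card_le_card
  intro j hj
  rw [Finset.mem_filter] at hj ⊢
  refine ⟨hj.1, fun h1 => hj.2 ?_⟩
  rcases h with ⟨h2, h3⟩ | ⟨h2, h3⟩
  · have h4 : v / 2 ^ g j ≤ w / 2 ^ g j := Nat.div_le_div_right h2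
    have h5 : w / 2 ^ g j ≤ u / 2 ^ g j := Nat.div_le_div_right h3
    omega
  · have h4 : u / 2 ^ g j ≤ w / 2 ^ g j := Nat.div_le_div_right h2
    have h5 : w / 2 ^ g j ≤ v / 2 ^ g j := Nat.div_le_div_right h3
    omega

/-- `fS < ρ`, `= ρ`, `> ρ`: left of the block of `u`, in it, right of it. -/
theorem fS_lt {ρ : ℕ} {g : ℕ → ℕ} (hρ : 0 < ρ) {u v : ℕ} (h : v / 2 ^ g 0 < u / 2 ^ g 0) :
    fS ρ g u v < ρ := by
  have h1 : v < u := by
    by_contra h2
    have := Nat.div_le_div_right (c := 2 ^ g 0) (not_lt.1 h2)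
    omega
  unfold fS
  rw [if_pos h1]
  have := dst_pos hρ (g := g) (u := u) (v := v) (by omega)
  omega

theorem fS_eq {ρ : ℕ} {g : ℕ → ℕ} (hg : ∀ j, g j ≤ g (j + 1)) {u v : ℕ}
    (h : v / 2 ^ g 0 = u / 2 ^ g 0) : fS ρ g u v = ρ := by
  unfold fS
  rw [dst_zero hg h]
  split_ifs <;> omega

theorem fS_gt {ρ : ℕ} {g : ℕ → ℕ} (hρ : 0 < ρ) {u v : ℕ} (h : u / 2 ^ g 0 < v / 2 ^ g 0) :
    ρ < fS ρ g u v := by
  have h1 : ¬ v < u := by
    intro h2
    have := Nat.div_le_div_right (c := 2 ^ g 0) h2.le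
    omega
  unfold fS
  rw [if_neg h1]
  have := dst_pos hρ (g := g) (u := u) (v := v) (by omega)
  omega

theorem fS_le (ρ : ℕ) (g : ℕ → ℕ) (u v : ℕ) : fS ρ g u v ≤ 2 * ρ := by
  have := dst_le ρ g u v
  unfold fS
  split_ifs <;> omega

/-- The shells and the three coarse cells form a pair of colourings. -/
theorem fS_fac {ρ : ℕ} {g : ℕ → ℕ} (hρ : 0 < ρ) (hg : ∀ j, g j ≤ g (j + 1)) (u : ℕ) :
    Fac (fS ρ g u) (FS (g 0) u) where
  mf := by
    intro v w hvw
    have d1 := dst_le ρ g u v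
    have d2 := dst_le ρ g u w
    by_cases h1 : v < u
    · by_cases h2 : w < u
      · have := dst_between (ρ := ρ) (g := g) (u := u) (v := v) (w := w) (Or.inl ⟨hvw, h2.le⟩)
        unfold fS
        rw [if_pos h1, if_pos h2]
        omega
      · unfold fS
        rw [if_pos h1, if_neg h2]
        omega
    · have h2 : ¬ w < u := by omega
      have := dst_between (ρ := ρ) (g := g) (u := u) (v := w) (w := v)
        (Or.inr ⟨by omega, hvw⟩)
      unfold fS
      rw [if_neg h1, if_neg h2]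
      omega
  mF := by
    intro v w hvw
    have := Nat.div_le_div_right (c := 2 ^ g 0) hvw
    unfold FS
    split_ifs <;> omega
  fac := by
    intro v w h
    rcases Nat.lt_trichotomy (v / 2 ^ g 0) (u / 2 ^ g 0) with h1 | h1 | h1 <;>
    rcases Nat.lt_trichotomy (w / 2 ^ g 0) (u / 2 ^ g 0) with h2 | h2 | h2
    · unfold FS; rw [if_pos h1, if_pos h2]
    · have k1 := fS_lt hρ h1
      have k2 := fS_eq (ρ := ρ) hg h2
      omega
    · have k1 := fS_lt hρ h1
      have k2 := fS_gt hρ h2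
      omega
    · have k1 := fS_eq (ρ := ρ) hg h1
      have k2 := fS_lt hρ h2
      omega
    · unfold FS; rw [h1, h2]
    · have k1 := fS_eq (ρ := ρ) hg h1
      have k2 := fS_gt hρ h2
      omega
    · have k1 := fS_gt hρ h1
      have k2 := fS_lt hρ h2
      omega
    · have k1 := fS_gt hρ h1
      have k2 := fS_eq (ρ := ρ) hg h2
      omega
    · unfold FS
      rw [if_neg (by omega), if_neg (by omega), if_neg (by omega), if_neg (by omega)]

/-- The shells depend only on the block of `u` of height `g 0`. -/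
theorem fS_congr {ρ : ℕ} {g : ℕ → ℕ} (hg : ∀ j, g j ≤ g (j + 1)) {u u' : ℕ}
    (h : u / 2 ^ g 0 = u' / 2 ^ g 0) : fS ρ g u = fS ρ g u' := by
  funext v
  by_cases h1 : v / 2 ^ g 0 = u / 2 ^ g 0
  · rw [fS_eq hg h1, fS_eq hg (h1.trans h)]
  · have h2 : dst ρ g u v = dst ρ g u' v := by
      unfold dst
      congr 1
      apply Finset.filter_congr
      intro j _
      rw [div_pow_up (gle hg (Nat.zero_le j)) h]
    have h3 : v < u ↔ v < u' := by
      constructor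
      · intro h4
        by_contra h5
        have k1 := Nat.div_le_div_right (c := 2 ^ g 0) h4.le
        have k2 := Nat.div_le_div_right (c := 2 ^ g 0) (not_lt.1 h5)
        omega
      · intro h4
        by_contra h5
        have k1 := Nat.div_le_div_right (c := 2 ^ g 0) h4.le
        have k2 := Nat.div_le_div_right (c := 2 ^ g 0) (not_lt.1 h5)
        omega
    unfold fS
    rw [h2]
    simp only [h3]

theorem FS_congr {α u u' : ℕ} (h : u / 2 ^ α = u' / 2 ^ α) : FS α u = FS α u' := by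
  funext v
  unfold FS
  rw [h]

theorem psi_congr {τ ρ i : ℕ} {g : ℕ → ℕ} (hg : ∀ j, g j ≤ g (j + 1)) {u u' : ℕ}
    (h : u / 2 ^ g 0 = u' / 2 ^ g 0) (t : BinaryTree ℕ) : psi τ ρ g i u t = psi τ ρ g i u' t := by
  unfold psi
  rw [fS_congr hg h, FS_congr h, h]

end Pool.Agent.SplNest
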