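import Pool.Agent.SplNest.NCell
import Pool.Agent.SplNest.Bas
import Pool.Agent.SplNest.ThB

set_option autoImplicit false

namespace Pool.Agent.SplNest

open BinaryTree Pool.Agent.MP_c42954_lc.Scan Pool.Agent.SplPat Pool.Agent.SplAll

theorem EE_mem {f F : ℕ → ℕ} {t : BinaryTree ℕ} {q : ℕ × ℕ} (h : q ∈ EE f F t) :
    ∃ u v, q ∈ pr f F u v := by
  unfold EE at h
  rw [Finset.mem_union, Finset.mem_union] at h
  rcases h with (h | h) | h
  · obtain ⟨u, _, v, _, h1⟩ := E0_mem h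
    exact ⟨u, v, h1⟩
  · cases t with
    | nil => simp [XL] at h
    | node b l r =>
      obtain ⟨u, _, v, _, h1⟩ := XH_mem (show q ∈ XH f F b l from h)
      exact ⟨u, v, h1⟩
  · cases t with
    | nil => simp [XR] at h
    | node b l r =>
      obtain ⟨u, _, v, _, h1⟩ := XG_mem (show q ∈ XG f F b r from h)
      exact ⟨u, v, h1⟩

theorem EE_card_le {f F : ℕ → ℕ} {n : ℕ} (hf : ∀ v, f v < n) (t : BinaryTree ℕ) :
    (EE f F t).card ≤ n * n := by
  have h : EE f F t ⊆ Finset.range n ×ˢ Finset.range n := by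
    intro q hq
    obtain ⟨u, v, h1⟩ := EE_mem hq
    have h2 := (pr_mem h1).2
    rw [h2, Finset.mem_product, Finset.mem_range, Finset.mem_range]
    have h3 := hf u
    have h4 := hf v
    constructor
    · show min (f u) (f v) < n
      omega
    · show max (f u) (f v) < n
      omega
  refine (Finset.card_le_card h).trans ?_
  rw [Finset.card_product, Finset.card_range]

theorem img_card_le {f : ℕ → ℕ} {n : ℕ} (hf : ∀ v, f v < n) (S : Finset ℕ) :
    (S.image f).card ≤ n := by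
  have h : S.image f ⊆ Finset.range n := by
    intro A hA
    rw [Finset.mem_image] at hA
    obtain ⟨v, _, rfl⟩ := hA
    exact Finset.mem_range.2 (hf v)
  exact (Finset.card_le_card h).trans (by rw [Finset.card_range])

/-- The reset bound. -/
theorem psi_le {τ ρ i u : ℕ} {g : ℕ → ℕ} (t : BinaryTree ℕ) :
    2 * ρ + psi τ ρ g i u t ≤ RN τ ρ := by
  have hf : ∀ v, fS ρ g u v < 2 * ρ + 1 := fun v => Nat.lt_succ_of_le (fS_le ρ g u v)
  have h1 := EE_card_le (F := FS (g 0) u) hf (res (i * 2 ^ g ρ) ((i + 1) * 2 ^ g ρ) t)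
  have h2 : (SC (fS ρ g u) (res (i * 2 ^ g ρ) ((i + 1) * 2 ^ g ρ) t)).card ≤ 2 * ρ + 1 :=
    img_card_le hf _
  have h3 := (TH_le (τ := τ) (f := fS ρ g u) (Ex := ∅) (a := i * 2 ^ g ρ)
    (b := u / 2 ^ g 0 * 2 ^ g 0) (t := t)).trans (Nat.mul_le_mul_left τ (img_card_le hf _))
  have h4 := (TH_le (τ := τ) (f := fS ρ g u) (Ex := ∅) (a := (u / 2 ^ g 0 + 1) * 2 ^ g 0)
    (b := (i + 1) * 2 ^ g ρ) (t := t)).trans (Nat.mul_le_mul_left τ (img_card_le hf _))
  unfold psi RN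
  nlinarith [Nat.zero_le (τ * ρ), Nat.zero_le (τ * ρ * ρ), Nat.zero_le (ρ * ρ), Nat.zero_le τ,
    Nat.zero_le ρ]

theorem Nn_le_two {α β x : ℕ} {t : BinaryTree ℕ} : Nn α β x t ≤ 2 := by
  unfold Nn
  split_ifs <;> omega

theorem sumNn_two {ρ x : ℕ} {g : ℕ → ℕ} {t : BinaryTree ℕ} :
    ∑ j ∈ Finset.range ρ, Nn (g j) (g (j + 1)) x t ≤ 2 * ρ := by
  refine (Finset.sum_le_card_nsmul _ _ 2 fun j _ => Nn_le_two).trans ?_
  rw [Finset.card_range, smul_eq_mul, mul_comm]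

end Pool.Agent.SplNest
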