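import Pool.Agent.SplNest.Defs
import Pool.Agent.SplNest.Bas

set_option autoImplicit false

namespace Pool.Agent.SplNest

open BinaryTree Pool.Agent.MP_c42954_lc.Scan Pool.Agent.SplPat Pool.Agent.SplAll

private theorem OutL_SL {t t' : BinaryTree ℕ} (hs : LS t t') : SL t' ⊆ SL t := by
  induction hs with
  | refl A => exact Finset.Subset.refl _
  | @left a A A' C hs ih =>
    intro v hv
    simp only [SL, Finset.mem_insert] at hv ⊢
    rcases hv with hv | hv
    · exact Or.inl hv
    · exact Or.inr (ih hv)
  | @rot g p A A' C D hs ih =>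
    intro v hv
    simp only [SL, Finset.mem_insert] at hv ⊢
    rcases hv with hv | hv
    · exact Or.inr (Or.inl hv)
    · exact Or.inr (Or.inr (ih hv))

/-- the cells counted by the induction hypothesis -/
private theorem OutL_cells {f F : ℕ → ℕ} (h : Fac f F) {a : ℕ} {A A' : BinaryTree ℕ} {S S' : Finset ℕ}
    (hA : ∀ v ∈ inorder A, v < a) (hS : SL A ⊆ S) (hS' : ∀ v ∈ S', v ∈ SL A' ∨ a ≤ v)
    {c : ℕ} (hc : c ∈ ((SL A).image f).erase (f a) \ (SL A').image f) :
    c < f a ∧ c ∈ S.image f ∧ c ∉ S'.image f := by
  rw [Finset.mem_sdiff, Finset.mem_erase, Finset.mem_image] at hc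
  obtain ⟨⟨h1, v, hv, rfl⟩, h2⟩ := hc
  have h3 : f v ≤ f a := h.mf v a (hA v (SL_mem hv)).le
  have h4 : f v < f a := lt_of_le_of_ne h3 h1
  refine ⟨h4, Finset.mem_image_of_mem f (hS hv), fun h5 => ?_⟩
  obtain ⟨w, hw, hwv⟩ := Finset.mem_image.1 h5
  rcases hS' w hw with h6 | h6
  · exact h2 (Finset.mem_image.2 ⟨w, h6, hwv⟩)
  · have h7 := h.mf a w h6
    omega

/-- OUTL, hanging version.  `l` is the left subtree of the node `b` of the left spine; rotations of
its left spine create at most as many pairs as cells, other than the cell of `b`, leave the left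
spine.  PROOF.  Induction on `LS l l'` for all `b`, `q c := (SL l).image f`.
refl: `N = ∅`.
left (`l = node a A C`, `l' = node a A' C`): `EL b l = prT b l ∪ prT b C ∪ XH a A ∪ (prT a A ∪
prT a C ∪ E0 A ∪ E0 C) = prT b l ∪ prT b C ∪ EL a A ∪ prT a C ∪ E0 C`, so the induction
hypothesis for `EL a A'` gives the claim; the cells which leave `SL A` and differ from `f a` are
`≤ f a`, so `< f a ≤ f b`, and do not belong to `SL l' = insert a (SL A')`.
rot (`l = node g (node p A C) D`, `l' = node p A' (node g C D)`):
`EL b l' = {b–p} ∪ {b–g} ∪ XH p A' ∪ prT p A' ∪ {p–g} ∪ E0 A' ∪ prT g C ∪ prT g D ∪ E0 C ∪ E0 D`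
where `{u–v} = pr f F u v`, and all of it is in `EL b l ∪ {b–p} ∪ N'` with `N'` from the induction
hypothesis `EL p A' ⊆ EL p A ∪ N'`.  If `F b = F p`, or `f p = f g` (then `{b–p} = {b–g}`), or
`f g = f b` (then `{b–p} = {p–g}`) take `N = N'`.  Otherwise `f p < f g < f b` and `N = N' ∪ {b–p}`:
the cell `f g` of `SL l` is `≠ f b` and not a cell of `SL l' = insert p (SL A')` (these are
`≤ f p`), and it is not among the cells counted for `N'`, which are cells of `SL A`, so `≤ f p`. -/
theorem OUTL_h {f F : ℕ → ℕ} (h : Fac f F) {l l' : BinaryTree ℕ} (hs : LS l l') (hb : IsBST l) :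
    ∀ b, (∀ v ∈ inorder l, v < b) → ∃ N : Finset (ℕ × ℕ), EL f F b l' ⊆ EL f F b l ∪ N ∧
      N.card ≤ (((SL l).image f).erase (f b) \ (SL l').image f).card := by
  induction hs with
  | refl A =>
    intro b _
    exact ⟨∅, Finset.subset_union_left, by simp⟩
  | @left a A A' C hs ih =>
    intro b hlb
    obtain ⟨hA, -, hAa, -⟩ := bst_node.1 hb
    obtain ⟨N, hN, hNc⟩ := ih hA a hAa
    have hab : a < b := hlb a (by simp [inorder])
    refine ⟨N, ?_, hNc.trans (Finset.card_le_card ?_)⟩
    · intro q hq
      have hN' := @hN q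
      simp only [EL, prT, XH, E0, Finset.mem_union] at hq hN' ⊢
      tauto
    · intro c hc
      obtain ⟨h1, h2, h3⟩ := OutL_cells h (S := SL (.node a A C)) (S' := SL (.node a A' C)) hAa
        (fun v hv => by simp only [SL, Finset.mem_insert]; exact Or.inr hv)
        (fun v hv => by
          simp only [SL, Finset.mem_insert] at hv
          rcases hv with hv | hv
          · exact Or.inr hv.ge
          · exact Or.inl hv) hc
      rw [Finset.mem_sdiff, Finset.mem_erase]
      have h4 := h.mf a b hab.le
      exact ⟨⟨by omega, h2⟩, h3⟩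
  | @rot g p A A' C D hs ih =>
    intro b hlb
    obtain ⟨hPC, -, hpg', -⟩ := bst_node.1 hb
    obtain ⟨hA, -, hAp, -⟩ := bst_node.1 hPC
    obtain ⟨N, hN, hNc⟩ := ih hA p hAp
    have hgb : g < b := hlb g (by simp [inorder])
    have hpg : p < g := hpg' p (by simp [inorder])
    have hfpg := h.mf p g hpg.le
    have hfgb := h.mf g b hgb.le
    have hsub : EL f F b (.node p A' (.node g C D)) ⊆
        EL f F b (.node g (.node p A C) D) ∪ N ∪ pr f F b p := by
      intro q hq
      have hN' := @hN q
      have hc1 : q ∈ pr f F p g ↔ q ∈ pr f F g p := by rw [pr_comm]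
      simp only [EL, prT, XH, E0, Finset.mem_union] at hq hN' ⊢
      grind
    have hcell : ∀ c ∈ ((SL A).image f).erase (f p) \ (SL A').image f,
        c < f p ∧ c ∈ (((SL (.node g (.node p A C) D)).image f).erase (f b) \
          (SL (.node p A' (.node g C D))).image f) := by
      intro c hc
      obtain ⟨h1, h2, h3⟩ := OutL_cells h (S := SL (.node g (.node p A C) D))
        (S' := SL (.node p A' (.node g C D))) hAp
        (fun v hv => by simp only [SL, Finset.mem_insert]; exact Or.inr (Or.inr hv))
        (fun v hv => by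
          simp only [SL, Finset.mem_insert] at hv
          rcases hv with hv | hv
          · exact Or.inr hv.ge
          · exact Or.inl hv) hc
      rw [Finset.mem_sdiff, Finset.mem_erase]
      exact ⟨h1, ⟨by omega, h2⟩, h3⟩
    by_cases hcase : F b = F p ∨ f p = f g ∨ f g = f b
    · refine ⟨N, ?_, hNc.trans (Finset.card_le_card fun c hc => (hcell c hc).2)⟩
      have hbp : pr f F b p ⊆ EL f F b (.node g (.node p A C) D) := by
        intro q hq
        rcases hcase with h1 | h1 | h1
        · simp [pr, h1] at hq
        · have h2 := h.fac p g h1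
          have h3 : q ∈ pr f F b g := by
            simp only [pr, h1, h2] at hq ⊢
            exact hq
          simp only [EL, prT, Finset.mem_union]
          tauto
        · have h2 := h.fac g b h1
          have h3 : q ∈ pr f F g p := by
            simp only [pr, ← h1, ← h2] at hq ⊢
            exact hq
          simp only [EL, prT, E0, Finset.mem_union]
          tauto
      intro q hq
      have h1 := hsub hq
      rw [Finset.mem_union, Finset.mem_union] at h1
      rw [Finset.mem_union]
      rcases h1 with (h1 | h1) | h1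
      · exact Or.inl h1
      · exact Or.inr h1
      · exact Or.inl (hbp h1)
    · push Not at hcase
      obtain ⟨h1, h2, h3⟩ := hcase
      refine ⟨N ∪ pr f F b p, by rw [← Finset.union_assoc]; exact hsub, ?_⟩
      have hg : f g ∈ (((SL (.node g (.node p A C) D)).image f).erase (f b) \
          (SL (.node p A' (.node g C D))).image f) := by
        rw [Finset.mem_sdiff, Finset.mem_erase]
        refine ⟨⟨h3, Finset.mem_image_of_mem f (by simp [SL])⟩, fun h4 => ?_⟩
        obtain ⟨w, hw, hwg⟩ := Finset.mem_image.1 h4
        simp only [SL, Finset.mem_insert] at hw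
        have h5 : w ≤ p := by
          rcases hw with hw | hw
          · exact hw.le
          · exact (hAp w (SL_mem (OutL_SL hs hw))).le
        have h6 := h.mf w p h5
        omega
      have h4 : (((SL A).image f).erase (f p) \ (SL A').image f) ⊆
          ((((SL (.node g (.node p A C) D)).image f).erase (f b) \
          (SL (.node p A' (.node g C D))).image f)).erase (f g) := by
        intro c hc
        obtain ⟨h5, h6⟩ := hcell c hc
        rw [Finset.mem_erase]
        exact ⟨by omega, h6⟩
      have h5 := Finset.card_le_card h4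
      rw [Finset.card_erase_of_mem hg] at h5
      have h6 : 0 < (((SL (.node g (.node p A C) D)).image f).erase (f b) \
          (SL (.node p A' (.node g C D))).image f).card := Finset.card_pos.2 ⟨_, hg⟩
      have h7 := Finset.card_union_le N (pr f F b p)
      have h8 := @pr_card f F b p
      omega

/-- the final count -/
private theorem OutL_count {E E' N : Finset (ℕ × ℕ)} {S S' T : Finset ℕ} (h1 : E' ⊆ E ∪ N)
    (h2 : N.card ≤ T.card) (h3 : T ⊆ S \ S') (h4 : S' ⊆ S) :
    E'.card + S'.card ≤ E.card + S.card := by
  have h5 := (Finset.card_le_card h1).trans (Finset.card_union_le E N)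
  have h6 := Finset.card_le_card h3
  have h7 := Finset.card_sdiff_add_card_eq_card h4
  omega

/-- OUTL.  PROOF.  `t = node a A C → node a A' C`: `EE t = EL a A ∪ ER a C` (`EE_node`); by `OUTL_h`
`EE t' ⊆ EE t ∪ N`; `SC t' ⊆ SC t`, and the cells counted for `N` (cells of `SL A` different from
`f a`, so `< f a`, not cells of `SL A'`) belong to `SC t \ SC t'` (the cells of the right spine are
`≥ f a`).  `t = node g (node p A C) D → t' = node p A' (node g C D)`: `EE t' = EL p A' ∪
ER p (node g C D)` and `ER p (node g C D) = {p–g} ∪ prT p C ∪ XG g D ∪ prT g C ∪ prT g D ∪ E0 C ∪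
E0 D ⊆ EE t`, `EL p A ⊆ EE t`: only the pairs `N` of `OUTL_h` for `p`, `A` are new, and the cells
counted for `N` are `< f p`, in `SC t`, not in `SC t'` (`SR t' = {p, g, ..}` has cells `≥ f p`).
The second claim (`SC t' ⊆ SC t`): induction with `SL`: `SL l' ⊆ SL l`, and `SR t' = insert p
(insert g (SR D))`, `SR t = insert g (SR D)`, `p ∈ SL t`. -/
theorem OUTL {f F : ℕ → ℕ} (h : Fac f F) {t t' : BinaryTree ℕ} (hs : LS t t') (hb : IsBST t) :
    (EE f F t').card + (SC f t').card ≤ (EE f F t).card + (SC f t).card ∧ SC f t' ⊆ SC f t := by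
  have hSL := OutL_SL hs
  cases hs with
  | refl A => exact ⟨le_refl _, Finset.Subset.refl _⟩
  | @left a A A' C hs =>
    obtain ⟨hA, -, hAa, hCa⟩ := bst_node.1 hb
    obtain ⟨N, hN, hNc⟩ := OUTL_h h hs hA a hAa
    have hSC : SC f (.node a A' C) ⊆ SC f (.node a A C) := by
      refine Finset.image_subset_image ?_
      exact Finset.union_subset_union hSL (Finset.Subset.refl _)
    refine ⟨OutL_count (N := N) ?_ hNc ?_ hSC, hSC⟩
    · rw [EE_node, EE_node]
      intro q hq
      have hN' := @hN q
      simp only [Finset.mem_union] at hq hN' ⊢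
      tauto
    · intro c hc
      obtain ⟨-, h2, h3⟩ := OutL_cells h (S := SL (.node a A C) ∪ SR (.node a A C))
        (S' := SL (.node a A' C) ∪ SR (.node a A' C)) hAa
        (fun v hv => by simp only [SL, Finset.mem_union, Finset.mem_insert]; tauto)
        (fun v hv => by
          simp only [SL, SR, Finset.mem_union, Finset.mem_insert] at hv
          rcases hv with (hv | hv) | hv | hv
          · exact Or.inr hv.ge
          · exact Or.inl hv
          · exact Or.inr hv.ge
          · exact Or.inr (hCa v (SR_mem hv)).le) hc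
      exact Finset.mem_sdiff.2 ⟨h2, h3⟩
  | @rot g p A A' C D hs =>
    obtain ⟨hPC, -, hpg', hD⟩ := bst_node.1 hb
    obtain ⟨hA, -, hAp, -⟩ := bst_node.1 hPC
    obtain ⟨N, hN, hNc⟩ := OUTL_h h hs hA p hAp
    have hpg : p < g := hpg' p (by simp [inorder])
    have hSC : SC f (.node p A' (.node g C D)) ⊆ SC f (.node g (.node p A C) D) := by
      refine Finset.image_subset_image ?_
      intro v hv
      have hS := @hSL v
      simp only [SL, SR, Finset.mem_union, Finset.mem_insert] at hv hS ⊢
      tauto
    refine ⟨OutL_count (N := N) ?_ hNc ?_ hSC, hSC⟩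
    · rw [EE_node, EE_node]
      intro q hq
      have hN' := @hN q
      have hc1 : q ∈ pr f F p g ↔ q ∈ pr f F g p := by rw [pr_comm]
      simp only [EL, ER, prT, XH, XG, E0, Finset.mem_union] at hq hN' ⊢
      grind
    · intro c hc
      obtain ⟨-, h2, h3⟩ := OutL_cells h
        (S := SL (.node g (.node p A C) D) ∪ SR (.node g (.node p A C) D))
        (S' := SL (.node p A' (.node g C D)) ∪ SR (.node p A' (.node g C D))) hAp
        (fun v hv => by simp only [SL, Finset.mem_union, Finset.mem_insert]; tauto)
        (fun v hv => by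
          simp only [SL, SR, Finset.mem_union, Finset.mem_insert] at hv
          rcases hv with (hv | hv) | hv | hv | hv
          · exact Or.inr hv.ge
          · exact Or.inl hv
          · exact Or.inr hv.ge
          · exact Or.inr (by omega)
          · have := hD v (SR_mem hv)
            exact Or.inr (by omega)) hc
      exact Finset.mem_sdiff.2 ⟨h2, h3⟩

end Pool.Agent.SplNest
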