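import Pool.Agent.SplNest.Defs
import Pool.Agent.SplNest.Bas

set_option autoImplicit false

namespace Pool.Agent.SplNest

open BinaryTree Pool.Agent.MP_c42954_lc.Scan Pool.Agent.SplPat Pool.Agent.SplAll

private theorem OutR_SR {t t' : BinaryTree ℕ} (hs : RS t t') : SR t' ⊆ SR t := by
  induction hs with
  | refl A => exact Finset.Subset.refl _
  | @right a A A' C hs ih =>
    intro v hv
    simp only [SR, Finset.mem_insert] at hv ⊢
    rcases hv with hv | hv
    · exact Or.inl hv
    · exact Or.inr (ih hv)
  | @rot g p A A' C D hs ih =>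
    intro v hv
    simp only [SR, Finset.mem_insert] at hv ⊢
    rcases hv with hv | hv
    · exact Or.inr (Or.inl hv)
    · exact Or.inr (Or.inr (ih hv))

/-- the cells counted by the induction hypothesis -/
private theorem OutR_cells {f F : ℕ → ℕ} (h : Fac f F) {a : ℕ} {A A' : BinaryTree ℕ} {S S' : Finset ℕ}
    (hA : ∀ v ∈ inorder A, a < v) (hS : SR A ⊆ S) (hS' : ∀ v ∈ S', v ∈ SR A' ∨ v ≤ a)
    {c : ℕ} (hc : c ∈ ((SR A).image f).erase (f a) \ (SR A').image f) :
    f a < c ∧ c ∈ S.image f ∧ c ∉ S'.image f := by
  rw [Finset.mem_sdiff, Finset.mem_erase, Finset.mem_image] at hc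
  obtain ⟨⟨h1, v, hv, rfl⟩, h2⟩ := hc
  have h3 : f a ≤ f v := h.mf a v (hA v (SR_mem hv)).le
  have h4 : f a < f v := lt_of_le_of_ne h3 (Ne.symm h1)
  refine ⟨h4, Finset.mem_image_of_mem f (hS hv), fun h5 => ?_⟩
  obtain ⟨w, hw, hwv⟩ := Finset.mem_image.1 h5
  rcases hS' w hw with h6 | h6
  · exact h2 (Finset.mem_image.2 ⟨w, h6, hwv⟩)
  · have h7 := h.mf w a h6
    omega

/-- OUTR: the mirror image of OUTL (see OutL.lean for the proof; `RS`, `ER`, `SR` instead of `LS`,
`EL`, `SL`). -/
theorem OUTR_h {f F : ℕ → ℕ} (h : Fac f F) {l l' : BinaryTree ℕ} (hs : RS l l') (hb : IsBST l) :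
    ∀ b, (∀ v ∈ inorder l, b < v) → ∃ N : Finset (ℕ × ℕ), ER f F b l' ⊆ ER f F b l ∪ N ∧
      N.card ≤ (((SR l).image f).erase (f b) \ (SR l').image f).card := by
  induction hs with
  | refl A =>
    intro b _
    exact ⟨∅, Finset.subset_union_left, by simp⟩
  | @right a A A' C hs ih =>
    intro b hlb
    obtain ⟨-, hA, -, hAa⟩ := bst_node.1 hb
    obtain ⟨N, hN, hNc⟩ := ih hA a hAa
    have hab : b < a := hlb a (by simp [inorder])
    refine ⟨N, ?_, hNc.trans (Finset.card_le_card ?_)⟩
    · intro q hq
      have hN' := @hN q
      simp only [ER, prT, XG, E0, Finset.mem_union] at hq hN' ⊢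
      grind
    · intro c hc
      obtain ⟨h1, h2, h3⟩ := OutR_cells h (S := SR (.node a C A)) (S' := SR (.node a C A')) hAa
        (fun v hv => by simp only [SR, Finset.mem_insert]; exact Or.inr hv)
        (fun v hv => by
          simp only [SR, Finset.mem_insert] at hv
          rcases hv with hv | hv
          · exact Or.inr hv.le
          · exact Or.inl hv) hc
      rw [Finset.mem_sdiff, Finset.mem_erase]
      have h4 := h.mf b a hab.le
      exact ⟨⟨by omega, h2⟩, h3⟩
  | @rot g p A A' C D hs ih =>
    intro b hlb
    obtain ⟨-, hPC, -, hpg'⟩ := bst_node.1 hb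
    obtain ⟨-, hA, -, hAp⟩ := bst_node.1 hPC
    obtain ⟨N, hN, hNc⟩ := ih hA p hAp
    have hgb : b < g := hlb g (by simp [inorder])
    have hpg : g < p := hpg' p (by simp [inorder])
    have hfpg := h.mf g p hpg.le
    have hfgb := h.mf b g hgb.le
    have hsub : ER f F b (.node p (.node g D C) A') ⊆
        ER f F b (.node g D (.node p C A)) ∪ N ∪ pr f F b p := by
      intro q hq
      have hN' := @hN q
      have hc1 : q ∈ pr f F p g ↔ q ∈ pr f F g p := by rw [pr_comm]
      simp only [ER, prT, XG, E0, Finset.mem_union] at hq hN' ⊢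
      grind
    have hcell : ∀ c ∈ ((SR A).image f).erase (f p) \ (SR A').image f,
        f p < c ∧ c ∈ (((SR (.node g D (.node p C A))).image f).erase (f b) \
          (SR (.node p (.node g D C) A')).image f) := by
      intro c hc
      obtain ⟨h1, h2, h3⟩ := OutR_cells h (S := SR (.node g D (.node p C A)))
        (S' := SR (.node p (.node g D C) A')) hAp
        (fun v hv => by simp only [SR, Finset.mem_insert]; exact Or.inr (Or.inr hv))
        (fun v hv => by
          simp only [SR, Finset.mem_insert] at hv
          rcases hv with hv | hv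
          · exact Or.inr hv.le
          · exact Or.inl hv) hc
      rw [Finset.mem_sdiff, Finset.mem_erase]
      exact ⟨h1, ⟨by omega, h2⟩, h3⟩
    by_cases hcase : F b = F p ∨ f p = f g ∨ f g = f b
    · refine ⟨N, ?_, hNc.trans (Finset.card_le_card fun c hc => (hcell c hc).2)⟩
      have hbp : pr f F b p ⊆ ER f F b (.node g D (.node p C A)) := by
        intro q hq
        rcases hcase with h1 | h1 | h1
        · simp [pr, h1] at hq
        · have h2 := h.fac p g h1
          have h3 : q ∈ pr f F b g := by
            simp only [pr, h1, h2] at hq ⊢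
            exact hq
          simp only [ER, prT, Finset.mem_union]
          tauto
        · have h2 := h.fac g b h1
          have h3 : q ∈ pr f F g p := by
            simp only [pr, ← h1, ← h2] at hq ⊢
            exact hq
          simp only [ER, prT, E0, Finset.mem_union]
          tauto
      intro q hq
      have h1 := hsub hq
      rw [Finset.mem_union, Finset.mem_union] at h1
      rw [Finset.mem_union]
      rcases h1 with (h1 | h1) | h1
      · exact Or.inl h1
      · exact Or.inr h1
      · exact Or.inl (hbp h1)
    · push Not at hcase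
      obtain ⟨h1, h2, h3⟩ := hcase
      refine ⟨N ∪ pr f F b p, by rw [← Finset.union_assoc]; exact hsub, ?_⟩
      have hg : f g ∈ (((SR (.node g D (.node p C A))).image f).erase (f b) \
          (SR (.node p (.node g D C) A')).image f) := by
        rw [Finset.mem_sdiff, Finset.mem_erase]
        refine ⟨⟨h3, Finset.mem_image_of_mem f (by simp [SR])⟩, fun h4 => ?_⟩
        obtain ⟨w, hw, hwg⟩ := Finset.mem_image.1 h4
        simp only [SR, Finset.mem_insert] at hw
        have h5 : p ≤ w := by
          rcases hw with hw | hw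
          · exact hw.ge
          · exact (hAp w (SR_mem (OutR_SR hs hw))).le
        have h6 := h.mf p w h5
        omega
      have h4 : (((SR A).image f).erase (f p) \ (SR A').image f) ⊆
          ((((SR (.node g D (.node p C A))).image f).erase (f b) \
          (SR (.node p (.node g D C) A')).image f)).erase (f g) := by
        intro c hc
        obtain ⟨h5, h6⟩ := hcell c hc
        rw [Finset.mem_erase]
        exact ⟨by omega, h6⟩
      have h5 := Finset.card_le_card h4
      rw [Finset.card_erase_of_mem hg] at h5
      have h6 : 0 < (((SR (.node g D (.node p C A))).image f).erase (f b) \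
          (SR (.node p (.node g D C) A')).image f).card := Finset.card_pos.2 ⟨_, hg⟩
      have h7 := Finset.card_union_le N (pr f F b p)
      have h8 := @pr_card f F b p
      omega

/-- the final count -/
private theorem OutR_count {E E' N : Finset (ℕ × ℕ)} {S S' T : Finset ℕ} (h1 : E' ⊆ E ∪ N)
    (h2 : N.card ≤ T.card) (h3 : T ⊆ S \ S') (h4 : S' ⊆ S) :
    E'.card + S'.card ≤ E.card + S.card := by
  have h5 := (Finset.card_le_card h1).trans (Finset.card_union_le E N)
  have h6 := Finset.card_le_card h3
  have h7 := Finset.card_sdiff_add_card_eq_card h4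
  omega

theorem OUTR {f F : ℕ → ℕ} (h : Fac f F) {t t' : BinaryTree ℕ} (hs : RS t t') (hb : IsBST t) :
    (EE f F t').card + (SC f t').card ≤ (EE f F t).card + (SC f t).card ∧ SC f t' ⊆ SC f t := by
  have hSR := OutR_SR hs
  cases hs with
  | refl A => exact ⟨le_refl _, Finset.Subset.refl _⟩
  | @right a A A' C hs =>
    obtain ⟨-, hA, hCa, hAa⟩ := bst_node.1 hb
    obtain ⟨N, hN, hNc⟩ := OUTR_h h hs hA a hAa
    have hSC : SC f (.node a C A') ⊆ SC f (.node a C A) := by
      refine Finset.image_subset_image ?_
      exact Finset.union_subset_union (Finset.Subset.refl _) hSR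
    refine ⟨OutR_count (N := N) ?_ hNc ?_ hSC, hSC⟩
    · rw [EE_node, EE_node]
      intro q hq
      have hN' := @hN q
      simp only [Finset.mem_union] at hq hN' ⊢
      tauto
    · intro c hc
      obtain ⟨-, h2, h3⟩ := OutR_cells h (S := SL (.node a C A) ∪ SR (.node a C A))
        (S' := SL (.node a C A') ∪ SR (.node a C A')) hAa
        (fun v hv => by simp only [SR, Finset.mem_union, Finset.mem_insert]; tauto)
        (fun v hv => by
          simp only [SL, SR, Finset.mem_union, Finset.mem_insert] at hv
          rcases hv with (hv | hv) | hv | hv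
          · exact Or.inr hv.le
          · exact Or.inr (hCa v (SL_mem hv)).le
          · exact Or.inr hv.le
          · exact Or.inl hv) hc
      exact Finset.mem_sdiff.2 ⟨h2, h3⟩
  | @rot g p A A' C D hs =>
    obtain ⟨-, hPC, hD, hpg'⟩ := bst_node.1 hb
    obtain ⟨-, hA, -, hAp⟩ := bst_node.1 hPC
    obtain ⟨N, hN, hNc⟩ := OUTR_h h hs hA p hAp
    have hpg : g < p := hpg' p (by simp [inorder])
    have hSC : SC f (.node p (.node g D C) A') ⊆ SC f (.node g D (.node p C A)) := by
      refine Finset.image_subset_image ?_
      intro v hv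
      have hS := @hSR v
      simp only [SL, SR, Finset.mem_union, Finset.mem_insert] at hv hS ⊢
      tauto
    refine ⟨OutR_count (N := N) ?_ hNc ?_ hSC, hSC⟩
    · rw [EE_node, EE_node]
      intro q hq
      have hN' := @hN q
      have hc1 : q ∈ pr f F p g ↔ q ∈ pr f F g p := by rw [pr_comm]
      simp only [EL, ER, prT, XH, XG, E0, Finset.mem_union] at hq hN' ⊢
      grind
    · intro c hc
      obtain ⟨-, h2, h3⟩ := OutR_cells h
        (S := SL (.node g D (.node p C A)) ∪ SR (.node g D (.node p C A)))
        (S' := SL (.node p (.node g D C) A') ∪ SR (.node p (.node g D C) A')) hAp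
        (fun v hv => by simp only [SR, Finset.mem_union, Finset.mem_insert]; tauto)
        (fun v hv => by
          simp only [SL, SR, Finset.mem_union, Finset.mem_insert] at hv
          rcases hv with (hv | hv | hv) | hv | hv
          · exact Or.inr hv.le
          · exact Or.inr (by omega)
          · have := hD v (SL_mem hv)
            exact Or.inr (by omega)
          · exact Or.inr hv.le
          · exact Or.inl hv) hc
      exact Finset.mem_sdiff.2 ⟨h2, h3⟩

end Pool.Agent.SplNest
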