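import Pool.Agent.SplNest.Defs
import Pool.Agent.SplNest.Bas
import Pool.Agent.SplPat.SpRel

set_option autoImplicit false

namespace Pool.Agent.SplNest

open BinaryTree Pool.Agent.MP_c42954_lc.Scan Pool.Agent.SplPat Pool.Agent.SplAll

private theorem RotOut_left {lo hi x : ℕ} (hx : x < lo) {t A B : BinaryTree ℕ} (h : Ev x t A B)
    (hb : IsBST t) : LS (res lo hi t) (res lo hi B) := by
  induction h with
  | base A B =>
    have e : res lo hi (.node x A B) = res lo hi B := by simp only [res, if_pos hx]
    rw [e]
    exact .refl _
  | @ll p g L C D A B h1 h2 h3 ih =>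
    obtain ⟨hb1, hb2, hb3, hb4⟩ := bst_node.1 hb
    have hpg : p < g := hb3 p (by simp [inorder])
    have ih := ih (bst_node.1 hb1).1
    by_cases hp : p < lo
    · by_cases hg : g < lo
      · simp only [res, if_pos hp, if_pos hg]
        exact .refl _
      · by_cases hg2 : hi ≤ g
        · simp only [res, if_pos hp, if_neg hg, if_pos hg2]
          exact .refl _
        · simp only [res, if_pos hp, if_neg hg, if_neg hg2]
          exact .refl _
    · have hg : ¬ g < lo := by omega
      by_cases hp2 : hi ≤ p
      · have hg2 : hi ≤ g := by omega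
        simp only [res, if_neg hp, if_neg hg, if_pos hp2, if_pos hg2]
        exact ih
      · by_cases hg2 : hi ≤ g
        · simp only [res, if_neg hp, if_neg hg, if_neg hp2, if_pos hg2]
          exact .left ih
        · simp only [res, if_neg hp, if_neg hg, if_neg hp2, if_neg hg2]
          exact .rot ih
  | @lr p g R C D A B h1 h2 h3 ih =>
    obtain ⟨hb1, hb2, hb3, hb4⟩ := bst_node.1 hb
    have ih := ih (bst_node.1 hb1).2.1
    have hp : p < lo := by omega
    by_cases hg : g < lo
    · simp only [res, if_pos hg]
      exact .refl _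
    · by_cases hg2 : hi ≤ g
      · simp only [res, if_pos hp, if_neg hg, if_pos hg2]
        exact ih
      · simp only [res, if_pos hp, if_neg hg, if_neg hg2]
        exact .left ih
  | @rr p g R C D A B h1 h2 h3 ih =>
    obtain ⟨hb1, hb2, hb3, hb4⟩ := bst_node.1 hb
    have ih := ih (bst_node.1 hb2).2.1
    have hp : p < lo := by omega
    have hg : g < lo := by omega
    simp only [res, if_pos hp, if_pos hg]
    exact ih
  | @rl p g L C D A B h1 h2 h3 ih =>
    obtain ⟨hb1, hb2, hb3, hb4⟩ := bst_node.1 hb
    have ih := ih (bst_node.1 hb2).1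
    have hg : g < lo := by omega
    by_cases hp : p < lo
    · simp only [res, if_pos hp, if_pos hg]
      exact .refl _
    · by_cases hp2 : hi ≤ p
      · simp only [res, if_neg hp, if_pos hg, if_pos hp2]
        exact ih
      · simp only [res, if_neg hp, if_pos hg, if_neg hp2]
        exact .left ih

private theorem RotOut_right {lo hi x : ℕ} (hx : hi ≤ x) (hlh : lo ≤ hi) {t A B : BinaryTree ℕ}
    (h : Ev x t A B) (hb : IsBST t) : RS (res lo hi t) (res lo hi A) := by
  induction h with
  | base A B =>
    have e : res lo hi (.node x A B) = res lo hi A := by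
      simp only [res, if_neg (show ¬ x < lo by omega), if_pos hx]
    rw [e]
    exact .refl _
  | @ll p g L C D A B h1 h2 h3 ih =>
    obtain ⟨hb1, hb2, hb3, hb4⟩ := bst_node.1 hb
    have ih := ih (bst_node.1 hb1).1
    have hp : ¬ p < lo := by omega
    have hg : ¬ g < lo := by omega
    have hp2 : hi ≤ p := by omega
    have hg2 : hi ≤ g := by omega
    simp only [res, if_neg hp, if_neg hg, if_pos hp2, if_pos hg2]
    exact ih
  | @lr p g R C D A B h1 h2 h3 ih =>
    obtain ⟨hb1, hb2, hb3, hb4⟩ := bst_node.1 hb
    have ih := ih (bst_node.1 hb1).2.1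
    have hg : ¬ g < lo := by omega
    have hg2 : hi ≤ g := by omega
    by_cases hp : p < lo
    · simp only [res, if_pos hp, if_neg hg, if_pos hg2]
      exact ih
    · by_cases hp2 : hi ≤ p
      · simp only [res, if_neg hp, if_neg hg, if_pos hp2, if_pos hg2]
        exact .refl _
      · simp only [res, if_neg hp, if_neg hg, if_neg hp2, if_pos hg2]
        exact .right ih
  | @rr p g R C D A B h1 h2 h3 ih =>
    obtain ⟨hb1, hb2, hb3, hb4⟩ := bst_node.1 hb
    have hpg : g < p := hb4 p (by simp [inorder])
    have ih := ih (bst_node.1 hb2).2.1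
    by_cases hp2 : hi ≤ p
    · have hp : ¬ p < lo := by omega
      by_cases hg2 : hi ≤ g
      · have hg : ¬ g < lo := by omega
        simp only [res, if_neg hp, if_neg hg, if_pos hp2, if_pos hg2]
        exact .refl _
      · by_cases hg : g < lo
        · simp only [res, if_neg hp, if_pos hg, if_pos hp2]
          exact .refl _
        · simp only [res, if_neg hp, if_neg hg, if_pos hp2, if_neg hg2]
          exact .refl _
    · have hg2 : ¬ hi ≤ g := by omega
      by_cases hp : p < lo
      · have hg : g < lo := by omega
        simp only [res, if_pos hp, if_pos hg]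
        exact ih
      · by_cases hg : g < lo
        · simp only [res, if_neg hp, if_pos hg, if_neg hp2]
          exact .right ih
        · simp only [res, if_neg hp, if_neg hg, if_neg hp2, if_neg hg2]
          exact .rot ih
  | @rl p g L C D A B h1 h2 h3 ih =>
    obtain ⟨hb1, hb2, hb3, hb4⟩ := bst_node.1 hb
    have ih := ih (bst_node.1 hb2).1
    have hp : ¬ p < lo := by omega
    have hp2 : hi ≤ p := by omega
    by_cases hg2 : hi ≤ g
    · have hg : ¬ g < lo := by omega
      simp only [res, if_neg hg, if_pos hg2]
      exact .refl _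
    · by_cases hg : g < lo
      · simp only [res, if_neg hp, if_pos hg, if_pos hp2]
        exact ih
      · simp only [res, if_neg hp, if_neg hg, if_pos hp2, if_neg hg2]
        exact .right ih

/-- RSO: a splay left of `[lo, hi)` acts on the induced tree by rotations of the left spine.
PROOF.  `spl_exists` (SplPat.SpRel) gives `Spl x t A B`, `splay x t = node x A B`, so
`res lo hi (splay x t) = res lo hi B` as `x < lo`.  Prove for `Ev x t A B`, `IsBST t`:
`LS (res lo hi t) (res lo hi B)` by induction (see `FX_left` in SplPat/FX.lean for the same induction).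
base: `res lo hi (node x A B) = res lo hi B`.  ll (`x < p < g`, `B' = node p B (node g C D)`):
`p, g` both in `[lo, hi)`: `LS.rot`; `p < lo`: the keys of `L` are `< p < lo`, so `res L = nil` and
(same keys) `res B = nil`, both sides are `res (node g C D)`;
`p` in, `g ≥ hi`: `res t = node p (res L) (res C)`, `res B' = node p (res B) (res C)`: `LS.left`;
`p ≥ hi`: `res t = res L`, `res B' = res B`.  lr (`p < x < lo`): `res (node p C R) = res R`,
`B' = node g B D`: `g < lo`: both `res D`; `g` in: `LS.left`; `g ≥ hi`: induction hypothesis.
rr: `res t = res R`, `B' = B`.  rl (`g < x < p`): `res t = res (node p L C)`, `B' = node p B C`: as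
before.  `Spl.zl`: as lr.  `Spl.zr`: `res t = res R`. -/
theorem RSO_l {lo hi x : ℕ} {t : BinaryTree ℕ} (hb : IsBST t) (hm : x ∈ inorder t)
    (hle : lo ≤ hi) (hx : x < lo) : LS (res lo hi t) (res lo hi (splay x t)) := by
  obtain ⟨A, B, hS, hs⟩ := spl_exists hb hm
  rw [hs]
  have e : res lo hi (.node x A B) = res lo hi B := by simp only [res, if_pos hx]
  rw [e]
  cases hS with
  | ev h => exact RotOut_left hx h hb
  | @zl g L D A B h3 h =>
    have k1 := RotOut_left (hi := hi) hx h (bst_node.1 hb).1
    by_cases hg : g < lo
    · simp only [res, if_pos hg]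
      exact .refl _
    · by_cases hg2 : hi ≤ g
      · simp only [res, if_neg hg, if_pos hg2]
        exact k1
      · simp only [res, if_neg hg, if_neg hg2]
        exact .left k1
  | @zr g R D A B h3 h =>
    have k1 := RotOut_left (hi := hi) hx h (bst_node.1 hb).2.1
    have hg : g < lo := by omega
    simp only [res, if_pos hg]
    exact k1

/-- The mirror image (`hi ≤ x`; compare `FX_right`). -/
theorem RSO_r {lo hi x : ℕ} {t : BinaryTree ℕ} (hb : IsBST t) (hm : x ∈ inorder t)
    (hle : lo ≤ hi) (hx : hi ≤ x) : RS (res lo hi t) (res lo hi (splay x t)) := by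
  obtain ⟨A, B, hS, hs⟩ := spl_exists hb hm
  rw [hs]
  have e : res lo hi (.node x A B) = res lo hi A := by
    simp only [res, if_neg (show ¬ x < lo by omega), if_pos hx]
  rw [e]
  cases hS with
  | ev h => exact RotOut_right hx hle h hb
  | @zl g L D A B h3 h =>
    have k1 := RotOut_right hx hle h (bst_node.1 hb).1
    have hg : ¬ g < lo := by omega
    have hg2 : hi ≤ g := by omega
    simp only [res, if_neg hg, if_pos hg2]
    exact k1
  | @zr g R D A B h3 h =>
    have k1 := RotOut_right hx hle h (bst_node.1 hb).2.1
    by_cases hg : g < lo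
    · simp only [res, if_pos hg]
      exact k1
    · by_cases hg2 : hi ≤ g
      · simp only [res, if_neg hg, if_pos hg2]
        exact .refl _
      · simp only [res, if_neg hg, if_neg hg2]
        exact .right k1

end Pool.Agent.SplNest
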