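import Pool.Agent.SplNest.Defs
import Pool.Agent.SplNest.Bas
import Pool.Agent.SplNest.RotOut
import Pool.Agent.SplNest.OutL
import Pool.Agent.SplNest.OutR

set_option autoImplicit false

namespace Pool.Agent.SplNest

open BinaryTree Pool.Agent.MP_c42954_lc.Scan Pool.Agent.SplPat Pool.Agent.SplAll

/-- OUT: a splay outside `[lo, hi)`.  PROOF: `RSO_l` + `OUTL`, `RSO_r` + `OUTR`, `res_bst`. -/
theorem OUT {f F : ℕ → ℕ} (h : Fac f F) {lo hi x : ℕ} {t : BinaryTree ℕ} (hb : IsBST t)
    (hm : x ∈ inorder t) (hle : lo ≤ hi) (hx : x < lo ∨ hi ≤ x) :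
    (EE f F (res lo hi (splay x t))).card + (SC f (res lo hi (splay x t))).card ≤
      (EE f F (res lo hi t)).card + (SC f (res lo hi t)).card ∧
    SC f (res lo hi (splay x t)) ⊆ SC f (res lo hi t) := by
  rcases hx with hx | hx
  · exact OUTL h (RSO_l hb hm hle hx) (res_bst hb)
  · exact OUTR h (RSO_r hb hm hle hx) (res_bst hb)

end Pool.Agent.SplNest
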