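import Pool.Agent.SplNest.Defs
import Pool.Agent.SplNest.Bas
import Pool.Agent.SplNest.RotIn
import Pool.Agent.SplNest.Spk
import Pool.Agent.SplNest.Gss
import Pool.Agent.SplNest.ThB

set_option autoImplicit false

namespace Pool.Agent.SplNest

open BinaryTree Pool.Agent.MP_c42954_lc.Scan Pool.Agent.SplPat Pool.Agent.SplAll

/-- THI.  PROOF.  By `RSI`, `SPK` and `GSS` `spn lo hi (splay x t) ⊆ spn lo hi t ∪ P` with
`|P| ≤ 3`, `x ∈ P`, `P ⊆ insert x (tc lo hi x t)` (`ANR_tc`); `TH_new`: only the nodes of `P` with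
`f v ≠ f x` count, at most 2, and none if all touched nodes are in the cell of `x`. -/
theorem THI {τ : ℕ} {f : ℕ → ℕ} (h : ∀ v w, v ≤ w → f v ≤ f w) {lo hi x : ℕ} {t : BinaryTree ℕ}
    (hb : IsBST t) (hm : x ∈ inorder t) (hx : lo ≤ x ∧ x < hi) :
    Th τ f {f x} lo hi (splay x t) ≤ Th τ f {f x} lo hi t +
      2 * (if ∃ v ∈ tc lo hi x t, f v ≠ f x then 1 else 0) := by
  obtain ⟨A, B, hg, he⟩ := RSI hb hm hx.1 hx.2
  obtain ⟨⟨P, hP1, hP2, hxP, hP3⟩, -⟩ := GSS h hg (res_bst hb)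
  rw [← he, SPK (splay_bst hb hm) (by omega), SPK hb (by omega)] at hP3
  rw [ANR_tc hx.1 hx.2] at hP1
  refine (TH_new hP3).trans (Nat.add_le_add_left ?_ _)
  split_ifs with hc
  · have h1 : P.filter (fun v => f v ∉ ({f x} : Finset ℕ)) ⊆ P.erase x := by
      intro v hv
      rw [Finset.mem_filter, Finset.mem_singleton] at hv
      refine Finset.mem_erase.2 ⟨?_, hv.1⟩
      rintro rfl
      exact hv.2 rfl
    have h2 := Finset.card_le_card h1
    rw [Finset.card_erase_of_mem hxP] at h2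
    omega
  · have h1 : P.filter (fun v => f v ∉ ({f x} : Finset ℕ)) = ∅ := by
      refine Finset.filter_eq_empty_iff.2 ?_
      intro v hv
      rw [Finset.mem_singleton, not_not]
      rcases Finset.mem_insert.1 (hP1 hv) with h2 | h2
      · rw [h2]
      · by_contra h3
        exact hc ⟨v, h2, h3⟩
    rw [h1]
    simp

end Pool.Agent.SplNest
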