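import Pool.Agent.SplNest.Out
import Pool.Agent.SplNest.ThB
import Pool.Agent.SplNest.LG
import Pool.Agent.SplNest.Thi
import Pool.Agent.SplNest.DBlk

set_option autoImplicit false

namespace Pool.Agent.SplNest

open BinaryTree Pool.Agent.MP_c42954_lc.Scan Pool.Agent.SplPat Pool.Agent.SplAll

theorem STEPD {τ α γ γ' M : ℕ} {X : ℕ → ℕ} {s : ℕ} {t : BinaryTree ℕ} (h1 : α ≤ γ) (h2 : γ ≤ γ')
    (hb : IsBST t) (hm : X s ∈ inorder t) (hM : ∀ v ∈ inorder t, v < M) :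
    Qn α γ γ' (X s) t + PhiD τ α γ γ' M X (s + 1) (splay (X s) t) ≤
      PhiD τ α γ γ' M X s t + 131 * Qn γ γ γ' (X s) t + 2 * LQ τ α γ γ' (X s) t +
        31 * Nn α γ' (X s) t + 2 * τ * sw (2 ^ α) (2 ^ γ) X s := by
  set x := X s with hx
  have hxM : x < M := hM x hm
  have hfac : Fac (fun v => v / 2 ^ α) (fun v => v / 2 ^ γ) := Fac_pow h1
  set K := ((Finset.range M).erase (x / 2 ^ γ)).filter
    (fun c => c / 2 ^ (γ' - γ) = x / 2 ^ γ') with hK
  -- the block of height `γ'` of `x`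
  have hblk : x / 2 ^ γ' * 2 ^ γ' ≤ x ∧ x < (x / 2 ^ γ' + 1) * 2 ^ γ' := (blk_iff _ _ _).2 rfl
  have hL := LG (τ := τ) hfac hb hm hblk (fun c => c * 2 ^ γ) (fun c => (c + 1) * 2 ^ γ) K
    (fun c => exl α γ X s c) (fun c _ => exl_card)
    (by
      rw [hK, Finset.mem_filter, Finset.mem_erase]
      exact fun h => h.1.1 rfl)
    (fun c _ => blk_le _ _)
    (by
      intro c hc v
      rw [hK, Finset.mem_filter] at hc
      rw [blk_iff, ← and_assoc, blk_iff]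
      constructor
      · intro h
        refine ⟨?_, h⟩
        rw [div_split h2, h]
        exact hc.2
      · exact fun h => h.2)
    (by
      intro v hv
      rw [tcF_eq] at hv
      unfold an at hv
      rw [Finset.mem_filter, List.mem_toFinset] at hv
      rw [hK, Finset.mem_filter, Finset.mem_erase, Finset.mem_range]
      refine ⟨⟨hv.2.2, ?_⟩, ?_⟩
      · exact lt_of_le_of_lt (Nat.div_le_self _ _) (hM v (anc_key hb hm hv.1))
      · have := hv.2.1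
        rw [div_split h2] at this
        exact this)
  rw [qn_eq, qn_eq, lgn_eq] at hL
  -- the coarse block of `x`
  have hblk2 : x / 2 ^ γ * 2 ^ γ ≤ x ∧ x < (x / 2 ^ γ + 1) * 2 ^ γ := (blk_iff _ _ _).2 rfl
  have hI := THI (τ := τ) hfac.mf hb hm hblk2
  have hE := TH_ex (f := fun v => v / 2 ^ α) (τ := τ) (Ex := {x / 2 ^ α})
    (Ex' := exl α γ X s (x / 2 ^ γ)) (a := x / 2 ^ γ * 2 ^ γ) (b := (x / 2 ^ γ + 1) * 2 ^ γ) (t := t)
  have hs : τ * (exl α γ X s (x / 2 ^ γ) \ {x / 2 ^ α}).card ≤ τ * sw (2 ^ α) (2 ^ γ) X s :=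
    Nat.mul_le_mul_left _ exl_sdiff
  have hN1 := ite_le (ite_le_Nn (α := α) (x := x) (t := t) h2)
  have hN2 := ite_le (ite_le_Nn (α := α) (x := x) (t := t) (le_refl γ'))
  -- the blocks of height `γ'`
  have hi0 : x / 2 ^ γ' ∈ Finset.range M :=
    Finset.mem_range.2 (lt_of_le_of_lt (Nat.div_le_self _ _) hxM)
  have hc0 : x / 2 ^ γ ∈ Finset.range M :=
    Finset.mem_range.2 (lt_of_le_of_lt (Nat.div_le_self _ _) hxM)
  have hA : ∑ i ∈ (Finset.range M).erase (x / 2 ^ γ'),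
      (6 * (EE (fun v => v / 2 ^ α) (fun v => v / 2 ^ γ)
        (res (i * 2 ^ γ') ((i + 1) * 2 ^ γ') (splay x t))).card +
      9 * (SC (fun v => v / 2 ^ α) (res (i * 2 ^ γ') ((i + 1) * 2 ^ γ') (splay x t))).card) ≤
      ∑ i ∈ (Finset.range M).erase (x / 2 ^ γ'),
      (6 * (EE (fun v => v / 2 ^ α) (fun v => v / 2 ^ γ)
        (res (i * 2 ^ γ') ((i + 1) * 2 ^ γ') t)).card +
      9 * (SC (fun v => v / 2 ^ α) (res (i * 2 ^ γ') ((i + 1) * 2 ^ γ') t)).card) := by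
    refine Finset.sum_le_sum fun i hi => ?_
    rw [Finset.mem_erase] at hi
    have h3 := OUT hfac hb hm (blk_le γ' i) (blk_out (fun h => hi.1 h.symm))
    have h4 := Finset.card_le_card h3.2
    omega
  -- the other blocks of height `γ`
  have hB : ∑ c ∈ ((Finset.range M).erase (x / 2 ^ γ)).filter
        (fun c => ¬ c / 2 ^ (γ' - γ) = x / 2 ^ γ'),
      Th τ (fun v => v / 2 ^ α) (exl α γ X (s + 1) c) (c * 2 ^ γ) ((c + 1) * 2 ^ γ) (splay x t) ≤
      ∑ c ∈ ((Finset.range M).erase (x / 2 ^ γ)).filter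
        (fun c => ¬ c / 2 ^ (γ' - γ) = x / 2 ^ γ'),
      Th τ (fun v => v / 2 ^ α) (exl α γ X s c) (c * 2 ^ γ) ((c + 1) * 2 ^ γ) t := by
    refine Finset.sum_le_sum fun c hc => ?_
    rw [Finset.mem_filter, Finset.mem_erase] at hc
    rw [exl_ne (fun h => hc.1.1 h.symm)]
    exact TH_out hb hm (blk_le γ c) (blk_out (fun h => hc.1.1 h.symm))
  have hB2 : ∑ c ∈ K,
      Th τ (fun v => v / 2 ^ α) (exl α γ X (s + 1) c) (c * 2 ^ γ) ((c + 1) * 2 ^ γ) (splay x t) =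
      ∑ c ∈ K,
      Th τ (fun v => v / 2 ^ α) (exl α γ X s c) (c * 2 ^ γ) ((c + 1) * 2 ^ γ) (splay x t) := by
    refine Finset.sum_congr rfl fun c hc => ?_
    rw [hK, Finset.mem_filter, Finset.mem_erase] at hc
    rw [exl_ne (fun h => hc.1.1 h.symm)]
  unfold PhiD
  rw [← Finset.add_sum_erase _ _ hi0,
    ← Finset.add_sum_erase (Finset.range M) (fun i => 6 * (EE (fun v => v / 2 ^ α)
      (fun v => v / 2 ^ γ) (res (i * 2 ^ γ') ((i + 1) * 2 ^ γ') t)).card +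
      9 * (SC (fun v => v / 2 ^ α) (res (i * 2 ^ γ') ((i + 1) * 2 ^ γ') t)).card) hi0,
    ← Finset.add_sum_erase (Finset.range M) (fun i => Th τ (fun v => v / 2 ^ α)
      (exl α γ X (s + 1) i) (i * 2 ^ γ) ((i + 1) * 2 ^ γ) (splay x t)) hc0,
    ← Finset.add_sum_erase (Finset.range M) (fun i => Th τ (fun v => v / 2 ^ α)
      (exl α γ X s i) (i * 2 ^ γ) ((i + 1) * 2 ^ γ) t) hc0,
    ← Finset.sum_filter_add_sum_filter_not ((Finset.range M).erase (x / 2 ^ γ))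
      (fun c => c / 2 ^ (γ' - γ) = x / 2 ^ γ') (fun i => Th τ (fun v => v / 2 ^ α)
      (exl α γ X (s + 1) i) (i * 2 ^ γ) ((i + 1) * 2 ^ γ) (splay x t)),
    ← Finset.sum_filter_add_sum_filter_not ((Finset.range M).erase (x / 2 ^ γ))
      (fun c => c / 2 ^ (γ' - γ) = x / 2 ^ γ') (fun i => Th τ (fun v => v / 2 ^ α)
      (exl α γ X s i) (i * 2 ^ γ) ((i + 1) * 2 ^ γ) t), ← hK, hB2]
  have e1 : exl α γ X (s + 1) (x / 2 ^ γ) = {x / 2 ^ α} := exl_self
  rw [e1]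
  have e2 : 2 * τ * sw (2 ^ α) (2 ^ γ) X s = 2 * (τ * sw (2 ^ α) (2 ^ γ) X s) := by ring
  rw [e2]
  beta_reduce at hL hI hN1 hN2 hE ⊢
  omega

end Pool.Agent.SplNest
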