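import Pool.Agent.SplNest.NRes
import Pool.Agent.SplNest.Out
import Pool.Agent.SplNest.LG

set_option autoImplicit false

namespace Pool.Agent.SplNest

open BinaryTree Pool.Agent.MP_c42954_lc.Scan Pool.Agent.SplPat Pool.Agent.SplAll

/-- The potential of a block does not rise for requests outside the block. -/
theorem psi_out {τ ρ i u x : ℕ} {g : ℕ → ℕ} (hρ : 0 < ρ) (hg : ∀ j, g j ≤ g (j + 1))
    {t : BinaryTree ℕ} (hb : IsBST t) (hm : x ∈ inorder t) (hu : u / 2 ^ g ρ = i)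
    (hx : x / 2 ^ g ρ ≠ i) : psi τ ρ g i u (splay x t) ≤ psi τ ρ g i u t := by
  have hfac := fS_fac hρ hg u
  have h1 := OUT hfac hb hm (blk_le (g ρ) i) (blk_out hx)
  have h2 := Finset.card_le_card h1.2
  have hgl := gle hg (Nat.zero_le ρ)
  obtain ⟨k1, k2⟩ := (blk_iff (g ρ) i u).2 hu
  have hpow : 2 ^ g ρ = 2 ^ g 0 * 2 ^ (g ρ - g 0) := by
    rw [← pow_add]
    congr 1
    omega
  have h0 : 0 < 2 ^ g 0 := by positivity
  -- the block of `u` lies in the block `i`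
  have h3 : i * 2 ^ g ρ ≤ u / 2 ^ g 0 * 2 ^ g 0 := by
    have h4 : i * 2 ^ (g ρ - g 0) ≤ u / 2 ^ g 0 := by
      rw [Nat.le_div_iff_mul_le h0]
      calc i * 2 ^ (g ρ - g 0) * 2 ^ g 0 = i * 2 ^ g ρ := by rw [hpow]; ring
        _ ≤ u := k1
    calc i * 2 ^ g ρ = i * 2 ^ (g ρ - g 0) * 2 ^ g 0 := by rw [hpow]; ring
      _ ≤ u / 2 ^ g 0 * 2 ^ g 0 := Nat.mul_le_mul_right _ h4
  have h5 : (u / 2 ^ g 0 + 1) * 2 ^ g 0 ≤ (i + 1) * 2 ^ g ρ := by
    have h6 : u / 2 ^ g 0 < (i + 1) * 2 ^ (g ρ - g 0) := by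
      rw [Nat.div_lt_iff_lt_mul h0]
      calc u < (i + 1) * 2 ^ g ρ := k2
        _ = (i + 1) * 2 ^ (g ρ - g 0) * 2 ^ g 0 := by rw [hpow]; ring
    calc (u / 2 ^ g 0 + 1) * 2 ^ g 0 ≤ (i + 1) * 2 ^ (g ρ - g 0) * 2 ^ g 0 :=
          Nat.mul_le_mul_right _ h6
      _ = (i + 1) * 2 ^ g ρ := by rw [hpow]; ring
  have hxo := blk_out hx
  have hbl := blk_le (g 0) (u / 2 ^ g 0)
  have h7 := TH_out (τ := τ) (f := fS ρ g u) (Ex := ∅) hb hm h3 (by omega)
  have h8 := TH_out (τ := τ) (f := fS ρ g u) (Ex := ∅) hb hm h5 (by omega)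
  unfold psi
  omega

/-- The potential of the block of `x` when `x` lies in the current block. -/
theorem psi_in {τ ρ x : ℕ} {g : ℕ → ℕ} (hρ : 0 < ρ) (hg : ∀ j, g j ≤ g (j + 1))
    {t : BinaryTree ℕ} (hb : IsBST t) (hm : x ∈ inorder t) :
    ∑ j ∈ Finset.range ρ, Nn (g j) (g (j + 1)) x t + psi τ ρ g (x / 2 ^ g ρ) x (splay x t) ≤
      psi τ ρ g (x / 2 ^ g ρ) x t + 158 * Nn (g 0) (g ρ) x t +
        2 * ∑ j ∈ Finset.range ρ, LN τ (g j) (g (j + 1)) x t := by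
  have hfac := fS_fac hρ hg x
  have hblk : x / 2 ^ g ρ * 2 ^ g ρ ≤ x ∧ x < (x / 2 ^ g ρ + 1) * 2 ^ g ρ := (blk_iff _ _ _).2 rfl
  have hblk0 : x / 2 ^ g 0 * 2 ^ g 0 ≤ x ∧ x < (x / 2 ^ g 0 + 1) * 2 ^ g 0 := (blk_iff _ _ _).2 rfl
  have hgl := gle hg (Nat.zero_le ρ)
  have hpow : 2 ^ g ρ = 2 ^ g 0 * 2 ^ (g ρ - g 0) := by
    rw [← pow_add]
    congr 1
    omega
  have h0 : 0 < 2 ^ g 0 := by positivity
  have h3 : x / 2 ^ g ρ * 2 ^ g ρ ≤ x / 2 ^ g 0 * 2 ^ g 0 := by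
    have h4 : x / 2 ^ g ρ * 2 ^ (g ρ - g 0) ≤ x / 2 ^ g 0 := by
      rw [Nat.le_div_iff_mul_le h0]
      calc x / 2 ^ g ρ * 2 ^ (g ρ - g 0) * 2 ^ g 0 = x / 2 ^ g ρ * 2 ^ g ρ := by
            rw [mul_assoc, mul_comm (2 ^ (g ρ - g 0)), ← hpow]
        _ ≤ x := hblk.1
    calc x / 2 ^ g ρ * 2 ^ g ρ = x / 2 ^ g ρ * 2 ^ (g ρ - g 0) * 2 ^ g 0 := by
          rw [mul_assoc, mul_comm (2 ^ (g ρ - g 0)), ← hpow]
      _ ≤ x / 2 ^ g 0 * 2 ^ g 0 := Nat.mul_le_mul_right _ h4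
  have h5 : (x / 2 ^ g 0 + 1) * 2 ^ g 0 ≤ (x / 2 ^ g ρ + 1) * 2 ^ g ρ := by
    have h6 : x / 2 ^ g 0 < (x / 2 ^ g ρ + 1) * 2 ^ (g ρ - g 0) := by
      rw [Nat.div_lt_iff_lt_mul h0]
      calc x < (x / 2 ^ g ρ + 1) * 2 ^ g ρ := hblk.2
        _ = (x / 2 ^ g ρ + 1) * 2 ^ (g ρ - g 0) * 2 ^ g 0 := by
            rw [mul_assoc, mul_comm (2 ^ (g ρ - g 0)), ← hpow]
    calc (x / 2 ^ g 0 + 1) * 2 ^ g 0 ≤ (x / 2 ^ g ρ + 1) * 2 ^ (g ρ - g 0) * 2 ^ g 0 :=
          Nat.mul_le_mul_right _ h6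
      _ = (x / 2 ^ g ρ + 1) * 2 ^ g ρ := by
            rw [mul_assoc, mul_comm (2 ^ (g ρ - g 0)), ← hpow]
  have hL := LG (τ := τ) hfac hb hm hblk
    (fun c => if c = 0 then x / 2 ^ g ρ * 2 ^ g ρ else (x / 2 ^ g 0 + 1) * 2 ^ g 0)
    (fun c => if c = 0 then x / 2 ^ g 0 * 2 ^ g 0 else (x / 2 ^ g ρ + 1) * 2 ^ g ρ)
    {0, 2} (fun _ => ∅) (fun c _ => by simp) (by rw [FS_self]; simp)
    (by
      intro c hc
      by_cases h : c = 0
      · simp only [h, if_true]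
        exact h3
      · simp only [h, if_false]
        exact h5)
    (by
      intro c hc v
      have hv1 := (blk_iff (g 0) (v / 2 ^ g 0) v).2 rfl
      rw [Finset.mem_insert, Finset.mem_singleton] at hc
      rcases hc with rfl | rfl
      · simp only [if_true]
        unfold FS
        constructor
        · rintro ⟨k1, k2⟩
          have k3 : v / 2 ^ g 0 < x / 2 ^ g 0 := by
            rw [Nat.div_lt_iff_lt_mul h0]
            exact k2
          exact ⟨k1, by omega, by rw [if_pos k3]⟩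
        · rintro ⟨k1, k2, k3⟩
          refine ⟨k1, ?_⟩
          by_contra k4
          push Not at k4
          have k5 : x / 2 ^ g 0 ≤ v / 2 ^ g 0 := by
            rw [Nat.le_div_iff_mul_le h0]
            exact k4
          rw [if_neg (by omega)] at k3
          split_ifs at k3 <;> omega
      · simp only [show (2 : ℕ) ≠ 0 by norm_num, if_false]
        unfold FS
        constructor
        · rintro ⟨k1, k2⟩
          have k3 : x / 2 ^ g 0 + 1 ≤ v / 2 ^ g 0 := by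
            rw [Nat.le_div_iff_mul_le h0]
            exact k1
          refine ⟨by omega, k2, ?_⟩
          rw [if_neg (by omega), if_neg (by omega)]
        · rintro ⟨k1, k2, k3⟩
          refine ⟨?_, k2⟩
          by_contra k4
          push Not at k4
          have k5 : v / 2 ^ g 0 < x / 2 ^ g 0 + 1 := by
            rw [Nat.div_lt_iff_lt_mul h0]
            exact k4
          by_cases k6 : v / 2 ^ g 0 < x / 2 ^ g 0
          · rw [if_pos k6] at k3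
            omega
          · rw [if_neg k6, if_pos (by omega)] at k3
            omega)
    (by
      intro v hv
      rw [tcS_eq] at hv
      have k1 := (mem_an.1 hv).2.2
      rw [Finset.mem_insert, Finset.mem_singleton]
      rcases Nat.lt_or_gt_of_ne k1 with k2 | k2
      · left
        unfold FS
        rw [if_pos k2]
      · right
        unfold FS
        rw [if_neg (by omega), if_neg (by omega)])
  rw [Finset.sum_pair (by norm_num), Finset.sum_pair (by norm_num)] at hL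
  simp only [if_true, show (2 : ℕ) ≠ 0 by norm_num, if_false] at hL
  have hq := sumNn_le (ρ := ρ) (x := x) hg (t := t)
  have hl := lgn_le (τ := τ) (x := x) hρ hg (t := t)
  have hF := qnF_le (ρ := ρ) (x := x) (g := g) (t := t)
  have hi := ite_le (lo := x / 2 ^ g ρ * 2 ^ g ρ) (hi := (x / 2 ^ g ρ + 1) * 2 ^ g ρ) (x := x)
    (n := Nn (g 0) (g ρ) x t) (f := fS ρ g x) (t := t) (by
      intro v hv h
      unfold tc at hv
      rw [Finset.mem_filter, List.mem_toFinset, blk_iff] at hv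
      refine Nn_pos hv.1 hv.2 (fun h1 => h ?_)
      rw [fS_eq hg h1, fS_eq hg rfl])
  unfold psi
  omega

theorem sum_cmp {S : Finset ℕ} {i0 : ℕ} (hi : i0 ∈ S) {F G : ℕ → ℕ}
    (h : ∀ i ∈ S, i ≠ i0 → F i ≤ G i) : ∑ i ∈ S, F i + G i0 ≤ ∑ i ∈ S, G i + F i0 := by
  rw [← Finset.add_sum_erase S F hi, ← Finset.add_sum_erase S G hi]
  have h1 : ∑ i ∈ S.erase i0, F i ≤ ∑ i ∈ S.erase i0, G i :=
    Finset.sum_le_sum fun i hi => h i (Finset.mem_of_mem_erase hi) (Finset.ne_of_mem_erase hi)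
  omega

/-- The potential of the block `i`. -/
def pm (τ ρ : ℕ) (g : ℕ → ℕ) (X : ℕ → ℕ) (s : ℕ) (t : BinaryTree ℕ) (i : ℕ) : ℕ :=
  (lastIn (2 ^ g ρ) i X s).elim 0 (fun u => psi τ ρ g i u t)

theorem PsiN_eq {τ ρ M : ℕ} {g : ℕ → ℕ} {X : ℕ → ℕ} {s : ℕ} {t : BinaryTree ℕ} :
    PsiN τ ρ g M X s t = ∑ i ∈ Finset.range M, pm τ ρ g X s t i := by
  unfold PsiN pm
  refine Finset.sum_congr rfl fun i _ => ?_
  rcases lastIn (2 ^ g ρ) i X s with _ | u <;> rfl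

theorem STEPN {τ ρ M : ℕ} {g : ℕ → ℕ} (hρ : 0 < ρ) (hg : ∀ j, g j ≤ g (j + 1)) {X : ℕ → ℕ}
    {s : ℕ} {t : BinaryTree ℕ} (hb : IsBST t) (hm : X s ∈ inorder t)
    (hM : ∀ v ∈ inorder t, v < M) :
    ∑ j ∈ Finset.range ρ, Nn (g j) (g (j + 1)) (X s) t +
        PsiN τ ρ g M X (s + 1) (splay (X s) t) ≤
      PsiN τ ρ g M X s t + 158 * Nn (g 0) (g ρ) (X s) t +
        2 * ∑ j ∈ Finset.range ρ, LN τ (g j) (g (j + 1)) (X s) t +
        RN τ ρ * (sw (2 ^ g 0) (2 ^ g ρ) X s + fa (g ρ) X s) := by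
  have hi0 : X s / 2 ^ g ρ ∈ Finset.range M :=
    Finset.mem_range.2 (lt_of_le_of_lt (Nat.div_le_self _ _) (hM _ hm))
  rw [PsiN_eq, PsiN_eq]
  have hrest := sum_cmp hi0 (F := pm τ ρ g X (s + 1) (splay (X s) t)) (G := pm τ ρ g X s t) (by
      intro i _ hi
      unfold pm
      rw [lastIn_succ_ne (fun h => hi h.symm)]
      rcases h : lastIn (2 ^ g ρ) i X s with _ | u
      · exact le_rfl
      · obtain ⟨r, _, h2, h3, _⟩ := lastIn_iff.1 h
        rw [h2] at h3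
        exact psi_out hρ hg hb hm h3 (fun h => hi h.symm))
  have hnew : pm τ ρ g X (s + 1) (splay (X s) t) (X s / 2 ^ g ρ) =
      psi τ ρ g (X s / 2 ^ g ρ) (X s) (splay (X s) t) := by
    unfold pm
    rw [lastIn_succ_eq]
    rfl
  rw [hnew] at hrest
  have h2ρ := sumNn_two (ρ := ρ) (x := X s) (g := g) (t := t)
  have hres := psi_le (τ := τ) (ρ := ρ) (i := X s / 2 ^ g ρ) (u := X s) (g := g) (splay (X s) t)
  rcases h : lastIn (2 ^ g ρ) (X s / 2 ^ g ρ) X s with _ | y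
  · have h1 : fa (g ρ) X s = 1 := by
      unfold fa
      rw [h]
    rw [h1]
    have h3 : RN τ ρ ≤ RN τ ρ * (sw (2 ^ g 0) (2 ^ g ρ) X s + 1) :=
      Nat.le_mul_of_pos_right _ (Nat.succ_pos _)
    omega
  · have hold : pm τ ρ g X s t (X s / 2 ^ g ρ) = psi τ ρ g (X s / 2 ^ g ρ) y t := by
      unfold pm
      rw [h]
      rfl
    rw [hold] at hrest
    by_cases h1 : y / 2 ^ g 0 = X s / 2 ^ g 0
    · have h3 := psi_in (τ := τ) hρ hg hb hm
      have h4 := psi_congr (τ := τ) (ρ := ρ) (i := X s / 2 ^ g ρ) hg h1 t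
      omega
    · have h3 : sw (2 ^ g 0) (2 ^ g ρ) X s = 1 := by
        unfold sw
        rw [h]
        simp only
        rw [if_neg h1]
      rw [h3]
      have h4 : RN τ ρ ≤ RN τ ρ * (1 + fa (g ρ) X s) :=
        Nat.le_mul_of_pos_right _ (by omega)
      omega

end Pool.Agent.SplNest
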