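import Pool.Agent.SplNest.SumN
import Pool.Agent.SplNest.StepD
import Pool.Agent.SplNest.InitD

set_option autoImplicit false

/-!
SUMD.  Fix `j < P`, `i < ρ`, `α := j (ρ L)`, `γ := α + i L`, `γ' := α + (i+1) L`.  `STEPD` summed over `s < m` (`PhiD` telescopes, `PhiD .. 0 (T 0)` by `INITD`):
`Σ_s Qn α γ γ' ≤ (21 + 2τ)(M / 2^α + 1) + 131 Σ_s Qn γ γ γ' + 2 Σ_s LQ τ α γ γ' + 31 Σ_s Nn α γ' + 2 τ Σ_s sw (2^α) (2^γ) X s`.
Sum over `i < ρ` and `j < P`: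
* left: `≥ Σ_s Σ_j Qn α α (α + ρ L) = SD T X m (ρ L) P` (`Qn_split`; `α + ρ L = (j+1) (ρ L)`);
* `γ = (j ρ + i) L`: `Σ_j Σ_i Qn γ γ γ' = Σ_{l<ρ P} Qn (l L) (l L) ((l+1) L)` (`sum_mul_range`): `SD T X m L (ρ P)`;
* `(τ+1) LQ τ α γ γ' ≤ (an γ γ').card`, and `Σ_l (an (l L) ((l+1) L)).card ≤ depth` (`LQ_le`, `an_sum`);
* `Nn α γ' ≤ Nn α (α + ρ L)` (`Nn_mono`): `Σ_i .. ≤ ρ Nn (j (ρ L)) ((j+1) (ρ L))`;
* `sw (2^α) (2^γ) X s ≤ Σ_{i' ∈ Ico α γ} sw (2^i') (2^(i'+1)) X s ≤ Σ_{i' ∈ Ico α (α + ρ L)}` (`sw_le_sum`), sum over `j`: `≤ Σ_{i' < P (ρ L)}`;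
  so `Σ_j Σ_i Σ_s .. ≤ ρ SWT X m (P (ρ L))`;
* `Σ_j (M / 2^(j (ρ L)) + 1) ≤ 2 M + P` (`div_sum0`).
-/

namespace Pool.Agent.SplNest

open BinaryTree Pool.Agent.MP_c42954_lc.Scan Pool.Agent.SplPat Pool.Agent.SplAll

theorem SUMD_one {T : ℕ → BinaryTree ℕ} {X : ℕ → ℕ} {m M τ α γ γ' : ℕ} (hR : Run T X m)
    (hM : ∀ v ∈ inorder (T 0), v < M) (h1 : α ≤ γ) (h2 : γ ≤ γ') :
    ∑ s ∈ Finset.range m, Qn α γ γ' (X s) (T s) ≤ (21 + 2 * τ) * (M / 2 ^ α + 1) +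
      131 * ∑ s ∈ Finset.range m, Qn γ γ γ' (X s) (T s) +
      2 * ∑ s ∈ Finset.range m, LQ τ α γ γ' (X s) (T s) +
      31 * ∑ s ∈ Finset.range m, Nn α γ' (X s) (T s) +
      2 * τ * ∑ s ∈ Finset.range m, sw (2 ^ α) (2 ^ γ) X s := by
  have h3 : ∀ s < m, Qn α γ γ' (X s) (T s) + PhiD τ α γ γ' M X (s + 1) (T (s + 1)) ≤
      PhiD τ α γ γ' M X s (T s) + (131 * Qn γ γ γ' (X s) (T s) + 2 * LQ τ α γ γ' (X s) (T s) +
        31 * Nn α γ' (X s) (T s) + 2 * τ * sw (2 ^ α) (2 ^ γ) X s) := by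
    intro s hs
    rw [hR.next s hs]
    have := STEPD (τ := τ) (M := M) h1 h2 (X := X) (s := s) (hR.bst s hs.le) (hR.mem s hs)
      (SUMN_keys hR hM hs.le)
    omega
  have h4 := SUMN_tele (A := fun s => Qn α γ γ' (X s) (T s))
    (P := fun s => PhiD τ α γ γ' M X s (T s))
    (B := fun s => 131 * Qn γ γ γ' (X s) (T s) + 2 * LQ τ α γ γ' (X s) (T s) +
        31 * Nn α γ' (X s) (T s) + 2 * τ * sw (2 ^ α) (2 ^ γ) X s) h3
  have h5 := INITD (τ := τ) (M := M) (X := X) h1 h2 (hR.bst 0 (Nat.zero_le m)) hM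
  rw [Finset.sum_add_distrib, Finset.sum_add_distrib, Finset.sum_add_distrib, ← Finset.mul_sum,
    ← Finset.mul_sum, ← Finset.mul_sum, ← Finset.mul_sum] at h4
  omega

theorem SUMD {T : ℕ → BinaryTree ℕ} {X : ℕ → ℕ} {m M τ ρ L P : ℕ} (hR : Run T X m)
    (hM : ∀ v ∈ inorder (T 0), v < M) (hL : 1 ≤ L) (hρ : 1 ≤ ρ) :
    (τ + 1) * SD T X m (ρ * L) P ≤ 131 * ((τ + 1) * SD T X m L (ρ * P)) +
      31 * ρ * ((τ + 1) * SN T X m (ρ * L) P) + 2 * DS T X m +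
      (τ + 1) * (2 * τ * ρ * SWT X m (P * (ρ * L)) + ρ * (21 + 2 * τ) * (2 * M + P)) := by
  -- one value of `j`
  have h1 : ∀ j, ∑ s ∈ Finset.range m, Qn (j * (ρ * L)) (j * (ρ * L)) ((j + 1) * (ρ * L)) (X s) (T s) ≤
      ρ * ((21 + 2 * τ) * (M / 2 ^ (j * (ρ * L)) + 1)) +
      131 * ∑ s ∈ Finset.range m, ∑ i ∈ Finset.range ρ,
        Qn ((j * ρ + i) * L) ((j * ρ + i) * L) ((j * ρ + i + 1) * L) (X s) (T s) +
      2 * ∑ s ∈ Finset.range m, ∑ i ∈ Finset.range ρ,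
        LQ τ (j * (ρ * L)) ((j * ρ + i) * L) ((j * ρ + i + 1) * L) (X s) (T s) +
      31 * (ρ * ∑ s ∈ Finset.range m, Nn (j * (ρ * L)) ((j + 1) * (ρ * L)) (X s) (T s)) +
      2 * τ * (ρ * ∑ s ∈ Finset.range m, ∑ i ∈ Finset.Ico (j * (ρ * L)) ((j + 1) * (ρ * L)),
        sw (2 ^ i) (2 ^ (i + 1)) X s) := by
    intro j
    have e0 : ∀ i, j * (ρ * L) + i * L = (j * ρ + i) * L := fun i => by ring
    have e1 : ∀ i, j * (ρ * L) + (i + 1) * L = (j * ρ + i + 1) * L := fun i => by ring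
    have e2 : j * (ρ * L) + ρ * L = (j + 1) * (ρ * L) := by ring
    have h2 : ∑ s ∈ Finset.range m, Qn (j * (ρ * L)) (j * (ρ * L)) ((j + 1) * (ρ * L)) (X s) (T s) ≤
        ∑ i ∈ Finset.range ρ, ∑ s ∈ Finset.range m,
          Qn (j * (ρ * L)) ((j * ρ + i) * L) ((j * ρ + i + 1) * L) (X s) (T s) := by
      rw [Finset.sum_comm]
      refine Finset.sum_le_sum fun s _ => ?_
      have := Qn_split (α := j * (ρ * L)) (L := L) (x := X s) (t := T s) ρ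
      rw [e2] at this
      simp only [e0] at this
      exact this
    refine h2.trans ?_
    have h3 : ∀ i ∈ Finset.range ρ, ∑ s ∈ Finset.range m,
        Qn (j * (ρ * L)) ((j * ρ + i) * L) ((j * ρ + i + 1) * L) (X s) (T s) ≤
        (21 + 2 * τ) * (M / 2 ^ (j * (ρ * L)) + 1) +
        131 * ∑ s ∈ Finset.range m,
          Qn ((j * ρ + i) * L) ((j * ρ + i) * L) ((j * ρ + i + 1) * L) (X s) (T s) +
        2 * ∑ s ∈ Finset.range m,
          LQ τ (j * (ρ * L)) ((j * ρ + i) * L) ((j * ρ + i + 1) * L) (X s) (T s) +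
        31 * ∑ s ∈ Finset.range m, Nn (j * (ρ * L)) ((j + 1) * (ρ * L)) (X s) (T s) +
        2 * τ * ∑ s ∈ Finset.range m, ∑ i ∈ Finset.Ico (j * (ρ * L)) ((j + 1) * (ρ * L)),
          sw (2 ^ i) (2 ^ (i + 1)) X s := by
      intro i hi
      rw [Finset.mem_range] at hi
      have g1 : j * (ρ * L) ≤ (j * ρ + i) * L := by rw [← e0]; omega
      have g2 : (j * ρ + i) * L ≤ (j * ρ + i + 1) * L := Nat.mul_le_mul_right L (by omega)
      have g3 : (j * ρ + i + 1) * L ≤ (j + 1) * (ρ * L) := by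
        rw [← e1, ← e2]
        exact Nat.add_le_add_left (Nat.mul_le_mul_right L hi) _
      have h4 := SUMD_one (τ := τ) hR hM g1 g2
      have h5 : ∑ s ∈ Finset.range m, Nn (j * (ρ * L)) ((j * ρ + i + 1) * L) (X s) (T s) ≤
          ∑ s ∈ Finset.range m, Nn (j * (ρ * L)) ((j + 1) * (ρ * L)) (X s) (T s) :=
        Finset.sum_le_sum fun s _ => Nn_mono g3
      have h6 : ∑ s ∈ Finset.range m, sw (2 ^ (j * (ρ * L))) (2 ^ ((j * ρ + i) * L)) X s ≤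
          ∑ s ∈ Finset.range m, ∑ i ∈ Finset.Ico (j * (ρ * L)) ((j + 1) * (ρ * L)),
            sw (2 ^ i) (2 ^ (i + 1)) X s := by
        refine Finset.sum_le_sum fun s _ => ?_
        exact (sw_le_sum g1 X s).trans (Finset.sum_le_sum_of_subset
          (Finset.Ico_subset_Ico le_rfl (g2.trans g3)))
      have h7 := Nat.mul_le_mul_left 31 h5
      have h8 := Nat.mul_le_mul_left (2 * τ) h6
      omega
    refine (Finset.sum_le_sum h3).trans (le_of_eq ?_)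
    rw [Finset.sum_add_distrib, Finset.sum_add_distrib, Finset.sum_add_distrib,
      Finset.sum_add_distrib, Finset.sum_const, Finset.sum_const, Finset.sum_const,
      Finset.card_range, ← Finset.mul_sum, ← Finset.mul_sum, Finset.sum_comm (s := Finset.range ρ),
      Finset.sum_comm (s := Finset.range ρ)]
    simp only [smul_eq_mul]
    ring
  have h2 : ∑ j ∈ Finset.range P, ∑ s ∈ Finset.range m,
      Qn (j * (ρ * L)) (j * (ρ * L)) ((j + 1) * (ρ * L)) (X s) (T s) = SD T X m (ρ * L) P := by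
    rw [Finset.sum_comm]
    rfl
  have h3 : ∑ j ∈ Finset.range P, ∑ s ∈ Finset.range m, ∑ i ∈ Finset.range ρ,
      Qn ((j * ρ + i) * L) ((j * ρ + i) * L) ((j * ρ + i + 1) * L) (X s) (T s) =
      SD T X m L (ρ * P) := by
    rw [Finset.sum_comm]
    unfold SD
    refine Finset.sum_congr rfl fun s _ => ?_
    exact sum_mul_range (fun l => Qn (l * L) (l * L) ((l + 1) * L) (X s) (T s)) ρ P
  have h4 : (τ + 1) * ∑ j ∈ Finset.range P, ∑ s ∈ Finset.range m, ∑ i ∈ Finset.range ρ,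
      LQ τ (j * (ρ * L)) ((j * ρ + i) * L) ((j * ρ + i + 1) * L) (X s) (T s) ≤ DS T X m := by
    rw [Finset.sum_comm, Finset.mul_sum]
    unfold DS
    refine Finset.sum_le_sum fun s _ => ?_
    rw [Finset.mul_sum]
    have h5 : ∀ j ∈ Finset.range P, (τ + 1) * ∑ i ∈ Finset.range ρ,
        LQ τ (j * (ρ * L)) ((j * ρ + i) * L) ((j * ρ + i + 1) * L) (X s) (T s) ≤
        ∑ i ∈ Finset.range ρ, (an ((j * ρ + i) * L) ((j * ρ + i + 1) * L) (X s) (T s)).card := by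
      intro j _
      rw [Finset.mul_sum]
      exact Finset.sum_le_sum fun i _ => LQ_le
    refine (Finset.sum_le_sum h5).trans ?_
    rw [sum_mul_range (fun l => (an (l * L) ((l + 1) * L) (X s) (T s)).card) ρ P]
    exact an_sum
  have h5 : ∑ j ∈ Finset.range P, ∑ s ∈ Finset.range m,
      Nn (j * (ρ * L)) ((j + 1) * (ρ * L)) (X s) (T s) = SN T X m (ρ * L) P := by
    rw [Finset.sum_comm]
    rfl
  have h6 : ∑ j ∈ Finset.range P, ∑ s ∈ Finset.range m,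
      ∑ i ∈ Finset.Ico (j * (ρ * L)) ((j + 1) * (ρ * L)), sw (2 ^ i) (2 ^ (i + 1)) X s =
      SWT X m (P * (ρ * L)) := by
    rw [Finset.sum_comm]
    unfold SWT
    refine Finset.sum_congr rfl fun s _ => ?_
    have : ∀ P, ∑ j ∈ Finset.range P, ∑ i ∈ Finset.Ico (j * (ρ * L)) ((j + 1) * (ρ * L)),
        sw (2 ^ i) (2 ^ (i + 1)) X s =
        ∑ i ∈ Finset.range (P * (ρ * L)), sw (2 ^ i) (2 ^ (i + 1)) X s := by
      intro P
      induction P with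
      | zero => simp
      | succ P ih =>
        rw [Finset.sum_range_succ, ih, Finset.sum_range_add_sum_Ico _
          (Nat.mul_le_mul_right (ρ * L) (Nat.le_succ P))]
    exact this P
  have h7 : ∑ j ∈ Finset.range P, ρ * ((21 + 2 * τ) * (M / 2 ^ (j * (ρ * L)) + 1)) ≤
      ρ * (21 + 2 * τ) * (2 * M + P) := by
    have h8 := div_sum0 (M := M) (L := ρ * L) (Nat.mul_pos (by omega) (by omega)) P
    have h9 : ∑ _j ∈ Finset.range P, 1 = P := by simp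
    rw [← Finset.mul_sum, ← Finset.mul_sum, Finset.sum_add_distrib, h9, ← mul_assoc]
    exact Nat.mul_le_mul_left _ (by omega)
  have h8 : SD T X m (ρ * L) P ≤
      ∑ j ∈ Finset.range P, ρ * ((21 + 2 * τ) * (M / 2 ^ (j * (ρ * L)) + 1)) +
      131 * SD T X m L (ρ * P) + 2 * (∑ j ∈ Finset.range P,
            ∑ s ∈ Finset.range m, ∑ i ∈ Finset.range ρ,
              LQ τ (j * (ρ * L)) ((j * ρ + i) * L) ((j * ρ + i + 1) * L) (X s) (T s)) +
      31 * (ρ * SN T X m (ρ * L) P) + 2 * τ * (ρ * SWT X m (P * (ρ * L))) := by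
    rw [← h2, ← h3, ← h5, ← h6]
    refine (Finset.sum_le_sum (s := Finset.range P) (fun j _ => h1 j)).trans (le_of_eq ?_)
    simp only [Finset.sum_add_distrib, ← Finset.mul_sum]
  have h9 := Nat.mul_le_mul_left (τ + 1) h8
  have h10 := Nat.mul_le_mul_left (τ + 1) h7
  calc (τ + 1) * SD T X m (ρ * L) P ≤ _ := h9
    _ = (τ + 1) * ∑ j ∈ Finset.range P, ρ * ((21 + 2 * τ) * (M / 2 ^ (j * (ρ * L)) + 1)) +
          131 * ((τ + 1) * SD T X m L (ρ * P)) + 2 * ((τ + 1) * ∑ j ∈ Finset.range P,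
            ∑ s ∈ Finset.range m, ∑ i ∈ Finset.range ρ,
              LQ τ (j * (ρ * L)) ((j * ρ + i) * L) ((j * ρ + i + 1) * L) (X s) (T s)) +
          31 * ρ * ((τ + 1) * SN T X m (ρ * L) P) +
          (τ + 1) * (2 * τ * ρ * SWT X m (P * (ρ * L))) := by ring
    _ ≤ _ := by
      rw [Nat.mul_add (τ + 1)]
      omega

end Pool.Agent.SplNest
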