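import Pool.Agent.SplNest.AnL
import Pool.Agent.SplNest.FaL
import Pool.Agent.SplNest.StepN
import Pool.Agent.SplPat.Mir

set_option autoImplicit false

/-!
SUMN.  Fix `j < P`, `g i := (j ρ + i) L`, `g 0 = j ρ L`, `g ρ = (j+1) ρ L`.  `STEPN` summed over `s < m` (`hR.next`; `PsiN` telescopes, `PsiN τ ρ g M X 0 (T 0) = 0`
because `lastIn _ _ _ 0 = none`; keys of all `T s` are those of `T 0`: `run_inorder` in `SplPat.Mir`):
`Σ_s Σ_{i<ρ} Nn (g i) (g (i+1)) ≤ 158 Σ_s Nn (g 0) (g ρ) + 2 Σ_s Σ_{i<ρ} LN τ (g i) (g (i+1)) + RN Σ_s (sw (2^(g 0)) (2^(g ρ)) X s + fa (g ρ) X s)`.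
Sum over `j < P` (`sum_mul_range`: `Σ_{j<P} Σ_{i<ρ} f (j ρ + i) = Σ_{l<ρ P} f l`):
* left: `SN T X m L (ρ P)`;  * `Σ_j Σ_s Nn (j (ρ L)) ((j+1) (ρ L)) = SN T X m (ρ L) P`;
* `(τ+1) Σ_l LN τ (l L) ((l+1) L) x t ≤ Σ_l (an (l L) ((l+1) L) x t).card ≤ depth x t` (`LN_le`, `an_sum`);
* `Σ_j sw (2^(j (ρ L))) (2^((j+1) (ρ L))) X s ≤ Σ_{i < P (ρ L)} sw (2^i) (2^(i+1)) X s` (`sw_levels` with `k j = j (ρ L)`);
* `Σ_j Σ_s fa ((j+1) (ρ L)) X s ≤ Σ_j (M / 2^((j+1) (ρ L)) + 1) ≤ M + P` (`fa_sum`, `div_sum`; `X s < M` by `hR.mem`).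
-/

namespace Pool.Agent.SplNest

open BinaryTree Pool.Agent.MP_c42954_lc.Scan Pool.Agent.SplPat Pool.Agent.SplAll

/-- The sum over all requests of the N-counts of the heights `0, L, 2 L, ..., P L`. -/
def SN (T : ℕ → BinaryTree ℕ) (X : ℕ → ℕ) (m L P : ℕ) : ℕ :=
  ∑ s ∈ Finset.range m, ∑ j ∈ Finset.range P, Nn (j * L) ((j + 1) * L) (X s) (T s)

/-- The sum over all requests of the Q-counts of the heights `0, L, 2 L, ..., P L`. -/
def SD (T : ℕ → BinaryTree ℕ) (X : ℕ → ℕ) (m L P : ℕ) : ℕ :=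
  ∑ s ∈ Finset.range m, ∑ j ∈ Finset.range P, Qn (j * L) (j * L) ((j + 1) * L) (X s) (T s)

/-- The sum of the depths. -/
def DS (T : ℕ → BinaryTree ℕ) (X : ℕ → ℕ) (m : ℕ) : ℕ := ∑ s ∈ Finset.range m, depth (X s) (T s)

/-- The number of alternations of the heights `< H`. -/
def SWT (X : ℕ → ℕ) (m H : ℕ) : ℕ :=
  ∑ s ∈ Finset.range m, ∑ i ∈ Finset.range H, sw (2 ^ i) (2 ^ (i + 1)) X s

theorem sum_mul_range (f : ℕ → ℕ) (ρ P : ℕ) :
    ∑ j ∈ Finset.range P, ∑ i ∈ Finset.range ρ, f (j * ρ + i) = ∑ l ∈ Finset.range (ρ * P), f l := by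
  induction P with
  | zero => simp
  | succ P ih =>
    rw [Finset.sum_range_succ, ih, Nat.mul_succ, Finset.sum_range_add]
    simp [mul_comm]

/-- Telescoping. -/
theorem SUMN_tele {A B P : ℕ → ℕ} {m : ℕ} (h : ∀ s < m, A s + P (s + 1) ≤ P s + B s) :
    ∑ s ∈ Finset.range m, A s + P m ≤ P 0 + ∑ s ∈ Finset.range m, B s := by
  induction m with
  | zero => simp
  | succ m ih =>
    have h1 := ih (fun s hs => h s (by omega))
    have h2 := h m (by omega)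
    rw [Finset.sum_range_succ, Finset.sum_range_succ]
    omega

theorem SUMN_keys {T : ℕ → BinaryTree ℕ} {X : ℕ → ℕ} {m M : ℕ} (hR : Run T X m)
    (hM : ∀ v ∈ inorder (T 0), v < M) {s : ℕ} (hs : s ≤ m) : ∀ v ∈ inorder (T s), v < M := by
  intro v hv
  rw [run_inorder hR hs] at hv
  exact hM v hv

theorem SUMN_psi0 {τ ρ M : ℕ} {g : ℕ → ℕ} {X : ℕ → ℕ} {t : BinaryTree ℕ} :
    PsiN τ ρ g M X 0 t = 0 := by
  unfold PsiN
  apply Finset.sum_eq_zero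
  intro i _
  rfl

theorem SUMN_one {T : ℕ → BinaryTree ℕ} {X : ℕ → ℕ} {m M τ ρ : ℕ} {g : ℕ → ℕ} (hR : Run T X m)
    (hM : ∀ v ∈ inorder (T 0), v < M) (hρ : 0 < ρ) (hg : ∀ j, g j ≤ g (j + 1)) :
    ∑ s ∈ Finset.range m, ∑ i ∈ Finset.range ρ, Nn (g i) (g (i + 1)) (X s) (T s) ≤
      158 * ∑ s ∈ Finset.range m, Nn (g 0) (g ρ) (X s) (T s) +
      2 * ∑ s ∈ Finset.range m, ∑ i ∈ Finset.range ρ, LN τ (g i) (g (i + 1)) (X s) (T s) +
      RN τ ρ * (∑ s ∈ Finset.range m, sw (2 ^ g 0) (2 ^ g ρ) X s +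
        ∑ s ∈ Finset.range m, fa (g ρ) X s) := by
  have h1 : ∀ s < m, ∑ j ∈ Finset.range ρ, Nn (g j) (g (j + 1)) (X s) (T s) +
      PsiN τ ρ g M X (s + 1) (T (s + 1)) ≤ PsiN τ ρ g M X s (T s) +
      (158 * Nn (g 0) (g ρ) (X s) (T s) +
        2 * ∑ j ∈ Finset.range ρ, LN τ (g j) (g (j + 1)) (X s) (T s) +
        RN τ ρ * (sw (2 ^ g 0) (2 ^ g ρ) X s + fa (g ρ) X s)) := by
    intro s hs
    rw [hR.next s hs]
    have := STEPN (τ := τ) (ρ := ρ) (M := M) hρ hg (X := X) (s := s) (hR.bst s hs.le) (hR.mem s hs)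
      (SUMN_keys hR hM hs.le)
    omega
  have h2 := SUMN_tele (A := fun s => ∑ j ∈ Finset.range ρ, Nn (g j) (g (j + 1)) (X s) (T s))
    (P := fun s => PsiN τ ρ g M X s (T s))
    (B := fun s => 158 * Nn (g 0) (g ρ) (X s) (T s) +
        2 * ∑ j ∈ Finset.range ρ, LN τ (g j) (g (j + 1)) (X s) (T s) +
        RN τ ρ * (sw (2 ^ g 0) (2 ^ g ρ) X s + fa (g ρ) X s)) h1
  simp only [SUMN_psi0] at h2
  rw [Finset.sum_add_distrib, Finset.sum_add_distrib, ← Finset.mul_sum, ← Finset.mul_sum,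
    ← Finset.mul_sum, Finset.sum_add_distrib] at h2
  omega

theorem SUMN {T : ℕ → BinaryTree ℕ} {X : ℕ → ℕ} {m M τ ρ L P : ℕ} (hR : Run T X m)
    (hM : ∀ v ∈ inorder (T 0), v < M) (hL : 1 ≤ L) (hρ : 1 ≤ ρ) :
    (τ + 1) * SN T X m L (ρ * P) ≤ 158 * ((τ + 1) * SN T X m (ρ * L) P) + 2 * DS T X m +
      (τ + 1) * (RN τ ρ * (SWT X m (P * (ρ * L)) + M + P)) := by
  have h1 : ∀ j, ∑ s ∈ Finset.range m, ∑ i ∈ Finset.range ρ,
      Nn ((j * ρ + i) * L) ((j * ρ + i + 1) * L) (X s) (T s) ≤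
      158 * ∑ s ∈ Finset.range m, Nn (j * (ρ * L)) ((j + 1) * (ρ * L)) (X s) (T s) +
      2 * ∑ s ∈ Finset.range m, ∑ i ∈ Finset.range ρ,
        LN τ ((j * ρ + i) * L) ((j * ρ + i + 1) * L) (X s) (T s) +
      RN τ ρ * (∑ s ∈ Finset.range m, sw (2 ^ (j * (ρ * L))) (2 ^ ((j + 1) * (ρ * L))) X s +
        ∑ s ∈ Finset.range m, fa ((j + 1) * (ρ * L)) X s) := by
    intro j
    have e1 : (j * ρ + 0) * L = j * (ρ * L) := by ring
    have e2 : (j * ρ + ρ) * L = (j + 1) * (ρ * L) := by ring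
    have h := SUMN_one (τ := τ) (ρ := ρ) (M := M) (g := fun i => (j * ρ + i) * L) hR hM hρ
      (fun i => Nat.mul_le_mul_right L (by omega))
    rw [e1, e2] at h
    exact h
  have h2 : ∑ j ∈ Finset.range P, ∑ s ∈ Finset.range m, ∑ i ∈ Finset.range ρ,
      Nn ((j * ρ + i) * L) ((j * ρ + i + 1) * L) (X s) (T s) = SN T X m L (ρ * P) := by
    rw [Finset.sum_comm]
    unfold SN
    refine Finset.sum_congr rfl fun s _ => ?_
    exact sum_mul_range (fun l => Nn (l * L) ((l + 1) * L) (X s) (T s)) ρ P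
  have h3 : ∑ j ∈ Finset.range P, ∑ s ∈ Finset.range m, ∑ i ∈ Finset.range ρ,
      LN τ ((j * ρ + i) * L) ((j * ρ + i + 1) * L) (X s) (T s) =
      ∑ s ∈ Finset.range m, ∑ l ∈ Finset.range (ρ * P), LN τ (l * L) ((l + 1) * L) (X s) (T s) := by
    rw [Finset.sum_comm]
    refine Finset.sum_congr rfl fun s _ => ?_
    exact sum_mul_range (fun l => LN τ (l * L) ((l + 1) * L) (X s) (T s)) ρ P
  have h4 : (τ + 1) * ∑ s ∈ Finset.range m, ∑ l ∈ Finset.range (ρ * P),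
      LN τ (l * L) ((l + 1) * L) (X s) (T s) ≤ DS T X m := by
    rw [Finset.mul_sum]
    unfold DS
    refine Finset.sum_le_sum fun s _ => ?_
    rw [Finset.mul_sum]
    exact (Finset.sum_le_sum fun l _ => LN_le).trans an_sum
  have h5 : ∑ j ∈ Finset.range P, ∑ s ∈ Finset.range m,
      sw (2 ^ (j * (ρ * L))) (2 ^ ((j + 1) * (ρ * L))) X s ≤ SWT X m (P * (ρ * L)) := by
    rw [Finset.sum_comm]
    unfold SWT
    refine Finset.sum_le_sum fun s _ => ?_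
    exact sw_levels (k := fun j => j * (ρ * L))
      (fun j => Nat.mul_le_mul_right (ρ * L) (Nat.le_succ j)) X s P
  have hX : ∀ s < m, X s < M := fun s hs => SUMN_keys hR hM hs.le _ (hR.mem s hs)
  have h6 : ∑ j ∈ Finset.range P, ∑ s ∈ Finset.range m, fa ((j + 1) * (ρ * L)) X s ≤ M + P := by
    have h7 : ∑ j ∈ Finset.range P, ∑ s ∈ Finset.range m, fa ((j + 1) * (ρ * L)) X s ≤
        ∑ j ∈ Finset.range P, (M / 2 ^ ((j + 1) * (ρ * L)) + 1) :=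
      Finset.sum_le_sum fun j _ => fa_sum hX
    rw [Finset.sum_add_distrib] at h7
    have h8 := div_sum (M := M) (L := ρ * L) (Nat.mul_pos (by omega) (by omega)) P
    have h9 : ∑ _j ∈ Finset.range P, 1 = P := by simp
    omega
  have h7 := Finset.sum_le_sum (s := Finset.range P) (fun j _ => h1 j)
  rw [h2, Finset.sum_add_distrib, Finset.sum_add_distrib, ← Finset.mul_sum, ← Finset.mul_sum,
    ← Finset.mul_sum, h3, Finset.sum_add_distrib] at h7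
  have h8 : ∑ j ∈ Finset.range P, ∑ s ∈ Finset.range m,
      Nn (j * (ρ * L)) ((j + 1) * (ρ * L)) (X s) (T s) = SN T X m (ρ * L) P := by
    rw [Finset.sum_comm]
    rfl
  rw [h8] at h7
  have h9 := Nat.mul_le_mul_left (τ + 1) h7
  have h10 : (τ + 1) * (RN τ ρ * (∑ j ∈ Finset.range P, ∑ s ∈ Finset.range m,
      sw (2 ^ (j * (ρ * L))) (2 ^ ((j + 1) * (ρ * L))) X s +
      ∑ j ∈ Finset.range P, ∑ s ∈ Finset.range m, fa ((j + 1) * (ρ * L)) X s)) ≤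
      (τ + 1) * (RN τ ρ * (SWT X m (P * (ρ * L)) + M + P)) :=
    Nat.mul_le_mul_left _ (Nat.mul_le_mul_left _ (by omega))
  calc (τ + 1) * SN T X m L (ρ * P) ≤ _ := h9
    _ = 158 * ((τ + 1) * SN T X m (ρ * L) P) + 2 * ((τ + 1) * ∑ s ∈ Finset.range m,
          ∑ l ∈ Finset.range (ρ * P), LN τ (l * L) ((l + 1) * L) (X s) (T s)) +
          (τ + 1) * (RN τ ρ * (∑ j ∈ Finset.range P, ∑ s ∈ Finset.range m,
            sw (2 ^ (j * (ρ * L))) (2 ^ ((j + 1) * (ρ * L))) X s +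
            ∑ j ∈ Finset.range P, ∑ s ∈ Finset.range m, fa ((j + 1) * (ρ * L)) X s)) := by ring
    _ ≤ _ := by omega

end Pool.Agent.SplNest
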